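import Pool.Agent.AEB.PELem

/-!
# Theorem B, module B3: transitive lists, in-closures and whole in-trees on transitive lists
-/

namespace AEB

open Finset AE15 AED
open scoped Classical

variable {V : Type*} {R : V → V → Prop}

theorem exists_tl (hT : AE32.Tour R) (m : ℕ) (S : Finset V) (h : 2 ^ m ≤ S.card) :
    ∃ w : List V, w.length = m ∧ (∀ x ∈ w, x ∈ S) ∧ w.Pairwise R := by
  induction m generalizing S with
  | zero => exact ⟨[], rfl, by simp, List.Pairwise.nil⟩
  | succ m ih =>
    have hpos : 0 < S.card := lt_of_lt_of_le (by positivity) h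
    obtain ⟨v, hv⟩ := card_pos.1 hpos
    have h1 : S ⊆ insert v (nO R S v ∪ nI R S v) := by
      intro u hu
      by_cases huv : u = v
      · rw [huv]
        exact mem_insert_self _ _
      · apply mem_insert_of_mem
        rcases hT.tot u v huv with h2 | h2
        · exact mem_union_right _ (mem_nI.2 ⟨hu, h2⟩)
        · exact mem_union_left _ (mem_nO.2 ⟨hu, h2⟩)
    have h2 : S.card ≤ (nO R S v).card + (nI R S v).card + 1 := by
      refine (card_le_card h1).trans ((card_insert_le _ _).trans ?_)
      have := card_union_le (nO R S v) (nI R S v)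
      omega
    have h3 : 2 ^ m ≤ (nO R S v).card ∨ 2 ^ m ≤ (nI R S v).card := by
      rw [pow_succ] at h
      omega
    rcases h3 with h3 | h3
    · obtain ⟨w, hw1, hw2, hw3⟩ := ih _ h3
      refine ⟨v :: w, by simp [hw1], ?_, List.pairwise_cons.2 ⟨fun x hx => (mem_nO.1 (hw2 x hx)).2, hw3⟩⟩
      intro x hx
      rcases List.mem_cons.1 hx with rfl | hx
      · exact hv
      · exact (mem_nO.1 (hw2 x hx)).1
    · obtain ⟨w, hw1, hw2, hw3⟩ := ih _ h3
      refine ⟨w ++ [v], by simp [hw1], ?_, ?_⟩
      · intro x hx
        rcases List.mem_append.1 hx with hx | hx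
        · exact (mem_nI.1 (hw2 x hx)).1
        · rw [List.mem_singleton.1 hx]
          exact hv
      · rw [List.pairwise_append]
        refine ⟨hw3, List.pairwise_singleton _ _, ?_⟩
        intro x hx y hy
        rw [List.mem_singleton.1 hy]
        exact (mem_nI.1 (hw2 x hx)).2

theorem tl_nodup (hT : AE32.Tour R) {w : List V} (h : w.Pairwise R) : w.Nodup := by
  refine h.imp ?_
  intro a b hab e
  subst e
  exact hT.irr a hab

theorem blk_eq (F : Fd) : blk F = (F.trees.map (fun p => if p.1 then 0 else blk p.2 + 1)).sum := by
  induction F with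
  | nil => rfl
  | node d c s _ ihs =>
    simp only [blk, Fd.trees, List.map_cons, List.sum_cons]
    rw [ihs]

theorem inw_eq (F : Fd) : inw F = (F.trees.map (fun p => if p.1 then 0 else p.2.size + 1)).sum := by
  induction F with
  | nil => rfl
  | node d c s _ ihs =>
    simp only [inw, Fd.trees, List.map_cons, List.sum_cons]
    rw [ihs]

theorem inw_le_size (F : Fd) : inw F ≤ F.size := by
  induction F with
  | nil => exact le_rfl
  | node d c s _ ihs =>
    simp only [inw, Fd.size]
    split_ifs <;> omega

/-- the forest with a given list of trees -/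
def ofT : List (Bool × Fd) → Fd
  | [] => .nil
  | p :: ts => .node p.1 p.2 (ofT ts)

theorem trees_ofT (ts : List (Bool × Fd)) : (ofT ts).trees = ts := by
  induction ts with
  | nil => rfl
  | cons p ts ih => simp only [ofT, Fd.trees, ih]

/-- splitting a list at a position -/
private theorem split_at (w : List V) (n : ℕ) (h : n < w.length) :
    ∃ w₁ x w₂, w = w₁ ++ x :: w₂ ∧ w₁.length = n := by
  refine ⟨w.take n, w[n], w.drop (n + 1), ?_, ?_⟩
  · rw [← List.drop_eq_getElem_cons h, List.take_append_drop]
  · rw [List.length_take]
    omega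

private theorem split_app (w : List V) (n : ℕ) (h : n ≤ w.length) :
    ∃ w₁ w₂, w = w₁ ++ w₂ ∧ w₁.length = n := by
  refine ⟨w.take n, w.drop n, (List.take_append_drop n w).symm, ?_⟩
  rw [List.length_take]
  omega

private theorem forest_trans (hT : AE32.Tour R) (F : Fd) (v : V) (w₁ w₂ : List V)
    (h : (w₁ ++ v :: w₂).Pairwise R) (h1 : w₁.length = inw F) (h2 : w₁.length + w₂.length = F.size) :
    Emb R F v (w₁ ++ w₂).toFinset := by
  induction F generalizing v w₁ w₂ with
  | nil =>
    simp only [inw, List.length_eq_zero_iff] at h1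
    simp only [h1, Fd.size, List.length_nil, Nat.zero_add, List.length_eq_zero_iff] at h2
    subst h1 h2
    show (([] : List V) ++ []).toFinset = ∅
    simp
  | node d c s ihc ihs =>
    have hcs := inw_le_size c
    have hss := inw_le_size s
    have hnd := tl_nodup hT h
    cases d with
    | true =>
      simp only [inw, if_true, Nat.zero_add] at h1
      simp only [Fd.size] at h2
      obtain ⟨u, w', rfl, hu⟩ := split_app w₂ (c.size + 1) (by omega)
      obtain ⟨u₁, x, u₂, rfl, hu1⟩ := split_at u (inw c) (by omega)
      simp only [List.length_append, List.length_cons] at h2 hu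
      have hpc : (u₁ ++ x :: u₂).Pairwise R :=
        h.sublist (((List.sublist_append_left _ w').cons v).trans (List.sublist_append_right w₁ _))
      have hps : (w₁ ++ v :: w').Pairwise R :=
        h.sublist (List.Sublist.append_left ((List.sublist_append_right (u₁ ++ x :: u₂) w').cons_cons v) w₁)
      have e1 := ihc x u₁ u₂ hpc hu1 (by omega)
      have e2 := ihs v w₁ w' hps h1 (by omega)
      have hvx : R v x := by
        have h3 := (List.pairwise_append.1 h).2.1
        refine (List.pairwise_cons.1 h3).1 x ?_
        simp
      have hnd' : (w₁ ++ v :: ((u₁ ++ x :: u₂) ++ w')).Nodup := hnd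
      simp only [List.nodup_append, List.nodup_cons, List.mem_append, List.mem_cons] at hnd'
      refine ⟨x, (u₁ ++ u₂).toFinset, (w₁ ++ w').toFinset, hvx, ?_, ?_, ?_, ?_, e1, e2⟩
      · simp only [List.mem_toFinset, List.mem_append]
        grind
      · simp only [List.mem_toFinset, List.mem_append]
        grind
      · rw [disjoint_left]
        intro a ha hb
        simp only [List.mem_toFinset, List.mem_append] at ha hb
        grind
      · ext a
        simp only [List.mem_toFinset, List.mem_append, List.mem_cons, mem_insert, mem_union]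
        tauto
    | false =>
      simp only [inw, Bool.false_eq_true, if_false] at h1
      simp only [Fd.size] at h2
      obtain ⟨u, w', rfl, hu⟩ := split_app w₁ (c.size + 1) (by omega)
      obtain ⟨u₁, x, u₂, rfl, hu1⟩ := split_at u (inw c) (by omega)
      simp only [List.length_append, List.length_cons] at h1 h2 hu
      have hpc : (u₁ ++ x :: u₂).Pairwise R :=
        h.sublist ((List.sublist_append_left _ w').trans (List.sublist_append_left _ _))
      have hps : (w' ++ v :: w₂).Pairwise R :=
        h.sublist (List.Sublist.append_right (List.sublist_append_right (u₁ ++ x :: u₂) w') (v :: w₂))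
      have e1 := ihc x u₁ u₂ hpc hu1 (by omega)
      have e2 := ihs v w' w₂ hps (by omega) (by omega)
      have hvx : R x v := by
        refine (List.pairwise_append.1 h).2.2 x ?_ v ?_
        · simp
        · simp
      have hnd' : (((u₁ ++ x :: u₂) ++ w') ++ v :: w₂).Nodup := hnd
      simp only [List.nodup_append, List.nodup_cons, List.mem_append, List.mem_cons] at hnd'
      refine ⟨x, (u₁ ++ u₂).toFinset, (w' ++ w₂).toFinset, hvx, ?_, ?_, ?_, ?_, e1, e2⟩
      · simp only [List.mem_toFinset, List.mem_append]
        grind
      · simp only [List.mem_toFinset, List.mem_append]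
        grind
      · rw [disjoint_left]
        intro a ha hb
        simp only [List.mem_toFinset, List.mem_append] at ha hb
        grind
      · ext a
        simp only [List.mem_toFinset, List.mem_append, List.mem_cons, mem_insert, mem_union]
        tauto

/-- any tree embeds in a transitive list of the right length -/
theorem trans_emb (hT : AE32.Tour R) (c : Fd) (w : List V) (h : w.Pairwise R) (hl : w.length = c.size + 1) :
    ∃ x A, x ∉ A ∧ insert x A = w.toFinset ∧ Emb R c x A := by
  have hc := inw_le_size c
  obtain ⟨w₁, x, w₂, rfl, h1⟩ := split_at w (inw c) (by omega)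
  simp only [List.length_append, List.length_cons] at hl
  refine ⟨x, (w₁ ++ w₂).toFinset, ?_, ?_, forest_trans hT c x w₁ w₂ h h1 (by omega)⟩
  · have hnd := tl_nodup hT h
    simp only [List.nodup_append, List.nodup_cons, List.mem_cons] at hnd
    simp only [List.mem_toFinset, List.mem_append]
    grind
  · ext a
    simp only [List.mem_toFinset, List.mem_append, List.mem_cons, mem_insert]
    tauto

/-- a complete embedding is a partial embedding without pending items -/
theorem emb_pe {F : Fd} {v : V} {S : Finset V} (h : Emb R F v S) : PE R F v S [] := by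
  induction F generalizing v S with
  | nil =>
    have hS : S = ∅ := h
    subst hS
    exact PE.nil v
  | node d c s ihc ihs =>
    obtain ⟨x, A, B, h1, h2, h3, h4, rfl, h5, h6⟩ := h
    exact PE.place d c s v x A B [] [] h1 h2 h3 h4 (ihc h5) (ihs h6)

private theorem pe_blk (hT : AE32.Tour R) (F : Fd) (v : V) (w : List V) (hw : w.Pairwise R) (hv : ∀ x ∈ w, R x v)
    (hl : blk F ≤ w.length) :
    ∃ Z L, PE R F v Z L ∧ Z ⊆ w.toFinset ∧ ∀ c, (true, c) ∈ F.trees → (v, c) ∈ L := by
  induction F generalizing v w with
  | nil => exact ⟨∅, [], PE.nil v, empty_subset _, by simp [Fd.trees]⟩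
  | node d c s ihc ihs =>
    cases d with
    | true =>
      simp only [blk, if_true, Nat.zero_add] at hl
      obtain ⟨Z, L, h1, h2, h3⟩ := ihs v w hw hv hl
      refine ⟨Z, (v, c) :: L, PE.pend c s v Z L h1, h2, ?_⟩
      intro c' hc'
      simp only [Fd.trees, List.mem_cons, Prod.mk.injEq, true_and] at hc'
      rcases hc' with rfl | hc'
      · exact List.mem_cons_self
      · exact List.mem_cons_of_mem _ (h3 c' hc')
    | false =>
      simp only [blk, Bool.false_eq_true, if_false] at hl
      obtain ⟨u, w', rfl, hu⟩ := split_app w (blk c + 1) (by omega)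
      obtain ⟨u₁, x, u₂, rfl, hu1⟩ := split_at u (blk c) (by omega)
      simp only [List.length_append, List.length_cons] at hu hl
      have hu2 : u₂ = [] := by
        rw [← List.length_eq_zero_iff]
        omega
      subst hu2
      have hnd := tl_nodup hT hw
      simp only [List.nodup_append, List.nodup_cons, List.mem_append, List.mem_cons] at hnd
      have h0 := (List.pairwise_append.1 hw).1
      have h0' := (List.pairwise_append.1 h0)
      obtain ⟨A, L₁, h1, h2, -⟩ := ihc x u₁ h0'.1 (fun y hy => h0'.2.2 y hy x (by simp)) (by omega)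
      obtain ⟨B, L₂, h3, h4, h5⟩ := ihs v w' (List.pairwise_append.1 hw).2.1
        (fun y hy => hv y (List.mem_append_right _ hy)) (by omega)
      refine ⟨insert x (A ∪ B), L₁ ++ L₂, PE.place false c s v x A B L₁ L₂ (hv x (by simp)) ?_ ?_ ?_ h1 h3, ?_, ?_⟩
      · intro hx
        have := h2 hx
        rw [List.mem_toFinset] at this
        grind
      · intro hx
        have := h4 hx
        rw [List.mem_toFinset] at this
        grind
      · rw [disjoint_left]
        intro a ha hb
        have ha' := h2 ha
        have hb' := h4 hb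
        rw [List.mem_toFinset] at ha' hb'
        grind
      · intro a ha
        rw [mem_insert, mem_union] at ha
        simp only [List.mem_toFinset, List.mem_append, List.mem_cons]
        rcases ha with ha | ha | ha
        · tauto
        · have := h2 ha
          rw [List.mem_toFinset] at this
          tauto
        · have := h4 ha
          rw [List.mem_toFinset] at this
          tauto
      · intro c' hc'
        simp only [Fd.trees, List.mem_cons, Prod.mk.injEq, Bool.true_eq_false, false_and, false_or] at hc'
        exact List.mem_append_right _ (h5 c' hc')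

/-- the trees of a list `ts` hanging on `v`: in-closures on the list `w` (which dominates `v`), all out-trees pending -/
theorem pel_block (hT : AE32.Tour R) (v : V) (ts : List (Bool × Fd)) (w : List V) (hw : w.Pairwise R)
    (hv : ∀ x ∈ w, R x v) (hl : (ts.map (fun p => if p.1 then 0 else blk p.2 + 1)).sum ≤ w.length) :
    ∃ Z L, PEL R v ts Z L ∧ Z ⊆ w.toFinset ∧ ∀ c, (true, c) ∈ ts → (v, c) ∈ L := by
  have h1 : blk (ofT ts) ≤ w.length := by
    rw [blk_eq, trees_ofT]
    exact hl
  obtain ⟨Z, L, h2, h3, h4⟩ := pe_blk hT (ofT ts) v w hw hv h1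
  rw [pe_iff] at h2
  rw [trees_ofT] at h2 h4
  exact ⟨Z, L, h2, h3, h4⟩

private theorem pe_whl (hT : AE32.Tour R) (F : Fd) (v : V) (w : List V) (hw : w.Pairwise R) (hv : ∀ x ∈ w, R x v)
    (hl : inw F ≤ w.length) :
    ∃ Z L, PE R F v Z L ∧ Z ⊆ w.toFinset ∧ (∀ p ∈ L, p.1 = v) ∧ ∀ c, (true, c) ∈ F.trees → (v, c) ∈ L := by
  induction F generalizing w with
  | nil => exact ⟨∅, [], PE.nil v, empty_subset _, by simp, by simp [Fd.trees]⟩
  | node d c s _ ihs =>
    cases d with
    | true =>
      simp only [inw, if_true, Nat.zero_add] at hl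
      obtain ⟨Z, L, h1, h2, h2', h3⟩ := ihs w hw hv hl
      refine ⟨Z, (v, c) :: L, PE.pend c s v Z L h1, h2, ?_, ?_⟩
      · intro p hp
        rcases List.mem_cons.1 hp with rfl | hp
        · rfl
        · exact h2' p hp
      intro c' hc'
      simp only [Fd.trees, List.mem_cons, Prod.mk.injEq, true_and] at hc'
      rcases hc' with rfl | hc'
      · exact List.mem_cons_self
      · exact List.mem_cons_of_mem _ (h3 c' hc')
    | false =>
      simp only [inw, Bool.false_eq_true, if_false] at hl
      obtain ⟨u, w', rfl, hu⟩ := split_app w (c.size + 1) (by omega)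
      simp only [List.length_append] at hl
      have hnd := tl_nodup hT hw
      rw [List.nodup_append] at hnd
      have h0 := List.pairwise_append.1 hw
      obtain ⟨x, A, h1, h2, h3⟩ := trans_emb hT c u h0.1 hu
      obtain ⟨B, L₂, h4, h5, h5', h6⟩ := ihs w' h0.2.1 (fun y hy => hv y (List.mem_append_right _ hy)) (by omega)
      have hxu : x ∈ u := by
        rw [← List.mem_toFinset, ← h2]
        exact mem_insert_self _ _
      have hAu : ∀ a ∈ A, a ∈ u := by
        intro a ha
        rw [← List.mem_toFinset, ← h2]
        exact mem_insert_of_mem ha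
      have hBw : ∀ a ∈ B, a ∈ w' := by
        intro a ha
        rw [← List.mem_toFinset]
        exact h5 ha
      refine ⟨insert x (A ∪ B), [] ++ L₂,
        PE.place false c s v x A B [] L₂ (hv x (List.mem_append_left _ hxu)) h1 ?_ ?_ (emb_pe h3) h4, ?_, ?_, ?_⟩
      · intro hx
        exact hnd.2.2 x hxu x (hBw x hx) rfl
      · rw [disjoint_left]
        intro a ha hb
        exact hnd.2.2 a (hAu a ha) a (hBw a hb) rfl
      · intro a ha
        rw [mem_insert, mem_union] at ha
        simp only [List.mem_toFinset, List.mem_append]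
        rcases ha with rfl | ha | ha
        · exact Or.inl hxu
        · exact Or.inl (hAu a ha)
        · exact Or.inr (hBw a ha)
      · intro p hp
        exact h5' p (by simpa using hp)
      · intro c' hc'
        simp only [Fd.trees, List.mem_cons, Prod.mk.injEq, Bool.true_eq_false, false_and, false_or] at hc'
        exact List.mem_append_right _ (h6 c' hc')

/-- the in-trees completely on the list, the out-trees pending (so that all items hang on `v`) -/
theorem pel_whole (hT : AE32.Tour R) (v : V) (ts : List (Bool × Fd)) (w : List V) (hw : w.Pairwise R)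
    (hv : ∀ x ∈ w, R x v) (hl : (ts.map (fun p => if p.1 then 0 else p.2.size + 1)).sum ≤ w.length) :
    ∃ Z L, PEL R v ts Z L ∧ Z ⊆ w.toFinset ∧ (∀ p ∈ L, p.1 = v) ∧ ∀ c, (true, c) ∈ ts → (v, c) ∈ L := by
  have h1 : inw (ofT ts) ≤ w.length := by
    rw [inw_eq, trees_ofT]
    exact hl
  obtain ⟨Z, L, h2, h3, h3', h4⟩ := pe_whl hT (ofT ts) v w hw hv h1
  rw [pe_iff] at h2
  rw [trees_ofT] at h2 h4
  exact ⟨Z, L, h2, h3, h3', h4⟩

end AEB
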