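import Pool.Agent.AEB.Heavy

/-!
# Theorem B, module B2: partial embeddings and lists of trees
-/

namespace AEB

open Finset AE15 AED
open scoped Classical

variable {V : Type*} {R : V → V → Prop}

theorem isz_nil : isz ([] : List (V × Fd)) = 0 := rfl

theorem isz_cons (p : V × Fd) (L : List (V × Fd)) : isz (p :: L) = p.2.size + 1 + isz L := by
  simp [isz]

theorem isz_append (L₁ L₂ : List (V × Fd)) : isz (L₁ ++ L₂) = isz L₁ + isz L₂ := by
  simp [isz]

theorem pe_iff (F : Fd) (v : V) (Z : Finset V) (L : List (V × Fd)) : PE R F v Z L ↔ PEL R v F.trees Z L := by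
  induction F generalizing Z L with
  | nil =>
    constructor
    · intro h
      cases h
      exact ⟨rfl, rfl⟩
    · rintro ⟨rfl, rfl⟩
      exact PE.nil v
  | node d c s _ ihs =>
    constructor
    · intro h
      cases h with
      | pend _ _ _ _ L' hs =>
        exact ⟨∅, Z, [(v, c)], L', disjoint_empty_left _, (empty_union _).symm, rfl, Or.inl ⟨rfl, rfl, rfl⟩,
          (ihs _ _).1 hs⟩
      | place _ _ _ _ x A B L₁ L₂ h1 h2 h3 h4 h5 h6 =>
        exact ⟨insert x A, B, L₁, L₂, disjoint_insert_left.2 ⟨h3, h4⟩, (insert_union _ _ _).symm, rfl,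
          Or.inr ⟨x, A, h1, h2, rfl, h5⟩, (ihs _ _).1 h6⟩
    · rintro ⟨Z₁, Z₂, L₁, L₂, h1, rfl, rfl, h | ⟨x, A, h4, h5, rfl, h6⟩, h3⟩
      · obtain ⟨hd, rfl, rfl⟩ := h
        have hd' : d = true := hd
        subst hd'
        rw [empty_union]
        exact PE.pend c s v Z₂ L₂ ((ihs _ _).2 h3)
      · rw [disjoint_insert_left] at h1
        rw [insert_union]
        exact PE.place d c s v x A Z₂ L₁ L₂ h4 h5 h1.1 h1.2 h6 ((ihs _ _).2 h3)

theorem PEL.perm {v : V} {ts ts' : List (Bool × Fd)} (h : ts.Perm ts') {Z : Finset V} {L : List (V × Fd)}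
    (hP : PEL R v ts Z L) : ∃ L', L'.Perm L ∧ PEL R v ts' Z L' := by
  induction h generalizing Z L with
  | nil => exact ⟨L, List.Perm.refl _, hP⟩
  | cons p _ ih =>
    obtain ⟨Z₁, Z₂, L₁, L₂, h1, rfl, rfl, h2, h3⟩ := hP
    obtain ⟨L', hL', h4⟩ := ih h3
    exact ⟨L₁ ++ L', hL'.append_left L₁, Z₁, Z₂, L₁, L', h1, rfl, rfl, h2, h4⟩
  | swap p q l =>
    obtain ⟨Z₁, Z₂, L₁, L₂, h1, rfl, rfl, h2, Z₃, Z₄, L₃, L₄, h3, rfl, rfl, h4, h5⟩ := hP
    rw [disjoint_union_right] at h1
    refine ⟨L₃ ++ (L₁ ++ L₄), ?_, Z₃, Z₁ ∪ Z₄, L₃, L₁ ++ L₄, disjoint_union_right.2 ⟨h1.1.symm, h3⟩, ?_, rfl, h4,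
      Z₁, Z₄, L₁, L₄, h1.2, rfl, rfl, h2, h5⟩
    · rw [← List.append_assoc, ← List.append_assoc]
      exact List.perm_append_comm.append_right L₄
    · rw [← union_assoc, ← union_assoc, union_comm Z₁ Z₃]
  | trans _ _ ih1 ih2 =>
    obtain ⟨L', hL', h4⟩ := ih1 hP
    obtain ⟨L'', hL'', h5⟩ := ih2 h4
    exact ⟨L'', hL''.trans hL', h5⟩

theorem PE.size {F : Fd} {v : V} {Z : Finset V} {L : List (V × Fd)} (h : PE R F v Z L) : F.size = Z.card + isz L := by
  induction h with
  | nil v => rfl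
  | pend c s v A L _ ih =>
    rw [isz_cons]
    simp only [Fd.size, ih]
    omega
  | place d c s v x A B L₁ L₂ _ h2 h3 h4 _ _ ih1 ih2 =>
    rw [isz_append, card_insert_of_notMem (by simp [h2, h3]), card_union_of_disjoint h4]
    simp only [Fd.size, ih1, ih2]
    omega

theorem PE.length_le_aux {b : ℕ} {F : Fd} {v : V} {Z : Finset V} {L : List (V × Fd)} (h : PE R F v Z L)
    (hd : F.Deg b) : L.length ≤ F.len + b * Z.card := by
  induction h with
  | nil v => simp
  | pend c s v A L _ ih =>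
    have := ih hd.2.2
    simp only [Fd.len, List.length_cons]
    omega
  | place d c s v x A B L₁ L₂ _ h2 h3 h4 _ _ ih1 ih2 =>
    have h5 := ih1 hd.2.1
    have h6 := ih2 hd.2.2
    have h7 := hd.1
    rw [List.length_append, card_insert_of_notMem (by simp [h2, h3]), card_union_of_disjoint h4]
    simp only [Fd.len]
    rw [show b * (A.card + B.card + 1) = b * A.card + b * B.card + b by ring]
    omega

theorem PE.length_le {b : ℕ} {F : Fd} {v : V} {Z : Finset V} {L : List (V × Fd)} (h : PE R F v Z L) (hb : F.len ≤ b)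
    (hd : F.Deg b) : L.length ≤ b * (Z.card + 1) := by
  have h1 := h.length_le_aux hd
  rw [show b * (Z.card + 1) = b * Z.card + b by ring]
  omega

/-- the pending items hang on used vertices (or on the common vertex) and satisfy the conditions -/
theorem PE.mem {b l j : ℕ} {F : Fd} {v : V} {Z : Finset V} {L : List (V × Fd)} (h : PE R F v Z L) (hF : FOK b l j F) :
    ∀ p ∈ L, (p.1 = v ∨ p.1 ∈ Z) ∧ FOK b l 0 p.2 ∧ p.2.size < F.size := by
  induction h generalizing j with
  | nil v => simp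
  | pend c s v A L _ ih =>
    obtain ⟨h1, ⟨h2, h3, h4⟩, h5, h6⟩ := hF
    simp only [if_true] at h5
    have hs : FOK b l j s := ⟨by simp only [Fd.len] at h1; omega, h4, h6⟩
    intro p hp
    rcases List.mem_cons.1 hp with rfl | hp
    · exact ⟨Or.inl rfl, ⟨h2, h3, h5⟩, by simp only [Fd.size]; omega⟩
    · obtain ⟨h7, h8, h9⟩ := ih hs p hp
      exact ⟨h7, h8, by simp only [Fd.size]; omega⟩
  | place d c s v x A B L₁ L₂ _ _ _ _ _ _ ih1 ih2 =>
    obtain ⟨h1, ⟨h2, h3, h4⟩, h5, h6⟩ := hF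
    have hs : FOK b l j s := ⟨by simp only [Fd.len] at h1; omega, h4, h6⟩
    have hc : ∃ j', FOK b l j' c := by
      cases d with
      | true => exact ⟨0, h2, h3, by simpa using h5⟩
      | false => exact ⟨j + 1, h2, h3, by simpa using (show j + 1 ≤ l ∧ InR l (j + 1) c by simpa using h5).2⟩
    obtain ⟨j', hc⟩ := hc
    intro p hp
    rcases List.mem_append.1 hp with hp | hp
    · obtain ⟨h7, h8, h9⟩ := ih1 hc p hp
      refine ⟨Or.inr ?_, h8, by simp only [Fd.size]; omega⟩
      rcases h7 with h7 | h7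
      · rw [h7]
        exact mem_insert_self _ _
      · exact mem_insert_of_mem (mem_union_left _ h7)
    · obtain ⟨h7, h8, h9⟩ := ih2 hs p hp
      refine ⟨?_, h8, by simp only [Fd.size]; omega⟩
      rcases h7 with h7 | h7
      · exact Or.inl h7
      · exact Or.inr (mem_insert_of_mem (mem_union_right _ h7))

theorem embI_append (L₁ L₂ : List (V × Fd)) (S : Finset V) : EmbI R (L₁ ++ L₂) S ↔
    ∃ S₁ S₂, Disjoint S₁ S₂ ∧ S = S₁ ∪ S₂ ∧ EmbI R L₁ S₁ ∧ EmbI R L₂ S₂ := by
  induction L₁ generalizing S with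
  | nil =>
    constructor
    · intro h
      exact ⟨∅, S, disjoint_empty_left _, (empty_union _).symm, rfl, h⟩
    · rintro ⟨S₁, S₂, _, rfl, h1, h2⟩
      rw [show S₁ = ∅ from h1, empty_union]
      exact h2
  | cons p L ih =>
    constructor
    · rintro ⟨A₁, A₂, h1, rfl, h2, h3⟩
      obtain ⟨S₁, S₂, h4, rfl, h5, h6⟩ := (ih A₂).1 h3
      rw [disjoint_union_right] at h1
      exact ⟨A₁ ∪ S₁, S₂, disjoint_union_left.2 ⟨h1.2, h4⟩, (union_assoc _ _ _).symm, ⟨A₁, S₁, h1.1, rfl, h2, h5⟩, h6⟩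
    · rintro ⟨S₁, S₂, h1, rfl, ⟨A₁, A₂, h2, rfl, h3, h4⟩, h5⟩
      rw [disjoint_union_left] at h1
      exact ⟨A₁, A₂ ∪ S₂, disjoint_union_right.2 ⟨h2, h1.1⟩, union_assoc _ _ _, h3,
        (ih _).2 ⟨A₂, S₂, h1.2, rfl, h4, h5⟩⟩

theorem PE.complete {F : Fd} {v : V} {Z S : Finset V} {L : List (V × Fd)} (h : PE R F v Z L) (hS : EmbI R L S)
    (hd : Disjoint Z S) : Emb R F v (Z ∪ S) := by
  induction h generalizing S with
  | nil v =>
    rw [show S = ∅ from hS]
    rfl
  | pend c s v A L _ ih =>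
    obtain ⟨A₁, A₂, h1, rfl, ⟨x, B, h2, h3, rfl, h4⟩, h5⟩ := hS
    rw [disjoint_insert_left] at h1
    rw [disjoint_union_right, disjoint_insert_right] at hd
    refine ⟨x, B, A ∪ A₂, h2, h3, by simp [h1.1, hd.1.1], disjoint_union_right.2 ⟨hd.1.2.symm, h1.2⟩, ?_, h4,
      ih h5 hd.2⟩
    ext t
    simp only [mem_union, mem_insert]
    tauto
  | place d c s v x A B L₁ L₂ h1 h2 h3 h4 _ _ ih1 ih2 =>
    obtain ⟨S₁, S₂, h5, rfl, h6, h7⟩ := (embI_append _ _ _).1 hS
    rw [disjoint_insert_left, disjoint_union_left, disjoint_union_right, disjoint_union_right, mem_union, not_or] at hd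
    obtain ⟨⟨hx1, hx2⟩, ⟨hA1, hA2⟩, hB1, hB2⟩ := hd
    refine ⟨x, A ∪ S₁, B ∪ S₂, h1, by simp [h2, hx1], by simp [h3, hx2], ?_, ?_, ih1 h6 hA1, ih2 h7 hB2⟩
    · rw [disjoint_union_left, disjoint_union_right, disjoint_union_right]
      exact ⟨⟨h4, hA2⟩, hB1.symm, h5⟩
    · ext t
      simp only [mem_union, mem_insert]
      tauto

theorem EmbI.perm {L₁ L₂ : List (V × Fd)} (hL : L₁.Perm L₂) {A : Finset V} (h : EmbI R L₁ A) : EmbI R L₂ A := by
  induction hL generalizing A with
  | nil => exact h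
  | cons p _ ih =>
    obtain ⟨B₁, B₂, h1, rfl, h2, h3⟩ := h
    exact ⟨B₁, B₂, h1, rfl, h2, ih h3⟩
  | swap p q L =>
    obtain ⟨B₁, B₂, h1, rfl, h2, B₃, B₄, h3, rfl, h4, h5⟩ := h
    rw [disjoint_union_right] at h1
    refine ⟨B₃, B₁ ∪ B₄, disjoint_union_right.2 ⟨h1.1.symm, h3⟩, ?_, h4, B₁, B₄, h1.2, rfl, h2, h5⟩
    rw [← union_assoc, ← union_assoc, union_comm B₁ B₃]
  | trans _ _ ih1 ih2 => exact ih2 (ih1 h)

theorem EmbI.card {L : List (V × Fd)} {A : Finset V} (h : EmbI R L A) : A.card = isz L := by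
  induction L generalizing A with
  | nil =>
    rw [show A = ∅ from h]
    rfl
  | cons p L ih =>
    obtain ⟨A₁, A₂, h1, rfl, ⟨x, B, h4, h5, rfl, h6⟩, h3⟩ := h
    rw [card_union_of_disjoint h1, card_insert_of_notMem h5, h6.card, ih h3, isz_cons]

/-- replacing pending items by partial embeddings of their trees (used to go on from a partial embedding) -/
theorem PE.extend {F : Fd} {v : V} {Z : Finset V} {L₁ L₂ : List (V × Fd)} {z x : V} {c : Fd}
    (h : PE R F v Z (L₁ ++ (z, c) :: L₂)) {A : Finset V} {L' : List (V × Fd)} (hx : R z x) (hxA : x ∉ A) (hxZ : x ∉ Z)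
    (hd : Disjoint Z A) (hP : PE R c x A L') : PE R F v (Z ∪ insert x A) (L₁ ++ (L' ++ L₂)) := by
  obtain ⟨M, hM⟩ : ∃ M, M = L₁ ++ (z, c) :: L₂ := ⟨_, rfl⟩
  rw [← hM] at h
  induction h generalizing L₁ L₂ with
  | nil v =>
    cases L₁ <;> simp at hM
  | pend c' s v A₀ L₀ hs ih =>
    cases L₁ with
    | nil =>
      simp only [List.nil_append, List.cons.injEq, Prod.mk.injEq] at hM
      obtain ⟨⟨rfl, rfl⟩, rfl⟩ := hM
      have := PE.place true c' s v x A A₀ L' L₀ hx hxA hxZ hd.symm hP hs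
      rw [List.nil_append]
      convert this using 1
      ext t
      simp only [mem_union, mem_insert]
      tauto
    | cons p L₁ =>
      simp only [List.cons_append, List.cons.injEq] at hM
      obtain ⟨rfl, hM⟩ := hM
      exact PE.pend c' s v _ _ (ih hxZ hd hM)
  | place d c' s v y A₀ B₀ La Lb h1 h2 h3 h4 hc hs ihc ihs =>
    rw [mem_insert, mem_union, not_or, not_or] at hxZ
    rw [disjoint_insert_left, disjoint_union_left] at hd
    rcases List.append_eq_append_iff.1 hM with ⟨a', rfl, hb⟩ | ⟨c₁, ha, hb⟩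
    · have h5 := ihs hxZ.2.2 hd.2.2 hb
      have h6 := PE.place d c' s v y A₀ (B₀ ∪ insert x A) La _ h1 h2
        (by simp only [mem_union, mem_insert, not_or]; exact ⟨h3, fun h => hxZ.1 h.symm, hd.1⟩)
        (by rw [disjoint_union_right, disjoint_insert_right]; exact ⟨h4, hxZ.2.1, hd.2.1⟩) hc h5
      rw [List.append_assoc]
      convert h6 using 1
      ext t
      simp only [mem_union, mem_insert]
      tauto
    · cases c₁ with
      | nil =>
        rw [List.append_nil] at ha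
        rw [List.nil_append] at hb
        subst ha
        have h5 := ihs (L₁ := []) (L₂ := L₂) hxZ.2.2 hd.2.2 hb.symm
        rw [List.nil_append] at h5
        have h6 := PE.place d c' s v y A₀ (B₀ ∪ insert x A) La _ h1 h2
          (by simp only [mem_union, mem_insert, not_or]; exact ⟨h3, fun h => hxZ.1 h.symm, hd.1⟩)
          (by rw [disjoint_union_right, disjoint_insert_right]; exact ⟨h4, hxZ.2.1, hd.2.1⟩) hc h5
        convert h6 using 1
        ext t
        simp only [mem_union, mem_insert]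
        tauto
      | cons p c₁ =>
        simp only [List.cons_append, List.cons.injEq] at hb
        obtain ⟨rfl, rfl⟩ := hb
        have h5 := ihc hxZ.2.1 hd.2.1 ha
        have h6 := PE.place d c' s v y (A₀ ∪ insert x A) B₀ _ Lb h1
          (by simp only [mem_union, mem_insert, not_or]; exact ⟨h2, fun h => hxZ.1 h.symm, hd.1⟩) h3
          (by rw [disjoint_union_left, disjoint_insert_left]; exact ⟨h4, hxZ.2.2, hd.2.2.symm⟩) h5 hs
        have h7 : L₁ ++ (L' ++ (c₁ ++ Lb)) = (L₁ ++ (L' ++ c₁)) ++ Lb := by simp [List.append_assoc]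
        rw [h7]
        convert h6 using 1
        ext t
        simp only [mem_union, mem_insert]
        tauto

end AEB
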