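import Pool.Agent.AEB.Heavy
import Pool.Agent.AEB.PELem
import Pool.Agent.AEB.Lists

/-!
# Theorem B, module B5: absorption
-/

namespace AEB

open Finset AE15 AED
open scoped Classical

variable {V : Type*} {R : V → V → Prop}

/-- `Trunc F F'`: the forest `F'` arises from `F` by deleting some subtrees hanging by arcs away from the root -/
inductive Trunc : Fd → Fd → Prop
  | nil : Trunc .nil .nil
  | drop (c s s' : Fd) : Trunc s s' → Trunc (.node true c s) s'
  | keep (d : Bool) (c c' s s' : Fd) : Trunc c c' → Trunc s s' → Trunc (.node d c s) (.node d c' s')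

theorem Trunc.refl (F : Fd) : Trunc F F := by
  induction F with
  | nil => exact Trunc.nil
  | node d c s ihc ihs => exact Trunc.keep d c c s s ihc ihs

/-- an embedding of the truncated forest is a partial embedding of the forest -/
theorem Trunc.pe {F F' : Fd} (h : Trunc F F') : ∀ {v : V} {S : Finset V}, Emb R F' v S → ∃ L, PE R F v S L := by
  induction h with
  | nil =>
    intro v S hS
    have hS : S = ∅ := hS
    subst hS
    exact ⟨[], PE.nil v⟩
  | drop c s s' _ ih =>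
    intro v S hS
    obtain ⟨L, hL⟩ := ih hS
    exact ⟨(v, c) :: L, PE.pend c s v S L hL⟩
  | keep d c c' s s' _ _ ihc ihs =>
    intro v S hS
    obtain ⟨x, A, B, h1, h2, h3, h4, h5, h6, h7⟩ := hS
    obtain ⟨L₁, hL₁⟩ := ihc h6
    obtain ⟨L₂, hL₂⟩ := ihs h7
    rw [h5]
    exact ⟨L₁ ++ L₂, PE.place d c s v x A B L₁ L₂ h1 h2 h3 h4 hL₁ hL₂⟩

/-- the smallest truncation -/
theorem exists_trunc_min (F : Fd) : ∃ F', Trunc F F' ∧ F'.size = blk F := by
  induction F with
  | nil => exact ⟨.nil, Trunc.nil, rfl⟩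
  | node d c s ihc ihs =>
    obtain ⟨c', hc, hc'⟩ := ihc
    obtain ⟨s', hs, hs'⟩ := ihs
    cases d with
    | false =>
      refine ⟨.node false c' s', Trunc.keep false c c' s s' hc hs, ?_⟩
      simp only [Fd.size, blk, hc', hs']
      simp
      omega
    | true =>
      refine ⟨s', Trunc.drop c s s' hs, ?_⟩
      simp [blk, hs']

theorem Trunc.size_le {F F' : Fd} (h : Trunc F F') : F'.size ≤ F.size := by
  induction h with
  | nil => exact le_rfl
  | drop c s s' _ ih => simp only [Fd.size]; omega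
  | keep d c c' s s' _ _ ihc ihs => simp only [Fd.size]; omega

theorem blk_le_size (F : Fd) : blk F ≤ F.size := by
  obtain ⟨F', h1, h2⟩ := exists_trunc_min F
  rw [← h2]
  exact h1.size_le

/-- all intermediate sizes up to the size of a block -/
theorem exists_trunc {b l a : ℕ} (ha : ab b l ≤ a) (F : Fd) : ∀ j, j ≤ l → FOK b l j F → ∀ n, blk F ≤ n → n ≤ F.size →
    ∃ F', Trunc F F' ∧ n ≤ F'.size ∧ F'.size ≤ n + a := by
  induction F with
  | nil =>
    intro j _ _ n _ h2
    exact ⟨.nil, Trunc.nil, h2, by simp [Fd.size]⟩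
  | node d c s ihc ihs =>
    intro j hj hF n h1 h2
    have hs : FOK b l j s := by
      obtain ⟨g1, g2, g3⟩ := hF
      refine ⟨?_, g2.2.2, g3.2⟩
      simp only [Fd.len] at g1
      omega
    have hc := hF.child (p := (d, c)) (by simp [Fd.trees])
    simp only [Fd.size] at h2
    cases d with
    | false =>
      simp only [blk, Bool.false_eq_true, ↓reduceIte] at h1 hc
      obtain ⟨hc1, hc2⟩ := hc
      have hc2 := hc2 trivial
      by_cases hn : n ≤ blk c + 1 + s.size
      · obtain ⟨c', hc', hcs⟩ := exists_trunc_min c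
        obtain ⟨s', hs', h3, h4⟩ := ihs j hj hs (n - 1 - blk c) (by omega) (by omega)
        refine ⟨.node false c' s', Trunc.keep false c c' s s' hc' hs', ?_, ?_⟩
        · simp only [Fd.size, hcs]; omega
        · simp only [Fd.size, hcs]; omega
      · obtain ⟨c', hc', h3, h4⟩ := ihc (j + 1) hc2 hc1 (n - 1 - s.size) (by omega) (by omega)
        refine ⟨.node false c' s, Trunc.keep false c c' s s hc' (Trunc.refl s), ?_, ?_⟩
        · simp only [Fd.size]; omega
        · simp only [Fd.size]; omega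
    | true =>
      simp only [blk, ↓reduceIte, zero_add] at h1 hc
      obtain ⟨hc1, -⟩ := hc
      by_cases hn : n ≤ s.size
      · obtain ⟨s', hs', h3, h4⟩ := ihs j hj hs n h1 hn
        exact ⟨s', Trunc.drop c s s' hs', h3, h4⟩
      · by_cases hn' : blk c ≤ n - 1 - s.size
        · obtain ⟨c', hc', h3, h4⟩ := ihc 0 (Nat.zero_le l) hc1 (n - 1 - s.size) hn' (by omega)
          refine ⟨.node true c' s, Trunc.keep true c c' s s hc' (Trunc.refl s), ?_, ?_⟩
          · simp only [Fd.size]; omega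
          · simp only [Fd.size]; omega
        · obtain ⟨c', hc', hcs⟩ := exists_trunc_min c
          have h5 := hc1.blk_le (Nat.zero_le l)
          have h6 : blk c + 1 ≤ a := h5.trans ha
          refine ⟨.node true c' s, Trunc.keep true c c' s s hc' (Trunc.refl s), ?_, ?_⟩
          · simp only [Fd.size, hcs]; omega
          · simp only [Fd.size, hcs]; omega

theorem FOK.blk_lt_a {b l j a : ℕ} {F : Fd} (h : FOK b l j F) (hj : j ≤ l) (ha : ab b l ≤ a) : blk F + 1 ≤ a := by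
  refine (h.blk_le hj).trans (le_trans ?_ ha)
  unfold ab
  apply sum_le_sum_of_subset
  intro i hi
  rw [Finset.mem_range] at hi ⊢
  omega

/-- a truncated copy of the tree with children forest `c` on a transitive list: closed under in-children -/
theorem pe_trunc (hT : AE32.Tour R) {b l j a A0 : ℕ} {c : Fd} (hc : FOK b l j c) (hj : j ≤ l) (ha : ab b l ≤ a)
    (hA : A0 ≤ c.size + 1) (w : List V) (hw : w.Pairwise R) (hl : A0 + a ≤ w.length) :
    ∃ x Z L, x ∈ w ∧ x ∉ Z ∧ Z ⊆ w.toFinset ∧ PE R c x Z L ∧ A0 ≤ Z.card + 1 := by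
  obtain ⟨c', hc', h1, h2⟩ : ∃ c', Trunc c c' ∧ A0 ≤ c'.size + 1 ∧ c'.size + 1 ≤ A0 + a := by
    by_cases h : A0 ≤ blk c + 1
    · obtain ⟨c', hc', hcs⟩ := exists_trunc_min c
      have := hc.blk_lt_a hj ha
      exact ⟨c', hc', by omega, by omega⟩
    · obtain ⟨c', hc', h3, h4⟩ := exists_trunc ha c j hj hc (A0 - 1) (by omega) (by omega)
      exact ⟨c', hc', by omega, by omega⟩
  have hw' : (w.take (c'.size + 1)).Pairwise R := hw.sublist (List.take_sublist _ _)
  obtain ⟨x, A, hxA, hA', hE⟩ := trans_emb hT c' (w.take (c'.size + 1)) hw' (by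
    rw [List.length_take]
    omega)
  obtain ⟨L, hL⟩ := hc'.pe hE
  have hsub : insert x A ⊆ w.toFinset := by
    rw [hA']
    intro y hy
    rw [List.mem_toFinset] at hy ⊢
    exact List.mem_of_mem_take hy
  refine ⟨x, A, L, ?_, hxA, (subset_insert _ _).trans hsub, hL, ?_⟩
  · have := hsub (mem_insert_self x A)
    rwa [List.mem_toFinset] at this
  · have h3 : (insert x A).card = c'.size + 1 := by
      rw [hA', List.toFinset_card_of_nodup (tl_nodup hT hw'), List.length_take]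
      omega
    rw [card_insert_of_notMem hxA] at h3
    omega

/-- absorption at `v`: one big in-tree is truncated on `w₂`, the other in-closures are on `w`; everything else pending -/
theorem pe_absorb (hT : AE32.Tour R) {b l j a A0 : ℕ} {F t : Fd} (hF : FOK b l j F) (_hj : j ≤ l) (ha : ab b l ≤ a)
    (ht : (false, t) ∈ F.trees) (hA : A0 ≤ t.size + 1) (v : V) (w w₂ : List V) (hw : w.Pairwise R)
    (hw₂ : w₂.Pairwise R) (hv : ∀ z ∈ w, R z v) (hv₂ : ∀ z ∈ w₂, R z v) (hd : ∀ z ∈ w, z ∉ w₂)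
    (hl : blk F ≤ w.length) (hl₂ : A0 + a ≤ w₂.length) :
    ∃ Z L, PE R F v Z L ∧ Z ⊆ w.toFinset ∪ w₂.toFinset ∧ A0 ≤ (Z ∩ w₂.toFinset).card ∧
      ∀ c, (true, c) ∈ F.trees → (v, c) ∈ L := by
  obtain ⟨h1, h2⟩ := hF.child ht
  simp only [Bool.false_eq_true, ↓reduceIte] at h1 h2
  obtain ⟨x, A, L₁, hx, hxA, hAw, hP, hAc⟩ := pe_trunc hT h1 (h2 trivial) ha hA w₂ hw₂ hl₂
  have hperm : F.trees.Perm ((false, t) :: F.trees.erase (false, t)) := List.perm_cons_erase ht
  have hsum : ((F.trees.erase (false, t)).map (fun p => if p.1 then 0 else blk p.2 + 1)).sum ≤ w.length := by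
    rw [blk_eq, (hperm.map _).sum_eq] at hl
    simp only [List.map_cons, List.sum_cons] at hl
    omega
  obtain ⟨Z₂, L₂, hP₂, hZ₂, hL₂⟩ := pel_block hT v (F.trees.erase (false, t)) w hw hv hsum
  have hdis : Disjoint (insert x A) Z₂ := by
    rw [disjoint_left]
    intro y hy hy'
    have h3 := hZ₂ hy'
    rw [List.mem_toFinset] at h3
    refine hd y h3 ?_
    rcases mem_insert.1 hy with h | h
    · rw [h]; exact hx
    · have := hAw h
      rwa [List.mem_toFinset] at this
  have hPEL : PEL R v ((false, t) :: F.trees.erase (false, t)) (insert x A ∪ Z₂) (L₁ ++ L₂) :=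
    ⟨insert x A, Z₂, L₁, L₂, hdis, rfl, rfl, Or.inr ⟨x, A, by simpa [Adj] using hv₂ x hx, hxA, rfl, hP⟩, hP₂⟩
  obtain ⟨L, hLp, hPL⟩ := PEL.perm hperm.symm hPEL
  have hxA2 : insert x A ⊆ w₂.toFinset := by
    rw [insert_subset_iff, List.mem_toFinset]
    exact ⟨hx, hAw⟩
  refine ⟨insert x A ∪ Z₂, L, (pe_iff F v _ _).2 hPL, ?_, ?_, ?_⟩
  · intro y hy
    rw [mem_union] at hy ⊢
    rcases hy with h | h
    · exact Or.inr (hxA2 h)
    · exact Or.inl (hZ₂ h)
  · have h3 : insert x A ⊆ (insert x A ∪ Z₂) ∩ w₂.toFinset := subset_inter subset_union_left hxA2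
    have h4 := card_le_card h3
    rw [card_insert_of_notMem hxA] at h4
    omega
  · intro c hc
    have h3 : (true, c) ∈ F.trees.erase (false, t) := by
      have := hperm.mem_iff.1 hc
      rcases List.mem_cons.1 this with h | h
      · simp at h
      · exact h
    exact hLp.mem_iff.2 (List.mem_append_right _ (hL₂ c h3))

/-- absorption at `v`, with the heavy out-child placed at `v₁` -/
theorem pe_absorb_heavy (hT : AE32.Tour R) {b l j a A0 : ℕ} {F t c : Fd} (hF : FOK b l j F) (_hj : j ≤ l)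
    (ha : ab b l ≤ a) (ht : (false, t) ∈ F.trees) (hA : A0 ≤ t.size + 1) (hc : F.hv = some (true, c)) (v v₁ : V)
    (w w₂ : List V) (hw : w.Pairwise R) (hw₂ : w₂.Pairwise R) (hv : ∀ z ∈ w, R z v) (hv₂ : ∀ z ∈ w₂, R z v)
    (hd : ∀ z ∈ w, z ∉ w₂) (hl : blk F ≤ w.length) (hl₂ : A0 + a ≤ w₂.length) (hv₁ : R v v₁) {Z₁ : Finset V}
    {L₁ : List (V × Fd)} (hP : PE R c v₁ Z₁ L₁) (h1 : v₁ ∉ Z₁) (h2 : ∀ z ∈ w, z ≠ v₁ ∧ z ∉ Z₁)
    (h3 : ∀ z ∈ w₂, z ≠ v₁ ∧ z ∉ Z₁) :
    ∃ Z L, PE R F v Z L ∧ Z ⊆ w.toFinset ∪ w₂.toFinset ∪ insert v₁ Z₁ ∧ insert v₁ Z₁ ⊆ Z ∧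
      A0 ≤ (Z ∩ w₂.toFinset).card ∧ ∀ p ∈ L₁, p ∈ L := by
  obtain ⟨g1, g2⟩ := hF.child ht
  simp only [Bool.false_eq_true, ↓reduceIte] at g1 g2
  obtain ⟨x, A, L₀, hx, hxA, hAw, hP₀, hAc⟩ := pe_trunc hT g1 (g2 trivial) ha hA w₂ hw₂ hl₂
  obtain ⟨⟨ts, hts⟩, -⟩ := hv_some hc
  have hts' : (false, t) ∈ ts := by
    rcases List.mem_cons.1 (hts.mem_iff.1 ht) with h | h
    · simp at h
    · exact h
  have hperm : F.trees.Perm ((true, c) :: (false, t) :: ts.erase (false, t)) :=
    hts.trans ((List.perm_cons_erase hts').cons _)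
  have hsum : ((ts.erase (false, t)).map (fun p => if p.1 then 0 else blk p.2 + 1)).sum ≤ w.length := by
    rw [blk_eq, (hperm.map _).sum_eq] at hl
    simp only [List.map_cons, List.sum_cons] at hl
    omega
  obtain ⟨Z₂, L₂, hP₂, hZ₂, hL₂⟩ := pel_block hT v (ts.erase (false, t)) w hw hv hsum
  have hxA2 : ∀ y ∈ insert x A, y ∈ w₂ := by
    intro y hy
    rcases mem_insert.1 hy with h | h
    · rw [h]; exact hx
    · have := hAw h
      rwa [List.mem_toFinset] at this
  have hZ₂' : ∀ y ∈ Z₂, y ∈ w := by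
    intro y hy
    have := hZ₂ hy
    rwa [List.mem_toFinset] at this
  have hdis : Disjoint (insert x A) Z₂ := by
    rw [disjoint_left]
    intro y hy hy'
    exact hd y (hZ₂' y hy') (hxA2 y hy)
  have hdis1 : Disjoint (insert v₁ Z₁) (insert x A ∪ Z₂) := by
    rw [disjoint_left]
    intro y hy hy'
    rcases mem_union.1 hy' with h | h
    · obtain ⟨e1, e2⟩ := h3 y (hxA2 y h)
      rcases mem_insert.1 hy with h' | h'
      · exact e1 h'
      · exact e2 h'
    · obtain ⟨e1, e2⟩ := h2 y (hZ₂' y h)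
      rcases mem_insert.1 hy with h' | h'
      · exact e1 h'
      · exact e2 h'
  have hPEL0 : PEL R v ((false, t) :: ts.erase (false, t)) (insert x A ∪ Z₂) (L₀ ++ L₂) :=
    ⟨insert x A, Z₂, L₀, L₂, hdis, rfl, rfl, Or.inr ⟨x, A, by simpa [Adj] using hv₂ x hx, hxA, rfl, hP₀⟩, hP₂⟩
  have hPEL : PEL R v ((true, c) :: (false, t) :: ts.erase (false, t)) (insert v₁ Z₁ ∪ (insert x A ∪ Z₂))
      (L₁ ++ (L₀ ++ L₂)) :=
    ⟨insert v₁ Z₁, insert x A ∪ Z₂, L₁, L₀ ++ L₂, hdis1, rfl, rfl, Or.inr ⟨v₁, Z₁, by simpa [Adj] using hv₁, h1, rfl, hP⟩,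
      hPEL0⟩
  obtain ⟨L, hLp, hPL⟩ := PEL.perm hperm.symm hPEL
  refine ⟨insert v₁ Z₁ ∪ (insert x A ∪ Z₂), L, (pe_iff F v _ _).2 hPL, ?_, subset_union_left, ?_, ?_⟩
  · intro y hy
    simp only [mem_union, List.mem_toFinset]
    rcases mem_union.1 hy with h | h
    · exact Or.inr h
    · rcases mem_union.1 h with h | h
      · exact Or.inl (Or.inr (hxA2 y h))
      · exact Or.inl (Or.inl (hZ₂' y h))
  · have h4 : insert x A ⊆ (insert v₁ Z₁ ∪ (insert x A ∪ Z₂)) ∩ w₂.toFinset := by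
      intro y hy
      rw [mem_inter, mem_union, mem_union, List.mem_toFinset]
      exact ⟨Or.inr (Or.inl hy), hxA2 y hy⟩
    have h5 := card_le_card h4
    rw [card_insert_of_notMem hxA] at h5
    omega
  · intro p hp
    exact hLp.mem_iff.2 (List.mem_append_left _ hp)

end AEB
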