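import Pool.Agent.AEB.PE

/-!
# Theorem B: the choice of the vertex `x`, and its data
-/

namespace AEB

open Finset AE15 AED
open scoped Classical

variable {V : Type*} {R : V → V → Prop}

/-- `x` has maximal out-degree in the set `G \ Z`; `m` bounds the number of out-neighbours in `G` of the vertices
outside `G` -/
structure XD (R : V → V → Prop) (X G Z : Finset V) (m : ℕ) (x : V) : Prop where
  hx : x ∈ G \ Z
  h1 : ∀ u ∈ G, u ∉ Z → R u x → (nI R (nO R (G \ Z) x) u).Nonempty
  h2 : ∀ j : ℕ, ((G \ Z).filter (fun u => R u x ∧ (nI R (nO R (G \ Z) x) u).card ≤ j)).card ≤ 2 * j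
  h3 : ∀ u ∈ X, u ∉ G → (nO R (G \ Z) x).card ≤ (nI R (nO R (G \ Z) x) u).card + m
  h4 : (G \ Z).card ≤ 2 * (nO R (G \ Z) x).card + 1

theorem exists_x (hT : AE32.Tour R) {X G Z : Finset V} {m : ℕ} (hG : G ⊆ X)
    (hm : ∀ u ∈ X, u ∉ G → (nO R G u).card ≤ m) (hne : (G \ Z).Nonempty) : ∃ x, XD R X G Z m x := by
  obtain ⟨x, hx, h1, h2, h3⟩ := super_vertex (R := R) hT (X := X \ G) (G := G \ Z) hne (m := m) (by
    intro u hu _
    rw [mem_sdiff] at hu
    exact (card_le_card (nO_mono sdiff_subset)).trans (hm u hu.1 hu.2))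
  refine ⟨x, hx, ?_, ?_, ?_, h3⟩
  · intro u hu huZ hux
    have := h1 u (mem_sdiff.2 ⟨hu, huZ⟩) hux
    rw [← card_pos]
    omega
  · intro j
    have h4 : (G \ Z).filter (fun u => R u x ∧ (nI R (nO R (G \ Z) x) u).card ≤ j) ⊆
        (nI R (G \ Z) x).filter (fun u => (nO R (nI R (G \ Z) x) u).card + 1 ≤ j) := by
      intro u hu
      rw [mem_filter] at hu
      rw [mem_filter, mem_nI]
      exact ⟨⟨hu.1, hu.2.1⟩, (h1 u hu.1 hu.2.1).trans hu.2.2⟩
    refine (card_le_card h4).trans ?_
    rcases j with _ | j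
    · simp
    · have h5 := card_low hT (nI R (G \ Z) x) j
      simp only [add_le_add_iff_right]
      omega
  · intro u hu huG
    exact h2 u (mem_sdiff.2 ⟨hu, huG⟩) (fun h => huG (mem_sdiff.1 h).1)

/-- the vertices dominating many vertices of `G` -/
noncomputable def G1 (R : V → V → Prop) (G : Finset V) : Finset V := G.filter (fun g => G.card ≤ 8 * (nO R G g).card)

theorem card_G1 (hT : AE32.Tour R) (G : Finset V) : 3 * G.card ≤ 4 * (G1 R G).card + 4 := by
  have h1 := card_filter_add_card_filter_not (s := G) (fun g => G.card ≤ 8 * (nO R G g).card)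
  have h2 : (G.filter (fun g => ¬ G.card ≤ 8 * (nO R G g).card)).card ≤ 2 * ((G.card - 1) / 8) + 1 := by
    refine le_trans (card_le_card ?_) (card_low hT G ((G.card - 1) / 8))
    intro g hg
    rw [mem_filter] at hg ⊢
    refine ⟨hg.1, ?_⟩
    have := hg.2
    omega
  have h3 : (G1 R G).card = (G.filter (fun g => G.card ≤ 8 * (nO R G g).card)).card := rfl
  omega

/-- there are few vertices with few in-neighbours -/
theorem card_lowin (hT : AE32.Tour R) (A : Finset V) (c : ℕ) : (A.filter (fun v => (nI R A v).card < c)).card ≤ 2 * c := by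
  have hT' : AE32.Tour (fun a b => R b a) :=
    ⟨hT.irr, fun a b h => (hT.tot a b h).symm, fun a b h => hT.asym b a h⟩
  rcases c with _ | c
  · simp
  · have h1 := card_low hT' A c
    have h2 : A.filter (fun v => (nI R A v).card < c + 1) =
        A.filter (fun v => (nO (fun a b => R b a) A v).card ≤ c) := by
      apply filter_congr
      intro v _
      rw [Nat.lt_succ_iff]
      rfl
    rw [h2]
    omega

/-- the union of the small sets of dominators of the vertices of `G \ Z` is small -/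
theorem harm (hT : AE32.Tour R) {X G Z : Finset V} {m : ℕ} {x : V} (h : XD R X G Z m x) (d : ℕ) :
    ∃ H : Finset V, H.card ≤ 2 * d * d ∧ H ⊆ nO R (G \ Z) x ∧
      ∀ u ∈ G, u ∉ Z → R u x → (nI R (nO R (G \ Z) x) u).card ≤ d → nI R (nO R (G \ Z) x) u ⊆ H := by
  refine ⟨((G \ Z).filter (fun u => R u x ∧ (nI R (nO R (G \ Z) x) u).card ≤ d)).biUnion
    (fun u => nI R (nO R (G \ Z) x) u), ?_, ?_, ?_⟩
  · refine (card_biUnion_le_card_mul _ _ d ?_).trans (Nat.mul_le_mul_right _ (h.h2 d))
    intro u hu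
    exact (mem_filter.1 hu).2.2
  · intro w hw
    rw [mem_biUnion] at hw
    obtain ⟨u, -, hw⟩ := hw
    exact nI_sub hw
  · intro u hu huZ hux hd w hw
    rw [mem_biUnion]
    exact ⟨u, mem_filter.2 ⟨mem_sdiff.2 ⟨hu, huZ⟩, hux, hd⟩, hw⟩

end AEB
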