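import Pool.Agent.AEB.PE

/-!
# Theorem B: configurations, definitions (`Host`, `St`)
-/

namespace AEB

open Finset AE15 AED
open scoped Classical

variable {V : Type*} {R : V → V → Prop}

/-- the part of a configuration which does not depend on the final item: `y₀` hosts the root, `x` the host of the final
item `D` -/
def Host (R : V → V → Prop) (p : NP) (Gd : V → Prop) (X : Finset V) (N : V → Prop) (F : Fd) (y₀ x : V) (Z : Finset V)
    (L : List (V × Fd)) (D : Fd) : Prop :=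
  y₀ ∈ X ∧ N y₀ ∧ y₀ ∉ Z ∧ Z ⊆ X ∧ PE R F y₀ Z L ∧ Z.card + 1 ≤ p.e ∧ (x = y₀ ∨ x ∈ Z) ∧ (x, D) ∈ L ∧
    (∀ i ∈ L, Gd i.1)

/-- the standing hypotheses on `X`, `G` -/
structure St (R : V → V → Prop) (p : NP) (Gd : V → Prop) (γ₀ s : ℝ) (X G : Finset V) (N : V → Prop) : Prop where
  hT : AE32.Tour R
  hG : G ⊆ X
  hGd : ∀ g ∈ G, Gd g
  hGc : γ₀ * X.card ≤ G.card
  hGo : ∀ u ∈ X, u ∉ G → ((nO R G u).card : ℝ) ≤ γ₀ / 16 * X.card
  hD : ClD Gd s X N

end AEB
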