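import Pool.Agent.AEB.ChoiceX

/-!
# Theorem B: the coverage at the final host (module B7)
-/

namespace AEB

open Finset AE15 AED
open scoped Classical

/-- the coverage statement at the final host `x`, with the explicit hosts `E` -/
def Cov {V : Type*} (R : V → V → Prop) (p : NP) (γ : ℝ) (X G E : Finset V) (x : V) (m : ℕ) : Prop :=
  ∃ Nx U Q : Finset V, Nx ⊆ G ∧ (∀ h ∈ Nx, R x h) ∧ γ * X.card ≤ Nx.card ∧ U.card ≤ m ∧ Q.card ≤ p.q ∧
    (∀ h ∈ Nx, p.c1 ≤ (nI R X h).card) ∧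
    (∀ j : ℕ, (j : ℝ) ≤ γ * X.card →
      ((nI R X x).filter (fun u => (nI R Nx u).card ≤ j)).card ≤ 2 * j + 4 * (p.c1 + p.u0 + p.g)) ∧
    (∀ u ∈ X, u ∉ E → R u x → p.c1 ≤ (nI R X u).card → u ∉ U → ∃ h ∈ Nx, h ∉ E ∧ R h u) ∧
    (∀ u ∈ X, u ∉ E → R u x → p.c1 ≤ (nI R X u).card → u ∉ U → u ∉ Q →
      ∃ h ∈ Nx, h ∉ E ∧ R h u ∧ p.c ≤ (nI R (G \ E) h).card)

theorem cov_of (p : NP) (hp : p.OK) {γ₀ : ℝ} (hγ : 0 < γ₀) : ∃ n₀ : ℕ, ∀ {V : Type} {R : V → V → Prop},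
    AE32.Tour R → ∀ {X G Z E : Finset V} {m : ℕ} {x : V}, n₀ ≤ X.card → G ⊆ X → XD R X G Z m x →
      γ₀ * X.card ≤ G.card → (m : ℝ) ≤ γ₀ / 16 * X.card → Z.card ≤ 4 * (p.c1 + p.u0 + p.g) →
      (∀ u ∈ X, (nI R X u).card < p.c1 → u ∈ Z) → ∀ (k d m' : ℕ) (U : Finset V), U.card ≤ m' → k ≤ d →
      d ≤ 2 * p.c + p.r0 + 3 * p.a + 3 → (k ≤ p.a ∨ 2 * p.c + k ≤ d) → (E ∩ nO R (G \ Z) x).card ≤ k →
      (∀ u ∈ G, u ∉ Z → R u x → (nI R (nO R (G \ Z) x) u).card ≤ d → Disjoint (nI R (nO R (G \ Z) x) u) E) →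
      (∀ u ∈ Z, u ∈ X → u ∉ E → R u x → p.c1 ≤ (nI R X u).card → u ∉ U →
        2 * p.c + k < (nI R (nO R (G \ Z) x) u).card) →
      Cov R p (γ₀ / 16) X G E x m' := by
  obtain ⟨n₀, hn₀⟩ := exists_nat_gt ((8 * (4 * (p.c1 + p.u0 + p.g) + 2 * (4 * p.c + p.r0 + 3 * p.a + 8)) : ℝ) / γ₀)
  refine ⟨n₀, ?_⟩
  intro V R hT X G Z E m x hX hG hx hGc hm hZ hlow k d m' U hU hkd hd hcase hEk hdis hUZ
  have hX' : (n₀ : ℝ) ≤ X.card := by exact_mod_cast hX
  have hbig : 8 * (4 * (p.c1 + p.u0 + p.g) + 2 * (4 * p.c + p.r0 + 3 * p.a + 8) : ℝ) < γ₀ * X.card := by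
    rw [div_lt_iff₀ hγ] at hn₀
    nlinarith
  have hZ' : (Z.card : ℝ) ≤ 4 * (p.c1 + p.u0 + p.g) := by exact_mod_cast hZ
  have hGZ : (G.card : ℝ) ≤ (G \ Z).card + Z.card := by
    have := card_le_card_sdiff_add_card (s := G) (t := Z)
    exact_mod_cast this
  obtain ⟨Nx, hNx⟩ : ∃ Nx, Nx = nO R (G \ Z) x := ⟨_, rfl⟩
  have h4 : ((G \ Z).card : ℝ) ≤ 2 * Nx.card + 1 := by
    have := hx.h4
    rw [← hNx] at this
    exact_mod_cast this
  have ha0 : (0 : ℝ) ≤ p.a := by positivity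
  have hr0 : (0 : ℝ) ≤ p.r0 := by positivity
  have hc0 : (0 : ℝ) ≤ p.c := by positivity
  have hNx1 : γ₀ / 4 * X.card ≤ Nx.card := by linarith
  have hdk : (2 * p.c + k + 1 : ℝ) ≤ 4 * p.c + p.r0 + 3 * p.a + 8 := by
    have h1 : 2 * p.c + k + 1 ≤ 4 * p.c + p.r0 + 3 * p.a + 8 := by omega
    exact_mod_cast h1
  rw [← hNx] at hEk
  -- vertices outside `G` and `Z`
  have hout : ∀ u ∈ X, u ∉ G → (γ₀ / 16 * X.card < (nI R Nx u).card) ∧ 2 * p.c + k < (nI R Nx u).card := by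
    intro u hu huG
    have h1 := hx.h3 u hu huG
    rw [← hNx] at h1
    have h2 : (Nx.card : ℝ) ≤ (nI R Nx u).card + m := by exact_mod_cast h1
    constructor
    · linarith
    · have h3 : (2 * p.c + k : ℝ) < (nI R Nx u).card := by linarith
      exact_mod_cast h3
  have hD : ∀ u, (nI R Nx u \ E).card + k ≥ (nI R Nx u).card := by
    intro u
    have h1 : (nI R Nx u ∩ E).card ≤ (E ∩ Nx).card := by
      apply card_le_card
      intro w hw
      rw [mem_inter] at hw ⊢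
      exact ⟨hw.2, nI_sub hw.1⟩
    have h2 := card_sdiff_add_card_inter (nI R Nx u) E
    omega
  obtain ⟨Lo, hLo⟩ : ∃ Lo, Lo = (G \ E).filter (fun v => (nI R (G \ E) v).card < p.c) := ⟨_, rfl⟩
  have hLoc : Lo.card ≤ 2 * p.c := by rw [hLo]; exact card_lowin hT _ _
  have hNG : Nx ⊆ G := by
    rw [hNx]
    exact nO_sub.trans sdiff_subset
  have hstrong : ∀ u, 2 * p.c < (nI R Nx u \ E).card →
      ∃ h ∈ Nx, h ∉ E ∧ R h u ∧ p.c ≤ (nI R (G \ E) h).card := by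
    intro u hu
    obtain ⟨h, hh, hh'⟩ := exists_mem_notMem_of_card_lt_card (lt_of_le_of_lt hLoc hu)
    rw [mem_sdiff, mem_nI] at hh
    refine ⟨h, hh.1.1, hh.2, hh.1.2, ?_⟩
    by_contra hcon
    apply hh'
    rw [hLo, mem_filter, mem_sdiff]
    exact ⟨⟨hNG hh.1.1, hh.2⟩, by omega⟩
  have hweak : ∀ u, 0 < (nI R Nx u \ E).card → ∃ h ∈ Nx, h ∉ E ∧ R h u := by
    intro u hu
    obtain ⟨h, hh⟩ := card_pos.1 hu
    rw [mem_sdiff, mem_nI] at hh
    exact ⟨h, hh.1.1, hh.2, hh.1.2⟩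
  obtain ⟨dq, hdq⟩ : ∃ dq, dq = if k ≤ p.a then 2 * p.c + p.a else 2 * p.c := ⟨_, rfl⟩
  refine ⟨Nx, U, (G \ Z).filter (fun u => R u x ∧ (nI R Nx u).card ≤ dq), hNG, ?_, ?_, hU, ?_, ?_, ?_, ?_, ?_⟩
  · intro h hh
    rw [hNx, mem_nO] at hh
    exact hh.2
  · have : (0 : ℝ) ≤ γ₀ * X.card := by positivity
    linarith
  · have h1 := hx.h2 dq
    rw [← hNx] at h1
    have h2 := hp.hq
    split_ifs at hdq <;> omega
  · intro h hh
    by_contra hcon
    have h1 : h ∈ G \ Z := by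
      rw [hNx] at hh
      exact nO_sub hh
    rw [mem_sdiff] at h1
    exact h1.2 (hlow h (hG h1.1) (by omega))
  · intro j hj
    have hsub : (nI R X x).filter (fun u => (nI R Nx u).card ≤ j) ⊆
        Z ∪ (G \ Z).filter (fun u => R u x ∧ (nI R Nx u).card ≤ j) := by
      intro u hu
      rw [mem_filter, mem_nI] at hu
      rw [mem_union]
      by_cases huZ : u ∈ Z
      · exact Or.inl huZ
      by_cases huG : u ∈ G
      · right
        rw [mem_filter, mem_sdiff]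
        exact ⟨⟨huG, huZ⟩, hu.1.2, hu.2⟩
      · exfalso
        have h1 := (hout u hu.1.1 huG).1
        have h2 : ((nI R Nx u).card : ℝ) ≤ j := by exact_mod_cast hu.2
        linarith
    have h1 := card_le_card hsub
    have h2 := card_union_le Z ((G \ Z).filter (fun u => R u x ∧ (nI R Nx u).card ≤ j))
    have h3 := hx.h2 j
    rw [← hNx] at h3
    omega
  · intro u hu huE hux hc1 huU
    apply hweak
    have h1 := hD u
    by_cases huZ : u ∈ Z
    · have h2 := hUZ u huZ hu huE hux hc1 huU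
      rw [← hNx] at h2
      omega
    by_cases huG : u ∈ G
    · by_cases h3 : (nI R Nx u).card ≤ d
      · have h4 := hdis u huG huZ hux (by rw [← hNx]; exact h3)
        rw [← hNx] at h4
        rw [sdiff_eq_self_of_disjoint h4]
        have h5 := hx.h1 u huG huZ hux
        rw [← hNx] at h5
        exact card_pos.2 h5
      · omega
    · have h2 := (hout u hu huG).2
      omega
  · intro u hu huE hux hc1 huU huQ
    apply hstrong
    have h1 := hD u
    by_cases huZ : u ∈ Z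
    · have h2 := hUZ u huZ hu huE hux hc1 huU
      rw [← hNx] at h2
      omega
    by_cases huG : u ∈ G
    · have h2 : dq < (nI R Nx u).card := by
        by_contra hcon
        apply huQ
        rw [mem_filter, mem_sdiff]
        exact ⟨⟨huG, huZ⟩, hux, by omega⟩
      by_cases hka : k ≤ p.a
      · rw [if_pos hka] at hdq
        omega
      · rw [if_neg hka] at hdq
        have h3 : 2 * p.c + k ≤ d := by
          rcases hcase with h | h
          · exact absurd h hka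
          · exact h
        by_cases h5 : (nI R Nx u).card ≤ d
        · have h6 := hdis u huG huZ hux (by rw [← hNx]; exact h5)
          rw [← hNx] at h6
          rw [sdiff_eq_self_of_disjoint h6]
          omega
        · omega
    · have h2 := (hout u hu huG).2
      omega

end AEB
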