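import Pool.Agent.AEB.PE

/-!
# Theorem B, module B1: heavy children, turns, sizes, block bound
-/

namespace AEB

open Finset AE15 AED
open scoped Classical

variable {V : Type*} {R : V → V → Prop}

theorem hv_none {F : Fd} : F.hv = none ↔ F = .nil := by
  cases F with
  | nil => simp [Fd.hv]
  | node d c s =>
    simp only [Fd.hv, reduceCtorEq, iff_false]
    cases s.hv with
    | none => simp
    | some p => simp only; split_ifs <;> simp

/-- the heavy tree is one of the trees, and it has maximal size -/
theorem hv_some {F : Fd} {p : Bool × Fd} (h : F.hv = some p) :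
    (∃ ts, F.trees.Perm (p :: ts)) ∧ ∀ q ∈ F.trees, q.2.size ≤ p.2.size := by
  induction F generalizing p with
  | nil => simp [Fd.hv] at h
  | node d c s _ ihs =>
    simp only [Fd.hv] at h
    cases hs : s.hv with
    | none =>
      rw [hs] at h
      simp only [Option.some.injEq] at h
      subst h
      obtain rfl := hv_none.1 hs
      exact ⟨⟨[], List.Perm.refl _⟩, by simp [Fd.trees]⟩
    | some q =>
      rw [hs] at h
      simp only at h
      obtain ⟨⟨ts, hts⟩, hm⟩ := ihs hs
      split_ifs at h with hq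
      · simp only [Option.some.injEq] at h
        subst h
        refine ⟨⟨s.trees, List.Perm.refl _⟩, ?_⟩
        intro r hr
        simp only [Fd.trees, List.mem_cons] at hr
        rcases hr with rfl | hr
        · exact le_rfl
        · exact (hm r hr).trans hq
      · simp only [Option.some.injEq] at h
        subst h
        refine ⟨⟨(d, c) :: ts, ?_⟩, ?_⟩
        · exact (hts.cons (d, c)).trans (List.Perm.swap _ _ _)
        · intro r hr
          simp only [Fd.trees, List.mem_cons] at hr
          rcases hr with rfl | hr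
          · exact (not_le.1 hq).le
          · exact hm r hr

theorem hv_mem {F : Fd} {p : Bool × Fd} (h : F.hv = some p) : p ∈ F.trees := by
  obtain ⟨⟨ts, hts⟩, -⟩ := hv_some h
  exact hts.mem_iff.2 (List.mem_cons_self)

theorem size_lt_of_mem {F : Fd} {p : Bool × Fd} (h : p ∈ F.trees) : p.2.size < F.size := by
  induction F with
  | nil => simp [Fd.trees] at h
  | node d c s _ ihs =>
    simp only [Fd.trees, List.mem_cons] at h
    simp only [Fd.size]
    rcases h with rfl | h
    · simp only
      omega
    · have := ihs h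
      omega

theorem size_le_len {F : Fd} {M : ℕ} (h : ∀ q ∈ F.trees, q.2.size ≤ M) : F.size ≤ F.len * (M + 1) := by
  induction F with
  | nil => simp [Fd.size]
  | node d c s _ ihs =>
    simp only [Fd.trees, List.mem_cons, forall_eq_or_imp] at h
    have h1 := ihs h.2
    have h2 := h.1
    simp only [Fd.size, Fd.len]
    rw [add_mul, one_mul]
    omega

theorem hv_size {b : ℕ} {F : Fd} {p : Bool × Fd} (h : F.hv = some p) (hb : F.len ≤ b) :
    F.size ≤ b * (p.2.size + 1) ∧ p.2.size < F.size :=
  ⟨(size_le_len (hv_some h).2).trans (Nat.mul_le_mul_right _ hb), size_lt_of_mem (hv_mem h)⟩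

/-- the forests below satisfy the same bounds; `FOK b l j F`: all conditions on the forest -/
def FOK (b l j : ℕ) (F : Fd) : Prop := F.len ≤ b ∧ F.Deg b ∧ InR l j F

theorem InR.child {l j : ℕ} {F : Fd} (h : InR l j F) {p : Bool × Fd} (hp : p ∈ F.trees) :
    InR l (if p.1 then 0 else j + 1) p.2 ∧ (p.1 = false → j + 1 ≤ l) := by
  induction F with
  | nil => simp [Fd.trees] at hp
  | node d c s _ ihs =>
    simp only [Fd.trees, List.mem_cons] at hp
    rcases hp with rfl | hp
    · cases d with
      | true =>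
        have h1 := h.1
        simp only [if_true] at h1
        exact ⟨by simpa using h1, by simp⟩
      | false =>
        have h1 := h.1
        simp only [Bool.false_eq_true, if_false] at h1
        exact ⟨by simpa using h1.2, fun _ => h1.1⟩
    · exact ihs h.2 hp

theorem FOK.child {b l j : ℕ} {F : Fd} (h : FOK b l j F) {p : Bool × Fd} (hp : p ∈ F.trees) :
    FOK b l (if p.1 then 0 else j + 1) p.2 ∧ (p.1 = false → j + 1 ≤ l) := by
  obtain ⟨-, h2, h3⟩ := h
  obtain ⟨h4, h5⟩ := (Fd.deg_iff b F).1 h2 p hp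
  obtain ⟨h6, h7⟩ := h3.child hp
  exact ⟨⟨h4, h5, h6⟩, h7⟩

/-- bound for the blocks -/
def ab (b l : ℕ) : ℕ := ∑ i ∈ range (l + 1), b ^ i

private theorem geo_succ (b m : ℕ) : ∑ i ∈ range (m + 1), b ^ i = b * ∑ i ∈ range m, b ^ i + 1 := by
  rw [sum_range_succ', mul_sum, pow_zero]
  congr 1
  exact sum_congr rfl fun i _ => by rw [pow_succ, mul_comm]

private theorem blk_le_aux {b l : ℕ} (F : Fd) : ∀ {j : ℕ}, F.Deg b → InR l j F → j ≤ l →
    blk F ≤ F.len * ∑ i ∈ range (l - j), b ^ i := by
  induction F with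
  | nil => intro j _ _ _; simp [blk]
  | node d c s ihc ihs =>
    intro j hd hr hj
    have h1 := ihs hd.2.2 hr.2 hj
    simp only [blk, Fd.len, add_mul, one_mul]
    cases d with
    | true =>
      simp only [if_true]
      omega
    | false =>
      have h2 := hr.1
      simp only [Bool.false_eq_true, if_false] at h2 ⊢
      have h3 := ihc hd.2.1 h2.2 h2.1
      have h4 : l - j = (l - (j + 1)) + 1 := by omega
      have h5 : c.len * ∑ i ∈ range (l - (j + 1)), b ^ i ≤ b * ∑ i ∈ range (l - (j + 1)), b ^ i :=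
        Nat.mul_le_mul_right _ hd.1
      have h6 := geo_succ b (l - (j + 1))
      rw [← h4] at h6
      omega

theorem FOK.blk_le {b l j : ℕ} {F : Fd} (h : FOK b l j F) (hj : j ≤ l) : blk F + 1 ≤ ∑ i ∈ range (l + 1 - j), b ^ i := by
  have h1 := blk_le_aux F h.2.1 h.2.2 hj
  have h2 : l + 1 - j = (l - j) + 1 := by omega
  rw [h2, geo_succ]
  have h3 : F.len * ∑ i ∈ range (l - j), b ^ i ≤ b * ∑ i ∈ range (l - j), b ^ i := Nat.mul_le_mul_right _ h.1
  omega

theorem inw_le {b B : ℕ} {F : Fd} (hb : F.len ≤ b) (hB : ¬ Big B F) : inw F ≤ b * B := by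
  have h1 : ∀ G : Fd, (∀ c, (false, c) ∈ G.trees → c.size + 1 ≤ B) → inw G ≤ G.len * B := by
    intro G
    induction G with
    | nil => intro _; simp [inw]
    | node d c s _ ihs =>
      intro h
      have h2 := ihs fun c' hc' => h c' (by simp [Fd.trees, hc'])
      simp only [inw, Fd.len, add_mul, one_mul]
      cases d with
      | true =>
        simp only [if_true]
        omega
      | false =>
        have h3 := h c (by simp [Fd.trees])
        simp only [Bool.false_eq_true, if_false]
        omega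
  refine (h1 F fun c hc => ?_).trans (Nat.mul_le_mul_right _ hb)
  by_contra h2
  exact hB ⟨c, hc, by omega⟩

/-- one heavy step -/
private theorem step_size {b : ℕ} (hb : 1 ≤ b) {F : Fd} {p : Bool × Fd} (h : F.hv = some p) (hl : F.len ≤ b) :
    F.size + 1 ≤ 2 * b * (p.2.size + 1) := by
  have h1 := (hv_size h hl).1
  have h2 : 1 ≤ b * (p.2.size + 1) := Nat.mul_pos hb (Nat.succ_pos _)
  have h3 : 2 * b * (p.2.size + 1) = b * (p.2.size + 1) + b * (p.2.size + 1) := by ring
  omega

private theorem big_child {b m : ℕ} (hb : 1 ≤ b) {F : Fd} {p : Bool × Fd} (h : F.hv = some p) (hl : F.len ≤ b)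
    (hs : (2 * b) ^ (m + 1) ≤ F.size) : (2 * b) ^ m ≤ p.2.size := by
  have h1 := step_size hb h hl
  by_contra h2
  have h3 : p.2.size + 1 ≤ (2 * b) ^ m := by omega
  have h4 : 2 * b * (p.2.size + 1) ≤ 2 * b * (2 * b) ^ m := Nat.mul_le_mul_left _ h3
  have h5 : (2 * b) ^ (m + 1) = 2 * b * (2 * b) ^ m := by rw [pow_succ]; ring
  omega

private theorem turn_of {b l : ℕ} (hb : 1 ≤ b) : ∀ (m j : ℕ) {F c : Fd}, l - j = m → FOK b l j F →
    F.hv = some (false, c) → (2 * b) ^ (m + 2) ≤ F.size →
    ∃ D, Turn F D ∧ FOK b l 0 D ∧ D.size < F.size ∧ F.size + 1 ≤ (2 * b) ^ (m + 1) * (D.size + 1) := by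
  intro m
  induction m with
  | zero =>
    intro j F c hm h hc _
    have h1 := (h.child (hv_mem hc)).2 rfl
    omega
  | succ m ih =>
    intro j F c hm h hc hs
    obtain ⟨h1, h2⟩ := h.child (hv_mem hc)
    have h2 := h2 rfl
    simp only [Bool.false_eq_true, if_false] at h1
    have h3 : F.size + 1 ≤ 2 * b * (c.size + 1) := step_size hb hc h.1
    have h4 : (2 * b) ^ (m + 2) ≤ c.size := big_child hb hc h.1 hs
    have h5 : c.size < F.size := (hv_size hc h.1).2
    have hpos : 1 ≤ (2 * b) ^ m := Nat.one_le_pow _ _ (by omega)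
    cases hc' : c.hv with
    | none =>
      obtain rfl := hv_none.1 hc'
      have h6 : 1 ≤ (2 * b) ^ (m + 2) := Nat.one_le_pow _ _ (by omega)
      simp only [Fd.size] at h4
      omega
    | some p =>
      obtain ⟨d, D⟩ := p
      cases d with
      | true =>
        have h6 := (h1.child (hv_mem hc')).1
        simp only [if_true] at h6
        have h7 : c.size + 1 ≤ 2 * b * (D.size + 1) := step_size hb hc' h1.1
        have h8 : D.size < c.size := (hv_size hc' h1.1).2
        refine ⟨D, Turn.one F c D hc hc', h6, h8.trans h5, ?_⟩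
        calc F.size + 1 ≤ 2 * b * (c.size + 1) := h3
          _ ≤ 2 * b * (2 * b * (D.size + 1)) := Nat.mul_le_mul_left _ h7
          _ = 1 * ((2 * b) ^ 2 * (D.size + 1)) := by ring
          _ ≤ (2 * b) ^ m * ((2 * b) ^ 2 * (D.size + 1)) := Nat.mul_le_mul_right _ hpos
          _ = (2 * b) ^ (m + 1 + 1) * (D.size + 1) := by ring
      | false =>
        obtain ⟨E, h6, h7, h8, h9⟩ := ih (j + 1) (by omega) h1 hc' h4
        refine ⟨E, Turn.more F c E hc h6, h7, h8.trans h5, ?_⟩
        calc F.size + 1 ≤ 2 * b * (c.size + 1) := h3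
          _ ≤ 2 * b * ((2 * b) ^ (m + 1) * (E.size + 1)) := Nat.mul_le_mul_left _ h9
          _ = (2 * b) ^ (m + 1 + 1) * (E.size + 1) := by ring

/-- routing: either the tree is NN, or the heavy path turns in the block of the root or in the block of the heavy
out-child of the root -/
theorem route {b l : ℕ} (hb : 1 ≤ b) {F : Fd} (h : FOK b l 0 F) (hs : (2 * b) ^ (l + 3) ≤ F.size) :
    NN F ∨ (∃ D, Turn F D ∧ FOK b l 0 D ∧ D.size < F.size ∧ F.size + 1 ≤ (2 * b) ^ (l + 2) * (D.size + 1)) ∨
      ∃ c D, F.hv = some (true, c) ∧ Turn c D ∧ FOK b l 0 c ∧ FOK b l 0 D ∧ D.size < F.size ∧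
        F.size + 1 ≤ (2 * b) ^ (l + 2) * (D.size + 1) := by
  have h2b : 1 ≤ 2 * b := by omega
  cases hF : F.hv with
  | none =>
    obtain rfl := hv_none.1 hF
    have h6 : 1 ≤ (2 * b) ^ (l + 3) := Nat.one_le_pow _ _ (by omega)
    simp only [Fd.size] at hs
    omega
  | some p =>
    obtain ⟨d, c⟩ := p
    cases d with
    | false =>
      right
      left
      have h1 : (2 * b) ^ (l + 2) ≤ F.size := (Nat.pow_le_pow_right h2b (by omega)).trans hs
      obtain ⟨D, h3, h4, h5, h6⟩ := turn_of hb l 0 (by omega) h hF h1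
      refine ⟨D, h3, h4, h5, h6.trans (Nat.mul_le_mul_right _ (Nat.pow_le_pow_right h2b (by omega)))⟩
    | true =>
      have h1 := (h.child (hv_mem hF)).1
      simp only [if_true] at h1
      have h3 : F.size + 1 ≤ 2 * b * (c.size + 1) := step_size hb hF h.1
      have h4 : (2 * b) ^ (l + 2) ≤ c.size := big_child hb hF h.1 hs
      have h5 : c.size < F.size := (hv_size hF h.1).2
      cases hc : c.hv with
      | none =>
        obtain rfl := hv_none.1 hc
        have h6 : 1 ≤ (2 * b) ^ (l + 2) := Nat.one_le_pow _ _ (by omega)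
        simp only [Fd.size] at h4
        omega
      | some q =>
        obtain ⟨d', c'⟩ := q
        cases d' with
        | true => exact Or.inl ⟨c, c', hF, hc⟩
        | false =>
          right
          right
          obtain ⟨D, h6, h7, h8, h9⟩ := turn_of hb l 0 (by omega) h1 hc h4
          refine ⟨c, D, rfl, h6, h1, h7, h8.trans h5, ?_⟩
          calc F.size + 1 ≤ 2 * b * (c.size + 1) := h3
            _ ≤ 2 * b * ((2 * b) ^ (l + 1) * (D.size + 1)) := Nat.mul_le_mul_left _ h9
            _ = (2 * b) ^ (l + 2) * (D.size + 1) := by ring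

end AEB
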