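import Pool.Agent.AEB.ClU
import Pool.Agent.AEB.Heavy
import Pool.Agent.AEB.PELem
import Pool.Agent.AEB.ChoiceX
import Pool.Agent.AEB.Lists
import Pool.Agent.AEB.Blocks
import Pool.Agent.AEB.Absorb
import Pool.Agent.AEB.CovOf

/-!
# Theorem B: big exact rounds
-/

namespace AEB

open Finset AE15 AED
open scoped Classical

variable {V : Type*} {R : V → V → Prop}

theorem exists_tl_avoid (hT : AE32.Tour R) (m : ℕ) (S T : Finset V) (h : 2 ^ m + T.card ≤ S.card) :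
    ∃ w : List V, w.length = m ∧ (∀ x ∈ w, x ∈ S ∧ x ∉ T) ∧ w.Pairwise R := by
  obtain ⟨w, h1, h2, h3⟩ := exists_tl hT m (S \ T) (by
    have := le_card_sdiff T S
    omega)
  exact ⟨w, h1, fun x hx => mem_sdiff.1 (h2 x hx), h3⟩

theorem blk_le_a {p : NP} (hab : ab p.b p.l ≤ p.a) {F : Fd} (h : FOK p.b p.l 0 F) : blk F + 1 ≤ p.a := by
  have := h.blk_le (Nat.zero_le _)
  rw [Nat.sub_zero] at this
  exact this.trans hab

/-- the coverage in a big round -/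
theorem cov_big (p : NP) (hp : p.OK) {γ₀ : ℝ} (hγ : 0 < γ₀) : ∃ n₀ : ℕ, ∀ {V : Type} {R : V → V → Prop},
    AE32.Tour R → ∀ {X G Z E Exc T : Finset V} {m : ℕ} {x : V}, n₀ ≤ X.card → G ⊆ X → XD R X G Z m x →
      γ₀ * X.card ≤ G.card → (m : ℝ) ≤ γ₀ / 16 * X.card → Z.card ≤ 4 * (p.c1 + p.u0 + p.g) →
      (∀ u ∈ X, (nI R X u).card < p.c1 → u ∈ Z) → (∀ u ∈ Z, p.c1 ≤ (nI R X u).card → u ∈ Exc) →
      E ∩ nO R (G \ Z) x ⊆ T → T.card ≤ p.a →
      (∀ u ∈ G, u ∉ Z → R u x → (nI R (nO R (G \ Z) x) u).card ≤ p.a → Disjoint (nI R (nO R (G \ Z) x) u) T) →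
      ∀ (m' : ℕ) (U : Finset V), U.card ≤ m' →
      (∀ u ∈ Exc, u ∉ E → R u x → u ∉ U → 2 * p.c + p.a < (nI R (nO R (G \ Z) x) u).card) →
      Cov R p (γ₀ / 16) X G E x m' := by
  obtain ⟨n₀, hn₀⟩ := cov_of p hp hγ
  refine ⟨n₀, ?_⟩
  intro V R hT X G Z E Exc T m x hX hG hXD hGc hm hZ hLam hExc hET hTa hprot m' U hU hUc
  refine hn₀ hT hX hG hXD hGc hm hZ hLam p.a p.a m' U hU le_rfl (by omega) (Or.inl le_rfl)
    ((card_le_card hET).trans hTa) ?_ ?_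
  · intro u hu huZ hux huc
    rw [disjoint_left]
    intro w hw hwE
    exact disjoint_left.1 (hprot u hu huZ hux huc) hw (hET (mem_inter.2 ⟨hwE, (mem_nI.1 hw).1⟩))
  · intro u hu _ huE hux huc huU
    exact hUc u (hExc u hu huc) huE hux huU

/-- the data of a big round: `Exc` excluded vertices, `Bad` those with few dominators, `W` the vertices for absorption -/
structure BigS (R : V → V → Prop) (p : NP) (Gd : V → Prop) (γ₀ : ℝ) (Y X G : Finset V) (N : V → Prop) (M : ℕ)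
    (Z Exc Bad W : Finset V) (m : ℕ) (x : V) : Prop where
  xd : XD R X G Z m x
  hm : (m : ℝ) ≤ γ₀ / 16 * X.card
  zc : Z.card ≤ 4 * (p.c1 + p.u0 + p.g)
  lam : ∀ u ∈ X, (nI R X u).card < p.c1 → u ∈ Z
  zexc : ∀ u ∈ Z, p.c1 ≤ (nI R X u).card → u ∈ Exc
  excc : Exc.card ≤ M + p.g
  badE : Bad ⊆ Exc
  bad : ∀ u ∈ Exc, R u x → u ∉ Bad → 2 * p.c + p.a < (nI R (nO R (G \ Z) x) u).card
  wG : W ⊆ G
  wE : W ⊆ Exc
  wx : ∀ w ∈ W, R w x
  wc : Bad.card ≤ W.card + 2 * p.cx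
  ws : ∀ w ∈ W, ∀ v ∈ X, N v → Strong R Gd p.c0 p.c Y v → R w v
  cx : p.cx ≤ (nI R G x).card
  str : ¬ N x → ∃ v ∈ X, N v ∧ R v x ∧ Strong R Gd p.c0 p.c Y v

theorem big_setup (p : NP) (hp : p.OK) {γ₀ s : ℝ} (hγ : 0 < γ₀) :
    ∃ n₀ : ℕ, ∀ {V : Type} {R : V → V → Prop} {Gd : V → Prop} {Y X G : Finset V} {N : V → Prop}, n₀ ≤ X.card →
      St R p Gd γ₀ s X G N → ∀ {M : ℕ}, M ≤ p.u0 + p.g → ClBU R Gd s p M Y X N →
      ∃ Z Exc Bad W m x, BigS R p Gd γ₀ Y X G N M Z Exc Bad W m x := by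
  obtain ⟨n₀, hn₀⟩ := exists_nat_ge ((16 * (4 * (p.c1 + p.u0 + p.g) + 2 * p.c + p.a + 4) : ℝ) / γ₀)
  refine ⟨n₀, ?_⟩
  intro V R Gd Y X G N hX hSt M hM hCl
  obtain ⟨hT, hG, hGd, hGc, hGo, hD⟩ := hSt
  have hXr : (n₀ : ℝ) ≤ X.card := by exact_mod_cast hX
  have hbig : (16 * (4 * (p.c1 + p.u0 + p.g) + 2 * p.c + p.a + 4) : ℝ) ≤ γ₀ * X.card := by
    rw [div_le_iff₀ hγ] at hn₀
    have := mul_le_mul_of_nonneg_left hXr hγ.le
    linarith
  obtain ⟨_, U, Q, hU, hQ, _, hstr⟩ := hCl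
  set Lam := X.filter (fun u => (nI R X u).card < p.c1) with hLam
  set LowG := G.filter (fun u => (nI R G u).card < p.cx) with hLowG
  set Qnc := X.filter (fun u => ¬ N u ∧ p.c1 ≤ (nI R X u).card ∧
    ¬ ∃ v ∈ X, N v ∧ R v u ∧ Strong R Gd p.c0 p.c Y v) with hQnc
  have hLamc : Lam.card ≤ 2 * p.c1 := card_lowin hT X p.c1
  have hLowGc : LowG.card ≤ 2 * p.cx := card_lowin hT G p.cx
  have hQncc : Qnc.card ≤ M + p.q := by
    refine (card_le_card (t := U ∪ Q) ?_).trans ((card_union_le _ _).trans (add_le_add hU hQ))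
    intro u hu
    rw [hQnc, mem_filter] at hu
    obtain ⟨h1, h2, h3, h4⟩ := hu
    rcases hstr u h1 with h | h | h | h | h
    · exact absurd h h2
    · omega
    · exact mem_union_left _ h
    · exact mem_union_right _ h
    · exact absurd h h4
  have hg := hp.hg
  set Exc := (Qnc ∪ LowG) \ Lam with hExc
  have hExcc : Exc.card ≤ M + p.g := by
    have h1 : Exc.card ≤ (Qnc ∪ LowG).card := card_le_card sdiff_subset
    have h2 := card_union_le Qnc LowG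
    omega
  set Z := Lam ∪ Exc with hZ
  have hZc : Z.card ≤ 4 * (p.c1 + p.u0 + p.g) := by
    have h1 : Z.card ≤ Lam.card + Exc.card := card_union_le Lam Exc
    omega
  obtain ⟨m, hm⟩ : ∃ m, m = ⌊γ₀ / 16 * X.card⌋₊ := ⟨_, rfl⟩
  have hm1 : (m : ℝ) ≤ γ₀ / 16 * X.card := by
    rw [hm]
    exact Nat.floor_le (by positivity)
  have hne : (G \ Z).Nonempty := by
    rw [← card_pos]
    have h1 := le_card_sdiff Z G
    have h2 : (Z.card : ℝ) < G.card := by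
      have h3 : (Z.card : ℝ) ≤ 4 * (p.c1 + p.u0 + p.g) := by exact_mod_cast hZc
      have h4 : (0 : ℝ) ≤ p.c := by positivity
      have h5 : (0 : ℝ) ≤ p.a := by positivity
      linarith
    have h3 : Z.card < G.card := by exact_mod_cast h2
    omega
  obtain ⟨x, hx⟩ := exists_x hT (Z := Z) hG (m := m) (by
    intro u hu huG
    rw [hm]
    exact Nat.le_floor (hGo u hu huG)) hne
  obtain ⟨Bad, hBad⟩ : ∃ Bad, Bad = Exc.filter (fun u => R u x ∧ (nI R (nO R (G \ Z) x) u).card ≤ 2 * p.c + p.a) :=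
    ⟨_, rfl⟩
  have hExcX : Exc ⊆ X := by
    intro u hu
    rw [hExc, mem_sdiff, mem_union] at hu
    rcases hu.1 with h | h
    · exact (mem_filter.1 h).1
    · exact hG (mem_filter.1 h).1
  have hBadG : Bad ⊆ G := by
    intro u hu
    rw [hBad, mem_filter] at hu
    by_contra hc
    have h1 := hx.h3 u (hExcX hu.1) hc
    have h2 := hx.h4
    have h3 := le_card_sdiff Z G
    have h4 : G.card ≤ 2 * (2 * p.c + p.a + m) + 1 + Z.card := by omega
    have h5 : (G.card : ℝ) ≤ 2 * (2 * p.c + p.a + m) + 1 + Z.card := by exact_mod_cast h4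
    have h6 : (Z.card : ℝ) ≤ 4 * (p.c1 + p.u0 + p.g) := by exact_mod_cast hZc
    linarith
  have hxG := mem_sdiff.1 hx.hx
  refine ⟨Z, Exc, Bad, Bad ∩ Qnc, m, x, hx, hm1, hZc, ?_, ?_, hExcc, ?_, ?_, ?_, ?_, ?_, ?_, ?_, ?_, ?_⟩
  · intro u hu h
    exact mem_union_left _ (mem_filter.2 ⟨hu, h⟩)
  · intro u hu h
    rcases mem_union.1 hu with h1 | h1
    · have := (mem_filter.1 h1).2
      omega
    · exact h1
  · rw [hBad]
    exact filter_subset _ _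
  · intro u hu hux h
    rw [hBad, mem_filter, not_and, not_and] at h
    have := h hu hux
    omega
  · exact inter_subset_left.trans hBadG
  · refine inter_subset_left.trans ?_
    rw [hBad]
    exact filter_subset _ _
  · intro w hw
    have := (mem_inter.1 hw).1
    rw [hBad, mem_filter] at this
    exact this.2.1
  · have h1 : Bad ⊆ (Bad ∩ Qnc) ∪ LowG := by
      intro u hu
      by_cases hQ' : u ∈ Qnc
      · exact mem_union_left _ (mem_inter.2 ⟨hu, hQ'⟩)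
      · have h2 := hu
        rw [hBad, mem_filter, hExc, mem_sdiff, mem_union] at h2
        exact mem_union_right _ (h2.1.1.resolve_left hQ')
    have h2 := (card_le_card h1).trans (card_union_le _ _)
    omega
  · intro w hw v hv hNv hSv
    have h1 := (mem_inter.1 hw).2
    rw [hQnc, mem_filter] at h1
    have hne' : w ≠ v := fun e => h1.2.1 (e ▸ hNv)
    exact (hT.tot w v hne').resolve_right (fun h => h1.2.2.2 ⟨v, hv, hNv, h, hSv⟩)
  · by_contra hc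
    push Not at hc
    apply hxG.2
    by_cases hl : x ∈ Lam
    · exact mem_union_left _ hl
    · exact mem_union_right _ (mem_sdiff.2 ⟨mem_union_right _ (mem_filter.2 ⟨hxG.1, hc⟩), hl⟩)
  · intro hNx
    by_contra hc
    apply hxG.2
    by_cases hl : x ∈ Lam
    · exact mem_union_left _ hl
    · refine mem_union_right _ (mem_sdiff.2 ⟨mem_union_left _ (mem_filter.2 ⟨hG hxG.1, hNx, ?_, hc⟩), hl⟩)
      by_contra hlt
      exact hl (mem_filter.2 ⟨hG hxG.1, by omega⟩)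

theorem mem_w {w : List V} {x : V} : x ∈ w.toFinset ↔ x ∈ w := List.mem_toFinset

/-- bounds for `NP.ub` -/
private theorem ub_le (p : NP) (F : Fd) : p.ub F ≤ p.u0 + p.g := by
  unfold NP.ub
  split_ifs <;> omega

private theorem le_ub (p : NP) (F : Fd) : p.u0 ≤ p.ub F := by
  unfold NP.ub
  split_ifs <;> omega

/-! the arithmetic of the big rounds -/

private theorem ar_covA {p : NP} (hp : p.OK) {e i u m' a b : ℕ} (h1 : e ≤ u + p.g) (h2 : u ≤ p.u0 + p.g)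
    (h3 : p.A0 ≤ i) (h4 : i ≤ a) (h5 : b + a = e) (h6 : p.u0 ≤ m') : b ≤ m' := by
  have := hp.hA0
  omega

private theorem ar_wx {p : NP} (hp : p.OK) {i t : ℕ} (h : p.cx ≤ i) (ht : t ≤ 1) : 2 ^ p.a + t ≤ i := by
  have := hp.hcx
  omega

private theorem ar_wv {p : NP} (hp : p.OK) {u h w i : ℕ} (h1 : u ≤ h + w) (h2 : h ≤ 2 * p.a * p.a) (h3 : w ≤ p.a)
    (h4 : p.c ≤ i) : 2 ^ p.a + u ≤ i := by
  have := hp.hc
  have h5 : 2 * p.a * p.a = 2 * p.a ^ 2 := by ring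
  omega

private theorem ar_W {p : NP} (hp : p.OK) {u b i : ℕ} (h1 : u ≤ 2 * p.a) (h2 : p.M0 ≤ b) (h3 : b ≤ i + 2 * p.cx) :
    2 ^ (p.A0 + p.a) + u ≤ i := by
  have := hp.hM0
  rw [pow_succ] at this
  omega

private theorem ar_e1 {p : NP} (hp : p.OK) {z : ℕ} (h : z ≤ p.a + (p.A0 + p.a)) : z + 1 ≤ p.e := by
  have := hp.he
  omega

private theorem ar_e2 {p : NP} (hp : p.OK) {z w v u : ℕ} (h1 : w ≤ p.a) (h2 : v ≤ p.a) (h3 : u ≤ p.A0 + p.a)
    (h : z ≤ w + (v + u) + 1) : z + 1 ≤ p.e := by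
  have := hp.he
  omega

private theorem ar_m {p : NP} (hp : p.OK) {b u : ℕ} (h1 : ¬ p.M0 ≤ b) (h2 : p.u0 ≤ u) : b ≤ u := by
  have := hp.hu0
  omega

private theorem ar_A {p : NP} (hp : p.OK) {t : ℕ} (h : p.B ≤ t) : p.A0 ≤ t := by
  have := hp.hB
  omega

/-- the vertices used with absorption at the root of the host -/
private theorem sub_v {V : Type*} {x : V} {w wv w₂ Z₁ Z₂ : Finset V} (g : Z₁ ⊆ w) (q : Z₂ ⊆ wv ∪ w₂ ∪ insert x Z₁) :
    Z₂ ⊆ insert x (w ∪ (wv ∪ w₂)) := by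
  intro z hz
  have h := q hz
  simp only [mem_union, mem_insert] at h ⊢
  rcases h with (h | h) | h | h
  · exact Or.inr (Or.inr (Or.inl h))
  · exact Or.inr (Or.inr (Or.inr h))
  · exact Or.inl h
  · exact Or.inr (Or.inl (g h))

/-- the vertices used with absorption at `x` -/
private theorem sub_x {V : Type*} {x : V} {w wv w₂ Z₁ Z₂ : Finset V} (g : Z₁ ⊆ w ∪ w₂) (q : Z₂ ⊆ wv ∪ insert x Z₁) :
    Z₂ ⊆ insert x (w ∪ (wv ∪ w₂)) := by
  intro z hz
  have h := q hz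
  simp only [mem_union, mem_insert] at h ⊢
  rcases h with h | h | h
  · exact Or.inr (Or.inr (Or.inl h))
  · exact Or.inl h
  · rcases mem_union.1 (g h) with h | h
    · exact Or.inr (Or.inl h)
    · exact Or.inr (Or.inr (Or.inr h))

private theorem mem_of_sub {V : Type*} {x : V} {w wv : List V} {T W Z₂ : Finset V} (hW : ∀ z ∈ T, z ∈ W)
    (q : Z₂ ⊆ insert x (w.toFinset ∪ (wv.toFinset ∪ T))) : ∀ z ∈ Z₂, z = x ∨ z ∈ w ∨ z ∈ wv ∨ z ∈ W := by
  intro z hz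
  have h := q hz
  simp only [mem_union, mem_insert, List.mem_toFinset] at h
  rcases h with h | h | h | h
  · exact Or.inl h
  · exact Or.inr (Or.inl h)
  · exact Or.inr (Or.inr (Or.inl h))
  · exact Or.inr (Or.inr (Or.inr (hW z h)))

theorem cfg_big (p : NP) (hp : p.OK) (hab : ab p.b p.l ≤ p.a) {γ₀ s : ℝ} (hγ : 0 < γ₀) (_hs : 0 < s) :
    ∃ n₀ : ℕ, ∀ {V : Type} {R : V → V → Prop} {Gd : V → Prop} {Y X G : Finset V} {N : V → Prop}, n₀ ≤ X.card →
      X ⊆ Y → St R p Gd γ₀ s X G N → ∀ {F c c' : Fd}, FOK p.b p.l 0 F → F.hv = some (true, c) →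
      c.hv = some (true, c') → (Big p.B F ∨ Big p.B c) → ClBU R Gd s p (p.ub F) Y X N →
      ∃ y₀ x Z L D₁, (D₁ = c ∨ D₁ = c') ∧ HostU R p Gd Y X N F y₀ x Z L D₁ ∧
        Cov R p (γ₀ / 16) X G (insert y₀ Z) x (p.ub D₁) := by
  obtain ⟨n₁, hn₁⟩ := big_setup (s := s) p hp hγ
  obtain ⟨n₂, hn₂⟩ := cov_big p hp hγ
  refine ⟨max n₁ n₂, ?_⟩
  intro V R Gd Y X G N hX hXY hSt F c c' hF hvF hvc hBig hCl
  have hub : p.ub F ≤ p.u0 + p.g := ub_le p F
  have hub0 : ∀ D : Fd, p.u0 ≤ p.ub D := le_ub p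
  obtain ⟨Z, Exc, Bad, W, m, x, hS⟩ := hn₁ ((le_max_left _ _).trans hX) hSt hub hCl
  obtain ⟨hT, hG, hGd, hGc, hGo, hD⟩ := hSt
  have hX2 : n₂ ≤ X.card := (le_max_right _ _).trans hX
  have hc : FOK p.b p.l 0 c := by simpa using (hF.child (hv_mem hvF)).1
  have hbF : blk F ≤ p.a := Nat.le_of_succ_le (blk_le_a hab hF)
  have hbc : blk c ≤ p.a := Nat.le_of_succ_le (blk_le_a hab hc)
  have hxG := (mem_sdiff.1 hS.xd.hx).1
  have hxX := hG hxG
  obtain ⟨H, hHc, hHx, hH⟩ := harm hT hS.xd p.a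
  have p11 := hS.excc
  -- coverage after absorption
  have covA : ∀ E T : Finset V, E ∩ nO R (G \ Z) x ⊆ T → T.card ≤ p.a → (∀ z ∈ T, z ∉ H) → ∀ W₂ : Finset V, W₂ ⊆ W →
      p.A0 ≤ (E ∩ W₂).card → ∀ m', p.u0 ≤ m' → Cov R p (γ₀ / 16) X G E x m' := by
    intro E T h1 h2 h3 W₂ h4 h5 m' h6
    refine hn₂ hT hX2 hG hS.xd hGc hS.hm hS.zc hS.lam hS.zexc h1 h2 ?_ m' (Exc \ E) ?_ ?_
    · intro u hu huZ hux huc
      rw [disjoint_left]
      intro z hz hzT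
      exact h3 z hzT (hH u hu huZ hux huc hz)
    · have h7 : E ∩ W₂ ⊆ Exc ∩ E := by
        intro z hz
        rw [mem_inter] at hz ⊢
        exact ⟨hS.wE (h4 hz.2), hz.1⟩
      exact ar_covA hp p11 hub h5 (card_le_card h7) (card_sdiff_add_card_inter Exc E) h6
    · intro u hu huE _ huU
      exact absurd (mem_sdiff.2 ⟨hu, huE⟩) huU
  -- coverage without absorption
  have covN : ∀ E T : Finset V, E ∩ nO R (G \ Z) x ⊆ T → T.card ≤ p.a → (∀ z ∈ T, z ∉ H) →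
      ∀ m', Bad.card ≤ m' → Cov R p (γ₀ / 16) X G E x m' := by
    intro E T h1 h2 h3 m' h6
    refine hn₂ hT hX2 hG hS.xd hGc hS.hm hS.zc hS.lam hS.zexc h1 h2 ?_ m' Bad h6 ?_
    · intro u hu huZ hux huc
      rw [disjoint_left]
      intro z hz hzT
      exact h3 z hzT (hH u hu huZ hux huc hz)
    · intro u hu huE hux huU
      exact hS.bad u hu hux huU
  by_cases hNx : N x
  · -- the root is hosted at `x`
    obtain ⟨w, hw1, hw2, hw3⟩ := exists_tl_avoid hT p.a (nI R G x) ∅ (ar_wx hp hS.cx (Nat.zero_le 1))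
    have hwx : ∀ z ∈ w, R z x := fun z hz => (mem_nI.1 (hw2 z hz).1).2
    have hwG : ∀ z ∈ w, z ∈ G := fun z hz => (mem_nI.1 (hw2 z hz).1).1
    have hwc : w.toFinset.card ≤ p.a := (List.toFinset_card_le w).trans hw1.le
    have hcap : ∀ Z₁ : Finset V, (∀ z ∈ Z₁, R z x) → insert x Z₁ ∩ nO R (G \ Z) x ⊆ ∅ := by
      intro Z₁ h z hz
      rw [mem_inter, mem_insert, mem_nO] at hz
      rcases hz.1 with h1 | h1
      · exact absurd (h1 ▸ hz.2.2) (hT.irr _)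
      · exact absurd (h z h1) (hT.asym _ _ hz.2.2)
    have hhost : ∀ (Z₁ : Finset V) (L : List (V × Fd)), PE R F x Z₁ L → (∀ z ∈ Z₁, R z x) → Z₁ ⊆ G → Z₁.card + 1 ≤ p.e →
        (∀ c, (true, c) ∈ F.trees → (x, c) ∈ L) → HostU R p Gd Y X N F x x Z₁ L c := by
      intro Z₁ L h1 h2 h3 h4 h5
      refine ⟨hxX, hxX, hNx, fun h => hT.irr _ (h2 x h), (h3.trans hG).trans hXY, h1, h4, Or.inl rfl, h5 c (hv_mem hvF), ?_⟩
      intro i hi
      rcases (h1.mem hF i hi).1 with h6 | h6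
      · rw [h6]; exact hGd x hxG
      · exact hGd _ (h3 h6)
    by_cases hA : Big p.B F ∧ p.M0 ≤ Bad.card
    · obtain ⟨⟨t, ht, htB⟩, hM⟩ := hA
      obtain ⟨w₂, k1, k2, k3⟩ := exists_tl_avoid hT (p.A0 + p.a) W w.toFinset
        (ar_W hp (hwc.trans (Nat.le_mul_of_pos_left _ Nat.two_pos)) hM hS.wc)
      obtain ⟨Z₁, L, g1, g2, g3, g4⟩ := pe_absorb hT hF (Nat.zero_le _) hab ht (ar_A hp htB) x w w₂ hw3 k3
        hwx (fun z hz => hS.wx z (k2 z hz).1) (fun z hz hz2 => (k2 z hz2).2 (mem_w.2 hz)) (hbF.trans hw1.ge) k1.ge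
      have hZ1 : ∀ z ∈ Z₁, R z x ∧ z ∈ G := by
        intro z hz
        rcases mem_union.1 (g2 hz) with h | h
        · exact ⟨hwx z (mem_w.1 h), hwG z (mem_w.1 h)⟩
        · exact ⟨hS.wx z (k2 z (mem_w.1 h)).1, hS.wG (k2 z (mem_w.1 h)).1⟩
      have hZc : Z₁.card ≤ p.a + (p.A0 + p.a) := by
        refine (card_le_card g2).trans ((card_union_le _ _).trans (add_le_add hwc ?_))
        exact (List.toFinset_card_le w₂).trans k1.le
      refine ⟨x, x, Z₁, L, c, Or.inl rfl, hhost Z₁ L g1 (fun z hz => (hZ1 z hz).1) (fun z hz => (hZ1 z hz).2)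
        (ar_e1 hp hZc) g4, ?_⟩
      refine covA _ ∅ (hcap Z₁ (fun z hz => (hZ1 z hz).1)) (by simp) (by simp) w₂.toFinset
        (fun z hz => (k2 z (mem_w.1 hz)).1) (g3.trans (card_le_card ?_)) _ (hub0 c)
      exact inter_subset_inter_right (subset_insert _ _)
    · obtain ⟨Z₁, L, g1, g2, g3⟩ := pe_block hT F x w hw3 hwx (hbF.trans hw1.ge)
      have hZ1 : ∀ z ∈ Z₁, R z x ∧ z ∈ G := fun z hz => ⟨hwx z (mem_w.1 (g2 hz)), hwG z (mem_w.1 (g2 hz))⟩
      have hZc : Z₁.card ≤ p.a := (card_le_card g2).trans hwc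
      refine ⟨x, x, Z₁, L, c, Or.inl rfl, hhost Z₁ L g1 (fun z hz => (hZ1 z hz).1) (fun z hz => (hZ1 z hz).2)
        (ar_e1 hp (hZc.trans (Nat.le_add_right _ _))) g3, ?_⟩
      refine covN _ ∅ (hcap Z₁ (fun z hz => (hZ1 z hz).1)) (by simp) (by simp) _ ?_
      by_cases hBF : Big p.B F
      · exact ar_m hp (fun h => hA ⟨hBF, h⟩) (hub0 c)
      · have h1 : p.ub F = p.u0 := if_neg hBF
        have h2 : p.ub c = p.u0 + p.g := if_pos (hBig.resolve_left hBF)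
        rw [h1] at p11
        rw [h2]
        exact (card_le_card hS.badE).trans p11
  · -- the root is hosted at `v`
    obtain ⟨v, hvX, hNv, hvx, hvs⟩ := hS.str hNx
    have hvne : v ≠ x := fun e => hT.irr _ (e ▸ hvx)
    obtain ⟨w, hw1, hw2, hw3⟩ := exists_tl_avoid hT p.a (nI R G x) {v}
      (ar_wx hp hS.cx (card_singleton v).le)
    have hwx : ∀ z ∈ w, R z x := fun z hz => (mem_nI.1 (hw2 z hz).1).2
    have hwG : ∀ z ∈ w, z ∈ G := fun z hz => (mem_nI.1 (hw2 z hz).1).1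
    have hwv : ∀ z ∈ w, z ≠ v := fun z hz => by simpa using (hw2 z hz).2
    have hwc : w.toFinset.card ≤ p.a := (List.toFinset_card_le w).trans hw1.le
    obtain ⟨wv, hv1, hv2, hv3⟩ := exists_tl_avoid hT p.a (nI R (Y.filter Gd) v) (H ∪ w.toFinset)
      (ar_wv hp (card_union_le H w.toFinset) hHc hwc hvs.2)
    have hvv : ∀ z ∈ wv, R z v := fun z hz => (mem_nI.1 (hv2 z hz).1).2
    have hvXG : ∀ z ∈ wv, z ∈ Y ∧ Gd z := fun z hz => mem_filter.1 (mem_nI.1 (hv2 z hz).1).1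
    have hvH : ∀ z ∈ wv, z ∉ H := fun z hz h => (hv2 z hz).2 (mem_union_left _ h)
    have hvw : ∀ z ∈ wv, z ∉ w := fun z hz h => (hv2 z hz).2 (mem_union_right _ (mem_w.2 h))
    have hvxne : ∀ z ∈ wv, z ≠ x := fun z hz e => hT.asym _ _ hvx (e ▸ hvv z hz)
    have hwvc : wv.toFinset.card ≤ p.a := (List.toFinset_card_le wv).trans hv1.le
    have hWv : ∀ z ∈ W, R z v := fun z hz => hS.ws z hz v hvX hNv hvs
    have hhost : ∀ (Z₁ : Finset V) (L : List (V × Fd)), PE R F v Z₁ L →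
        (∀ z ∈ Z₁, z = x ∨ z ∈ w ∨ z ∈ wv ∨ z ∈ W) → x ∈ Z₁ → Z₁.card + 1 ≤ p.e → (x, c') ∈ L →
        HostU R p Gd Y X N F v x Z₁ L c' := by
      intro Z₁ L h1 h2 h3 h4 h5
      have h6 : ∀ z ∈ Z₁, z ∈ Y ∧ Gd z ∧ z ≠ v := by
        intro z hz
        rcases h2 z hz with h | h | h | h
        · rw [h]; exact ⟨hXY hxX, hGd x hxG, hvne.symm⟩
        · exact ⟨hXY (hG (hwG z h)), hGd z (hwG z h), hwv z h⟩
        · exact ⟨(hvXG z h).1, (hvXG z h).2, fun e => hT.irr _ (e ▸ hvv z h)⟩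
        · exact ⟨hXY (hG (hS.wG h)), hGd z (hS.wG h), fun e => hT.irr _ (e ▸ hWv z h)⟩
      refine ⟨hvX, hxX, hNv, fun h => (h6 v h).2.2 rfl, fun z hz => (h6 z hz).1, h1, h4, Or.inr h3, h5, ?_⟩
      intro i hi
      rcases (h1.mem hF i hi).1 with h7 | h7
      · rw [h7]; exact hvs.1.1
      · exact (h6 _ h7).2.1
    have hcap : ∀ Z₁ : Finset V, (∀ z ∈ Z₁, z = x ∨ z ∈ w ∨ z ∈ wv ∨ z ∈ W) →
        insert v Z₁ ∩ nO R (G \ Z) x ⊆ wv.toFinset := by
      intro Z₁ h2 z hz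
      rw [mem_inter, mem_insert, mem_nO] at hz
      rcases hz.1 with h1 | h1
      · exact absurd hvx (hT.asym _ _ (h1 ▸ hz.2.2))
      · rcases h2 z h1 with h | h | h | h
        · exact absurd (h ▸ hz.2.2) (hT.irr _)
        · exact absurd (hwx z h) (hT.asym _ _ hz.2.2)
        · exact mem_w.2 h
        · exact absurd (hS.wx z h) (hT.asym _ _ hz.2.2)
    have hvH' : ∀ z ∈ wv.toFinset, z ∉ H := fun z hz => hvH z (mem_w.1 hz)
    have hcardZ : ∀ (Z₁ W₂ : Finset V), W₂.card ≤ p.A0 + p.a → Z₁ ⊆ insert x (w.toFinset ∪ (wv.toFinset ∪ W₂)) →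
        Z₁.card + 1 ≤ p.e := by
      intro Z₁ W₂ h1 h2
      exact ar_e2 hp hwc hwvc h1 ((card_le_card h2).trans ((card_insert_le _ _).trans (Nat.succ_le_succ
        ((card_union_le _ _).trans (Nat.add_le_add_left (card_union_le _ _) _)))))
    by_cases hM : p.M0 ≤ Bad.card
    · obtain ⟨w₂, k1, k2, k3⟩ := exists_tl_avoid hT (p.A0 + p.a) W (w.toFinset ∪ wv.toFinset)
        (ar_W hp ((card_union_le _ _).trans ((Nat.add_le_add hwc hwvc).trans (two_mul p.a).ge)) hM hS.wc)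
      have k2w : ∀ z ∈ w₂, z ∉ w := fun z hz h => (k2 z hz).2 (mem_union_left _ (mem_w.2 h))
      have k2v : ∀ z ∈ w₂, z ∉ wv := fun z hz h => (k2 z hz).2 (mem_union_right _ (mem_w.2 h))
      have k2c : w₂.toFinset.card ≤ p.A0 + p.a := (List.toFinset_card_le w₂).trans k1.le
      by_cases hBF : Big p.B F
      · -- absorption at `v`
        obtain ⟨t, ht, htB⟩ := hBF
        obtain ⟨Z₁, L₁, g1, g2, g3⟩ := pe_block hT c x w hw3 hwx (hbc.trans hw1.ge)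
        have hxZ1 : x ∉ Z₁ := fun h => hT.irr _ (hwx x (mem_w.1 (g2 h)))
        obtain ⟨Z₂, L, q1, q2, q3, q4, q5⟩ := pe_absorb_heavy hT hF (Nat.zero_le _) hab ht
          (ar_A hp htB) hvF v x wv w₂ hv3 k3 hvv (fun z hz => hWv z (k2 z hz).1)
          (fun z hz hz2 => k2v z hz2 hz) (hbF.trans hv1.ge) k1.ge hvx g1 hxZ1
          (fun z hz => ⟨hvxne z hz, fun h => hvw z hz (mem_w.1 (g2 h))⟩)
          (fun z hz => ⟨fun e => hT.irr _ (e ▸ hS.wx z (k2 z hz).1), fun h => k2w z hz (mem_w.1 (g2 h))⟩)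
        have hsub : Z₂ ⊆ insert x (w.toFinset ∪ (wv.toFinset ∪ w₂.toFinset)) := sub_v g2 q2
        have hmem : ∀ z ∈ Z₂, z = x ∨ z ∈ w ∨ z ∈ wv ∨ z ∈ W :=
          mem_of_sub (fun z hz => (k2 z (mem_w.1 hz)).1) hsub
        refine ⟨v, x, Z₂, L, c', Or.inr rfl, hhost Z₂ L q1 hmem (q3 (mem_insert_self _ _)) (hcardZ Z₂ _ k2c hsub)
          (q5 _ (g3 c' (hv_mem hvc))), ?_⟩
        refine covA _ wv.toFinset (hcap Z₂ hmem) hwvc hvH' w₂.toFinset (fun z hz => (k2 z (mem_w.1 hz)).1)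
          (q4.trans (card_le_card ?_)) _ (hub0 c')
        exact inter_subset_inter_right (subset_insert _ _)
      · -- absorption at `x`
        obtain ⟨t, ht, htB⟩ := hBig.resolve_left hBF
        obtain ⟨Z₁, L₁, g1, g2, g3, g4⟩ := pe_absorb hT hc (Nat.zero_le _) hab ht (ar_A hp htB) x w w₂
          hw3 k3 hwx (fun z hz => hS.wx z (k2 z hz).1) (fun z hz hz2 => k2w z hz2 hz) (hbc.trans hw1.ge) k1.ge
        have hZ1 : ∀ z ∈ Z₁, R z x := by
          intro z hz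
          rcases mem_union.1 (g2 hz) with h | h
          · exact hwx z (mem_w.1 h)
          · exact hS.wx z (k2 z (mem_w.1 h)).1
        have hxZ1 : x ∉ Z₁ := fun h => hT.irr _ (hZ1 x h)
        obtain ⟨Z₂, L, q1, q2, q3, q5⟩ := pe_heavy hT hvF v x wv hv3 hvv hvx g1 hxZ1
          (fun z hz => ⟨hvxne z hz, fun h => by
            rcases mem_union.1 (g2 h) with h' | h'
            · exact hvw z hz (mem_w.1 h')
            · exact k2v z (mem_w.1 h') hz⟩) (hbF.trans hv1.ge)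
        have hsub : Z₂ ⊆ insert x (w.toFinset ∪ (wv.toFinset ∪ w₂.toFinset)) := sub_x g2 q2
        have hmem : ∀ z ∈ Z₂, z = x ∨ z ∈ w ∨ z ∈ wv ∨ z ∈ W :=
          mem_of_sub (fun z hz => (k2 z (mem_w.1 hz)).1) hsub
        refine ⟨v, x, Z₂, L, c', Or.inr rfl, hhost Z₂ L q1 hmem (q3 (mem_insert_self _ _)) (hcardZ Z₂ _ k2c hsub)
          (q5 _ (g4 c' (hv_mem hvc))), ?_⟩
        refine covA _ wv.toFinset (hcap Z₂ hmem) hwvc hvH' w₂.toFinset (fun z hz => (k2 z (mem_w.1 hz)).1)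
          (g3.trans (card_le_card ?_)) _ (hub0 c')
        exact inter_subset_inter_right (((subset_insert _ _).trans q3).trans (subset_insert _ _))
    · -- no absorption
      obtain ⟨Z₁, L₁, g1, g2, g3⟩ := pe_block hT c x w hw3 hwx (hbc.trans hw1.ge)
      have hxZ1 : x ∉ Z₁ := fun h => hT.irr _ (hwx x (mem_w.1 (g2 h)))
      obtain ⟨Z₂, L, q1, q2, q3, q5⟩ := pe_heavy hT hvF v x wv hv3 hvv hvx g1 hxZ1
        (fun z hz => ⟨hvxne z hz, fun h => hvw z hz (mem_w.1 (g2 h))⟩) (hbF.trans hv1.ge)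
      have hsub : Z₂ ⊆ insert x (w.toFinset ∪ (wv.toFinset ∪ ∅)) := sub_x (g2.trans subset_union_left) q2
      have hmem : ∀ z ∈ Z₂, z = x ∨ z ∈ w ∨ z ∈ wv ∨ z ∈ W :=
        mem_of_sub (fun z hz => absurd hz (notMem_empty z)) hsub
      refine ⟨v, x, Z₂, L, c', Or.inr rfl, hhost Z₂ L q1 hmem (q3 (mem_insert_self _ _))
        (hcardZ Z₂ ∅ (by simp) hsub) (q5 _ (g3 c' (hv_mem hvc))), ?_⟩
      exact covN _ wv.toFinset (hcap Z₂ hmem) hwvc hvH' _ (ar_m hp hM (hub0 c'))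

end AEB
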