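import Pool.Agent.AEB.HostDefs

/-!
# Theorem B: the ambient versions of the classes and of the hosts (`X ⊆ Y`)
-/

namespace AEB

open Finset AE15 AED
open scoped Classical

variable {V : Type*} {R : V → V → Prop}

/-- the exact class, the in-neighbours of the dominators being counted in the ambient set `Y` -/
def ClBU (R : V → V → Prop) (Gd : V → Prop) (s : ℝ) (p : NP) (m : ℕ) (Y X : Finset V) (N : V → Prop) : Prop :=
  ClD Gd s X N ∧ ∃ U Q : Finset V, U.card ≤ m ∧ Q.card ≤ p.q ∧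
    (∀ u ∈ X, N u ∨ (nI R X u).card < p.c1 ∨ u ∈ U ∨ ∃ v ∈ X, N v ∧ R v u ∧ Weak R Gd p.c0 Y v) ∧
    (∀ u ∈ X, N u ∨ (nI R X u).card < p.c1 ∨ u ∈ U ∨ u ∈ Q ∨ ∃ v ∈ X, N v ∧ R v u ∧ Strong R Gd p.c0 p.c Y v)

theorem clBU_self {Gd : V → Prop} {s : ℝ} {p : NP} {m : ℕ} {X : Finset V} {N : V → Prop} :
    ClBU R Gd s p m X X N ↔ ClB R Gd s p m X N := Iff.rfl

/-- the class needed for the tree with children forest `F`, ambient version -/
def ClU (R : V → V → Prop) (Gd : V → Prop) (s : ℝ) (p : NP) (F : Fd) (Y X : Finset V) (N : V → Prop) : Prop :=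
  ClD Gd s X N ∧ (NN F → ClBU R Gd s p (p.ub F) Y X N)

theorem clU_self {Gd : V → Prop} {s : ℝ} {p : NP} {F : Fd} {X : Finset V} {N : V → Prop} :
    ClU R Gd s p F X X N ↔ Cl R Gd s p F X N := Iff.rfl

/-- as `Host`, but the used vertices may lie in the ambient set `Y` -/
def HostU (R : V → V → Prop) (p : NP) (Gd : V → Prop) (Y X : Finset V) (N : V → Prop) (F : Fd) (y₀ x : V) (Z : Finset V)
    (L : List (V × Fd)) (D : Fd) : Prop :=
  y₀ ∈ X ∧ x ∈ X ∧ N y₀ ∧ y₀ ∉ Z ∧ Z ⊆ Y ∧ PE R F y₀ Z L ∧ Z.card + 1 ≤ p.e ∧ (x = y₀ ∨ x ∈ Z) ∧ (x, D) ∈ L ∧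
    (∀ i ∈ L, Gd i.1)

theorem Host.u {p : NP} {Gd : V → Prop} {Y X : Finset V} (hXY : X ⊆ Y) {N : V → Prop} {F : Fd} {y₀ x : V} {Z : Finset V}
    {L : List (V × Fd)} {D : Fd} (h : Host R p Gd X N F y₀ x Z L D) : HostU R p Gd Y X N F y₀ x Z L D := by
  obtain ⟨h1, h2, h3, h4, h5, h6, h7, h8, h9⟩ := h
  refine ⟨h1, ?_, h2, h3, h4.trans hXY, h5, h6, h7, h8, h9⟩
  rcases h7 with rfl | h7
  · exact h1
  · exact h4 h7

end AEB
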