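import Pool.Agent.AED.Trees
import Pool.Agent.AE15.SuperC

/-!
# Theorem B: heavy children, types of trees, classes (abstract goodness predicate)
-/

namespace AED

/-- the heavy tree of a forest: the first tree of maximal size (`none` for the empty forest) -/
def Fd.hv : Fd → Option (Bool × Fd)
  | .nil => none
  | .node d c s => match s.hv with
    | none => some (d, c)
    | some p => if p.2.size ≤ c.size then some (d, c) else some p

end AED

namespace AEB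

open Finset AE15 AED
open scoped Classical

/-- the first two arcs of the heavy path leave the root -/
def NN (F : Fd) : Prop := ∃ c c', F.hv = some (true, c) ∧ c.hv = some (true, c')

/-- some tree hanging by an arc towards the common vertex has at least `B` vertices -/
def Big (B : ℕ) (F : Fd) : Prop := ∃ c, (false, c) ∈ F.trees ∧ B ≤ c.size + 1

/-- the natural number constants -/
structure NP where
  b : ℕ
  l : ℕ
  a : ℕ
  c : ℕ
  cx : ℕ
  q : ℕ
  g : ℕ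
  A0 : ℕ
  B : ℕ
  r0 : ℕ
  c0 : ℕ
  e : ℕ
  c1 : ℕ
  M0 : ℕ
  u0 : ℕ

/-- the relations between the constants -/
structure NP.OK (p : NP) : Prop where
  hb : 1 ≤ p.b
  ha : 1 ≤ p.a
  hc : 2 ^ p.a + 2 * p.a ^ 2 + p.a + 2 ≤ p.c
  hcx : 2 ^ p.a + 4 * p.a + 8 ≤ p.cx
  hq : 4 * p.c + 2 * p.a ≤ p.q
  hg : p.q + 2 * p.cx ≤ p.g
  hA0 : 2 * p.g ≤ p.A0
  hB : p.A0 + p.a + 1 ≤ p.B
  hr0 : p.b * p.B ≤ p.r0
  hc0 : 2 ^ p.r0 + 2 * (2 * p.c + p.r0) ^ 2 + p.r0 + p.c + 2 ≤ p.c0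
  he : 4 + 2 * p.r0 + 5 * p.a + p.A0 ≤ p.e
  hc1 : p.c0 + p.e + 2 ^ p.r0 + 2 ≤ p.c1
  hM0 : 2 ^ (p.A0 + p.a + 1) + 2 * p.cx + 2 * p.a + 2 ≤ p.M0
  hu0 : p.M0 ≤ p.u0

/-- the allowed number of uncovered vertices -/
noncomputable def NP.ub (p : NP) (F : Fd) : ℕ := if Big p.B F then p.u0 + p.g else p.u0

variable {V : Type*} {R : V → V → Prop}

/-- weak vertices -/
def Weak (R : V → V → Prop) (Gd : V → Prop) (c0 : ℕ) (X : Finset V) (v : V) : Prop :=
  Gd v ∧ c0 ≤ (nI R X v).card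

/-- strong vertices -/
def Strong (R : V → V → Prop) (Gd : V → Prop) (c0 c : ℕ) (X : Finset V) (v : V) : Prop :=
  Weak R Gd c0 X v ∧ c ≤ (nI R (X.filter Gd) v).card

/-- the dense class -/
def ClD (Gd : V → Prop) (s : ℝ) (X : Finset V) (N : V → Prop) : Prop :=
  s * X.card ≤ ((X.filter (fun v => Gd v ∧ N v)).card : ℝ)

/-- the exact class, with at most `m` uncovered vertices -/
def ClB (R : V → V → Prop) (Gd : V → Prop) (s : ℝ) (p : NP) (m : ℕ) (X : Finset V) (N : V → Prop) : Prop :=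
  ClD Gd s X N ∧ ∃ U Q : Finset V, U.card ≤ m ∧ Q.card ≤ p.q ∧
    (∀ u ∈ X, N u ∨ (nI R X u).card < p.c1 ∨ u ∈ U ∨ ∃ v ∈ X, N v ∧ R v u ∧ Weak R Gd p.c0 X v) ∧
    (∀ u ∈ X, N u ∨ (nI R X u).card < p.c1 ∨ u ∈ U ∨ u ∈ Q ∨ ∃ v ∈ X, N v ∧ R v u ∧ Strong R Gd p.c0 p.c X v)

/-- the class needed for the tree with children forest `F` -/
def Cl (R : V → V → Prop) (Gd : V → Prop) (s : ℝ) (p : NP) (F : Fd) (X : Finset V) (N : V → Prop) : Prop :=
  ClD Gd s X N ∧ (NN F → ClB R Gd s p (p.ub F) X N)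

/-- the main statement for the tree with children forest `F`, with `K * |T| + C` vertices -/
def EE (R : V → V → Prop) (κ η s : ℝ) (p : NP) (K C : ℝ) (F : Fd) : Prop :=
  ∀ (X : Finset V) (N : V → Prop), K * (F.size + 1) + C ≤ X.card → Cl R (Good R κ η X) s p F X N → AED.In R F N X

end AEB
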