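import Pool.Agent.AEB.CoreB
import Pool.Agent.AEB.HostDefs

/-!
# The constants
-/

namespace AEB

open Finset AE15 AED
open scoped Classical

/-- the basic constants -/
structure KB (D : ℕ) (ω c η η₁ κ₀ κ₁ κ γ₀ τ s σ₂ μ : ℝ) : Prop where
  hD : 64 ≤ D
  hω : ω = 1 / (2 * D)
  hc : c = ω / 8
  hη : η = ω / 56
  hη₁ : η₁ = c * η / 4
  hκ₀ : κ₀ = η₁ / 64
  hκ₁ : κ₁ = κ₀ ^ 2 / 4
  hκ : κ = c * κ₁ / 4
  hγ₀ : γ₀ = η₁ / 2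
  hτ : τ = η₁ / 8
  hs : s = c * η₁ / 128
  hσ₂ : σ₂ = κ₁ / 8
  hμ : μ = σ₂ / 2

theorem exists_KB {D : ℕ} (hD : 64 ≤ D) : ∃ ω c η η₁ κ₀ κ₁ κ γ₀ τ s σ₂ μ : ℝ, KB D ω c η η₁ κ₀ κ₁ κ γ₀ τ s σ₂ μ :=
  ⟨_, _, _, _, _, _, _, _, _, _, _, _, ⟨hD, rfl, rfl, rfl, rfl, rfl, rfl, rfl, rfl, rfl, rfl, rfl, rfl⟩⟩

theorem KB.num {D : ℕ} {ω c η η₁ κ₀ κ₁ κ γ₀ τ s σ₂ μ : ℝ} (P : KB D ω c η η₁ κ₀ κ₁ κ γ₀ τ s σ₂ μ) :
    0 < ω ∧ ω ≤ 1 / 128 ∧ 0 < c ∧ c ≤ 1 / 1024 ∧ 0 < η ∧ η ≤ 1 / 7168 ∧ 0 < η₁ ∧ 4 * η₁ ≤ c * η ∧ 0 < κ₀ ∧ 0 < κ₁ ∧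
      κ₁ ≤ κ₀ ∧ 0 < κ ∧ κ ≤ κ₁ / 4096 ∧ 0 < s ∧ 0 < γ₀ ∧ 0 < τ ∧ 0 < σ₂ ∧ 0 < μ ∧ κ₁ ≤ η₁ / 64 ∧ κ ≤ 32 * s := by
  obtain ⟨hD, hω, hc, hη, hη₁, hκ₀, hκ₁, hκ, hγ₀, hτ, hs, hσ₂, hμ⟩ := P
  have hD' : (64 : ℝ) ≤ D := by exact_mod_cast hD
  have h1 : 0 < ω := by rw [hω]; positivity
  have h2 : ω ≤ 1 / 128 := by
    rw [hω]
    apply one_div_le_one_div_of_le (by norm_num)
    linarith
  have h3 : 0 < c := by rw [hc]; positivity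
  have h4 : c ≤ 1 / 1024 := by rw [hc]; linarith
  have h5 : 0 < η := by rw [hη]; positivity
  have h6 : η ≤ 1 / 7168 := by rw [hη]; linarith
  have h7 : 0 < η₁ := by rw [hη₁]; positivity
  have h8 : η₁ ≤ 1 := by
    have := mul_le_mul_of_nonneg_right h4 h5.le
    rw [hη₁]; linarith
  have h9 : 0 < κ₀ := by rw [hκ₀]; positivity
  have h10 : 0 < κ₁ := by rw [hκ₁]; positivity
  have h11 : κ₁ ≤ κ₀ := by
    have := mul_le_mul_of_nonneg_right (show κ₀ ≤ 1 by linarith) h9.le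
    rw [hκ₁, sq]; linarith
  have h12 : c * κ₁ ≤ 1 / 1024 * κ₁ := mul_le_mul_of_nonneg_right h4 h10.le
  have h13 : κ₁ ≤ η₁ / 64 := by linarith
  have h14 : c * κ₁ ≤ c * (η₁ / 64) := mul_le_mul_of_nonneg_left h13 h3.le
  have h15 : 0 < c * η₁ := by positivity
  refine ⟨h1, h2, h3, h4, h5, h6, h7, by linarith, h9, h10, h11, by rw [hκ]; positivity, by rw [hκ]; linarith,
    by rw [hs]; positivity, by rw [hγ₀]; positivity, by rw [hτ]; positivity, by rw [hσ₂]; positivity,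
    by rw [hμ, hσ₂]; positivity, h13, by rw [hκ, hs]; linarith⟩

/-- the constants which depend on the ambient robustness `κU` -/
structure KU (p : NP) (c κU σ ε : ℝ) : Prop where
  hσ : σ = κU ^ 2 / (400 * (1 + p.c0 + p.c))
  hε : ε = c * σ / 8

theorem exists_KU (p : NP) (c κU : ℝ) : ∃ σ ε : ℝ, KU p c κU σ ε := ⟨_, _, ⟨rfl, rfl⟩⟩

theorem KU.num {p : NP} {c κU σ ε κ₁ : ℝ} (P : KU p c κU σ ε) (hc : 0 < c) (hc1 : c ≤ 1) (hU : 0 < κU)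
    (hU1 : κU ≤ κ₁ / 4096) (hκ₁ : κ₁ ≤ 1) : 0 < σ ∧ 0 < ε ∧ (1 + (p.c0 : ℝ) + p.c) * σ = κU ^ 2 / 400 ∧
      σ ≤ κU ^ 2 / 400 ∧ κU ^ 2 ≤ κ₁ / 4096 ∧ ε ≤ σ / 8 := by
  obtain ⟨hσ, hε⟩ := P
  have h0 : (0 : ℝ) ≤ p.c0 := by positivity
  have h1 : (0 : ℝ) ≤ p.c := by positivity
  have h2 : 0 < σ := by rw [hσ]; positivity
  have h3 : (1 + (p.c0 : ℝ) + p.c) * σ = κU ^ 2 / 400 := by
    rw [hσ]
    field_simp
  have h4 : σ ≤ κU ^ 2 / 400 := by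
    rw [← h3]
    have : 0 ≤ ((p.c0 : ℝ) + p.c) * σ := by positivity
    linarith
  have h5 : κU ^ 2 ≤ κ₁ / 4096 := by
    have := mul_le_mul_of_nonneg_right (show κU ≤ 1 by linarith) hU.le
    rw [sq]; linarith
  have h6 : c * σ ≤ 1 * σ := mul_le_mul_of_nonneg_right hc1 h2.le
  exact ⟨h2, by rw [hε]; positivity, h3, h4, h5, by rw [hε]; linarith⟩

/-- finitely many linear lower bounds hold for all large `n` -/
theorem exists_big (a : List (ℝ × ℝ)) (ha : ∀ q ∈ a, 0 < q.2) : ∃ n₀ : ℕ, ∀ n : ℕ, n₀ ≤ n → ∀ q ∈ a,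
    q.1 ≤ q.2 * n := by
  induction a with
  | nil => exact ⟨0, by simp⟩
  | cons q a ih =>
    obtain ⟨n₀, h₀⟩ := ih (fun r hr => ha r (List.mem_cons_of_mem _ hr))
    refine ⟨max n₀ ⌈q.1 / q.2⌉₊, fun n hn r hr => ?_⟩
    rcases List.mem_cons.1 hr with rfl | hr
    · have h1 : r.1 / r.2 ≤ n := by
        refine (Nat.le_ceil _).trans ?_
        exact_mod_cast (le_max_right n₀ ⌈r.1 / r.2⌉₊).trans hn
      have h2 : 0 < r.2 := ha r List.mem_cons_self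
      rw [div_le_iff₀ h2] at h1
      linarith
    · exact h₀ n ((le_max_left _ _).trans hn) r hr

variable {V : Type*} {R : V → V → Prop}

/-- monotonicity of goodness -/
theorem Good.gdU {κ₁ η₁ κU η : ℝ} {U X : Finset V} {v : V} (h : Good R κ₁ η₁ X v) (hXU : X ⊆ U)
    (hκ : κU * U.card ≤ κ₁ * X.card) (hη : η₁ ≤ η) : GdU R κU η U X v := by
  intro C hC hvC hcl
  have h1 : X \ C = X \ (C ∩ X) := by
    ext w
    simp only [mem_sdiff, mem_inter]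
    tauto
  rw [h1]
  refine (h (C ∩ X) inter_subset_right ?_ ?_).trans (mul_le_mul_of_nonneg_right hη (Nat.cast_nonneg _))
  · intro w hw
    rw [mem_inter]
    exact ⟨hvC (nO_mono hXU hw), nO_sub hw⟩
  · intro z hz hzC
    have h2 : z ∉ C := fun h => hzC (mem_inter.2 ⟨h, hz⟩)
    have h3 := hcl z (hXU hz) h2
    have h4 : ((nI R (C ∩ X) z).card : ℝ) ≤ (nI R C z).card := by
      exact_mod_cast card_le_card (nI_mono inter_subset_left)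
    linarith

end AEB
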