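import Pool.Agent.AEB.Defs

/-!
# Theorem B: items at hosts
-/

namespace AEB

open Finset AE15 AED
open scoped Classical

theorem Cl_of_Ok {V : Type*} {R : V → V → Prop} {κ η s : ℝ} (p : NP) (F : Fd) {S : Finset V} {N : V → Prop}
    (h1 : ClD (Good R κ η S) s S N)
    (h2 : ∀ u ∈ S, N u ∨ (nI R S u).card < p.c1 ∨ ∃ v ∈ S, N v ∧ R v u ∧ Strong R (Good R κ η S) p.c0 p.c S v) :
    Cl R (Good R κ η S) s p F S N := by
  refine ⟨h1, fun _ => ⟨h1, ∅, ∅, by simp, by simp, ?_, ?_⟩⟩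
  · intro u hu
    rcases h2 u hu with h | h | ⟨v, hv, hN, hR, hS⟩
    · exact Or.inl h
    · exact Or.inr (Or.inl h)
    · exact Or.inr (Or.inr (Or.inr ⟨v, hv, hN, hR, hS.1⟩))
  · intro u hu
    rcases h2 u hu with h | h | h
    · exact Or.inl h
    · exact Or.inr (Or.inl h)
    · exact Or.inr (Or.inr (Or.inr (Or.inr h)))

private theorem embI_of_fin_aux {V : Type*} {R : V → V → Prop} (L : List (V × Fd)) (S : Fin L.length → Finset V)
    (hS : ∀ i, ∃ x B, R (L.get i).1 x ∧ x ∉ B ∧ S i = insert x B ∧ Emb R (L.get i).2 x B)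
    (hd : ∀ i j, i ≠ j → Disjoint (S i) (S j)) : EmbI R L (univ.biUnion S) := by
  induction L with
  | nil =>
    change univ.biUnion S = ∅
    ext y
    simp only [mem_biUnion, mem_univ, true_and, notMem_empty, iff_false, not_exists]
    intro i
    exact i.elim0
  | cons p L ih =>
    refine ⟨S ⟨0, Nat.succ_pos _⟩, univ.biUnion (fun i : Fin L.length => S i.succ), ?_, ?_, hS ⟨0, Nat.succ_pos _⟩, ?_⟩
    · rw [disjoint_biUnion_right]
      intro i _
      exact hd _ _ (by intro h; simp [Fin.ext_iff] at h)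
    · ext y
      simp only [mem_biUnion, mem_univ, true_and, mem_union]
      constructor
      · rintro ⟨i, hi⟩
        rcases Fin.eq_zero_or_eq_succ i with rfl | ⟨j, rfl⟩
        · exact Or.inl hi
        · exact Or.inr ⟨j, hi⟩
      · rintro (h | ⟨j, hj⟩)
        · exact ⟨_, h⟩
        · exact ⟨_, hj⟩
    · exact ih (fun i => S i.succ) (fun i => hS i.succ) (fun i j hij => hd _ _ (by simpa using hij))

/-- **Items at hosts** -/
theorem host_itemsB {ε c : ℝ} (hε : 0 < ε) (hε1 : ε ≤ 1) (hc : 0 < c) (m m₁ : ℕ) : ∃ n₁ : ℕ,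
    ∀ {V : Type} {R : V → V → Prop} (A : Finset V) (𝓕 : Finset (Finset V)), n₁ ≤ A.card → 𝓕.card ≤ A.card ^ 5 →
      ∀ (p : NP) (κ η s K C : ℝ), 0 ≤ K → 0 ≤ C → 0 < η → 14 * η ≤ 1 → ∀ L : List (V × Fd), L.length ≤ m →
        (∀ q ∈ L, OkB R κ η s p A 𝓕 ε m₁ (R q.1)) → (∀ q ∈ L, EE R κ η s p K C q.2) →
        (K * isz L + m * C) / (1 - 7 * η) + m * m₁ ≤ (1 - 2 * c) * A.card →
        ∃ S Q : Finset V, S ⊆ A ∧ Q ⊆ A ∧ Disjoint S Q ∧ EmbI R L S ∧ c * A.card ≤ Q.card ∧ Rep A 𝓕 ε Q := by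
  obtain ⟨n₁, hn₁⟩ := exists_pieces hε hε1 hc m
  refine ⟨n₁, ?_⟩
  intro V R A 𝓕 hA hF p κ η s K C hK hC hη hη1 L hLm hOk hEE hsz
  have h5 : 0 < 1 - 7 * η := by linarith
  set t : Fin L.length → ℝ := fun i => (K * ((L.get i).2.size + 1) + C) / (1 - 7 * η) + m₁ with ht
  have ht0 : ∀ i, 0 ≤ t i := fun i => by
    simp only [ht]
    positivity
  have hsum : ∑ i, t i ≤ (1 - 2 * c) * A.card := by
    refine le_trans ?_ hsz
    simp only [ht]
    rw [Finset.sum_add_distrib, ← Finset.sum_div, Finset.sum_add_distrib, ← Finset.mul_sum, Finset.sum_const,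
      Finset.sum_const, card_univ, Fintype.card_fin, nsmul_eq_mul, nsmul_eq_mul]
    have h6 : ∑ i : Fin L.length, (((L.get i).2.size : ℝ) + 1) = (isz L : ℝ) := by
      have h7 : isz L = ∑ i : Fin L.length, ((L.get i).2.size + 1) := by
        rw [isz, ← List.sum_ofFn]
        congr 1
        apply List.ext_getElem
        · simp
        · intro i h8 h9
          simp
      rw [h7]
      push_cast
      rfl
    rw [h6]
    have h8 : (L.length : ℝ) ≤ m := by exact_mod_cast hLm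
    have h9 : (0 : ℝ) ≤ m₁ := Nat.cast_nonneg _
    apply add_le_add
    · apply div_le_div_of_nonneg_right _ h5.le
      nlinarith
    · exact mul_le_mul_of_nonneg_right h8 h9
  obtain ⟨P, Q, hPA, hPne, hPd, hPQ, hQA, hPs, hPR, hQc, hQR⟩ := hn₁ A 𝓕 hA hF L.length t hLm ht0 hsum
  have key : ∀ i : Fin L.length, ∃ S ⊆ P i,
      ∃ x B, R (L.get i).1 x ∧ x ∉ B ∧ S = insert x B ∧ Emb R (L.get i).2 x B := by
    intro i
    have hi : L.get i ∈ L := List.get_mem L i
    have h7 := hPs i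
    simp only [ht] at h7
    have h8 : (0 : ℝ) ≤ (K * ((L.get i).2.size + 1) + C) / (1 - 7 * η) := by positivity
    have h9 : m₁ ≤ (P i).card := by
      have : (m₁ : ℝ) ≤ (P i).card := by linarith
      exact_mod_cast this
    obtain ⟨P', hP', hcard, hD, hcov⟩ := hOk _ hi (P i) (hPA i) h9 (hPR i)
    have h6 : K * ((L.get i).2.size + 1) + C ≤ P'.card := by
      refine le_trans ?_ hcard
      have h10 : (K * ((L.get i).2.size + 1) + C) / (1 - 7 * η) ≤ (P i).card := by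
        have : (0 : ℝ) ≤ m₁ := Nat.cast_nonneg _
        linarith
      rw [div_le_iff₀ h5] at h10
      linarith
    obtain ⟨x, hx, B, hB, hxB, hN, hE⟩ := hEE _ hi P' _ h6 (Cl_of_Ok p _ hD hcov)
    exact ⟨insert x B, insert_subset (hP' hx) (hB.trans hP'), x, B, hN, hxB, rfl, hE⟩
  choose S hSP hSE using key
  have hSd : ∀ i j, i ≠ j → Disjoint (S i) (S j) := fun i j hij =>
    disjoint_of_subset_left (hSP i) (disjoint_of_subset_right (hSP j) (hPd i j hij))
  refine ⟨univ.biUnion S, Q, ?_, hQA, ?_, embI_of_fin_aux L S hSE hSd, hQc, hQR⟩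
  · rw [biUnion_subset]
    exact fun i _ => (hSP i).trans (hPA i)
  · rw [disjoint_biUnion_left]
    exact fun i _ => disjoint_of_subset_left (hSP i) (hPQ i)

end AEB
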