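import Pool.Agent.AEB.Defs
import Pool.Agent.AE15.Host

/-!
# Pieces at hosts

Representative sets can be used for the items at a super vertex: the class holds there, up to a small part, with
every vertex of large in-degree dominated by a strong vertex.
-/

namespace AEB

open Finset AE15 AED
open scoped Classical

variable {V : Type*} {R : V → V → Prop}

private theorem family_size_aux {x : ℕ} (h : 32 ≤ x) : 3 + x + 2 * (x * (x + 1)) ≤ 7 * x ^ 2 := by nlinarith

theorem piece_lemmaB (hT : AE32.Tour R) (p : NP) {X Y : Finset V} {y : V} {κ η s κ₁ η₁ τ σ₂ μ ε : ℝ} {m : ℕ}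
    (hY : Y ⊆ X) (hXY : ((X \ Y).card : ℝ) ≤ 5 * η * X.card) (hS : SuperG R κ₁ η₁ τ Y y)
    (hκ : 0 < κ) (hη : 0 < η) (hη' : η ≤ 1 / 40) (hκ₁ : 0 < κ₁) (hκ₁' : κ₁ ≤ 1) (hη₁ : 0 < η₁) (hσ₂ : 0 < σ₂)
    (hμ : 0 < μ) (hε : 0 < ε) (h1 : 2 * σ₂ ≤ τ) (h2 : 3 * σ₂ + 2 * ε ≤ η) (h3 : 2 * μ ≤ σ₂) (h4 : 8 * ε ≤ σ₂)
    (h5 : 4 ≤ σ₂ * X.card) (h6 : κ ≤ κ₁ / 2) (h7 : 8 * σ₂ ≤ κ₁) (h8 : 4 * η₁ ≤ η) (h9 : ε ≤ η₁)
    (h10 : s ≤ τ / 2) (hm : 16 * ((p.c : ℝ) + p.c0 + 2) ≤ σ₂ * m) :
    ∃ 𝓕 : Finset (Finset V), 𝓕.card ≤ 7 * X.card ^ 2 ∧ ∀ A ⊆ X, y ∉ A → ((X \ A).card : ℝ) ≤ μ * X.card →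
      OkB R κ η s p A 𝓕 ε m (R y) := by
  obtain ⟨hS, hGy⟩ := hS
  obtain ⟨n, hnd⟩ : ∃ n : ℝ, n = (X.card : ℝ) := ⟨_, rfl⟩
  have hn32 : 32 ≤ n := by
    rw [← hnd] at h5
    by_contra hc
    push Not at hc
    have : σ₂ * n < 1 / 8 * 32 := by
      have h10 : σ₂ ≤ 1 / 8 := by linarith
      have h11 : 0 ≤ n := by rw [hnd]; exact Nat.cast_nonneg _
      have h12 : σ₂ * n ≤ 1 / 8 * n := mul_le_mul_of_nonneg_right h10 h11
      linarith
    linarith
  have hn0 : 0 < n := by linarith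
  have hτ0 : 0 < τ := by linarith
  -- the size of `Y`
  have hYc : (X.card : ℝ) = (X \ Y).card + Y.card := by exact_mod_cast (card_sdiff_add_card_eq_card hY).symm
  have hYn : (1 - 5 * η) * n ≤ Y.card := by
    rw [← hnd] at hYc hXY
    linarith
  have hYn' : (Y.card : ℝ) ≤ n := by rw [hnd]; exact_mod_cast card_le_card hY
  have hY9 : 7 / 8 * n ≤ Y.card := (mul_le_mul_of_nonneg_right (by linarith) hn0.le).trans hYn
  -- the low vertices
  set j : ℕ := ⌊σ₂ * n⌋₊ with hj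
  have hσn : 0 ≤ σ₂ * n := by positivity
  have hj1 : (j : ℝ) ≤ σ₂ * n := Nat.floor_le hσn
  have hj2 : σ₂ * n < j + 1 := Nat.lt_floor_add_one _
  set Low := (nI R Y y).filter (fun u => (dom R κ₁ η₁ Y y u).card ≤ j) with hLow
  have hLowY : Low ⊆ Y := (filter_subset _ _).trans nI_sub
  have hLowc : (Low.card : ℝ) ≤ 2 * (σ₂ * n) := by
    have h10 : Low.card ≤ 2 * j := by
      apply hS.2 j
      have : 2 * σ₂ * (Y.card : ℝ) ≤ τ * Y.card := mul_le_mul_of_nonneg_right h1 (Nat.cast_nonneg _)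
      have h13 : n ≤ 2 * (Y.card : ℝ) := by linarith
      have h14 := mul_le_mul_of_nonneg_left h13 hσ₂.le
      linarith
    have h11 : (Low.card : ℝ) ≤ 2 * j := by exact_mod_cast h10
    linarith
  -- the good out-neighbours
  set Gy := Y.filter (fun w => R y w ∧ Good R κ₁ η₁ Y w) with hGyd
  have hGyY : Gy ⊆ Y := filter_subset _ _
  -- the family
  obtain ⟨FF, hF1, hF2, hF3⟩ := exists_family R κ₁ η₁ Y
  refine ⟨insert Gy (insert Y (insert (X \ Low) (Y.image (dom R κ₁ η₁ Y y) ∪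
    (FF ∪ FF.image (fun F => X \ F))))), ?_, ?_⟩
  · have hn32' : 32 ≤ X.card := by
      rw [hnd] at hn32
      exact_mod_cast hn32
    have hYX : Y.card ≤ X.card := card_le_card hY
    have c1 : (Y.image (dom R κ₁ η₁ Y y)).card ≤ X.card := card_image_le.trans hYX
    have c2 : (FF.image (fun F => X \ F)).card ≤ FF.card := card_image_le
    have c3 : FF.card ≤ X.card * (X.card + 1) := hF1.trans (Nat.mul_le_mul hYX (by omega))
    have c4 := card_union_le FF (FF.image (fun F => X \ F))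
    have c5 := card_union_le (Y.image (dom R κ₁ η₁ Y y)) (FF ∪ FF.image (fun F => X \ F))
    have c6 := card_insert_le (X \ Low) (Y.image (dom R κ₁ η₁ Y y) ∪ (FF ∪ FF.image (fun F => X \ F)))
    have c7 := card_insert_le Y (insert (X \ Low) (Y.image (dom R κ₁ η₁ Y y) ∪ (FF ∪ FF.image (fun F => X \ F))))
    have c7' := card_insert_le Gy (insert Y (insert (X \ Low) (Y.image (dom R κ₁ η₁ Y y) ∪
      (FF ∪ FF.image (fun F => X \ F)))))
    have c8 : 3 + X.card + 2 * (X.card * (X.card + 1)) ≤ 7 * X.card ^ 2 :=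
      family_size_aux hn32'
    omega
  intro A hA hyA hXA P hPA hPm hrep
  set 𝓕 := insert Gy (insert Y (insert (X \ Low) (Y.image (dom R κ₁ η₁ Y y) ∪
    (FF ∪ FF.image (fun F => X \ F))))) with h𝓕
  have hPm' : (m : ℝ) ≤ P.card := by exact_mod_cast hPm
  have hcc : (0 : ℝ) ≤ (p.c : ℝ) + p.c0 := by positivity
  have hp0 : (0 : ℝ) < P.card := by
    have h11 : 0 < σ₂ * m := by linarith
    have h12 : (0 : ℝ) < m := (mul_pos_iff_of_pos_left hσ₂).1 h11
    linarith
  have hPne : P.Nonempty := card_pos.1 (by exact_mod_cast hp0)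
  have hA15 : 15 * (X.card : ℝ) ≤ 16 * A.card := by
    have h10 : (X.card : ℝ) = (X \ A).card + A.card := by exact_mod_cast (card_sdiff_add_card_eq_card hA).symm
    rw [← hnd] at hXA h10 ⊢
    have h11 : μ * n ≤ 1 / 16 * n := mul_le_mul_of_nonneg_right (by linarith) hn0.le
    linarith
  have hlow : ∀ F ∈ 𝓕, F ⊆ X → ((F.card : ℝ) - (μ + ε) * n) * P.card ≤ n * (F ∩ P).card := by
    intro F hF hFX
    rw [hnd]
    exact hrep.lower hA hXA hPA hPne hF hFX
  have hupp : ∀ F, X \ F ∈ 𝓕 → 15 * n * ((F ∩ P).card : ℝ) ≤ (16 * F.card + 15 * ε * n) * P.card := by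
    intro F hF
    rw [hnd]
    exact hrep.upper hA hA15 hPA hPne hF
  -- the part of `P` in `Low` and outside `Y`
  have hPLow : ((Low ∩ P).card : ℝ) ≤ (32 / 15 * σ₂ + ε) * P.card := by
    have h10 := hupp Low (by rw [h𝓕]; simp)
    have h11 : (16 * (Low.card : ℝ) + 15 * ε * n) * P.card ≤ (32 * (σ₂ * n) + 15 * ε * n) * P.card :=
      mul_le_mul_of_nonneg_right (by linarith) hp0.le
    have h12 : 15 * n * ((Low ∩ P).card : ℝ) ≤ 15 * n * ((32 / 15 * σ₂ + ε) * P.card) := by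
      refine (h10.trans h11).trans (le_of_eq ?_)
      ring
    exact le_of_mul_le_mul_left h12 (by positivity)
  have hPY : ((P \ Y).card : ℝ) ≤ (5 * η + μ + ε) * P.card := by
    have h10 := hlow Y (by rw [h𝓕]; simp) hY
    have h11 : ((P \ Y).card : ℝ) + (Y ∩ P).card = P.card := by
      rw [inter_comm]
      exact_mod_cast card_sdiff_add_card_inter P Y
    have h12 : ((1 - 5 * η) * n - (μ + ε) * n) * P.card ≤ n * (Y ∩ P).card :=
      (mul_le_mul_of_nonneg_right (by linarith) hp0.le).trans h10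
    have h13 : n * ((1 - 5 * η - μ - ε) * P.card) ≤ n * ((Y ∩ P).card : ℝ) := by
      refine le_trans (le_of_eq ?_) h12
      ring
    have h14 := le_of_mul_le_mul_left h13 hn0
    linarith
  set P' := (P ∩ Y) \ Low with hP'
  have hP'P : P' ⊆ P := sdiff_subset.trans inter_subset_left
  have hP'Y : P' ⊆ Y := sdiff_subset.trans inter_subset_right
  have hP'c : (1 - 6 * η) * (P.card : ℝ) ≤ P'.card := by
    have h10 : P.card ≤ P'.card + (P \ Y).card + (Low ∩ P).card := by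
      have h11 : P ⊆ P' ∪ (P \ Y) ∪ (Low ∩ P) := by
        intro x hx
        by_cases hxY : x ∈ Y
        · by_cases hxL : x ∈ Low
          · exact mem_union_right _ (mem_inter.2 ⟨hxL, hx⟩)
          · exact mem_union_left _ (mem_union_left _ (mem_sdiff.2 ⟨mem_inter.2 ⟨hx, hxY⟩, hxL⟩))
        · exact mem_union_left _ (mem_union_right _ (mem_sdiff.2 ⟨hx, hxY⟩))
      refine (card_le_card h11).trans ((card_union_le _ _).trans (Nat.add_le_add_right (card_union_le _ _) _))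
    have h12 : (P.card : ℝ) ≤ P'.card + (P \ Y).card + (Low ∩ P).card := by exact_mod_cast h10
    have h13 : (5 * η + μ + ε) * (P.card : ℝ) + (32 / 15 * σ₂ + ε) * P.card ≤ 6 * η * P.card := by
      rw [← add_mul]
      exact mul_le_mul_of_nonneg_right (by linarith) hp0.le
    linarith
  have hP'le : (P'.card : ℝ) ≤ P.card := by exact_mod_cast card_le_card hP'P
  -- goodness is transferred
  have hgoodP : ∀ g ∈ Y, Good R κ₁ η₁ Y g → Good R κ η P' g := by
    refine hF3 P' hP'Y κ η ?_ ?_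
    · intro F hF hFc
      have h10 := hlow F (by
        rw [h𝓕, mem_insert, mem_insert, mem_insert, mem_union, mem_union]
        exact Or.inr (Or.inr (Or.inr (Or.inr (Or.inl hF))))) ((hF2 F hF).trans hY)
      have h11 : ((F ∩ P).card : ℝ) ≤ (F ∩ P').card + (Low ∩ P).card := by
        have h12 : F ∩ P ⊆ (F ∩ P') ∪ (Low ∩ P) := by
          intro x hx
          rw [mem_inter] at hx
          rw [mem_union, mem_inter, mem_inter, hP', mem_sdiff, mem_inter]
          by_cases hxL : x ∈ Low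
          · exact Or.inr ⟨hxL, hx.2⟩
          · exact Or.inl ⟨hx.1, ⟨hx.2, hF2 F hF hx.1⟩, hxL⟩
        exact_mod_cast (card_le_card h12).trans (card_union_le _ _)
      have h12 : κ₁ * (7 / 8 * n) ≤ F.card := (mul_le_mul_of_nonneg_left hY9 hκ₁.le).trans hFc
      have h13 : n * ((7 / 8 * κ₁ - μ - ε) * P.card) ≤ n * ((F ∩ P).card : ℝ) := by
        refine le_trans (le_of_eq ?_) (le_trans (mul_le_mul_of_nonneg_right (sub_le_sub_right h12 _) hp0.le) h10)
        ring
      have h14 := le_of_mul_le_mul_left h13 hn0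
      have h15 : κ * (P'.card : ℝ) ≤ κ₁ / 2 * P.card :=
        (mul_le_mul_of_nonneg_left hP'le hκ.le).trans (mul_le_mul_of_nonneg_right h6 hp0.le)
      have h16 : κ₁ / 2 * (P.card : ℝ) ≤ (7 / 8 * κ₁ - μ - ε - (32 / 15 * σ₂ + ε)) * P.card :=
        mul_le_mul_of_nonneg_right (by linarith) hp0.le
      have h17 : (7 / 8 * κ₁ - μ - ε - (32 / 15 * σ₂ + ε)) * (P.card : ℝ) =
        (7 / 8 * κ₁ - μ - ε) * P.card - (32 / 15 * σ₂ + ε) * P.card := by ring
      linarith
    · intro F hF hFc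
      have h10 := hupp F (by
        rw [h𝓕, mem_insert, mem_insert, mem_insert, mem_union, mem_union]
        exact Or.inr (Or.inr (Or.inr (Or.inr (Or.inr (mem_image_of_mem _ hF))))))
      have h11 : (F.card : ℝ) ≤ η₁ * n := hFc.trans (mul_le_mul_of_nonneg_left hYn' hη₁.le)
      have h12 : 15 * n * ((F ∩ P).card : ℝ) ≤ 15 * n * ((31 / 15 * η₁) * P.card) := by
        refine h10.trans ?_
        have h13 : 16 * (F.card : ℝ) + 15 * ε * n ≤ 31 * η₁ * n := by
          have h14 : ε * n ≤ η₁ * n := mul_le_mul_of_nonneg_right h9 hn0.le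
          linarith
        refine (mul_le_mul_of_nonneg_right h13 hp0.le).trans (le_of_eq ?_)
        ring
      have h13 := le_of_mul_le_mul_left h12 (by positivity : (0 : ℝ) < 15 * n)
      have h14 : ((F ∩ P').card : ℝ) ≤ (F ∩ P).card := by
        exact_mod_cast card_le_card (inter_subset_inter (Subset.refl _) hP'P)
      have h15 : (31 / 15 * η₁) * (P.card : ℝ) ≤ η * P'.card := by
        have h16 : (17 / 20) * (P.card : ℝ) ≤ P'.card :=
          (mul_le_mul_of_nonneg_right (by linarith) hp0.le).trans hP'c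
        have h17 : η * (17 / 20 * (P.card : ℝ)) ≤ η * P'.card := mul_le_mul_of_nonneg_left h16 hη.le
        have h18 : (31 / 15 * η₁) * (P.card : ℝ) ≤ (17 / 20 * η) * P.card :=
          mul_le_mul_of_nonneg_right (by linarith) hp0.le
        linarith
      linarith
  -- out-neighbours of `y` are not low
  have hnl : ∀ w, R y w → w ∉ Low := by
    intro w hyw h11
    exact hT.asym _ _ hyw (mem_nI.1 (mem_filter.1 h11).1).2
  have hinP' : ∀ w ∈ P, w ∈ Y → R y w → w ∈ P' := by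
    intro w hw hwY hyw
    exact mem_sdiff.2 ⟨mem_inter.2 ⟨hw, hwY⟩, hnl w hyw⟩
  refine ⟨P', hP'P, ?_, ?_, ?_⟩
  · refine le_trans (mul_le_mul_of_nonneg_right ?_ hp0.le) hP'c
    linarith
  · -- the dense class
    have h11 := hlow Gy (by rw [h𝓕]; simp) (hGyY.trans hY)
    have h12 : τ * (7 / 8 * n) ≤ Gy.card := (mul_le_mul_of_nonneg_left hY9 hτ0.le).trans hGy
    have h13 : n * ((7 / 8 * τ - μ - ε) * P.card) ≤ n * ((Gy ∩ P).card : ℝ) := by
      refine le_trans (le_of_eq ?_) (le_trans (mul_le_mul_of_nonneg_right (sub_le_sub_right h12 _) hp0.le) h11)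
      ring
    have h14 := le_of_mul_le_mul_left h13 hn0
    have h15 : Gy ∩ P ⊆ P'.filter (fun v => Good R κ η P' v ∧ R y v) := by
      intro w hw
      rw [mem_inter, hGyd, mem_filter] at hw
      obtain ⟨⟨hwY, hyw, hwg⟩, hwP⟩ := hw
      exact mem_filter.2 ⟨hinP' w hwP hwY hyw, hgoodP w hwY hwg, hyw⟩
    have h16 : ((Gy ∩ P).card : ℝ) ≤ (P'.filter (fun v => Good R κ η P' v ∧ R y v)).card := by
      exact_mod_cast card_le_card h15
    have h17 : s * (P'.card : ℝ) ≤ τ / 2 * P.card :=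
      (mul_le_mul_of_nonneg_right h10 (Nat.cast_nonneg _)).trans (mul_le_mul_of_nonneg_left hP'le (by linarith))
    have h18 : τ / 2 * (P.card : ℝ) ≤ (7 / 8 * τ - μ - ε) * P.card :=
      mul_le_mul_of_nonneg_right (by linarith) hp0.le
    unfold ClD
    linarith
  intro u hu
  have huP := hP'P hu
  have huY := hP'Y hu
  have huL : u ∉ Low := (mem_sdiff.1 hu).2
  by_cases hyu : R y u
  · exact Or.inl hyu
  right
  right
  have huy : R u y := by
    rcases hT.tot u y (fun e => hyA (by rw [← e]; exact hPA huP)) with h10 | h10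
    · exact h10
    · exact absurd h10 hyu
  have hdom : j < (dom R κ₁ η₁ Y y u).card := by
    by_contra hc
    push Not at hc
    exact huL (mem_filter.2 ⟨mem_nI.2 ⟨huY, huy⟩, hc⟩)
  have hdX : dom R κ₁ η₁ Y y u ⊆ X := (filter_subset _ _).trans hY
  have hd1 := hlow (dom R κ₁ η₁ Y y u) (by
    rw [h𝓕, mem_insert, mem_insert, mem_insert, mem_union]
    exact Or.inr (Or.inr (Or.inr (Or.inl (mem_image_of_mem _ huY))))) hdX
  have hD : 3 / 8 * σ₂ * P.card ≤ ((dom R κ₁ η₁ Y y u ∩ P).card : ℝ) := by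
    have h10 : ((j : ℝ) + 1) ≤ (dom R κ₁ η₁ Y y u).card := by exact_mod_cast hdom
    have h11 : 3 / 8 * σ₂ * n ≤ ((dom R κ₁ η₁ Y y u).card : ℝ) - (μ + ε) * n := by
      have h12 : (μ + ε) * n ≤ (5 / 8 * σ₂) * n := mul_le_mul_of_nonneg_right (by linarith) hn0.le
      linarith
    have h12 : n * (3 / 8 * σ₂ * P.card) ≤ n * ((dom R κ₁ η₁ Y y u ∩ P).card : ℝ) := by
      refine le_trans (le_of_eq ?_) ((mul_le_mul_of_nonneg_right h11 hp0.le).trans hd1)
      ring
    exact le_of_mul_le_mul_left h12 hn0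
  set D := dom R κ₁ η₁ Y y u ∩ P with hDd
  have hDc : 2 * (p.c + p.c0) < D.card := by
    have h11 : σ₂ * (m : ℝ) ≤ σ₂ * P.card := mul_le_mul_of_nonneg_left hPm' hσ₂.le
    have h12 : 2 * ((p.c : ℝ) + p.c0) < D.card := by linarith
    exact_mod_cast h12
  have hDmem : ∀ w ∈ D, w ∈ P' ∧ R y w ∧ R w u ∧ Good R κ η P' w := by
    intro w hw
    rw [hDd, mem_inter, mem_dom] at hw
    obtain ⟨⟨hwY, hyw, hwu, hwg⟩, hwP⟩ := hw
    exact ⟨hinP' w hwP hwY hyw, hyw, hwu, hgoodP w hwY hwg⟩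
  have hlowD := card_low_in hT (p.c + p.c0) D
  obtain ⟨d, hdD, hdl⟩ : ∃ d ∈ D, d ∉ low R (p.c + p.c0) D := by
    by_contra hc
    push Not at hc
    have := card_le_card (show D ⊆ low R (p.c + p.c0) D from fun w hw => hc w hw)
    omega
  have hdeg : p.c + p.c0 ≤ (nI R D d).card := by
    by_contra hc
    push Not at hc
    exact hdl (mem_low.2 ⟨hdD, hc⟩)
  obtain ⟨hd1', hd2', hd3', hd4'⟩ := hDmem d hdD
  have hsub : D ⊆ P'.filter (Good R κ η P') := fun w hw =>
    mem_filter.2 ⟨(hDmem w hw).1, (hDmem w hw).2.2.2⟩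
  refine ⟨d, hd1', hd2', hd3', ⟨hd4', ?_⟩, ?_⟩
  · have := card_le_card (nI_mono (R := R) (v := d) (hsub.trans (filter_subset _ _)))
    omega
  · have := card_le_card (nI_mono (R := R) (v := d) hsub)
    omega

end AEB
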