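import Pool.Agent.AEB.PELem
import Pool.Agent.AEB.PieceB
import Pool.Agent.AEB.ItemsB

/-!
# Assembly of one embedding step
-/

namespace AEB

open Finset AE15 AED
open scoped Classical

/-- the constants: `n` is the number of vertices -/
structure CstB (p : NP) (n ω c η η₁ κ₁ κ τ s σ₂ μ ε δ : ℝ) (m m₁ : ℕ) : Prop where
  hω : 0 < ω
  hω1 : ω ≤ 1 / 6
  hc : c = ω / 8
  hη : η = ω / 56
  hη₁ : 0 < η₁
  hη₁' : 4 * η₁ ≤ η
  hκ₁ : 0 < κ₁
  hκ₁' : κ₁ ≤ 1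
  hκ : 0 < κ
  hκ' : κ ≤ κ₁ / 2
  hσ₂ : 0 < σ₂
  hσ₂τ : 2 * σ₂ ≤ τ
  hσ₂κ : 8 * σ₂ ≤ κ₁
  hσ₂η : 4 * σ₂ ≤ η
  hsτ : s ≤ τ / 2
  hμ : 0 < μ
  hμσ : 2 * μ ≤ σ₂
  hε : 0 < ε
  hε' : 8 * ε ≤ σ₂
  hε1 : ε ≤ η₁
  hδ : 0 < δ
  hδμ : δ ≤ μ / 2
  hn : 100 ≤ δ * n
  hm₁ : 16 * ((p.c : ℝ) + p.c0 + 2) ≤ σ₂ * m₁
  hmm : (m : ℝ) * m₁ ≤ ω / 16 * n

theorem CstB.num {p : NP} {n ω c η η₁ κ₁ κ τ s σ₂ μ ε δ : ℝ} {m m₁ : ℕ}
    (P : CstB p n ω c η η₁ κ₁ κ τ s σ₂ μ ε δ m m₁) :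
    0 < c ∧ 0 < η ∧ c ≤ 1 / 48 ∧ η ≤ 1 / 336 ∧ 0 < n ∧ μ ≤ ω / 16 ∧ 40 ≤ n ∧ 4 ≤ σ₂ * n := by
  obtain ⟨hω, hω1, hc, hη, hη₁, hη₁', hκ₁, hκ₁', hκ, hκ', hσ₂, hσ₂τ, hσ₂κ, hσ₂η, hsτ, hμ, hμσ, hε, hε', hε1, hδ, hδμ,
    hn, hm₁, hmm⟩ := P
  have hc0 : 0 < c := by rw [hc]; positivity
  have hη0 : 0 < η := by rw [hη]; positivity
  have hc1 : c ≤ 1 / 48 := by rw [hc]; linarith
  have hη1 : η ≤ 1 / 336 := by rw [hη]; linarith
  have hn0 : 0 < n := by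
    rcases lt_or_ge 0 n with h | h
    · exact h
    · have := mul_nonpos_of_nonneg_of_nonpos hδ.le h
      linarith
  have hμω : μ ≤ ω / 16 := by rw [hη] at hσ₂η; linarith
  have hn40 : 40 ≤ n := by
    have : δ * n ≤ 1 * n := mul_le_mul_of_nonneg_right (by linarith) hn0.le
    linarith
  refine ⟨hc0, hη0, hc1, hη1, hn0, hμω, hn40, ?_⟩
  have : δ * n ≤ σ₂ * n := mul_le_mul_of_nonneg_right (by linarith) hn0.le
  linarith

theorem OkB.mono {V : Type*} {R : V → V → Prop} {A : Finset V} {𝓕 𝓕' : Finset (Finset V)} {ε κ η s : ℝ} {p : NP} {m : ℕ}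
    {N : V → Prop} (h : OkB R κ η s p A 𝓕' ε m N) (hs : 𝓕' ⊆ 𝓕) : OkB R κ η s p A 𝓕 ε m N :=
  fun P hP hne hr => h P hP hne (fun F hF => hr F (hs hF))

variable {V : Type} {R : V → V → Prop}

/-- **Core**: the pending items (all at hosts in `Ks`, except the final one) are embedded in `X`, outside of the set `Za` of
all used vertices -/
theorem coreZ (hT : AE32.Tour R) {p : NP} {X H Ks Z Za : Finset V} {h e : V} {ω c η η₁ κ₁ κ τ s σ₂ μ ε δ : ℝ} {m m₁ : ℕ}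
    (P : CstB p X.card ω c η η₁ κ₁ κ τ s σ₂ μ ε δ m m₁)
    {𝓕x : Finset (Finset V)} (h𝓕x : 𝓕x.card ≤ 8 * X.card ^ 2) (hHX : H ⊆ X) (hHc : (H.card : ℝ) ≤ μ / 2 * X.card)
    {cf : Fd} (hfin : ∀ A Q P : Finset V, A ⊆ X → (X.card : ℝ) ≤ 2 * A.card → Q ⊆ A → Rep A 𝓕x ε Q →
        c * A.card ≤ Q.card → P ⊆ X → Disjoint P Za → Q ⊆ P → H ⊆ P →
        (((X \ A) \ P).card : ℝ) ≤ δ * X.card → Cl R (Good R κ η P) s p cf P (R e))
    (hKX : Ks ⊆ X) (hKh : ∀ y ∈ Ks, ∃ Y ⊆ X, ((X \ Y).card : ℝ) ≤ 5 * η * X.card ∧ SuperG R κ₁ η₁ τ Y y)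
    {F : Fd} {L Lh : List (V × Fd)} (hPE : PE R F h Z L) (hZa : insert h Z ⊆ Za)
    (hmem : ∀ q ∈ L, q.1 = h ∨ q.1 ∈ Z) (hZH : Disjoint Za H) (hZc : (Za.card : ℝ) ≤ δ * X.card)
    (hL : L.Perm ((e, cf) :: Lh)) (hLh : ∀ q ∈ Lh, q.1 ∈ Ks) (hlen : Lh.length ≤ m)
    {n₁ : ℕ} (hn₁ : 2 * n₁ ≤ X.card) (hhost : ∀ (A : Finset V) (𝓕 : Finset (Finset V)), n₁ ≤ A.card →
      𝓕.card ≤ A.card ^ 5 →
      ∀ (p : NP) (κ η s K C : ℝ), 0 ≤ K → 0 ≤ C → 0 < η → 14 * η ≤ 1 → ∀ L : List (V × Fd), L.length ≤ m →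
        (∀ q ∈ L, OkB R κ η s p A 𝓕 ε m₁ (R q.1)) → (∀ q ∈ L, EE R κ η s p K C q.2) →
        (K * isz L + m * C) / (1 - 7 * η) + m * m₁ ≤ (1 - 2 * c) * A.card →
        ∃ S Q : Finset V, S ⊆ A ∧ Q ⊆ A ∧ Disjoint S Q ∧ EmbI R L S ∧ c * A.card ≤ Q.card ∧ Rep A 𝓕 ε Q)
    {K C K' C' : ℝ} (hK : 0 ≤ K) (hC : 0 ≤ C) (hK' : 1 ≤ K') (hC' : 0 ≤ C') (hKK : K ≤ (1 + ω) * K')
    (hmC : m * C ≤ ω / 4 * X.card)
    (hEE : ∀ q ∈ Lh, EE R κ η s p K C q.2) (hEf : EE R κ η s p K' C' cf) (hbig : 2 * ω * F.size ≤ cf.size + 1)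
    (hn : K' * F.size + C' + (Za \ Z).card ≤ X.card) :
    ∃ S ⊆ X, Disjoint S Za ∧ Emb R F h (Z ∪ S) := by
  obtain ⟨n, hnd⟩ : ∃ n : ℝ, n = (X.card : ℝ) := ⟨_, rfl⟩
  rw [← hnd] at P hHc hZc hmC hn
  obtain ⟨hc0, hη0, hc1, hη1, hn0, hμω, hn40, hσn⟩ := P.num
  obtain ⟨hω, hω1, hc, hη, hη₁, hη₁', hκ₁, hκ₁', hκ, hκ', hσ₂, hσ₂τ, hσ₂κ, hσ₂η, hsτ, hμ, hμσ, hε, hε', hε1, hδ, hδμ,
    hn100, hm₁, hmm⟩ := P
  -- the set `A`
  set A := X \ (Za ∪ H) with hA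
  have hAX : A ⊆ X := sdiff_subset
  have hXA : ((X \ A).card : ℝ) ≤ μ * n := by
    have h1 : X \ A ⊆ Za ∪ H := by
      intro w hw
      rw [hA, mem_sdiff, mem_sdiff] at hw
      by_contra hc
      exact hw.2 ⟨hw.1, hc⟩
    have h2 : ((X \ A).card : ℝ) ≤ Za.card + H.card := by
      have h3 := (card_le_card h1).trans (card_union_le _ _)
      exact_mod_cast h3
    have h5 : δ * n ≤ μ / 2 * n := mul_le_mul_of_nonneg_right hδμ hn0.le
    have h7 : 0 < μ * n := by positivity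
    linarith
  have hAc : (1 - μ) * n ≤ A.card := by
    have h1 : X.card = A.card + (X \ A).card := by
      have := card_sdiff_add_card_eq_card hAX
      omega
    have h2 : n = A.card + (X \ A).card := by rw [hnd]; exact_mod_cast h1
    linarith
  have hμ1 : μ ≤ 1 / 2 := by linarith
  have hA2 : n ≤ 2 * A.card := by
    have : μ * n ≤ 1 / 2 * n := mul_le_mul_of_nonneg_right hμ1 hn0.le
    linarith
  -- the families
  have hfam : ∀ y : V, ∃ 𝓕 : Finset (Finset V), 𝓕.card ≤ 7 * X.card ^ 2 ∧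
      (y ∈ Ks → y ∉ A → OkB R κ η s p A 𝓕 ε m₁ (R y)) := by
    intro y
    by_cases hy : y ∈ Ks
    · obtain ⟨Y, hY, hXY, hSY⟩ := hKh y hy
      obtain ⟨𝓕, h1, h2⟩ := piece_lemmaB hT p (σ₂ := σ₂) (μ := μ) (ε := ε) (κ := κ) (s := s) (m := m₁) hY hXY hSY hκ hη0
        (by linarith) hκ₁ hκ₁' hη₁ hσ₂ hμ hε (by linarith) (by linarith) (by linarith) (by linarith)
        (by rw [← hnd]; exact hσn) hκ' hσ₂κ (by linarith) hε1 hsτ hm₁
      exact ⟨𝓕, h1, fun _ hyA => h2 A hAX hyA (by rw [← hnd]; exact hXA)⟩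
    · exact ⟨∅, by simp, fun h => absurd h hy⟩
  choose Fam hFam1 hFam2 using hfam
  set 𝓕 := 𝓕x ∪ Ks.biUnion Fam with h𝓕
  have h𝓕c : 𝓕.card ≤ A.card ^ 5 := by
    have h1 : 𝓕.card ≤ 8 * X.card ^ 2 + Ks.card * (7 * X.card ^ 2) := by
      refine (card_union_le _ _).trans (Nat.add_le_add h𝓕x ?_)
      exact card_biUnion_le_card_mul _ _ _ (fun y _ => hFam1 y)
    have h2 : Ks.card ≤ X.card := card_le_card hKX
    have h3 : (𝓕.card : ℝ) ≤ 8 * n ^ 2 + n * (7 * n ^ 2) := by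
      have h4 : (𝓕.card : ℝ) ≤ 8 * n ^ 2 + Ks.card * (7 * n ^ 2) := by
        rw [hnd]; exact_mod_cast h1
      have h5 : (Ks.card : ℝ) ≤ n := by rw [hnd]; exact_mod_cast h2
      have h6 : (Ks.card : ℝ) * (7 * n ^ 2) ≤ n * (7 * n ^ 2) :=
        mul_le_mul_of_nonneg_right (by linarith) (by positivity)
      linarith
    have h7 : (n / 2) ^ 5 ≤ (A.card : ℝ) ^ 5 := pow_le_pow_left₀ (by positivity) (by linarith) 5
    have h8 : 8 * n ^ 2 + n * (7 * n ^ 2) ≤ (n / 2) ^ 5 := by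
      have h9 : 8 * n ^ 2 + n * (7 * n ^ 2) = n ^ 2 * (7 * n + 8) := by ring
      have h10 : (n / 2) ^ 5 = n ^ 2 * (n * (n * n / 32)) := by ring
      have h11 : 40 * 40 ≤ n * n := mul_le_mul hn40 hn40 (by norm_num) hn0.le
      have h12 : n * 12 ≤ n * (n * n / 32) := mul_le_mul_of_nonneg_left (by linarith) hn0.le
      rw [h9, h10]
      exact mul_le_mul_of_nonneg_left (by linarith) (by positivity)
    exact_mod_cast h3.trans (h8.trans h7)
  -- sizes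
  have hsz : F.size = Z.card + (cf.size + 1 + isz Lh) := by
    rw [hPE.size]
    congr 1
    unfold isz
    rw [(hL.map _).sum_eq]
    simp
  obtain ⟨T, hTd⟩ : ∃ T : ℝ, T = (F.size : ℝ) := ⟨_, rfl⟩
  obtain ⟨tf, htf⟩ : ∃ tf : ℝ, tf = (cf.size : ℝ) + 1 := ⟨_, rfl⟩
  have hsz' : T = Z.card + tf + isz Lh := by
    rw [hTd, htf, hsz]; push_cast; ring
  rw [← hTd, ← htf] at hbig
  rw [← hTd] at hn
  have hT0 : 0 ≤ T := by rw [hTd]; positivity
  have hZ0 : (0 : ℝ) ≤ Z.card := by positivity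
  have hi0 : (0 : ℝ) ≤ isz Lh := by positivity
  have hsum : (K * isz Lh + m * C) / (1 - 7 * η) + m * m₁ ≤ (1 - 2 * c) * A.card := by
    have h1 : K * isz Lh ≤ (1 - ω) * n := by
      have h2 : (isz Lh : ℝ) ≤ (1 - 2 * ω) * T := by linarith
      have h3 : K * isz Lh ≤ (1 + ω) * K' * ((1 - 2 * ω) * T) := by
        refine (mul_le_mul_of_nonneg_right hKK hi0).trans (mul_le_mul_of_nonneg_left h2 (by positivity))
      have h4 : K' * T ≤ n := by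
        have : (0 : ℝ) ≤ (Za \ Z).card := by positivity
        linarith
      have h5 : (1 + ω) * K' * ((1 - 2 * ω) * T) = ((1 + ω) * (1 - 2 * ω)) * (K' * T) := by ring
      have h6 : (1 + ω) * (1 - 2 * ω) ≤ 1 - ω := by
        have : 0 < ω * ω := by positivity
        linarith
      have h7 : 0 ≤ K' * T := by positivity
      calc K * isz Lh ≤ ((1 + ω) * (1 - 2 * ω)) * (K' * T) := by rw [← h5]; exact h3
        _ ≤ (1 - ω) * (K' * T) := mul_le_mul_of_nonneg_right h6 h7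
        _ ≤ (1 - ω) * n := mul_le_mul_of_nonneg_left h4 (by linarith)
    have h2 : (K * isz Lh + m * C) / (1 - 7 * η) ≤ (1 - 5 * ω / 8) * n := by
      rw [div_le_iff₀ (by linarith), hη]
      have h3 : (1 - 3 * ω / 4) * n ≤ (1 - 5 * ω / 8) * n * (1 - 7 * (ω / 56)) := by
        have h4 : (1 - 5 * ω / 8) * n * (1 - 7 * (ω / 56)) = (1 - 3 * ω / 4) * n + 5 * (ω * ω) / 64 * n := by ring
        have h5 : 0 ≤ 5 * (ω * ω) / 64 * n := by positivity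
        linarith
      linarith
    have h3 : (1 - ω / 16) * n ≤ A.card := by
      refine le_trans (mul_le_mul_of_nonneg_right ?_ hn0.le) hAc
      linarith
    have h4 : (1 - 2 * c) * ((1 - ω / 16) * n) ≤ (1 - 2 * c) * A.card := mul_le_mul_of_nonneg_left h3 (by linarith)
    refine le_trans ?_ h4
    rw [hc]
    have h5 : (1 - 2 * (ω / 8)) * ((1 - ω / 16) * n) = (1 - 5 * ω / 16) * n + (ω * ω) / 64 * n := by ring
    have h6 : 0 ≤ (ω * ω) / 64 * n := by positivity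
    have h7 : 0 ≤ ω * n := by positivity
    rw [h5]
    linarith
  obtain ⟨S, Q, hSA, hQA, hSQ, hSE, hQc, hQr⟩ := hhost A 𝓕 (by
      have h1 : 2 * (n₁ : ℝ) ≤ n := by rw [hnd]; exact_mod_cast hn₁
      have h2 : (n₁ : ℝ) ≤ A.card := by linarith
      exact_mod_cast h2) h𝓕c p κ η s K C hK hC hη0 (by linarith) Lh hlen (by
      intro q hq
      have hqK := hLh q hq
      have hqA : q.1 ∉ A := by
        have h1 := hmem q (hL.symm.subset (List.mem_cons_of_mem _ hq))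
        rw [hA, mem_sdiff, not_and, not_not]
        intro _
        rw [mem_union]
        exact Or.inl (hZa (mem_insert.2 h1))
      refine (hFam2 q.1 hqK hqA).mono ?_
      rw [h𝓕]
      refine Subset.trans ?_ subset_union_right
      exact subset_biUnion_of_mem Fam hqK) hEE hsum
  -- the final piece
  have hZA : Disjoint Za A := by
    rw [hA, disjoint_left]
    intro w h1 h2
    rw [mem_sdiff, mem_union] at h2
    exact h2.2 (Or.inl h1)
  have hHA : Disjoint H A := by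
    rw [hA, disjoint_left]
    intro w h1 h2
    rw [mem_sdiff, mem_union] at h2
    exact h2.2 (Or.inr h1)
  have hZS : Disjoint Za S := hZA.mono_right hSA
  set P₀ := X \ (Za ∪ S) with hP₀
  have hcls : Cl R (Good R κ η P₀) s p cf P₀ (R e) := by
    refine hfin A Q P₀ hAX (by rw [← hnd]; exact hA2) hQA (fun F hF => hQr F (by rw [h𝓕]; exact mem_union_left _ hF)) hQc
      sdiff_subset ?_ ?_ ?_ ?_
    · rw [hP₀, disjoint_left]
      intro w h1 h2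
      rw [mem_sdiff, mem_union] at h1
      exact h1.2 (Or.inl h2)
    · intro w hw
      rw [hP₀, mem_sdiff, mem_union, not_or]
      exact ⟨hAX (hQA hw), fun h => disjoint_left.1 hZA h (hQA hw), fun h => disjoint_left.1 hSQ h hw⟩
    · intro w hw
      rw [hP₀, mem_sdiff, mem_union, not_or]
      exact ⟨hHX hw, fun h => disjoint_left.1 hZH h hw, fun h => disjoint_left.1 hHA hw (hSA h)⟩
    · rw [← hnd]
      refine le_trans ?_ hZc
      have h1 : (X \ A) \ P₀ ⊆ Za := by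
        intro w hw
        rw [mem_sdiff, mem_sdiff] at hw
        by_contra hc
        refine hw.2 ?_
        rw [hP₀, mem_sdiff, mem_union]
        exact ⟨hw.1.1, fun h => h.elim hc (fun h => hw.1.2 (hSA h))⟩
      exact_mod_cast card_le_card h1
  have hSc : S.card = isz Lh := hSE.card
  have hPc : n - T - (Za \ Z).card + tf ≤ P₀.card := by
    have h1 : X.card ≤ P₀.card + ((Za \ Z).card + Z.card + S.card) := by
      have h2 : X ⊆ P₀ ∪ ((Za \ Z) ∪ Z ∪ S) := by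
        intro w hw
        rw [hP₀, mem_union, mem_sdiff, mem_union, mem_union, mem_union, mem_sdiff]
        by_cases h3 : w ∈ Z
        · exact Or.inr (Or.inl (Or.inr h3))
        by_cases h4 : w ∈ S
        · exact Or.inr (Or.inr h4)
        by_cases h5 : w ∈ Za
        · exact Or.inr (Or.inl (Or.inl ⟨h5, h3⟩))
        · exact Or.inl ⟨hw, fun h6 => h6.elim h5 h4⟩
      have h3 := card_le_card h2
      have h4 := card_union_le P₀ ((Za \ Z) ∪ Z ∪ S)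
      have h5 := card_union_le ((Za \ Z) ∪ Z) S
      have h6 := card_union_le (Za \ Z) Z
      omega
    have h3 : n ≤ P₀.card + (((Za \ Z).card : ℝ) + Z.card + S.card) := by
      rw [hnd]; exact_mod_cast h1
    rw [hSc] at h3
    linarith
  obtain ⟨x, hx, A₁, hA₁, hxA₁, hex, hE₁⟩ := hEf P₀ (R e) (by
    refine le_trans ?_ hPc
    rw [← htf]
    have h1 : 0 ≤ (K' - 1) * (T - tf) := mul_nonneg (by linarith) (by linarith)
    linarith) hcls
  have hSfP : insert x A₁ ⊆ P₀ := insert_subset hx hA₁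
  have hZSf : Disjoint Za (insert x A₁) := by
    rw [disjoint_left]
    intro w h1 h2
    have := hSfP h2
    rw [hP₀, mem_sdiff, mem_union] at this
    exact this.2 (Or.inl h1)
  have hSSf : Disjoint (insert x A₁) S := by
    rw [disjoint_left]
    intro w h2 h1
    have := hSfP h2
    rw [hP₀, mem_sdiff, mem_union] at this
    exact this.2 (Or.inr h1)
  have hX1 : EmbI R L (insert x A₁ ∪ S) :=
    EmbI.perm hL.symm ⟨insert x A₁, S, hSSf, rfl, ⟨x, A₁, hex, hxA₁, rfl, hE₁⟩, hSE⟩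
  have hd : Disjoint Za (insert x A₁ ∪ S) := disjoint_union_right.2 ⟨hZSf, hZS⟩
  have hZZa : Z ⊆ Za := (subset_insert _ _).trans hZa
  exact ⟨insert x A₁ ∪ S, union_subset (hSfP.trans sdiff_subset) (hSA.trans hAX), hd.symm,
    hPE.complete hX1 (hd.mono_left hZZa)⟩

end AEB
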