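import Pool.Agent.AEB.CovE
import Pool.Agent.AEB.CovOf

/-!
# Robustness of the coverage `CovE`
-/

namespace AEB

open Finset AE15 AED
open scoped Classical

variable {V : Type*} {R : V → V → Prop}

/-- **Robustness of the coverage** -/
theorem covE_avoid (hT : AE32.Tour R) {p : NP} (hp : p.OK) {γ : ℝ} {X G E : Finset V} {x : V} {m : ℕ} (hG : G ⊆ X)
    (h : CovE R p γ X G E x m) (J : ℕ) (hn : ((J + E.card + 2 * p.c0 + 1 : ℕ) : ℝ) ≤ γ * X.card) :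
    ∃ Harm ⊆ X, Disjoint Harm E ∧
      Harm.card ≤ (2 * (J + E.card + 2 * p.c0 + 1) + 4 * (p.c1 + p.u0 + p.g)) * (1 + p.c0 + p.c) ∧
      ∀ Z : Finset V, Z.card ≤ J → Disjoint Z Harm → CovE R p γ X G (E ∪ Z) x m := by
  obtain ⟨Nx, U, Q, hNG, hNx, hNc, hU, hQ, hcount, hcov, hcov'⟩ := h
  have hcnt := hcount (J + E.card + 2 * p.c0 + 1) hn
  obtain ⟨H, hH1, hH2, hH3, hH4⟩ := reserve' (c0 := p.c0) (c := p.c) (c1 := p.c1) hG hNG hcnt hcov hcov'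
  refine ⟨H, hH1, hH2, hH3, fun Z hZ hZH => ?_⟩
  have hHZ : Disjoint H (E ∪ Z) := disjoint_union_right.2 ⟨hH2, hZH.symm⟩
  have hsub1 : H ⊆ X \ (E ∪ Z) := fun w hw => mem_sdiff.2 ⟨hH1 hw, disjoint_left.1 hHZ hw⟩
  have hsub2 : H ∩ G ⊆ G \ (E ∪ Z) := fun w hw =>
    mem_sdiff.2 ⟨(mem_inter.1 hw).2, disjoint_left.1 hHZ (mem_inter.1 hw).1⟩
  -- vertices with many dominators
  have hlarge : ∀ u, J + E.card + 2 * p.c0 + 1 < (nI R Nx u).card →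
      ∃ h ∈ Nx, h ∉ E ∪ Z ∧ R h u ∧ p.c0 ≤ (nI R (X \ (E ∪ Z)) h).card ∧ p.c ≤ (nI R (G \ (E ∪ Z)) h).card := by
    intro u hu
    have h1 : 2 * p.c0 + 1 ≤ (nI R Nx u \ (E ∪ Z)).card := by
      have h2 := le_card_sdiff (E ∪ Z) (nI R Nx u)
      have h3 := card_union_le E Z
      omega
    obtain ⟨v, hv, hv2⟩ := exists_deg_in hT h1
    rw [mem_sdiff, mem_nI] at hv
    have h2 : nI R Nx u \ (E ∪ Z) ⊆ G \ (E ∪ Z) := sdiff_subset_sdiff (nI_sub.trans hNG) (Subset.refl _)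
    have h3 : nI R Nx u \ (E ∪ Z) ⊆ X \ (E ∪ Z) := h2.trans (sdiff_subset_sdiff hG (Subset.refl _))
    exact ⟨v, hv.1.1, hv.2, hv.1.2, hv2.trans (card_le_card (nI_mono h3)),
      (hp.c_le.trans hv2).trans (card_le_card (nI_mono h2))⟩
  refine ⟨Nx, U, Q, hNG, hNx, hNc, hU, hQ, hcount, ?_, ?_⟩
  · intro u hu huE hux hud huU
    rw [mem_union, not_or] at huE
    by_cases hj : (nI R Nx u).card ≤ J + E.card + 2 * p.c0 + 1
    · obtain ⟨h, h1, h2, h3, h4, _⟩ := hH4 u hu huE.1 hux hud hj huU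
      exact ⟨h, h1, disjoint_left.1 hHZ h2, h3, h4.trans (card_le_card (nI_mono hsub1))⟩
    · obtain ⟨h, h1, h2, h3, h4, _⟩ := hlarge u (not_le.1 hj)
      exact ⟨h, h1, h2, h3, h4⟩
  · intro u hu huE hux hud huU huQ
    rw [mem_union, not_or] at huE
    by_cases hj : (nI R Nx u).card ≤ J + E.card + 2 * p.c0 + 1
    · obtain ⟨h, h1, h2, h3, h4, h5⟩ := hH4 u hu huE.1 hux hud hj huU
      exact ⟨h, h1, disjoint_left.1 hHZ h2, h3, h4.trans (card_le_card (nI_mono hsub1)),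
        (h5 huQ).trans (card_le_card (nI_mono hsub2))⟩
    · exact hlarge u (not_le.1 hj)

theorem covE_of_cov {p : NP} (hp : p.OK) {γ : ℝ} {X G E : Finset V} {x : V} {m : ℕ} (_hG : G ⊆ X)
    (h : Cov R p γ X G E x m) (hE : E.card ≤ p.e) : CovE R p γ X G E x m := by
  obtain ⟨Nx, U, Q, hNG, hNx, hNc, hU, hQ, hdeg, hcount, hcov, hcov'⟩ := h
  have hin : ∀ h ∈ Nx, p.c0 ≤ (nI R (X \ E) h).card := by
    intro h hh
    have h1 := hdeg h hh
    have h2 : nI R X h ⊆ nI R (X \ E) h ∪ E := by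
      intro w hw
      rw [mem_nI] at hw
      rw [mem_union, mem_nI, mem_sdiff]
      by_cases hwE : w ∈ E
      · exact Or.inr hwE
      · exact Or.inl ⟨⟨hw.1, hwE⟩, hw.2⟩
    have h3 := (card_le_card h2).trans (card_union_le _ _)
    have h4 := hp.hc1
    have h5 : 0 ≤ 2 ^ p.r0 := Nat.zero_le _
    generalize 2 ^ p.r0 = y at h4 h5
    omega
  refine ⟨Nx, U, Q, hNG, hNx, hNc, hU, hQ, hcount, ?_, ?_⟩
  · intro u hu huE hux hud huU
    obtain ⟨h, h1, h2, h3⟩ := hcov u hu huE hux hud huU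
    exact ⟨h, h1, h2, h3, hin h h1⟩
  · intro u hu huE hux hud huU huQ
    obtain ⟨h, h1, h2, h3, h4⟩ := hcov' u hu huE hux hud huU huQ
    exact ⟨h, h1, h2, h3, hin h h1, h4⟩

end AEB
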