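import Pool.Agent.AEB.FinalCov
import Pool.Agent.AEB.CovOf

/-!
# Coverage with an arbitrary set of used vertices

`CovE`: the coverage statement relative to an arbitrary set `E` of used vertices. The coverage of `Cov` is robust: it
survives the deletion of any bounded number of vertices outside a bounded set.
-/

namespace AEB

open Finset AE15 AED
open scoped Classical

variable {V : Type*} {R : V → V → Prop}

/-- the coverage statement at the final host `x`, with an arbitrary set `E` of used vertices -/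
def CovE (R : V → V → Prop) (p : NP) (γ : ℝ) (X G E : Finset V) (x : V) (m : ℕ) : Prop :=
  ∃ Nx U Q : Finset V, Nx ⊆ G ∧ (∀ h ∈ Nx, R x h) ∧ γ * X.card ≤ Nx.card ∧ U.card ≤ m ∧ Q.card ≤ p.q ∧
    (∀ j : ℕ, (j : ℝ) ≤ γ * X.card →
      ((nI R X x).filter (fun u => (nI R Nx u).card ≤ j)).card ≤ 2 * j + 4 * (p.c1 + p.u0 + p.g)) ∧
    (∀ u ∈ X, u ∉ E → R u x → p.c1 ≤ (nI R X u).card → u ∉ U →
      ∃ h ∈ Nx, h ∉ E ∧ R h u ∧ p.c0 ≤ (nI R (X \ E) h).card) ∧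
    (∀ u ∈ X, u ∉ E → R u x → p.c1 ≤ (nI R X u).card → u ∉ U → u ∉ Q →
      ∃ h ∈ Nx, h ∉ E ∧ R h u ∧ p.c0 ≤ (nI R (X \ E) h).card ∧ p.c ≤ (nI R (G \ E) h).card)

/-- the vertices reserved for one dominator -/
theorem reserve_one' {X G E : Finset V} {c0 c : ℕ} (hG : G ⊆ X) {h : V} (hX : h ∈ X)
    (hE : h ∉ E) (h4 : c0 ≤ (nI R (X \ E) h).card) (P : Prop) (hP : P → c ≤ (nI R (G \ E) h).card) :
    ∃ H ⊆ X, Disjoint H E ∧ H.card ≤ 1 + c0 + c ∧ h ∈ H ∧ c0 ≤ (nI R H h).card ∧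
      (P → c ≤ (nI R (H ∩ G) h).card) := by
  obtain ⟨S, hS, hSc⟩ := exists_subset_card_eq h4
  have hSX : S ⊆ X := hS.trans (nI_sub.trans sdiff_subset)
  have hSE : Disjoint S E := disjoint_of_subset_left (hS.trans nI_sub) sdiff_disjoint
  have hSI : ∀ w ∈ S, R w h := fun w hw => (mem_nI.1 (hS hw)).2
  have key : ∃ S' ⊆ G \ E, S'.card ≤ c ∧ (∀ w ∈ S', R w h) ∧ (P → S'.card = c) := by
    by_cases hPP : P
    · obtain ⟨S', h5, h6⟩ := exists_subset_card_eq (hP hPP)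
      exact ⟨S', h5.trans nI_sub, h6.le, fun w hw => (mem_nI.1 (h5 hw)).2, fun _ => h6⟩
    · exact ⟨∅, empty_subset _, by simp, by simp, fun h => absurd h hPP⟩
  obtain ⟨S', h5, h6, h7, h8⟩ := key
  have h9 : S' ⊆ G := h5.trans sdiff_subset
  refine ⟨insert h (S ∪ S'), insert_subset hX (union_subset hSX (h9.trans hG)), ?_, ?_, mem_insert_self _ _, ?_, ?_⟩
  · rw [disjoint_insert_left, disjoint_union_left]
    exact ⟨hE, hSE, disjoint_of_subset_left h5 sdiff_disjoint⟩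
  · have h10 := card_insert_le h (S ∪ S')
    have h11 := card_union_le S S'
    omega
  · rw [← hSc]
    apply card_le_card
    intro w hw
    exact mem_nI.2 ⟨mem_insert_of_mem (mem_union_left _ hw), hSI w hw⟩
  · intro hPP
    rw [← h8 hPP]
    apply card_le_card
    intro w hw
    exact mem_nI.2 ⟨mem_inter.2 ⟨mem_insert_of_mem (mem_union_right _ hw), h9 hw⟩, h7 w hw⟩

/-- **Reserved vertices**, general form -/
theorem reserve' {X G E Nx U Q : Finset V} {x : V} {j B c0 c c1 : ℕ} (hG : G ⊆ X) (hNG : Nx ⊆ G)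
    (h5 : ((nI R X x).filter (fun u => (nI R Nx u).card ≤ j)).card ≤ B)
    (h6 : ∀ u ∈ X, u ∉ E → R u x → c1 ≤ (nI R X u).card → u ∉ U →
      ∃ h ∈ Nx, h ∉ E ∧ R h u ∧ c0 ≤ (nI R (X \ E) h).card)
    (h7 : ∀ u ∈ X, u ∉ E → R u x → c1 ≤ (nI R X u).card → u ∉ U → u ∉ Q →
      ∃ h ∈ Nx, h ∉ E ∧ R h u ∧ c0 ≤ (nI R (X \ E) h).card ∧ c ≤ (nI R (G \ E) h).card) :
    ∃ H ⊆ X, Disjoint H E ∧ H.card ≤ B * (1 + c0 + c) ∧
      ∀ u ∈ X, u ∉ E → R u x → c1 ≤ (nI R X u).card → (nI R Nx u).card ≤ j → u ∉ U →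
        ∃ h ∈ Nx, h ∈ H ∧ R h u ∧ c0 ≤ (nI R H h).card ∧ (u ∉ Q → c ≤ (nI R (H ∩ G) h).card) := by
  have key : ∀ u, ∃ H ⊆ X, Disjoint H E ∧ H.card ≤ 1 + c0 + c ∧
      (u ∈ X → u ∉ E → R u x → c1 ≤ (nI R X u).card → u ∉ U →
        ∃ h ∈ Nx, h ∈ H ∧ R h u ∧ c0 ≤ (nI R H h).card ∧ (u ∉ Q → c ≤ (nI R (H ∩ G) h).card)) := by
    intro u
    by_cases hu : u ∈ X ∧ u ∉ E ∧ R u x ∧ c1 ≤ (nI R X u).card ∧ u ∉ U
    · obtain ⟨hu1, hu2, hu3, hu4, hu5⟩ := hu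
      have hh : ∃ h ∈ Nx, h ∉ E ∧ R h u ∧ c0 ≤ (nI R (X \ E) h).card ∧ (u ∉ Q → c ≤ (nI R (G \ E) h).card) := by
        by_cases hQ : u ∈ Q
        · obtain ⟨h, h8, h9, h10, h10'⟩ := h6 u hu1 hu2 hu3 hu4 hu5
          exact ⟨h, h8, h9, h10, h10', fun h => absurd hQ h⟩
        · obtain ⟨h, h8, h9, h10, h10', h11⟩ := h7 u hu1 hu2 hu3 hu4 hu5 hQ
          exact ⟨h, h8, h9, h10, h10', fun _ => h11⟩
      obtain ⟨h, h8, h9, h10, h10', h11⟩ := hh
      obtain ⟨H, hH1, hH2, hH3, hH4, hH5, hH6⟩ := reserve_one' (R := R) hG (hG (hNG h8)) h9 h10' _ h11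
      exact ⟨H, hH1, hH2, hH3, fun _ _ _ _ _ => ⟨h, h8, hH4, h10, hH5, hH6⟩⟩
    · refine ⟨∅, empty_subset _, disjoint_empty_left _, by simp, fun hu1 hu2 hu3 hu4 hu5 => ?_⟩
      exact absurd ⟨hu1, hu2, hu3, hu4, hu5⟩ hu
  choose f hf1 hf2 hf3 hf4 using key
  set T := (nI R X x).filter (fun u => (nI R Nx u).card ≤ j) with hT
  have hsub : ∀ u ∈ T, f u ⊆ T.biUnion f := fun u hu => subset_biUnion_of_mem f hu
  refine ⟨T.biUnion f, biUnion_subset.2 (fun u _ => hf1 u), (disjoint_biUnion_left _ _ _).2 (fun u _ => hf2 u), ?_, ?_⟩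
  · calc (T.biUnion f).card ≤ T.card * (1 + c0 + c) := card_biUnion_le_card_mul _ _ _ (fun u _ => hf3 u)
      _ ≤ B * (1 + c0 + c) := Nat.mul_le_mul_right _ h5
  · intro u hu1 hu2 hu3 hu4 hj hu5
    have huT : u ∈ T := by
      rw [hT, mem_filter]
      exact ⟨mem_nI.2 ⟨hu1, hu3⟩, hj⟩
    obtain ⟨h, h8, h9, h10, h11, h12⟩ := hf4 u hu1 hu2 hu3 hu4 hu5
    refine ⟨h, h8, hsub u huT h9, h10, h11.trans (card_le_card (nI_mono (hsub u huT))), fun hQ => ?_⟩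
    exact (h12 hQ).trans (card_le_card (nI_mono (inter_subset_inter (hsub u huT) (Subset.refl _))))

theorem NP.OK.c_le {p : NP} (hp : p.OK) : p.c ≤ p.c0 := by
  have h7 := hp.hc0
  have h8 : 0 ≤ 2 ^ p.r0 := Nat.zero_le _
  have h9 : 0 ≤ 2 * (2 * p.c + p.r0) ^ 2 := Nat.zero_le _
  generalize 2 ^ p.r0 = y at h7 h8
  generalize 2 * (2 * p.c + p.r0) ^ 2 = z at h7 h9
  omega

/-- **Robustness of the coverage** (explicit form of `cov_avoid`) -/
theorem cov_avoid_aux (hT : AE32.Tour R) {p : NP} (hp : p.OK) {γ : ℝ} {X G E Nx U Q : Finset V} {x : V} {m : ℕ}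
    (hG : G ⊆ X) (hNG : Nx ⊆ G) (hNx : ∀ h ∈ Nx, R x h) (hNc : γ * X.card ≤ Nx.card) (hU : U.card ≤ m)
    (hQ : Q.card ≤ p.q) (hdeg : ∀ h ∈ Nx, p.c1 ≤ (nI R X h).card)
    (hcount : ∀ j : ℕ, (j : ℝ) ≤ γ * X.card →
      ((nI R X x).filter (fun u => (nI R Nx u).card ≤ j)).card ≤ 2 * j + 4 * (p.c1 + p.u0 + p.g))
    (hcov : ∀ u ∈ X, u ∉ E → R u x → p.c1 ≤ (nI R X u).card → u ∉ U → ∃ h ∈ Nx, h ∉ E ∧ R h u)
    (hcov' : ∀ u ∈ X, u ∉ E → R u x → p.c1 ≤ (nI R X u).card → u ∉ U → u ∉ Q →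
      ∃ h ∈ Nx, h ∉ E ∧ R h u ∧ p.c ≤ (nI R (G \ E) h).card)
    (hEc : E.card ≤ p.e) (J : ℕ) (hn : (J + p.e + 2 * p.c0 + 1 : ℝ) ≤ γ * X.card) :
    ∃ Harm ⊆ X, Disjoint Harm E ∧
      Harm.card ≤ (2 * (J + p.e + 2 * p.c0 + 1) + 4 * (p.c1 + p.u0 + p.g)) * (1 + p.c0 + p.c) ∧
      ∀ Z : Finset V, Z.card ≤ J → Disjoint Z Harm → CovE R p γ X G (E ∪ Z) x m := by
  have hcnt := hcount (J + p.e + 2 * p.c0 + 1) (by push_cast; exact hn)
  obtain ⟨H, hH1, hH2, hH3, hH4⟩ := reserve p hp hG hNG hEc hdeg hcnt hcov hcov'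
  refine ⟨H, hH1, hH2, hH3, fun Z hZ hZH => ?_⟩
  have hHZ : Disjoint H (E ∪ Z) := disjoint_union_right.2 ⟨hH2, hZH.symm⟩
  have hsub1 : H ⊆ X \ (E ∪ Z) := fun w hw => mem_sdiff.2 ⟨hH1 hw, disjoint_left.1 hHZ hw⟩
  have hsub2 : H ∩ G ⊆ G \ (E ∪ Z) := fun w hw =>
    mem_sdiff.2 ⟨(mem_inter.1 hw).2, disjoint_left.1 hHZ (mem_inter.1 hw).1⟩
  -- vertices with many dominators
  have hlarge : ∀ u, J + p.e + 2 * p.c0 + 1 < (nI R Nx u).card →
      ∃ h ∈ Nx, h ∉ E ∪ Z ∧ R h u ∧ p.c0 ≤ (nI R (X \ (E ∪ Z)) h).card ∧ p.c ≤ (nI R (G \ (E ∪ Z)) h).card := by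
    intro u hu
    have h1 : 2 * p.c0 + 1 ≤ (nI R Nx u \ (E ∪ Z)).card := by
      have h2 := le_card_sdiff (E ∪ Z) (nI R Nx u)
      have h3 := card_union_le E Z
      omega
    obtain ⟨v, hv, hv2⟩ := exists_deg_in hT h1
    rw [mem_sdiff, mem_nI] at hv
    have h2 : nI R Nx u \ (E ∪ Z) ⊆ G \ (E ∪ Z) := sdiff_subset_sdiff (nI_sub.trans hNG) (Subset.refl _)
    have h3 : nI R Nx u \ (E ∪ Z) ⊆ X \ (E ∪ Z) := h2.trans (sdiff_subset_sdiff hG (Subset.refl _))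
    exact ⟨v, hv.1.1, hv.2, hv.1.2, hv2.trans (card_le_card (nI_mono h3)),
      (hp.c_le.trans hv2).trans (card_le_card (nI_mono h2))⟩
  refine ⟨Nx, U, Q, hNG, hNx, hNc, hU, hQ, hcount, ?_, ?_⟩
  · intro u hu huE hux hud huU
    rw [mem_union, not_or] at huE
    by_cases hj : (nI R Nx u).card ≤ J + p.e + 2 * p.c0 + 1
    · obtain ⟨h, h1, h2, h3, h4, _⟩ := hH4 u hu huE.1 hux hud hj huU
      exact ⟨h, h1, disjoint_left.1 hHZ h2, h3, h4.trans (card_le_card (nI_mono hsub1))⟩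
    · obtain ⟨h, h1, h2, h3, h4, _⟩ := hlarge u (not_le.1 hj)
      exact ⟨h, h1, h2, h3, h4⟩
  · intro u hu huE hux hud huU huQ
    rw [mem_union, not_or] at huE
    by_cases hj : (nI R Nx u).card ≤ J + p.e + 2 * p.c0 + 1
    · obtain ⟨h, h1, h2, h3, h4, h5⟩ := hH4 u hu huE.1 hux hud hj huU
      exact ⟨h, h1, disjoint_left.1 hHZ h2, h3, h4.trans (card_le_card (nI_mono hsub1)),
        (h5 huQ).trans (card_le_card (nI_mono hsub2))⟩
    · exact hlarge u (not_le.1 hj)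

/-- the class of the remaining set `P` at the final host `x`, general form -/
theorem final_covE (hT : AE32.Tour R) {p : NP} (hp : p.OK) {X G E : Finset V} {x : V} {m : ℕ}
    {κ₁ η₁ κ η γ s σ δ ε c : ℝ} (hG : G ⊆ X) (hGg : ∀ g ∈ G, Good R κ₁ η₁ X g) (hCov : CovE R p γ X G E x m)
    (hxE : x ∈ E) (hX : X.Nonempty) (hκ : 0 < κ) (hη : 0 < η) (hκ₁ : 0 < κ₁)
    (hη₁ : 0 < η₁) (hσ : 0 < σ) (hδ : 0 ≤ δ) (hε : 0 < ε) (hc : 0 < c) (hc1 : c ≤ 1) (h1 : σ ≤ γ)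
    (h2 : 2 * (δ + ε) ≤ c * σ) (h3 : σ ≤ κ₁) (h4 : κ ≤ c * κ₁ / 2) (h5 : 2 * η₁ ≤ c * η) (hs : 0 < s)
    (h6 : s ≤ c * γ / 4) (hn : 8 * (p.c0 + p.c1 + p.u0 + p.g + 1 : ℝ) ≤ c * σ * X.card) :
    ∃ (𝓕 : Finset (Finset V)) (H : Finset V), 𝓕.card ≤ 8 * X.card ^ 2 ∧ H ⊆ X ∧ Disjoint H E ∧
      (H.card : ℝ) ≤ 3 * (1 + p.c0 + p.c) * σ * X.card ∧
      ∀ A Q P : Finset V, A ⊆ X → (X.card : ℝ) ≤ 2 * A.card → Q ⊆ A → Rep A 𝓕 ε Q →
        c * A.card ≤ Q.card → P ⊆ X → Disjoint P E → Q ⊆ P → H ⊆ P → (((X \ A) \ P).card : ℝ) ≤ δ * X.card →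
        ClB R (Good R κ η P) s p m P (R x) := by
  obtain ⟨Nx, U, Q₀, hNG, hNx, hNc, hU, hQ₀, hcount, hcov, hcov'⟩ := hCov
  have hn0 : (0 : ℝ) < X.card := by exact_mod_cast hX.card_pos
  have hn1 : 1 ≤ X.card := hX.card_pos
  have hcc : p.c ≤ p.c0 := hp.c_le
  obtain ⟨FF, hF1, hF2, hF3⟩ := exists_family R κ₁ η₁ X
  set j : ℕ := ⌊σ * X.card⌋₊ with hj
  have hj1 : (j : ℝ) ≤ σ * X.card := Nat.floor_le (by positivity)
  have hj2 : σ * X.card < j + 1 := Nat.lt_floor_add_one _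
  have hcnt := hcount j (hj1.trans (mul_le_mul_of_nonneg_right h1 hn0.le))
  obtain ⟨H, hH1, hH2, hH3, hH4⟩ := reserve' (c0 := p.c0) (c := p.c) (c1 := p.c1) hG hNG hcnt hcov hcov'
  refine ⟨insert Nx (FF ∪ X.image (fun u => nI R Nx u)), H, ?_, hH1, hH2, ?_, ?_⟩
  · have h7 : (FF ∪ X.image (fun u => nI R Nx u)).card ≤ X.card * (X.card + 1) + X.card :=
      (card_union_le _ _).trans (add_le_add hF1 card_image_le)
    have h8 := card_insert_le Nx (FF ∪ X.image (fun u => nI R Nx u))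
    nlinarith
  · have h7 : (H.card : ℝ) ≤ ((2 * j + 4 * (p.c1 + p.u0 + p.g) : ℕ) : ℝ) * ((1 + p.c0 + p.c : ℕ) : ℝ) := by
      exact_mod_cast hH3
    push_cast at h7
    have h8 : c * σ * X.card ≤ 1 * (σ * X.card) := by
      rw [mul_assoc]
      exact mul_le_mul_of_nonneg_right hc1 (by positivity)
    have h9 : (0 : ℝ) ≤ p.c0 := Nat.cast_nonneg _
    have h10 : 2 * (j : ℝ) + 4 * (p.c1 + p.u0 + p.g) ≤ 3 * (σ * X.card) := by linarith
    calc (H.card : ℝ) ≤ (2 * (j : ℝ) + 4 * (p.c1 + p.u0 + p.g)) * (1 + p.c0 + p.c) := h7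
      _ ≤ (3 * (σ * X.card)) * (1 + p.c0 + p.c) := mul_le_mul_of_nonneg_right h10 (by positivity)
      _ = 3 * (1 + p.c0 + p.c) * σ * X.card := by ring
  intro A Q P hA hXA hQ hRep hcQ hP hPE hQP hHP hdel
  have hA0 : A.Nonempty := by
    rw [← card_pos]
    have : (0 : ℝ) < A.card := by linarith
    exact_mod_cast this
  have hPX : (P.card : ℝ) ≤ X.card := by exact_mod_cast card_le_card hP
  have hQP' : (Q.card : ℝ) ≤ P.card := by exact_mod_cast card_le_card hQP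
  have key : ∀ F ∈ insert Nx (FF ∪ X.image (fun u => nI R Nx u)), F ⊆ X →
      c * F.card - c * σ / 2 * X.card ≤ ((F ∩ P).card : ℝ) := by
    intro F hF hFX
    have h7 := meet_bound hε hc hA hA0 hQ hRep hcQ hQP hdel hF hFX
    have h8 : (δ + ε) * X.card ≤ c * σ / 2 * X.card := mul_le_mul_of_nonneg_right (by linarith) hn0.le
    linarith
  -- goodness in `P`
  have hgood : ∀ w ∈ X, Good R κ₁ η₁ X w → Good R κ η P w := by
    apply hF3 P hP κ η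
    · intro F hF hFc
      have h7 := key F (mem_insert_of_mem (mem_union_left _ hF)) (hF2 F hF)
      have h8 : c * (κ₁ * X.card) ≤ c * F.card := mul_le_mul_of_nonneg_left hFc hc.le
      have h9 : c * σ / 2 * X.card ≤ c * κ₁ / 2 * X.card := by
        apply mul_le_mul_of_nonneg_right _ hn0.le
        have := mul_le_mul_of_nonneg_left h3 hc.le
        linarith
      have h10 : κ * P.card ≤ κ * X.card := mul_le_mul_of_nonneg_left hPX hκ.le
      have h11 : κ * X.card ≤ c * κ₁ / 2 * X.card := mul_le_mul_of_nonneg_right h4 hn0.le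
      linarith
    · intro F hF hFc
      have h7 : ((F ∩ P).card : ℝ) ≤ F.card := by exact_mod_cast card_le_card inter_subset_left
      have h8 : η₁ * X.card ≤ c * η / 2 * X.card := mul_le_mul_of_nonneg_right (by linarith) hn0.le
      have h9 : c * η / 2 * X.card ≤ c * η / 2 * (2 * A.card) := mul_le_mul_of_nonneg_left hXA (by positivity)
      have h10 : η * (c * A.card) ≤ η * P.card := mul_le_mul_of_nonneg_left (hcQ.trans hQP') hη.le
      linarith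
  have hGP : ∀ w ∈ G, w ∈ P → w ∈ P.filter (Good R κ η P) := by
    intro w hw hwP
    exact mem_filter.2 ⟨hwP, hgood w (hG hw) (hGg w hw)⟩
  have hx' : ∀ u ∈ P, R x u ∨ (u ∈ X ∧ u ∉ E ∧ R u x) := by
    intro u hu
    have huE : u ∉ E := fun h => disjoint_left.1 hPE hu h
    rcases hT.tot x u (fun e => huE (e ▸ hxE)) with h7 | h7
    · exact Or.inl h7
    · exact Or.inr ⟨hP hu, huE, h7⟩
  have hdegP : ∀ u, p.c1 ≤ (nI R P u).card → p.c1 ≤ (nI R X u).card :=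
    fun u hu => hu.trans (card_le_card (nI_mono hP))
  -- vertices with many dominators
  have hlarge : ∀ u ∈ X, j < (nI R Nx u).card →
      ∃ v ∈ P, R x v ∧ R v u ∧ Strong R (Good R κ η P) p.c0 p.c P v := by
    intro u hu hju
    have hDX : nI R Nx u ⊆ X := (nI_sub.trans hNG).trans hG
    have h7 := key (nI R Nx u) (mem_insert_of_mem (mem_union_right _ (mem_image_of_mem _ hu))) hDX
    have h8 : ((j : ℝ) + 1) ≤ (nI R Nx u).card := by exact_mod_cast hju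
    have h9 : c * (σ * X.card) ≤ c * (nI R Nx u).card := mul_le_mul_of_nonneg_left (hj2.le.trans h8) hc.le
    have h10 : (2 * p.c0 + 1 : ℕ) ≤ (nI R Nx u ∩ P).card := by
      have h11 : ((2 * p.c0 + 1 : ℕ) : ℝ) ≤ (nI R Nx u ∩ P).card := by
        push_cast
        have h12 : (0 : ℝ) ≤ p.c1 := Nat.cast_nonneg _
        have h13 : (0 : ℝ) ≤ p.u0 := Nat.cast_nonneg _
        have h14 : (0 : ℝ) ≤ p.g := Nat.cast_nonneg _
        have h15 : (0 : ℝ) ≤ p.c0 := Nat.cast_nonneg _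
        nlinarith
      exact_mod_cast h11
    obtain ⟨v, hv, hv2⟩ := exists_deg_in hT h10
    rw [mem_inter, mem_nI] at hv
    obtain ⟨⟨hvN, hvu⟩, hvP⟩ := hv
    refine ⟨v, hvP, hNx v hvN, hvu, ⟨(mem_filter.1 (hGP v (hNG hvN) hvP)).2, ?_⟩, ?_⟩
    · exact hv2.trans (card_le_card (nI_mono inter_subset_right))
    · refine (hcc.trans hv2).trans (card_le_card (nI_mono ?_))
      intro w hw
      rw [mem_inter, mem_nI] at hw
      exact hGP w (hNG hw.1.1) hw.2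
  refine ⟨?_, U, Q₀, hU, hQ₀, ?_, ?_⟩
  · -- the dense class
    unfold ClD
    have h7 := key Nx (mem_insert_self _ _) (hNG.trans hG)
    have h8 : ((Nx ∩ P).card : ℝ) ≤ (P.filter (fun v => Good R κ η P v ∧ R x v)).card := by
      have : Nx ∩ P ⊆ P.filter (fun v => Good R κ η P v ∧ R x v) := by
        intro w hw
        rw [mem_inter] at hw
        exact mem_filter.2 ⟨hw.2, (mem_filter.1 (hGP w (hNG hw.1) hw.2)).2, hNx w hw.1⟩
      exact_mod_cast card_le_card this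
    have h9 : c * (γ * X.card) ≤ c * Nx.card := mul_le_mul_of_nonneg_left hNc hc.le
    have h10 : c * σ / 2 * X.card ≤ c * γ / 2 * X.card := by
      apply mul_le_mul_of_nonneg_right _ hn0.le
      have := mul_le_mul_of_nonneg_left h1 hc.le
      linarith
    have h11 : s * P.card ≤ s * X.card := mul_le_mul_of_nonneg_left hPX hs.le
    have h12 : s * X.card ≤ c * γ / 4 * X.card := mul_le_mul_of_nonneg_right h6 hn0.le
    have h13 : 0 ≤ c * γ / 4 * X.card := by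
      have : 0 < γ := lt_of_lt_of_le hσ h1
      positivity
    linarith
  · intro u hu
    rcases hx' u hu with h7 | ⟨huX, huE, hux⟩
    · exact Or.inl h7
    right
    by_cases hd : (nI R P u).card < p.c1
    · exact Or.inl hd
    right
    push Not at hd
    by_cases huU : u ∈ U
    · exact Or.inl huU
    right
    by_cases hj' : (nI R Nx u).card ≤ j
    · obtain ⟨h, hh1, hh2, hh3, hh4, _⟩ := hH4 u huX huE hux (hdegP u hd) hj' huU
      exact ⟨h, hHP hh2, hNx h hh1, hh3, (mem_filter.1 (hGP h (hNG hh1) (hHP hh2))).2,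
        hh4.trans (card_le_card (nI_mono hHP))⟩
    · obtain ⟨v, h8, h9, h10, h11⟩ := hlarge u huX (not_le.1 hj')
      exact ⟨v, h8, h9, h10, h11.1⟩
  · intro u hu
    rcases hx' u hu with h7 | ⟨huX, huE, hux⟩
    · exact Or.inl h7
    right
    by_cases hd : (nI R P u).card < p.c1
    · exact Or.inl hd
    right
    push Not at hd
    by_cases huU : u ∈ U
    · exact Or.inl huU
    right
    by_cases huQ : u ∈ Q₀
    · exact Or.inl huQ
    right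
    by_cases hj' : (nI R Nx u).card ≤ j
    · obtain ⟨h, hh1, hh2, hh3, hh4, hh5⟩ := hH4 u huX huE hux (hdegP u hd) hj' huU
      refine ⟨h, hHP hh2, hNx h hh1, hh3, ⟨(mem_filter.1 (hGP h (hNG hh1) (hHP hh2))).2,
        hh4.trans (card_le_card (nI_mono hHP))⟩, ?_⟩
      refine (hh5 huQ).trans (card_le_card (nI_mono ?_))
      intro w hw
      rw [mem_inter] at hw
      exact hGP w hw.2 (hHP hw.1)
    · exact hlarge u huX (not_le.1 hj')

/-- **Robustness of the coverage** -/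
theorem cov_avoid (hT : AE32.Tour R) {p : NP} (hp : p.OK) {γ : ℝ} {X G E : Finset V} {x : V} {m : ℕ} (hG : G ⊆ X)
    (h : Cov R p γ X G E x m) (hE : E.card ≤ p.e) (J : ℕ)
    (hn : ((J + p.e + 2 * p.c0 + 1 : ℕ) : ℝ) ≤ γ * X.card) :
    ∃ Harm ⊆ X, Harm.card ≤ (2 * (J + p.e + 2 * p.c0 + 1) + 4 * (p.c1 + p.u0 + p.g)) * (1 + p.c0 + p.c) ∧
      Disjoint Harm E ∧ ∀ Z : Finset V, Z.card ≤ J → Disjoint Z Harm → CovE R p γ X G (E ∪ Z) x m := by
  obtain ⟨Nx, U, Q₀, a1, a2, a3, a4, a5, a6, a7, a8, a9⟩ := h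
  obtain ⟨H, h1, h2, h3, h4⟩ := cov_avoid_aux hT hp hG a1 a2 a3 a4 a5 a6 a7 a8 a9 hE J (by push_cast at hn; exact hn)
  exact ⟨H, h1, h3, h2, h4⟩

end AEB
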