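import Pool.Agent.AEB.PE

/-!
# Oriented trees with bounded runs towards the root in tournaments: definitions, part 2
-/

namespace AEB

open Finset AE15 AED
open scoped Classical

variable {V : Type*} {R : V → V → Prop}

/-- `v` reaches robustly, inside `U`, all but at most `η |X|` vertices of `X` -/
def GdU (R : V → V → Prop) (κ η : ℝ) (U X : Finset V) (v : V) : Prop :=
  ∀ C ⊆ U, nO R U v ⊆ C → Closed R κ U C → ((X \ C).card : ℝ) ≤ η * X.card

/-- the items with predicate `N` can be embedded in every representative subset of `A`, up to a small part: the class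
holds there with everything strongly covered -/
def OkB (R : V → V → Prop) (κ η s : ℝ) (p : NP) (A : Finset V) (𝓕 : Finset (Finset V)) (ε : ℝ) (m : ℕ)
    (N : V → Prop) : Prop :=
  ∀ S ⊆ A, m ≤ S.card → Rep A 𝓕 ε S → ∃ S' ⊆ S, (1 - 7 * η) * S.card ≤ S'.card ∧ ClD (Good R κ η S') s S' N ∧
    ∀ u ∈ S', N u ∨ (nI R S' u).card < p.c1 ∨ ∃ v ∈ S', N v ∧ R v u ∧ Strong R (Good R κ η S') p.c0 p.c S' v

/-- `x` is super in `X` and has linearly many good out-neighbours -/
def SuperG (R : V → V → Prop) (κ η τ : ℝ) (X : Finset V) (x : V) : Prop :=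
  Super R κ η τ X x ∧ τ * X.card ≤ ((X.filter (fun w => R x w ∧ Good R κ η X w)).card : ℝ)

/-- number of vertices placed for one item at level `i` (`a`: bound for the block size) -/
def wB (b a : ℕ) : ℕ → ℕ
  | 0 => 0
  | i + 1 => a + a * b * wB b a i

/-- number of items arising from one item at level `i` -/
def vB (b a i : ℕ) : ℕ := (a * b) ^ i

end AEB
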