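import Pool.Agent.AEB.ClsB
import Pool.Agent.AE15.FinalL

/-!
# The dense class of the remaining set at a host of large out-degree
-/

namespace AEB

open Finset AE15 AED
open scoped Classical

variable {V : Type*} {R : V → V → Prop}

theorem final_dense (hT : AE32.Tour R) {X G : Finset V} {x : V} {κ₁ η₁ κ η γ s σ δ ε c : ℝ} (hG : G ⊆ X)
    (hGg : ∀ g ∈ G, Good R κ₁ η₁ X g) (hx : γ * X.card ≤ ((nO R G x).card : ℝ)) (hX : X.Nonempty) (hκ : 0 < κ)
    (hη : 0 < η) (hκ₁ : 0 < κ₁) (hη₁ : 0 < η₁) (hσ : 0 < σ) (hδ : 0 ≤ δ) (hε : 0 < ε) (hc : 0 < c) (hc1 : c ≤ 1)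
    (h1 : σ ≤ γ) (h2 : 2 * (δ + ε) ≤ c * σ) (h3 : σ ≤ κ₁) (h4 : κ ≤ c * κ₁ / 2) (h5 : 2 * η₁ ≤ c * η) (hs : 0 < s)
    (h6 : s ≤ c * γ / 4) :
    ∃ 𝓕 : Finset (Finset V), 𝓕.card ≤ 8 * X.card ^ 2 ∧
      ∀ A Q P : Finset V, A ⊆ X → (X.card : ℝ) ≤ 2 * A.card → Q ⊆ A → Rep A 𝓕 ε Q →
        c * A.card ≤ Q.card → P ⊆ X → Q ⊆ P → (((X \ A) \ P).card : ℝ) ≤ δ * X.card →
        ClD (Good R κ η P) s P (R x) := by
  have hn0 : (0 : ℝ) < X.card := by exact_mod_cast hX.card_pos
  have hn1 : 1 ≤ X.card := hX.card_pos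
  obtain ⟨FF, hF1, hF2, hF3⟩ := exists_family R κ₁ η₁ X
  refine ⟨insert (nO R G x) FF, ?_, ?_⟩
  · have h8 := card_insert_le (nO R G x) FF
    nlinarith
  intro A Q P hA hXA hQ hRep hcQ hP hQP hdel
  have hA0 : A.Nonempty := by
    rw [← card_pos]
    have : (0 : ℝ) < A.card := by linarith
    exact_mod_cast this
  have hPX : (P.card : ℝ) ≤ X.card := by exact_mod_cast card_le_card hP
  have hQP' : (Q.card : ℝ) ≤ P.card := by exact_mod_cast card_le_card hQP
  have key : ∀ F ∈ insert (nO R G x) FF, F ⊆ X →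
      c * F.card - c * σ / 2 * X.card ≤ ((F ∩ P).card : ℝ) := by
    intro F hF hFX
    have h7 := meet_bound hε hc hA hA0 hQ hRep hcQ hQP hdel hF hFX
    have h8 : (δ + ε) * X.card ≤ c * σ / 2 * X.card := mul_le_mul_of_nonneg_right (by linarith) hn0.le
    linarith
  -- goodness in `P`
  have hgood : ∀ w ∈ X, Good R κ₁ η₁ X w → Good R κ η P w := by
    apply hF3 P hP κ η
    · intro F hF hFc
      have h7 := key F (mem_insert_of_mem hF) (hF2 F hF)
      have h8 : c * (κ₁ * X.card) ≤ c * F.card := mul_le_mul_of_nonneg_left hFc hc.le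
      have h9 : c * σ / 2 * X.card ≤ c * κ₁ / 2 * X.card := by
        apply mul_le_mul_of_nonneg_right _ hn0.le
        have := mul_le_mul_of_nonneg_left h3 hc.le
        linarith
      have h10 : κ * P.card ≤ κ * X.card := mul_le_mul_of_nonneg_left hPX hκ.le
      have h11 : κ * X.card ≤ c * κ₁ / 2 * X.card := mul_le_mul_of_nonneg_right h4 hn0.le
      linarith
    · intro F hF hFc
      have h7 : ((F ∩ P).card : ℝ) ≤ F.card := by exact_mod_cast card_le_card inter_subset_left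
      have h8 : η₁ * X.card ≤ c * η / 2 * X.card := mul_le_mul_of_nonneg_right (by linarith) hn0.le
      have h9 : c * η / 2 * X.card ≤ c * η / 2 * (2 * A.card) := mul_le_mul_of_nonneg_left hXA (by positivity)
      have h10 : η * (c * A.card) ≤ η * P.card := mul_le_mul_of_nonneg_left (hcQ.trans hQP') hη.le
      linarith
  unfold ClD
  have h7 := key (nO R G x) (mem_insert_self _ _) (nO_sub.trans hG)
  have h8 : ((nO R G x ∩ P).card : ℝ) ≤ (P.filter (fun v => Good R κ η P v ∧ R x v)).card := by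
    have : nO R G x ∩ P ⊆ P.filter (fun v => Good R κ η P v ∧ R x v) := by
      intro w hw
      rw [mem_inter, mem_nO] at hw
      exact mem_filter.2 ⟨hw.2, hgood w (hG hw.1.1) (hGg w hw.1.1), hw.1.2⟩
    exact_mod_cast card_le_card this
  have h9 : c * (γ * X.card) ≤ c * (nO R G x).card := mul_le_mul_of_nonneg_left hx hc.le
  have h10 : c * σ / 2 * X.card ≤ c * γ / 2 * X.card := by
    apply mul_le_mul_of_nonneg_right _ hn0.le
    have := mul_le_mul_of_nonneg_left h1 hc.le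
    linarith
  have h11 : s * P.card ≤ s * X.card := mul_le_mul_of_nonneg_left hPX hs.le
  have h12 : s * X.card ≤ c * γ / 4 * X.card := mul_le_mul_of_nonneg_right h6 hn0.le
  have h13 : 0 ≤ c * γ / 4 * X.card := by
    have : 0 < γ := lt_of_lt_of_le hσ h1
    positivity
  linarith

end AEB
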