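import Pool.Agent.AEB.ConstB
import Pool.Agent.AEB.CovE
import Pool.Agent.AEB.FinalD

/-!
# The final part of a step, after all placings, with constants
-/

namespace AEB

open Finset AE15 AED
open scoped Classical

/-- **Final part.** `Za` is the set of all used vertices (of constant size); the pending items hang at super vertices, the
final item at a vertex `x` where the coverage statement holds with `Za` removed. -/
theorem finZ (p : NP) (hp : p.OK) {D₀ : ℕ} {ω c η η₁ κ₀ κ₁ κ γ₀ τ s σ₂ μ : ℝ}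
    (P : KB D₀ ω c η η₁ κ₀ κ₁ κ γ₀ τ s σ₂ μ) (m J : ℕ) : ∃ n₀ A₀ : ℕ,
    ∀ {V : Type} {R : V → V → Prop}, AE32.Tour R → ∀ {X G Ks Z Za : Finset V} {h x : V} {F D : Fd}
      {L L' : List (V × Fd)} {K C K' C' : ℝ}, n₀ ≤ X.card → G ⊆ X → (∀ g ∈ G, Good R κ₁ η₁ X g) →
      ((¬ NN D ∧ γ₀ / 16 * X.card ≤ ((nO R G x).card : ℝ)) ∨ CovE R p (γ₀ / 16) X G Za x (p.ub D)) →
      x ∈ Za → Ks ⊆ X → (∀ y ∈ Ks, ∃ Y ⊆ X, ((X \ Y).card : ℝ) ≤ 5 * η * X.card ∧ SuperG R κ₁ η₁ τ Y y) →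
      PE R F h Z L → insert h Z ⊆ Za → Za.card ≤ J → FOK p.b p.l 0 F → L.Perm ((x, D) :: L') →
      (∀ q ∈ L', q.1 ∈ Ks) → L'.length ≤ m → F.size + 1 ≤ D₀ * (D.size + 1) →
      0 ≤ K → 0 ≤ C → 1 ≤ K' → 0 ≤ C' → K ≤ (1 + ω) * K' → A₀ * C ≤ X.card →
      (∀ F' : Fd, FOK p.b p.l 0 F' → F'.size < F.size → EE R κ η s p K C F') → EE R κ η s p K' C' D →
      K' * F.size + C' + (Za \ Z).card ≤ X.card →
      ∃ S ⊆ X, Disjoint S Za ∧ Emb R F h (Z ∪ S) := by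
  obtain ⟨hω0, hω1, hc0, hc1, hη0, hη1, hη₁0, hη₁1, hκ₀0, hκ₁0, hκ₁1, hκ0, hκ1, hs0, hγ₀0, hτ0, hσ₂0, hμ0, hκ₁η, hκs⟩ :=
    P.num
  obtain ⟨hD, hω, hc, hη, hη₁, hκ₀, hκ₁, hκ, hγ₀, hτ, hs, hσ₂, hμ⟩ := P
  obtain ⟨σ, ε, PU⟩ := exists_KU p c κ
  have hcη : c * η ≤ 1 * η := mul_le_mul_of_nonneg_right (by linarith) hη0.le
  have hcη₁ : c * η₁ ≤ 1 * η₁ := mul_le_mul_of_nonneg_right (by linarith) hη₁0.le
  obtain ⟨hσ0, hε0, hσ1, hσ2, hκU2, hεσ⟩ := PU.num (κ₁ := κ₁) hc0 (by linarith) hκ0 hκ1 (by linarith)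
  have hε := PU.hε
  obtain ⟨m₁, hm₁⟩ : ∃ m₁ : ℕ, m₁ = ⌈16 * ((p.c : ℝ) + p.c0 + 2) / σ₂⌉₊ := ⟨_, rfl⟩
  have hm₁' : 16 * ((p.c : ℝ) + p.c0 + 2) ≤ σ₂ * m₁ := by
    have h1 : 16 * ((p.c : ℝ) + p.c0 + 2) / σ₂ ≤ m₁ := by rw [hm₁]; exact Nat.le_ceil _
    rw [div_le_iff₀ hσ₂0] at h1
    linarith
  obtain ⟨n₁, hn₁⟩ := host_itemsB (c := c) hε0 (by linarith) hc0 m m₁
  obtain ⟨A₀, hA₀⟩ : ∃ A₀ : ℕ, A₀ = ⌈m / (ω / 4)⌉₊ := ⟨_, rfl⟩
  have hA₀' : (m : ℝ) ≤ ω / 4 * A₀ := by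
    have h1 : m / (ω / 4) ≤ A₀ := by rw [hA₀]; exact Nat.le_ceil _
    rw [div_le_iff₀ (by positivity)] at h1
    linarith
  obtain ⟨n₀, hn₀⟩ := exists_big [((100 : ℝ), ε), ((m : ℝ) * m₁, ω / 16),
      (8 * (p.c0 + p.c1 + p.u0 + p.g + 1 : ℝ), c * σ), (2 * (n₁ : ℝ), 1), ((J : ℝ), ε), (1, 1)] (by
    intro q hq
    simp only [List.mem_cons, List.not_mem_nil, or_false] at hq
    rcases hq with rfl | rfl | rfl | rfl | rfl | rfl
    · exact hε0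
    · show 0 < ω / 16
      positivity
    · show 0 < c * σ
      positivity
    · exact one_pos
    · exact hε0
    · exact one_pos)
  refine ⟨n₀, A₀, ?_⟩
  intro V R hT X G Ks Z Za h x F D L L' K C K' C' hnX hG hGg hcov hxE hKX hKh hPE hZa hJ hF hL hL'K hL'm hsize hK hC hK'
    hC' hKK hAC hEE hEf hn
  have hbig := hn₀ X.card hnX
  obtain ⟨n, hnd⟩ : ∃ n : ℝ, n = (X.card : ℝ) := ⟨_, rfl⟩
  rw [← hnd] at hbig hAC hn
  have b1 : (100 : ℝ) ≤ ε * n := hbig (100, ε) (by simp)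
  have b2 : (m : ℝ) * m₁ ≤ ω / 16 * n := hbig ((m : ℝ) * m₁, ω / 16) (by simp)
  have b3 : 8 * (p.c0 + p.c1 + p.u0 + p.g + 1 : ℝ) ≤ c * σ * n :=
    hbig (8 * (p.c0 + p.c1 + p.u0 + p.g + 1 : ℝ), c * σ) (by simp)
  have b6 : 2 * (n₁ : ℝ) ≤ 1 * n := hbig (2 * (n₁ : ℝ), 1) (by simp)
  have b7 : (J : ℝ) ≤ ε * n := hbig ((J : ℝ), ε) (by simp)
  have b9 : 1 ≤ 1 * n := hbig (1, 1) (by simp)
  have hn0 : 0 < n := by linarith
  have hX : X.Nonempty := by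
    rw [← card_pos]
    rw [hnd] at hn0
    exact_mod_cast hn0
  -- the constants of the core
  have hcσ : c * σ ≤ 1 * σ := mul_le_mul_of_nonneg_right (by linarith) hσ0.le
  have PC : CstB p n ω c η η₁ κ₁ κ τ s σ₂ μ ε ε m m₁ := by
    refine ⟨hω0, by linarith, hc, hη, hη₁0, by linarith, hκ₁0, by linarith, hκ0, by linarith, hσ₂0, by linarith,
      by linarith, by linarith, by linarith, hμ0, by linarith, hε0, by linarith, by linarith, hε0, by linarith, b1,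
      hm₁', b2⟩
  -- the final class
  obtain ⟨𝓕x, H, h𝓕x, hHX, hHE, hHc, hfin⟩ : ∃ (𝓕 : Finset (Finset V)) (H : Finset V), 𝓕.card ≤ 8 * X.card ^ 2 ∧
      H ⊆ X ∧ Disjoint H Za ∧ (H.card : ℝ) ≤ 3 * (1 + p.c0 + p.c) * σ * X.card ∧
      ∀ A Q P : Finset V, A ⊆ X → (X.card : ℝ) ≤ 2 * A.card → Q ⊆ A → Rep A 𝓕 ε Q →
        c * A.card ≤ Q.card → P ⊆ X → Disjoint P Za → Q ⊆ P → H ⊆ P → (((X \ A) \ P).card : ℝ) ≤ ε * X.card →
        Cl R (Good R κ η P) s p D P (R x) := by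
    rcases hcov with ⟨hD, hx⟩ | hCov
    · obtain ⟨𝓕, h𝓕, hfin⟩ := final_dense hT (κ := κ) (η := η) (s := s) (σ := σ) (δ := ε) (ε := ε) (c := c) hG hGg hx hX hκ0
        hη0 hκ₁0 hη₁0 hσ0 hε0.le hε0 hc0 (by linarith) (by linarith) (by linarith) (by linarith) (by linarith)
        (by linarith) hs0 (by rw [hs, hγ₀]; linarith)
      refine ⟨𝓕, ∅, h𝓕, empty_subset _, disjoint_empty_left _, ?_, ?_⟩
      · rw [card_empty, Nat.cast_zero]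
        positivity
      · intro A Q P a1 a2 a3 a4 a5 a6 _ a8 _ a10
        exact ⟨hfin A Q P a1 a2 a3 a4 a5 a6 a8 a10, fun h => absurd h hD⟩
    · obtain ⟨𝓕, H, h𝓕, hHX, hHE, hHc, hfin⟩ := final_covE hT hp (κ := κ) (η := η) (s := s) (σ := σ) (δ := ε) (ε := ε)
        (c := c) hG hGg hCov hxE hX hκ0 hη0 hκ₁0 hη₁0 hσ0 hε0.le hε0 hc0 (by linarith) (by linarith) (by linarith)
        (by linarith) (by linarith) (by linarith) hs0 (by rw [hs, hγ₀]; linarith) (by rw [← hnd]; exact b3)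
      refine ⟨𝓕, H, h𝓕, hHX, hHE, hHc, fun A Q P a1 a2 a3 a4 a5 a6 a7 a8 a9 a10 => ?_⟩
      have h := hfin A Q P a1 a2 a3 a4 a5 a6 a7 a8 a9 a10
      exact ⟨h.1, fun _ => h⟩
  rw [← hnd] at hHc
  have hHc' : (H.card : ℝ) ≤ 3 / 400 * κ ^ 2 * n := by
    refine hHc.trans (le_of_eq ?_)
    rw [show 3 * (1 + (p.c0 : ℝ) + p.c) * σ * n = 3 * ((1 + (p.c0 : ℝ) + p.c) * σ) * n by ring, hσ1]
    ring
  have hmem := hPE.mem hF
  refine coreZ hT (by rw [← hnd]; exact PC) h𝓕x hHX (by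
      rw [← hnd]
      refine hHc'.trans (mul_le_mul_of_nonneg_right ?_ hn0.le)
      rw [hμ, hσ₂]
      linarith) hfin hKX hKh hPE hZa (fun q hq => (hmem q hq).1) hHE.symm (by
      rw [← hnd]
      have : (Za.card : ℝ) ≤ J := by exact_mod_cast hJ
      linarith) hL hL'K hL'm (by
      have : 2 * (n₁ : ℝ) ≤ X.card := by rw [← hnd]; linarith
      exact_mod_cast this) (fun A 𝓕 => hn₁ A 𝓕) hK hC hK' hC' hKK (by
      rw [← hnd]
      have h1 := mul_le_mul_of_nonneg_right hA₀' hC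
      have h2 : ω / 4 * (A₀ * C) ≤ ω / 4 * n := mul_le_mul_of_nonneg_left hAC (by positivity)
      linarith) (fun q hq => by
      have h1 := hmem q (hL.symm.subset (List.mem_cons_of_mem _ hq))
      exact hEE q.2 h1.2.1 h1.2.2) hEf (by
      have h1 : (F.size : ℝ) + 1 ≤ D₀ * (D.size + 1) := by exact_mod_cast hsize
      have hD' : (64 : ℝ) ≤ D₀ := by exact_mod_cast hD
      rw [hω]
      have h2 : 2 * (1 / (2 * (D₀ : ℝ))) * F.size = F.size / D₀ := by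
        field_simp
      rw [h2, div_le_iff₀ (by linarith)]
      linarith) (by rw [← hnd]; exact hn)

end AEB
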