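import Pool.Agent.AEB.FinalCov
import Pool.Agent.AEB.CovOf

/-!
# Theorem B: the class of the remaining set (module B13)
-/

namespace AEB

open Finset AE15 AED
open scoped Classical

variable {V : Type*} {R : V → V → Prop}

/-- the class of the remaining set `P` at the final host `x` -/
theorem final_cov (hT : AE32.Tour R) {p : NP} (hp : p.OK) {X G E : Finset V} {x : V} {m : ℕ}
    {κ₁ η₁ κ η γ s σ δ ε c : ℝ} (hG : G ⊆ X) (hGg : ∀ g ∈ G, Good R κ₁ η₁ X g) (hCov : Cov R p γ X G E x m)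
    (hxE : x ∈ E) (hEc : E.card ≤ p.e) (hX : X.Nonempty) (hκ : 0 < κ) (hη : 0 < η) (hκ₁ : 0 < κ₁)
    (hη₁ : 0 < η₁) (hσ : 0 < σ) (hδ : 0 ≤ δ) (hε : 0 < ε) (hc : 0 < c) (hc1 : c ≤ 1) (h1 : σ ≤ γ)
    (h2 : 2 * (δ + ε) ≤ c * σ) (h3 : σ ≤ κ₁) (h4 : κ ≤ c * κ₁ / 2) (h5 : 2 * η₁ ≤ c * η) (hs : 0 < s)
    (h6 : s ≤ c * γ / 4) (hn : 8 * (p.c0 + p.c1 + p.u0 + p.g + 1 : ℝ) ≤ c * σ * X.card) :
    ∃ (𝓕 : Finset (Finset V)) (H : Finset V), 𝓕.card ≤ 8 * X.card ^ 2 ∧ H ⊆ X ∧ Disjoint H E ∧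
      (H.card : ℝ) ≤ 3 * (1 + p.c0 + p.c) * σ * X.card ∧
      ∀ A Q P : Finset V, A ⊆ X → (X.card : ℝ) ≤ 2 * A.card → Q ⊆ A → Rep A 𝓕 ε Q →
        c * A.card ≤ Q.card → P ⊆ X → Disjoint P E → Q ⊆ P → H ⊆ P → (((X \ A) \ P).card : ℝ) ≤ δ * X.card →
        ClB R (Good R κ η P) s p m P (R x) := by
  obtain ⟨Nx, U, Q₀, a1, a2, a3, a4, a5, a6, a7, a8, a9⟩ := hCov
  exact final_cov_aux hT hp hG hGg a1 a2 a3 a4 a5 a6 a7 a8 a9 hxE hEc hX hκ hη hκ₁ hη₁ hσ hδ hε hc hc1 h1 h2 h3 h4 h5 hs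
    h6 hn

end AEB
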