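import Pool.Agent.AEB.Reserve
import Pool.Agent.AE15.FinalL

/-!
# The class of the remaining set at the final host (explicit form)
-/

namespace AEB

open Finset AE15 AED
open scoped Classical

variable {V : Type*} {R : V → V → Prop}

/-- the class of the remaining set `P` at the final host `x`; `Nx`, `U`, `Q₀` are the data of the coverage statement -/
theorem final_cov_aux (hT : AE32.Tour R) {p : NP} (hp : p.OK) {X G E Nx U Q₀ : Finset V} {x : V} {m : ℕ}
    {κ₁ η₁ κ η γ s σ δ ε c : ℝ} (hG : G ⊆ X) (hGg : ∀ g ∈ G, Good R κ₁ η₁ X g)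
    (hNG : Nx ⊆ G) (hNx : ∀ h ∈ Nx, R x h) (hNc : γ * X.card ≤ Nx.card) (hU : U.card ≤ m) (hQ₀ : Q₀.card ≤ p.q)
    (hdeg : ∀ h ∈ Nx, p.c1 ≤ (nI R X h).card)
    (hcount : ∀ j : ℕ, (j : ℝ) ≤ γ * X.card →
      ((nI R X x).filter (fun u => (nI R Nx u).card ≤ j)).card ≤ 2 * j + 4 * (p.c1 + p.u0 + p.g))
    (hcov : ∀ u ∈ X, u ∉ E → R u x → p.c1 ≤ (nI R X u).card → u ∉ U → ∃ h ∈ Nx, h ∉ E ∧ R h u)
    (hcov' : ∀ u ∈ X, u ∉ E → R u x → p.c1 ≤ (nI R X u).card → u ∉ U → u ∉ Q₀ →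
      ∃ h ∈ Nx, h ∉ E ∧ R h u ∧ p.c ≤ (nI R (G \ E) h).card)
    (hxE : x ∈ E) (hEc : E.card ≤ p.e) (hX : X.Nonempty) (hκ : 0 < κ) (hη : 0 < η) (hκ₁ : 0 < κ₁)
    (hη₁ : 0 < η₁) (hσ : 0 < σ) (hδ : 0 ≤ δ) (hε : 0 < ε) (hc : 0 < c) (hc1 : c ≤ 1) (h1 : σ ≤ γ)
    (h2 : 2 * (δ + ε) ≤ c * σ) (h3 : σ ≤ κ₁) (h4 : κ ≤ c * κ₁ / 2) (h5 : 2 * η₁ ≤ c * η) (hs : 0 < s)
    (h6 : s ≤ c * γ / 4) (hn : 8 * (p.c0 + p.c1 + p.u0 + p.g + 1 : ℝ) ≤ c * σ * X.card) :
    ∃ (𝓕 : Finset (Finset V)) (H : Finset V), 𝓕.card ≤ 8 * X.card ^ 2 ∧ H ⊆ X ∧ Disjoint H E ∧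
      (H.card : ℝ) ≤ 3 * (1 + p.c0 + p.c) * σ * X.card ∧
      ∀ A Q P : Finset V, A ⊆ X → (X.card : ℝ) ≤ 2 * A.card → Q ⊆ A → Rep A 𝓕 ε Q →
        c * A.card ≤ Q.card → P ⊆ X → Disjoint P E → Q ⊆ P → H ⊆ P → (((X \ A) \ P).card : ℝ) ≤ δ * X.card →
        ClB R (Good R κ η P) s p m P (R x) := by
  have hn0 : (0 : ℝ) < X.card := by exact_mod_cast hX.card_pos
  have hn1 : 1 ≤ X.card := hX.card_pos
  have hcc : p.c ≤ p.c0 := by
    have h7 := hp.hc0
    have h8 : 0 ≤ 2 ^ p.r0 := Nat.zero_le _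
    have h9 : 0 ≤ 2 * (2 * p.c + p.r0) ^ 2 := Nat.zero_le _
    generalize 2 ^ p.r0 = y at h7 h8
    generalize 2 * (2 * p.c + p.r0) ^ 2 = z at h7 h9
    omega
  obtain ⟨FF, hF1, hF2, hF3⟩ := exists_family R κ₁ η₁ X
  set j : ℕ := ⌊σ * X.card⌋₊ with hj
  have hj1 : (j : ℝ) ≤ σ * X.card := Nat.floor_le (by positivity)
  have hj2 : σ * X.card < j + 1 := Nat.lt_floor_add_one _
  have hcnt := hcount j (hj1.trans (mul_le_mul_of_nonneg_right h1 hn0.le))
  obtain ⟨H, hH1, hH2, hH3, hH4⟩ := reserve p hp hG hNG hEc hdeg hcnt hcov hcov'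
  refine ⟨insert Nx (FF ∪ X.image (fun u => nI R Nx u)), H, ?_, hH1, hH2, ?_, ?_⟩
  · have h7 : (FF ∪ X.image (fun u => nI R Nx u)).card ≤ X.card * (X.card + 1) + X.card :=
      (card_union_le _ _).trans (add_le_add hF1 card_image_le)
    have h8 := card_insert_le Nx (FF ∪ X.image (fun u => nI R Nx u))
    nlinarith
  · have h7 : (H.card : ℝ) ≤ ((2 * j + 4 * (p.c1 + p.u0 + p.g) : ℕ) : ℝ) * ((1 + p.c0 + p.c : ℕ) : ℝ) := by
      exact_mod_cast hH3
    push_cast at h7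
    have h8 : c * σ * X.card ≤ 1 * (σ * X.card) := by
      rw [mul_assoc]
      exact mul_le_mul_of_nonneg_right hc1 (by positivity)
    have h9 : (0 : ℝ) ≤ p.c0 := Nat.cast_nonneg _
    have h10 : 2 * (j : ℝ) + 4 * (p.c1 + p.u0 + p.g) ≤ 3 * (σ * X.card) := by linarith
    calc (H.card : ℝ) ≤ (2 * (j : ℝ) + 4 * (p.c1 + p.u0 + p.g)) * (1 + p.c0 + p.c) := h7
      _ ≤ (3 * (σ * X.card)) * (1 + p.c0 + p.c) := mul_le_mul_of_nonneg_right h10 (by positivity)
      _ = 3 * (1 + p.c0 + p.c) * σ * X.card := by ring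
  intro A Q P hA hXA hQ hRep hcQ hP hPE hQP hHP hdel
  have hA0 : A.Nonempty := by
    rw [← card_pos]
    have : (0 : ℝ) < A.card := by linarith
    exact_mod_cast this
  have hPX : (P.card : ℝ) ≤ X.card := by exact_mod_cast card_le_card hP
  have hQP' : (Q.card : ℝ) ≤ P.card := by exact_mod_cast card_le_card hQP
  have key : ∀ F ∈ insert Nx (FF ∪ X.image (fun u => nI R Nx u)), F ⊆ X →
      c * F.card - c * σ / 2 * X.card ≤ ((F ∩ P).card : ℝ) := by
    intro F hF hFX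
    have h7 := meet_bound hε hc hA hA0 hQ hRep hcQ hQP hdel hF hFX
    have h8 : (δ + ε) * X.card ≤ c * σ / 2 * X.card := mul_le_mul_of_nonneg_right (by linarith) hn0.le
    linarith
  -- goodness in `P`
  have hgood : ∀ w ∈ X, Good R κ₁ η₁ X w → Good R κ η P w := by
    apply hF3 P hP κ η
    · intro F hF hFc
      have h7 := key F (mem_insert_of_mem (mem_union_left _ hF)) (hF2 F hF)
      have h8 : c * (κ₁ * X.card) ≤ c * F.card := mul_le_mul_of_nonneg_left hFc hc.le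
      have h9 : c * σ / 2 * X.card ≤ c * κ₁ / 2 * X.card := by
        apply mul_le_mul_of_nonneg_right _ hn0.le
        have := mul_le_mul_of_nonneg_left h3 hc.le
        linarith
      have h10 : κ * P.card ≤ κ * X.card := mul_le_mul_of_nonneg_left hPX hκ.le
      have h11 : κ * X.card ≤ c * κ₁ / 2 * X.card := mul_le_mul_of_nonneg_right h4 hn0.le
      linarith
    · intro F hF hFc
      have h7 : ((F ∩ P).card : ℝ) ≤ F.card := by exact_mod_cast card_le_card inter_subset_left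
      have h8 : η₁ * X.card ≤ c * η / 2 * X.card := mul_le_mul_of_nonneg_right (by linarith) hn0.le
      have h9 : c * η / 2 * X.card ≤ c * η / 2 * (2 * A.card) := mul_le_mul_of_nonneg_left hXA (by positivity)
      have h10 : η * (c * A.card) ≤ η * P.card := mul_le_mul_of_nonneg_left (hcQ.trans hQP') hη.le
      linarith
  have hGP : ∀ w ∈ G, w ∈ P → w ∈ P.filter (Good R κ η P) := by
    intro w hw hwP
    exact mem_filter.2 ⟨hwP, hgood w (hG hw) (hGg w hw)⟩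
  have hx' : ∀ u ∈ P, R x u ∨ (u ∈ X ∧ u ∉ E ∧ R u x) := by
    intro u hu
    have huE : u ∉ E := fun h => disjoint_left.1 hPE hu h
    rcases hT.tot x u (fun e => huE (e ▸ hxE)) with h7 | h7
    · exact Or.inl h7
    · exact Or.inr ⟨hP hu, huE, h7⟩
  have hdegP : ∀ u, p.c1 ≤ (nI R P u).card → p.c1 ≤ (nI R X u).card :=
    fun u hu => hu.trans (card_le_card (nI_mono hP))
  -- vertices with many dominators
  have hlarge : ∀ u ∈ X, j < (nI R Nx u).card →
      ∃ v ∈ P, R x v ∧ R v u ∧ Strong R (Good R κ η P) p.c0 p.c P v := by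
    intro u hu hju
    have hDX : nI R Nx u ⊆ X := (nI_sub.trans hNG).trans hG
    have h7 := key (nI R Nx u) (mem_insert_of_mem (mem_union_right _ (mem_image_of_mem _ hu))) hDX
    have h8 : ((j : ℝ) + 1) ≤ (nI R Nx u).card := by exact_mod_cast hju
    have h9 : c * (σ * X.card) ≤ c * (nI R Nx u).card := mul_le_mul_of_nonneg_left (hj2.le.trans h8) hc.le
    have h10 : (2 * p.c0 + 1 : ℕ) ≤ (nI R Nx u ∩ P).card := by
      have h11 : ((2 * p.c0 + 1 : ℕ) : ℝ) ≤ (nI R Nx u ∩ P).card := by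
        push_cast
        have h12 : (0 : ℝ) ≤ p.c1 := Nat.cast_nonneg _
        have h13 : (0 : ℝ) ≤ p.u0 := Nat.cast_nonneg _
        have h14 : (0 : ℝ) ≤ p.g := Nat.cast_nonneg _
        have h15 : (0 : ℝ) ≤ p.c0 := Nat.cast_nonneg _
        nlinarith
      exact_mod_cast h11
    obtain ⟨v, hv, hv2⟩ := exists_deg_in hT h10
    rw [mem_inter, mem_nI] at hv
    obtain ⟨⟨hvN, hvu⟩, hvP⟩ := hv
    refine ⟨v, hvP, hNx v hvN, hvu, ⟨(mem_filter.1 (hGP v (hNG hvN) hvP)).2, ?_⟩, ?_⟩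
    · exact hv2.trans (card_le_card (nI_mono inter_subset_right))
    · refine (hcc.trans hv2).trans (card_le_card (nI_mono ?_))
      intro w hw
      rw [mem_inter, mem_nI] at hw
      exact hGP w (hNG hw.1.1) hw.2
  refine ⟨?_, U, Q₀, hU, hQ₀, ?_, ?_⟩
  · -- the dense class
    unfold ClD
    have h7 := key Nx (mem_insert_self _ _) (hNG.trans hG)
    have h8 : ((Nx ∩ P).card : ℝ) ≤ (P.filter (fun v => Good R κ η P v ∧ R x v)).card := by
      have : Nx ∩ P ⊆ P.filter (fun v => Good R κ η P v ∧ R x v) := by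
        intro w hw
        rw [mem_inter] at hw
        exact mem_filter.2 ⟨hw.2, (mem_filter.1 (hGP w (hNG hw.1) hw.2)).2, hNx w hw.1⟩
      exact_mod_cast card_le_card this
    have h9 : c * (γ * X.card) ≤ c * Nx.card := mul_le_mul_of_nonneg_left hNc hc.le
    have h10 : c * σ / 2 * X.card ≤ c * γ / 2 * X.card := by
      apply mul_le_mul_of_nonneg_right _ hn0.le
      have := mul_le_mul_of_nonneg_left h1 hc.le
      linarith
    have h11 : s * P.card ≤ s * X.card := mul_le_mul_of_nonneg_left hPX hs.le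
    have h12 : s * X.card ≤ c * γ / 4 * X.card := mul_le_mul_of_nonneg_right h6 hn0.le
    have h13 : 0 ≤ c * γ / 4 * X.card := by
      have : 0 < γ := lt_of_lt_of_le hσ h1
      positivity
    linarith
  · intro u hu
    rcases hx' u hu with h7 | ⟨huX, huE, hux⟩
    · exact Or.inl h7
    right
    by_cases hd : (nI R P u).card < p.c1
    · exact Or.inl hd
    right
    push Not at hd
    by_cases huU : u ∈ U
    · exact Or.inl huU
    right
    by_cases hj' : (nI R Nx u).card ≤ j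
    · obtain ⟨h, hh1, hh2, hh3, hh4, _⟩ := hH4 u huX huE hux (hdegP u hd) hj' huU
      exact ⟨h, hHP hh2, hNx h hh1, hh3, (mem_filter.1 (hGP h (hNG hh1) (hHP hh2))).2,
        hh4.trans (card_le_card (nI_mono hHP))⟩
    · obtain ⟨v, h8, h9, h10, h11⟩ := hlarge u huX (not_le.1 hj')
      exact ⟨v, h8, h9, h10, h11.1⟩
  · intro u hu
    rcases hx' u hu with h7 | ⟨huX, huE, hux⟩
    · exact Or.inl h7
    right
    by_cases hd : (nI R P u).card < p.c1
    · exact Or.inl hd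
    right
    push Not at hd
    by_cases huU : u ∈ U
    · exact Or.inl huU
    right
    by_cases huQ : u ∈ Q₀
    · exact Or.inl huQ
    right
    by_cases hj' : (nI R Nx u).card ≤ j
    · obtain ⟨h, hh1, hh2, hh3, hh4, hh5⟩ := hH4 u huX huE hux (hdegP u hd) hj' huU
      refine ⟨h, hHP hh2, hNx h hh1, hh3, ⟨(mem_filter.1 (hGP h (hNG hh1) (hHP hh2))).2,
        hh4.trans (card_le_card (nI_mono hHP))⟩, ?_⟩
      refine (hh5 huQ).trans (card_le_card (nI_mono ?_))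
      intro w hw
      rw [mem_inter] at hw
      exact hGP w hw.2 (hHP hw.1)
    · exact hlarge u huX (not_le.1 hj')

end AEB
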