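import Pool.Agent.AEB.CoreB
import Pool.Agent.AEB.Place

/-!
# Placing and assembly
-/

namespace AEB

open Finset AE15 AED
open scoped Classical

variable {V : Type} {R : V → V → Prop}

/-- from a partial embedding with all pending items at hosts of the top level (and the final item at a host where the
class of the remaining set holds) to an embedding; `U` is the ambient set, `F₀` has to be avoided outside of `X` -/
theorem finishB (hT : AE32.Tour R) {p : NP} {b l : ℕ} (hb : 1 ≤ b) {U X H Ks Z F₀ : Finset V} {h e : V}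
    {ω c η η₁ κ₁ κ τ s σ₂ μ ε δ k : ℝ} {m m₁ M z₀ : ℕ}
    (P : CstB p X.card ω c η η₁ κ₁ κ τ s σ₂ μ ε δ m m₁) (hXU : X ⊆ U)
    {𝓕x : Finset (Finset V)} (h𝓕x : 𝓕x.card ≤ 8 * X.card ^ 2) (hHX : H ⊆ X) (hHc : (H.card : ℝ) ≤ μ / 2 * X.card)
    {cf : Fd} (hfin : ∀ A Q P : Finset V, A ⊆ X → (X.card : ℝ) ≤ 2 * A.card → Q ⊆ A → Rep A 𝓕x ε Q →
        c * A.card ≤ Q.card → P ⊆ X → Disjoint P (insert h Z) → Q ⊆ P → H ⊆ P →
        (((X \ A) \ P).card : ℝ) ≤ δ * X.card → Cl R (Good R κ η P) s p cf P (R e))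
    (hKX : Ks ⊆ X) (hKh : ∀ y ∈ Ks, ∃ Y ⊆ X, ((X \ Y).card : ℝ) ≤ 5 * η * X.card ∧ SuperG R κ₁ η₁ τ Y y)
    {F : Fd} {L : List (V × Fd)} (hPE : PE R F h Z L) (hhZ : h ∉ Z) (hF : FOK b l 0 F)
    (hZH : Disjoint (insert h Z) H) (hZc : Z.card + 1 ≤ z₀)
    (hef : (e, cf) ∈ L) (hlev : ∀ q ∈ L, q ≠ (e, cf) → q.1 ∈ Lv R U Ks k M) (hlev' : e ∈ Lv R U Ks k M)
    (hm : b * z₀ * vB b (ab b l) M ≤ m) (hzδ : (z₀ : ℝ) + b * z₀ * wB b (ab b l) M ≤ δ * X.card)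
    (hk : (F₀.card : ℝ) + (H.card + 1) + z₀ + b * z₀ * wB b (ab b l) M + 2 ^ ab b l ≤ k)
    {n₁ : ℕ} (hn₁ : 2 * n₁ ≤ X.card) (hhost : ∀ (A : Finset V) (𝓕 : Finset (Finset V)), n₁ ≤ A.card →
      𝓕.card ≤ A.card ^ 5 →
      ∀ (p : NP) (κ η s K C : ℝ), 0 ≤ K → 0 ≤ C → 0 < η → 14 * η ≤ 1 → ∀ L : List (V × Fd), L.length ≤ m →
        (∀ q ∈ L, OkB R κ η s p A 𝓕 ε m₁ (R q.1)) → (∀ q ∈ L, EE R κ η s p K C q.2) →
        (K * isz L + m * C) / (1 - 7 * η) + m * m₁ ≤ (1 - 2 * c) * A.card →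
        ∃ S Q : Finset V, S ⊆ A ∧ Q ⊆ A ∧ Disjoint S Q ∧ EmbI R L S ∧ c * A.card ≤ Q.card ∧ Rep A 𝓕 ε Q)
    {K C K' C' : ℝ} (hK : 0 ≤ K) (hC : 0 ≤ C) (hK' : 1 ≤ K') (hC' : 0 ≤ C') (hKK : K ≤ (1 + ω) * K')
    (hmC : m * C ≤ ω / 4 * X.card)
    (hEE : ∀ F' : Fd, FOK b l 0 F' → F'.size < F.size → EE R κ η s p K C F') (hEf : EE R κ η s p K' C' cf)
    (hbig : 2 * ω * F.size ≤ cf.size + 1)
    (hn : K' * F.size + C' + 1 ≤ X.card) :
    ∃ S W : Finset V, S ⊆ X ∪ (Z ∪ W) ∧ W ⊆ U ∧ Disjoint W F₀ ∧ W.card ≤ b * z₀ * wB b (ab b l) M ∧ h ∉ S ∧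
      Emb R F h S := by
  obtain ⟨L₀, hL⟩ : ∃ L₀, L.Perm ((e, cf) :: L₀) := ⟨_, List.perm_cons_erase hef⟩
  have hlen := hPE.length_le hF.1 hF.2.1
  have hL₀len : L₀.length ≤ b * z₀ := by
    have h1 := hL.length_eq
    rw [List.length_cons] at h1
    have h2 : b * (Z.card + 1) ≤ b * z₀ := Nat.mul_le_mul_left _ hZc
    omega
  have hL' : L.Perm (L₀ ++ [(e, cf)]) := hL.trans (List.perm_append_comm (l₁ := [(e, cf)]) (l₂ := L₀))
  have hsub : ∀ q ∈ L₀, q ∈ L := fun q hq => hL.symm.subset (List.mem_cons_of_mem _ hq)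
  have hwnat : L₀.length * wB b (ab b l) M ≤ b * z₀ * wB b (ab b l) M := Nat.mul_le_mul_right _ hL₀len
  have hw : (L₀.length : ℝ) * wB b (ab b l) M ≤ b * z₀ * wB b (ab b l) M := by exact_mod_cast hwnat
  have hF₀c : (((F₀ ∪ insert h H).card : ℕ) : ℝ) ≤ F₀.card + (H.card + 1) := by
    exact_mod_cast (card_union_le _ _).trans (Nat.add_le_add_left (card_insert_le _ _) _)
  have hZc' : (Z.card : ℝ) + 1 ≤ z₀ := by exact_mod_cast hZc
  obtain ⟨Z', L', L'', hPE', hL'', hZZ', hWU, hhW, hWF, hWc, hL'len, hL'K⟩ := placing hT hb (hKX.trans hXU) M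
    (F₀ := F₀ ∪ insert h H) hPE hL' (fun q hq => by
      refine ⟨?_, (hPE.mem hF q (hsub q hq)).2.1⟩
      by_cases hqe : q = (e, cf)
      · rw [hqe]; exact hlev'
      · exact hlev q (hsub q hq) hqe) (by linarith)
  rw [disjoint_union_right, disjoint_insert_right] at hWF
  have hmem' : ∀ q ∈ L'', q.1 = h ∨ q.1 ∈ Z' := fun q hq => (hPE'.mem hF q hq).1
  have hL3 : L''.Perm ((e, cf) :: L') := hL''.trans (List.perm_append_comm (l₁ := L') (l₂ := [(e, cf)]))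
  have hZ'c : (Z'.card : ℝ) + 1 ≤ δ * X.card := by
    have h1 : Z'.card ≤ Z.card + (Z' \ Z).card := by
      have := card_sdiff_add_card_eq_card hZZ'
      omega
    have h2 : Z'.card + 1 ≤ z₀ + b * z₀ * wB b (ab b l) M := by omega
    have h3 : (Z'.card : ℝ) + 1 ≤ z₀ + b * z₀ * wB b (ab b l) M := by exact_mod_cast h2
    linarith
  have hdec : Z' = Z ∪ (Z' \ Z) := (union_sdiff_of_subset hZZ').symm
  have hhZ' : h ∉ Z' := by
    rw [hdec, mem_union, not_or]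
    exact ⟨hhZ, hhW⟩
  obtain ⟨S, hS, hdS, hE⟩ := coreZ hT P h𝓕x hHX hHc (h := h) (e := e) (cf := cf) (Z := Z') (Za := insert h Z') (by
      intro A Q P h1 h2 h3 h4 h5 h6 h7 h8 h9 h10
      refine hfin A Q P h1 h2 h3 h4 h5 h6 (h7.mono_right ?_) h8 h9 h10
      exact insert_subset_insert _ hZZ') hKX hKh hPE' (Subset.refl _) hmem' (by
      rw [hdec, ← insert_union, disjoint_union_left]
      exact ⟨hZH, hWF.2.2⟩) (by
      have h1 : (((insert h Z').card : ℕ) : ℝ) ≤ Z'.card + 1 := by exact_mod_cast card_insert_le _ _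
      linarith) hL3 (fun q hq => (hL'K q hq).1) (by
      have h1 : L₀.length * vB b (ab b l) M ≤ b * z₀ * vB b (ab b l) M := Nat.mul_le_mul_right _ hL₀len
      omega) hn₁ hhost hK hC hK' hC' hKK hmC (by
      intro q hq
      have h1 := hPE'.mem hF q (hL3.symm.subset (List.mem_cons_of_mem _ hq))
      exact hEE q.2 h1.2.1 h1.2.2) hEf hbig (by
      have h1 : (insert h Z' \ Z').card = 1 := by
        rw [insert_sdiff_of_notMem _ hhZ', sdiff_self, bot_eq_empty]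
        simp
      rw [h1]
      push_cast
      exact hn)
  rw [disjoint_insert_right] at hdS
  refine ⟨Z' ∪ S, Z' \ Z, ?_, hWU, hWF.1, hWc.trans hwnat, ?_, hE⟩
  · rw [← hdec]
    exact union_subset subset_union_right (hS.trans subset_union_left)
  · rw [mem_union, not_or]
    exact ⟨hhZ', hdS.1⟩

end AEB
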