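import Pool.Agent.AEB.Heavy
import Pool.Agent.AE32.Arb

/-!
# Oriented trees with bounded runs towards the root: from oriented trees to coded trees, and the final theorem from the
stages
-/

namespace AEB

open Finset Relation AE15 AED
open scoped Classical

set_option linter.unusedSectionVars false

section glue

variable {τ : Type*} [Fintype τ] {E P : τ → τ → Prop}

/-- the forest `F` codes the trees below the vertices of the list `l`, which hang on `v` in the state `j` -/
private def CodesL (E P : τ → τ → Prop) (b L : ℕ) (v : τ) (j : ℕ) (l : List τ) (F : Fd) : Prop :=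
  F.size = (l.map (fun c => (AE32.desc P c).card)).sum ∧ F.len = l.length ∧ F.Deg b ∧ InR L j F ∧
    ∀ {V : Type} {R : V → V → Prop} {x : V} {S : Finset V}, Emb R F x S →
      ∃ f : τ → V, (∀ c ∈ l, Adj R (decide (E v c)) x (f c)) ∧ (∀ c ∈ l, ∀ a ∈ AE32.desc P c, f a ∈ S) ∧
        (∀ c ∈ l, ∀ a ∈ AE32.desc P c, ∀ c' ∈ l, ∀ a' ∈ AE32.desc P c', f a = f a' → a = a') ∧
        ∀ c ∈ l, ∀ a ∈ AE32.desc P c, ∀ a', P a a' → Adj R (decide (E a a')) (f a) (f a')

/-- the forest `c` codes the trees below the children of `v`, in the state `j` -/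
private def Codes (E P : τ → τ → Prop) (b L : ℕ) (v : τ) (j : ℕ) (c : Fd) : Prop :=
  c.size + 1 = (AE32.desc P v).card ∧ c.len ≤ b ∧ c.Deg b ∧ InR L j c ∧
    ∀ {V : Type} {R : V → V → Prop} {x : V} {S : Finset V}, x ∉ S → Emb R c x S →
      ∃ f : τ → V, f v = x ∧ (∀ a ∈ AE32.desc P v, f a ∈ insert x S) ∧
        (∀ a ∈ AE32.desc P v, ∀ a' ∈ AE32.desc P v, f a = f a' → a = a') ∧
        ∀ a ∈ AE32.desc P v, ∀ a', P a a' → Adj R (decide (E a a')) (f a) (f a')

private theorem codesL_of (b L : ℕ) (v : τ) (j : ℕ) (l : List τ) (hl : l.Nodup)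
    (hdis : ∀ c ∈ l, ∀ d ∈ l, c ≠ d → Disjoint (AE32.desc P c) (AE32.desc P d))
    (h : ∀ c ∈ l, (E v c → ∃ F, Codes E P b L c 0 F) ∧
      (¬ E v c → j + 1 ≤ L ∧ ∃ F, Codes E P b L c (j + 1) F)) : ∃ F, CodesL E P b L v j l F := by
  induction l with
  | nil =>
    refine ⟨.nil, rfl, rfl, trivial, trivial, ?_⟩
    intro V R x S _
    exact ⟨fun _ => x, by simp, by simp, by simp, by simp⟩
  | cons c l ih =>
    rw [List.nodup_cons] at hl
    obtain ⟨F, hF1, hF2, hF3, hF5, hF4⟩ := ih hl.2
      (fun c hc d hd => hdis c (List.mem_cons_of_mem _ hc) d (List.mem_cons_of_mem _ hd))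
      (fun c hc => h c (List.mem_cons_of_mem _ hc))
    obtain ⟨h1, h2⟩ := h c List.mem_cons_self
    obtain ⟨G, j', hG5, hG1, hG2, hG3, hG6, hG4⟩ : ∃ G j',
        (if decide (E v c) then InR L 0 G else j + 1 ≤ L ∧ InR L (j + 1) G) ∧ Codes E P b L c j' G := by
      by_cases he : E v c
      · obtain ⟨G, hG⟩ := h1 he
        refine ⟨G, 0, ?_, hG⟩
        simp only [he, decide_true, if_true]
        exact hG.2.2.2.1
      · obtain ⟨hj, G, hG⟩ := h2 he
        refine ⟨G, j + 1, ?_, hG⟩
        simp only [he, decide_false, Bool.false_eq_true, if_false]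
        exact ⟨hj, hG.2.2.2.1⟩
    have hcl : ∀ d ∈ l, Disjoint (AE32.desc P c) (AE32.desc P d) := fun d hd =>
      hdis c List.mem_cons_self d (List.mem_cons_of_mem _ hd) (fun e => hl.1 (e ▸ hd))
    have hnot : ∀ d ∈ l, ∀ a ∈ AE32.desc P d, a ∉ AE32.desc P c := fun d hd a ha ha' =>
      (Finset.disjoint_left.1 (hcl d hd)) ha' ha
    refine ⟨.node (decide (E v c)) G F, ?_, ?_, ⟨hG2, hG3, hF3⟩, ⟨hG5, hF5⟩, ?_⟩
    · simp only [Fd.size, List.map_cons, List.sum_cons, ← hF1, ← hG1]
      omega
    · simp [Fd.len, hF2]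
    · intro V R x S hS
      obtain ⟨y, A, B, hy, hyA, hyB, hAB, rfl, hA, hB⟩ := hS
      obtain ⟨f₁, p1, p2, p3, p4⟩ := hG4 hyA hA
      obtain ⟨f₂, q1, q2, q3, q4⟩ := hF4 hB
      have hsep : Disjoint (insert y A) B := by
        rw [disjoint_insert_left]
        exact ⟨hyB, hAB⟩
      refine ⟨fun a => if a ∈ AE32.desc P c then f₁ a else f₂ a, ?_, ?_, ?_, ?_⟩
      · intro d hd
        rcases List.mem_cons.1 hd with rfl | hd
        · simp only [AE32.self_mem_desc, if_true, p1]
          exact hy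
        · simp only [hnot d hd d (AE32.self_mem_desc d), if_false]
          exact q1 d hd
      · intro d hd a ha
        rcases List.mem_cons.1 hd with rfl | hd
        · simp only [ha, if_true]
          have := p2 a ha
          rw [mem_insert] at this
          simp only [mem_insert, mem_union]
          tauto
        · simp only [hnot d hd a ha, if_false]
          exact mem_insert_of_mem (mem_union_right _ (q2 d hd a ha))
      · intro d hd a ha d' hd' a' ha' haa
        rcases List.mem_cons.1 hd with e | hd1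
        · rw [e] at ha
          rcases List.mem_cons.1 hd' with e' | hd2
          · rw [e'] at ha'
            simp only [ha, ha', if_true] at haa
            exact p3 a ha a' ha' haa
          · simp only [ha, if_true, hnot d' hd2 a' ha', if_false] at haa
            exact absurd (haa ▸ q2 d' hd2 a' ha') ((Finset.disjoint_left.1 hsep) (p2 a ha))
        · rcases List.mem_cons.1 hd' with e' | hd2
          · rw [e'] at ha'
            simp only [ha', if_true, hnot d hd1 a ha, if_false] at haa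
            exact absurd (haa.symm ▸ q2 d hd1 a ha) ((Finset.disjoint_left.1 hsep) (p2 a' ha'))
          · simp only [hnot d hd1 a ha, hnot d' hd2 a' ha', if_false] at haa
            exact q3 d hd1 a ha d' hd2 a' ha' haa
      · intro d hd a ha a' haa
        rcases List.mem_cons.1 hd with rfl | hd
        · have ha' : a' ∈ AE32.desc P d := AE32.mem_desc.2 ((AE32.mem_desc.1 ha).tail haa)
          simp only [ha, ha', if_true]
          exact p4 a ha a' haa
        · have ha' : a' ∈ AE32.desc P d := AE32.mem_desc.2 ((AE32.mem_desc.1 ha).tail haa)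
          simp only [hnot d hd a ha, hnot d hd a' ha', if_false]
          exact q4 d hd a ha a' haa

/-- a directed walk with `j` arcs starts at `v` and goes towards the root -/
private def Wk (E P : τ → τ → Prop) (j : ℕ) (v : τ) : Prop :=
  ∃ f : ℕ → τ, f 0 = v ∧ ∀ i < j, E (f i) (f (i + 1)) ∧ P (f (i + 1)) (f i)

private theorem wk_zero (v : τ) : Wk E P 0 v := ⟨fun _ => v, rfl, fun i hi => by omega⟩

private theorem wk_succ {j : ℕ} {v w : τ} (h : Wk E P j v) (hw : E w v) (hP : P v w) : Wk E P (j + 1) w := by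
  obtain ⟨f, h1, h2⟩ := h
  refine ⟨fun i => match i with
    | 0 => w
    | i + 1 => f i, rfl, ?_⟩
  intro i hi
  cases i with
  | zero =>
    show E w (f 0) ∧ P (f 0) w
    rw [h1]
    exact ⟨hw, hP⟩
  | succ i => exact h2 i (by omega)

private theorem wk_le {l : ℕ} (h7 : ∀ f : ℕ → τ, ¬ ∀ i ≤ l, E (f i) (f (i + 1)) ∧ P (f (i + 1)) (f i)) {j : ℕ} {v : τ}
    (h : Wk E P j v) : j ≤ l := by
  obtain ⟨f, -, h2⟩ := h
  by_contra hj
  push Not at hj
  exact h7 f fun i hi => h2 i (by omega)

private theorem codes_of {h : τ → ℕ} (hE : ∀ a b, P a b → h a < h b) (hin : ∀ a b c, P a c → P b c → a = b)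
    (hP : ∀ a c, P a c → E a c ∨ E c a) {b L : ℕ} (hout : ∀ v, {w | E v w ∨ E w v}.ncard ≤ b)
    (h7 : ∀ f : ℕ → τ, ¬ ∀ i ≤ L, E (f i) (f (i + 1)) ∧ P (f (i + 1)) (f i)) (n : ℕ) :
    ∀ v j, (AE32.desc P v).card = n → Wk E P j v → ∃ c, Codes E P b L v j c := by
  induction n using Nat.strong_induction_on with
  | _ n ih =>
    intro v j hv hw
    set ch : Finset τ := univ.filter (fun w => P v w) with hch
    have hmem : ∀ c, c ∈ ch.toList ↔ P v c := by
      intro c
      rw [Finset.mem_toList, hch, mem_filter]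
      simp
    have hlt : ∀ c ∈ ch.toList, (AE32.desc P c).card < n := by
      intro c hc
      rw [← hv]
      refine card_lt_card ⟨AE32.desc_subset ((hmem c).1 hc), fun hcon => ?_⟩
      exact AE32.notMem_desc hE ((hmem c).1 hc) (hcon (AE32.self_mem_desc v))
    obtain ⟨F, hF1, hF2, hF3, hF5, hF4⟩ := codesL_of (E := E) (P := P) b L v j ch.toList (Finset.nodup_toList _)
      (fun c hc d hd hcd => AE32.desc_disjoint hE hin ((hmem c).1 hc) ((hmem d).1 hd) hcd)
      (fun c hc => by
        refine ⟨fun he => ?_, fun he => ?_⟩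
        · exact ih _ (hlt c hc) c 0 rfl (wk_zero c)
        · have h0 : E c v := (hP _ _ ((hmem c).1 hc)).resolve_left he
          have h1 : Wk E P (j + 1) c := wk_succ hw h0 ((hmem c).1 hc)
          exact ⟨wk_le h7 h1, ih _ (hlt c hc) c (j + 1) rfl h1⟩)
    have hdesc : AE32.desc P v = insert v (ch.biUnion (AE32.desc P)) := by
      ext x
      rw [mem_insert, mem_biUnion, AE32.mem_desc, ReflTransGen.cases_head_iff]
      constructor
      · rintro (h1 | ⟨c, h1, h2⟩)
        · exact Or.inl h1.symm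
        · exact Or.inr ⟨c, by simp [hch, h1], AE32.mem_desc.2 h2⟩
      · rintro (h1 | ⟨c, h1, h2⟩)
        · exact Or.inl h1.symm
        · exact Or.inr ⟨c, by simpa [hch] using h1, AE32.mem_desc.1 h2⟩
    have hnv : v ∉ ch.biUnion (AE32.desc P) := by
      rw [mem_biUnion]
      rintro ⟨c, h1, h2⟩
      exact AE32.notMem_desc hE (by simpa [hch] using h1) h2
    refine ⟨F, ?_, ?_, hF3, hF5, ?_⟩
    · rw [hdesc, card_insert_of_notMem hnv, card_biUnion, hF1]
      · congr 1
        rw [Finset.sum_map_toList]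
      · intro c hc d hd hcd
        exact AE32.desc_disjoint hE hin (by simpa [hch] using hc) (by simpa [hch] using hd) hcd
    · rw [hF2, Finset.length_toList, hch]
      have h1 := hout v
      have h2 : {w | P v w}.ncard ≤ {w | E v w ∨ E w v}.ncard :=
        Set.ncard_le_ncard (fun w hw => hP v w hw) (Set.toFinite _)
      have h3 := h2.trans h1
      rwa [Set.ncard_eq_toFinset_card', Set.toFinset_ofPred] at h3
    · intro V R x S hxS hS
      obtain ⟨f, q1, q2, q3, q4⟩ := hF4 hS
      have hcase : ∀ a ∈ AE32.desc P v, a = v ∨ ∃ c ∈ ch.toList, a ∈ AE32.desc P c := by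
        intro a ha
        rw [hdesc, mem_insert, mem_biUnion] at ha
        rcases ha with h1 | ⟨c, h1, h2⟩
        · exact Or.inl h1
        · exact Or.inr ⟨c, Finset.mem_toList.2 h1, h2⟩
      have hne : ∀ c ∈ ch.toList, ∀ a ∈ AE32.desc P c, a ≠ v := by
        rintro c hc a ha rfl
        exact AE32.notMem_desc hE ((hmem c).1 hc) ha
      refine ⟨fun a => if a = v then x else f a, by simp, ?_, ?_, ?_⟩
      · intro a ha
        rcases hcase a ha with rfl | ⟨c, hc, hac⟩
        · simp
        · simp only [hne c hc a hac, if_false]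
          exact mem_insert_of_mem (q2 c hc a hac)
      · intro a ha a' ha' haa
        rcases hcase a ha with rfl | ⟨c, hc, hac⟩
        · rcases hcase a' ha' with rfl | ⟨c', hc', hac'⟩
          · rfl
          · simp only [if_true, hne c' hc' a' hac', if_false] at haa
            exact absurd (haa ▸ q2 c' hc' a' hac') hxS
        · rcases hcase a' ha' with rfl | ⟨c', hc', hac'⟩
          · simp only [if_true, hne c hc a hac, if_false] at haa
            exact absurd (haa.symm ▸ q2 c hc a hac) hxS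
          · simp only [hne c hc a hac, hne c' hc' a' hac', if_false] at haa
            exact q3 c hc a hac c' hc' a' hac' haa
      · intro a ha a' haa
        have ha'v : a' ≠ v := by
          rintro rfl
          have h1 := AE32.rank_le hE (AE32.mem_desc.1 ha)
          have h2 := hE _ _ haa
          omega
        rcases hcase a ha with rfl | ⟨c, hc, hac⟩
        · simp only [if_true, ha'v, if_false]
          exact q1 a' ((hmem a').2 haa)
        · simp only [hne c hc a hac, ha'v, if_false]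
          exact q4 c hc a hac a' haa

/-- in a tree every vertex has at most one neighbour which is closer to a fixed vertex -/
private theorem parent_unique {G : SimpleGraph τ} (hG : G.IsTree) (ρ : τ) {a b c : τ} (ha : G.Adj a c)
    (hb : G.Adj b c) (h1 : G.dist ρ c = G.dist ρ a + 1) (h2 : G.dist ρ c = G.dist ρ b + 1) : a = b := by
  obtain ⟨p, hp⟩ := hG.connected.exists_walk_length_eq_dist ρ a
  obtain ⟨q, hq⟩ := hG.connected.exists_walk_length_eq_dist ρ b
  have hp' : (p.concat ha).IsPath := by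
    apply SimpleGraph.Walk.isPath_of_length_eq_dist
    rw [SimpleGraph.Walk.length_concat, hp, h1]
  have hq' : (q.concat hb).IsPath := by
    apply SimpleGraph.Walk.isPath_of_length_eq_dist
    rw [SimpleGraph.Walk.length_concat, hq, h2]
  have he : p.concat ha = q.concat hb := (hG.existsUnique_path ρ c).unique hp' hq'
  have h3 := congrArg (fun w => w.penultimate) he
  simpa using h3

private theorem root_reach {G : SimpleGraph τ} (hG : G.IsTree) (ρ : τ) (n : ℕ) :
    ∀ v, G.dist ρ v = n → ReflTransGen (fun a c => G.Adj a c ∧ G.dist ρ c = G.dist ρ a + 1) ρ v := by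
  induction n with
  | zero =>
    intro v hv
    rw [hG.connected.dist_eq_zero_iff] at hv
    rw [hv]
  | succ n ih =>
    intro v hv
    obtain ⟨p, hp⟩ := hG.connected.exists_walk_length_eq_dist ρ v
    have hnil : ¬ p.Nil := by
      intro hn
      have := SimpleGraph.Walk.length_eq_zero_iff.2 hn
      omega
    have hadj := p.adj_penultimate hnil
    have h1 : G.dist ρ p.penultimate = n := by
      have h2 := SimpleGraph.dist_le p.dropLast
      have h3 : p.dropLast.length + 1 = p.length := by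
        have := congrArg SimpleGraph.Walk.length (p.concat_dropLast hadj)
        rw [SimpleGraph.Walk.length_concat] at this
        exact this
      rcases hG.dist_eq_dist_add_one_of_adj ρ hadj with h4 | h4
      · omega
      · omega
    exact (ih _ h1).tail ⟨hadj, by omega⟩

end glue

/-- Every oriented tree with root `r`, degrees at most `b` and no directed path with `l + 1` arcs towards `r` is coded by
a tree of the class. -/
theorem glueB {k b l : ℕ} {E : Fin (k + 1) → Fin (k + 1) → Prop} (h4 : ∀ a c, E a c → ¬ E c a)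
    (h5 : (SimpleGraph.fromRel E).IsTree) (h6 : ∀ v, {w | E v w ∨ E w v}.ncard ≤ b) (r : Fin (k + 1))
    (h7 : ∀ f : ℕ → Fin (k + 1), ¬ ∀ i ≤ l, E (f i) (f (i + 1)) ∧
      (SimpleGraph.fromRel E).dist r (f i) = (SimpleGraph.fromRel E).dist r (f (i + 1)) + 1) :
    ∃ c : Fd, c.size = k ∧ FOK b l 0 c ∧
      ∀ {V : Type} {R : V → V → Prop} {N : V → Prop} {X : Finset V}, In R c N X →
        ∃ f : Fin (k + 1) → V, Function.Injective f ∧ (∀ a, f a ∈ X) ∧ N (f r) ∧ ∀ a c, E a c → R (f a) (f c) := by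
  set G : SimpleGraph (Fin (k + 1)) := SimpleGraph.fromRel E with hG
  set P : Fin (k + 1) → Fin (k + 1) → Prop := fun a c => G.Adj a c ∧ G.dist r c = G.dist r a + 1 with hPdef
  have hE : ∀ a c, P a c → G.dist r a < G.dist r c := by
    rintro a c ⟨-, h⟩
    omega
  have hin : ∀ a b c, P a c → P b c → a = b := by
    rintro a b c ⟨h1, h2⟩ ⟨h3, h4⟩
    exact parent_unique h5 r h1 h3 h2 h4
  have hP : ∀ a c, P a c → E a c ∨ E c a := by
    rintro a c ⟨h1, -⟩
    rw [hG, SimpleGraph.fromRel_adj] at h1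
    exact h1.2
  obtain ⟨c, hc1, hc2, hc3, hc5, hc4⟩ := codes_of hE hin hP h6
    (fun f hf => h7 f fun i hi => ⟨(hf i hi).1, (hf i hi).2.2⟩) _ r 0 rfl (wk_zero (E := E) (P := P) r)
  have hroot : AE32.desc P r = univ := by
    rw [eq_univ_iff_forall]
    intro v
    exact AE32.mem_desc.2 (root_reach h5 r _ v rfl)
  rw [hroot, card_univ, Fintype.card_fin] at hc1
  refine ⟨c, by omega, ⟨hc2, hc3, hc5⟩, ?_⟩
  rintro V R N X ⟨x, hx, A, hA, hxA, hN, hS⟩
  obtain ⟨f, p1, p2, p3, p4⟩ := hc4 hxA hS
  rw [hroot] at p2 p3 p4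
  refine ⟨f, fun a b hab => p3 a (mem_univ _) b (mem_univ _) hab, fun a => ?_, by rw [p1]; exact hN, fun a c hac => ?_⟩
  · have := p2 a (mem_univ _)
    rw [mem_insert] at this
    rcases this with h | h
    · rw [h]
      exact hx
    · exact hA h
  · have hne : a ≠ c := by
      rintro rfl
      exact h4 _ _ hac hac
    have hadj : G.Adj a c := by
      rw [hG, SimpleGraph.fromRel_adj]
      exact ⟨hne, Or.inl hac⟩
    rcases h5.dist_eq_dist_add_one_of_adj r hadj with h | h
    · have h1 := p4 c (mem_univ _) a ⟨hadj.symm, h⟩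
      have h2 : ¬ E c a := h4 _ _ hac
      simpa [Adj, h2] using h1
    · have h1 := p4 a (mem_univ _) c ⟨hadj, h⟩
      simpa [Adj, hac] using h1

/-- the conclusion of the stages for `(b, l)` -/
def StagesStatement (b l : ℕ) : Prop := ∃ C : ℕ, ∀ {V : Type} {R : V → V → Prop}, AE32.Tour R →
    ∀ c : Fd, FOK b l 0 c → ∀ X : Finset V, c.size + 1 + C ≤ X.card → In R c (fun _ => True) X

theorem final_of_stages (hst : ∀ b l : ℕ, 1 ≤ b → 1 ≤ l → StagesStatement b l) (Δ l : ℕ) :
    ∃ C : ℕ, ∀ k n : ℕ, k + C ≤ n → ∀ R : Fin n → Fin n → Prop,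
    (∀ a, ¬ R a a) → (∀ a b, a ≠ b → R a b ∨ R b a) → (∀ a b, R a b → ¬ R b a) →
    ∀ E : Fin (k + 1) → Fin (k + 1) → Prop,
      (∀ a b, E a b → ¬ E b a) →
      (SimpleGraph.fromRel E).IsTree →
      (∀ v, ((SimpleGraph.fromRel E).neighborSet v).ncard ≤ Δ) →
      (∃ r : Fin (k + 1), ∀ p : ℕ → Fin (k + 1), ¬ ∀ i ≤ l, E (p i) (p (i + 1)) ∧
        (SimpleGraph.fromRel E).dist r (p i) = (SimpleGraph.fromRel E).dist r (p (i + 1)) + 1) →
      ∃ f : Fin (k + 1) → Fin n, Function.Injective f ∧ ∀ a b, E a b → R (f a) (f b) := by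
  obtain ⟨C, hC⟩ := hst (max Δ 1) (max l 1) (le_max_right _ _) (le_max_right _ _)
  refine ⟨C + 1, fun k n hn R h1 h2 h3 E h4 h5 h6 ⟨r, h7⟩ => ?_⟩
  have h6' : ∀ v, {w | E v w ∨ E w v}.ncard ≤ max Δ 1 := by
    intro v
    refine le_trans (le_of_eq ?_) ((h6 v).trans (le_max_left _ _))
    congr 1
    ext w
    rw [SimpleGraph.mem_neighborSet, SimpleGraph.fromRel_adj]
    constructor
    · intro h
      refine ⟨?_, h⟩
      rintro rfl
      rcases h with h | h
      · exact h4 _ _ h h
      · exact h4 _ _ h h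
    · intro h
      exact h.2
  have h7' : ∀ p : ℕ → Fin (k + 1), ¬ ∀ i ≤ max l 1, E (p i) (p (i + 1)) ∧
      (SimpleGraph.fromRel E).dist r (p i) = (SimpleGraph.fromRel E).dist r (p (i + 1)) + 1 := by
    intro p hp
    exact h7 p fun i hi => hp i (hi.trans (le_max_left _ _))
  obtain ⟨c, hc1, hc2, hc5⟩ := glueB h4 h5 h6' r h7'
  have hT : AE32.Tour R := ⟨h1, h2, h3⟩
  have hIn := hC hT c hc2 univ (by rw [card_univ, Fintype.card_fin]; omega)
  obtain ⟨f, hf1, -, -, hf3⟩ := hc5 hIn
  exact ⟨f, hf1, hf3⟩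

/-- the same with the mirror image -/
theorem final_both (hst : ∀ b l : ℕ, 1 ≤ b → 1 ≤ l → StagesStatement b l) (Δ l : ℕ) :
    ∃ C : ℕ, ∀ k n : ℕ, k + C ≤ n → ∀ R : Fin n → Fin n → Prop,
    (∀ a, ¬ R a a) → (∀ a b, a ≠ b → R a b ∨ R b a) → (∀ a b, R a b → ¬ R b a) →
    ∀ E : Fin (k + 1) → Fin (k + 1) → Prop,
      (∀ a b, E a b → ¬ E b a) →
      (SimpleGraph.fromRel E).IsTree →
      (∀ v, ((SimpleGraph.fromRel E).neighborSet v).ncard ≤ Δ) →
      ∀ r : Fin (k + 1),
      ((∀ p : ℕ → Fin (k + 1), ¬ ∀ i ≤ l, E (p i) (p (i + 1)) ∧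
        (SimpleGraph.fromRel E).dist r (p i) = (SimpleGraph.fromRel E).dist r (p (i + 1)) + 1) ∨
      ∀ p : ℕ → Fin (k + 1), ¬ ∀ i ≤ l, E (p i) (p (i + 1)) ∧
        (SimpleGraph.fromRel E).dist r (p (i + 1)) = (SimpleGraph.fromRel E).dist r (p i) + 1) →
      ∃ f : Fin (k + 1) → Fin n, Function.Injective f ∧ ∀ a b, E a b → R (f a) (f b) := by
  obtain ⟨C, hC⟩ := final_of_stages hst Δ l
  refine ⟨C, fun k n hn R h1 h2 h3 E h4 h5 h6 r h7 => ?_⟩
  rcases h7 with h7 | h7
  · exact hC k n hn R h1 h2 h3 E h4 h5 h6 ⟨r, h7⟩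
  · have he : SimpleGraph.fromRel (fun a b => E b a) = SimpleGraph.fromRel E := by
      ext a b
      rw [SimpleGraph.fromRel_adj, SimpleGraph.fromRel_adj, or_comm]
    obtain ⟨f, hf1, hf2⟩ := hC k n hn (fun a b => R b a) h1 (fun a b hab => (h2 a b hab).symm) (fun a b => h3 b a)
      (fun a b => E b a) (fun a b => h4 b a) (by rw [he]; exact h5) (by rw [he]; exact h6) ⟨r, by
        rw [he]
        intro p hp
        refine h7 (fun i => p (l + 1 - i)) fun i hi => ?_
        have h8 := hp (l - i) (by omega)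
        have e1 : l - i + 1 = l + 1 - i := by omega
        have e2 : l + 1 - (i + 1) = l - i := by omega
        rw [e1] at h8
        rw [e2]
        exact h8⟩
    exact ⟨f, hf1, fun a b hab => hf2 b a hab⟩

end AEB
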