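import Pool.Agent.AEB.Heavy
import Pool.Agent.SPD.Defs
import Pool.Agent.AE32.Arb

/-!
# From an oriented tree with bounded runs on both sides of a vertex to two coded forests
-/

namespace AEB

open Finset Relation AE15 AED
open scoped Classical

set_option linter.unusedSectionVars false

section glue

variable {τ : Type*} [Fintype τ] {E P : τ → τ → Prop}

/-- the forest `F` codes the trees below the vertices of the list `l`, which hang on `v` in the state `j` -/
private def CodesL (E P : τ → τ → Prop) (b L : ℕ) (v : τ) (j : ℕ) (l : List τ) (F : Fd) : Prop :=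
  F.size = (l.map (fun c => (AE32.desc P c).card)).sum ∧ F.len = l.length ∧ F.Deg b ∧ InR L j F ∧
    (∀ q ∈ F.trees, ∃ c ∈ l, q.1 = decide (E v c)) ∧
    ∀ {V : Type} {R : V → V → Prop} {x : V} {S : Finset V}, Emb R F x S →
      ∃ f : τ → V, (∀ c ∈ l, Adj R (decide (E v c)) x (f c)) ∧ (∀ c ∈ l, ∀ a ∈ AE32.desc P c, f a ∈ S) ∧
        (∀ c ∈ l, ∀ a ∈ AE32.desc P c, ∀ c' ∈ l, ∀ a' ∈ AE32.desc P c', f a = f a' → a = a') ∧
        ∀ c ∈ l, ∀ a ∈ AE32.desc P c, ∀ a', P a a' → Adj R (decide (E a a')) (f a) (f a')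

/-- the forest `c` codes the trees below the children of `v`, in the state `j` -/
private def Codes (E P : τ → τ → Prop) (b L : ℕ) (v : τ) (j : ℕ) (c : Fd) : Prop :=
  c.size + 1 = (AE32.desc P v).card ∧ c.len ≤ b ∧ c.Deg b ∧ InR L j c ∧
    ∀ {V : Type} {R : V → V → Prop} {x : V} {S : Finset V}, x ∉ S → Emb R c x S →
      ∃ f : τ → V, f v = x ∧ (∀ a ∈ AE32.desc P v, f a ∈ insert x S) ∧
        (∀ a ∈ AE32.desc P v, ∀ a' ∈ AE32.desc P v, f a = f a' → a = a') ∧
        ∀ a ∈ AE32.desc P v, ∀ a', P a a' → Adj R (decide (E a a')) (f a) (f a')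

private theorem codesL_of (b L : ℕ) (v : τ) (j : ℕ) (l : List τ) (hl : l.Nodup)
    (hdis : ∀ c ∈ l, ∀ d ∈ l, c ≠ d → Disjoint (AE32.desc P c) (AE32.desc P d))
    (h : ∀ c ∈ l, (E v c → ∃ F, Codes E P b L c 0 F) ∧
      (¬ E v c → j + 1 ≤ L ∧ ∃ F, Codes E P b L c (j + 1) F)) : ∃ F, CodesL E P b L v j l F := by
  induction l with
  | nil =>
    refine ⟨.nil, rfl, rfl, trivial, trivial, by simp [Fd.trees], ?_⟩
    intro V R x S _
    exact ⟨fun _ => x, by simp, by simp, by simp, by simp⟩
  | cons c l ih =>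
    rw [List.nodup_cons] at hl
    obtain ⟨F, hF1, hF2, hF3, hF5, hF7, hF4⟩ := ih hl.2
      (fun c hc d hd => hdis c (List.mem_cons_of_mem _ hc) d (List.mem_cons_of_mem _ hd))
      (fun c hc => h c (List.mem_cons_of_mem _ hc))
    obtain ⟨h1, h2⟩ := h c List.mem_cons_self
    obtain ⟨G, j', hG5, hG1, hG2, hG3, hG6, hG4⟩ : ∃ G j',
        (if decide (E v c) then InR L 0 G else j + 1 ≤ L ∧ InR L (j + 1) G) ∧ Codes E P b L c j' G := by
      by_cases he : E v c
      · obtain ⟨G, hG⟩ := h1 he
        refine ⟨G, 0, ?_, hG⟩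
        simp only [he, decide_true, if_true]
        exact hG.2.2.2.1
      · obtain ⟨hj, G, hG⟩ := h2 he
        refine ⟨G, j + 1, ?_, hG⟩
        simp only [he, decide_false, Bool.false_eq_true, if_false]
        exact ⟨hj, hG.2.2.2.1⟩
    have hcl : ∀ d ∈ l, Disjoint (AE32.desc P c) (AE32.desc P d) := fun d hd =>
      hdis c List.mem_cons_self d (List.mem_cons_of_mem _ hd) (fun e => hl.1 (e ▸ hd))
    have hnot : ∀ d ∈ l, ∀ a ∈ AE32.desc P d, a ∉ AE32.desc P c := fun d hd a ha ha' =>
      (Finset.disjoint_left.1 (hcl d hd)) ha' ha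
    refine ⟨.node (decide (E v c)) G F, ?_, ?_, ⟨hG2, hG3, hF3⟩, ⟨hG5, hF5⟩, ?_, ?_⟩
    · simp only [Fd.size, List.map_cons, List.sum_cons, ← hF1, ← hG1]
      omega
    · simp [Fd.len, hF2]
    · intro q hq
      rw [Fd.trees, List.mem_cons] at hq
      rcases hq with rfl | hq
      · exact ⟨c, List.mem_cons_self, rfl⟩
      · obtain ⟨c', h1, h2⟩ := hF7 q hq
        exact ⟨c', List.mem_cons_of_mem _ h1, h2⟩
    · intro V R x S hS
      obtain ⟨y, A, B, hy, hyA, hyB, hAB, rfl, hA, hB⟩ := hS
      obtain ⟨f₁, p1, p2, p3, p4⟩ := hG4 hyA hA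
      obtain ⟨f₂, q1, q2, q3, q4⟩ := hF4 hB
      have hsep : Disjoint (insert y A) B := by
        rw [disjoint_insert_left]
        exact ⟨hyB, hAB⟩
      refine ⟨fun a => if a ∈ AE32.desc P c then f₁ a else f₂ a, ?_, ?_, ?_, ?_⟩
      · intro d hd
        rcases List.mem_cons.1 hd with rfl | hd
        · simp only [AE32.self_mem_desc, if_true, p1]
          exact hy
        · simp only [hnot d hd d (AE32.self_mem_desc d), if_false]
          exact q1 d hd
      · intro d hd a ha
        rcases List.mem_cons.1 hd with rfl | hd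
        · simp only [ha, if_true]
          have := p2 a ha
          rw [mem_insert] at this
          simp only [mem_insert, mem_union]
          tauto
        · simp only [hnot d hd a ha, if_false]
          exact mem_insert_of_mem (mem_union_right _ (q2 d hd a ha))
      · intro d hd a ha d' hd' a' ha' haa
        rcases List.mem_cons.1 hd with e | hd1
        · rw [e] at ha
          rcases List.mem_cons.1 hd' with e' | hd2
          · rw [e'] at ha'
            simp only [ha, ha', if_true] at haa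
            exact p3 a ha a' ha' haa
          · simp only [ha, if_true, hnot d' hd2 a' ha', if_false] at haa
            exact absurd (haa ▸ q2 d' hd2 a' ha') ((Finset.disjoint_left.1 hsep) (p2 a ha))
        · rcases List.mem_cons.1 hd' with e' | hd2
          · rw [e'] at ha'
            simp only [ha', if_true, hnot d hd1 a ha, if_false] at haa
            exact absurd (haa.symm ▸ q2 d hd1 a ha) ((Finset.disjoint_left.1 hsep) (p2 a' ha'))
          · simp only [hnot d hd1 a ha, hnot d' hd2 a' ha', if_false] at haa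
            exact q3 d hd1 a ha d' hd2 a' ha' haa
      · intro d hd a ha a' haa
        rcases List.mem_cons.1 hd with rfl | hd
        · have ha' : a' ∈ AE32.desc P d := AE32.mem_desc.2 ((AE32.mem_desc.1 ha).tail haa)
          simp only [ha, ha', if_true]
          exact p4 a ha a' haa
        · have ha' : a' ∈ AE32.desc P d := AE32.mem_desc.2 ((AE32.mem_desc.1 ha).tail haa)
          simp only [hnot d hd a ha, hnot d hd a' ha', if_false]
          exact q4 d hd a ha a' haa

/-- a directed walk with `j` arcs starts at `v`, goes towards the root and stays in `D` -/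
private def Wk (E P : τ → τ → Prop) (D : τ → Prop) (j : ℕ) (v : τ) : Prop :=
  ∃ f : ℕ → τ, f 0 = v ∧ (∀ i ≤ j, D (f i)) ∧ ∀ i < j, E (f i) (f (i + 1)) ∧ P (f (i + 1)) (f i)

private theorem wk_zero {D : τ → Prop} {v : τ} (hv : D v) : Wk E P D 0 v :=
  ⟨fun _ => v, rfl, fun _ _ => hv, fun i hi => by omega⟩

private theorem wk_succ {D : τ → Prop} {j : ℕ} {v w : τ} (h : Wk E P D j v) (hw : E w v) (hP : P v w) (hD : D w) :
    Wk E P D (j + 1) w := by
  obtain ⟨f, h1, h3, h2⟩ := h
  refine ⟨fun i => match i with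
    | 0 => w
    | i + 1 => f i, rfl, ?_, ?_⟩
  · intro i hi
    cases i with
    | zero => exact hD
    | succ i => exact h3 i (by omega)
  · intro i hi
    cases i with
    | zero =>
      show E w (f 0) ∧ P (f 0) w
      rw [h1]
      exact ⟨hw, hP⟩
    | succ i => exact h2 i (by omega)

private theorem wk_le {D : τ → Prop} {l : ℕ}
    (h7 : ∀ f : ℕ → τ, ¬ ∀ i ≤ l, E (f i) (f (i + 1)) ∧ P (f (i + 1)) (f i) ∧ D (f i)) {j : ℕ} {v : τ}
    (h : Wk E P D j v) : j ≤ l := by
  obtain ⟨f, -, h3, h2⟩ := h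
  by_contra hj
  push Not at hj
  exact h7 f fun i hi => ⟨(h2 i (by omega)).1, (h2 i (by omega)).2, h3 i (by omega)⟩

private theorem codes_of {D : τ → Prop} (hD : ∀ a c, D a → P a c → D c) {h : τ → ℕ} (hE : ∀ a b, P a b → h a < h b) (hin : ∀ a b c, P a c → P b c → a = b)
    (hP : ∀ a c, P a c → E a c ∨ E c a) {b L : ℕ} (hout : ∀ v, {w | E v w ∨ E w v}.ncard ≤ b)
    (h7 : ∀ f : ℕ → τ, ¬ ∀ i ≤ L, E (f i) (f (i + 1)) ∧ P (f (i + 1)) (f i) ∧ D (f i)) (n : ℕ) :
    ∀ v j, D v → (AE32.desc P v).card = n → Wk E P D j v → ∃ c, Codes E P b L v j c := by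
  induction n using Nat.strong_induction_on with
  | _ n ih =>
    intro v j hDv hv hw
    set ch : Finset τ := univ.filter (fun w => P v w) with hch
    have hmem : ∀ c, c ∈ ch.toList ↔ P v c := by
      intro c
      rw [Finset.mem_toList, hch, mem_filter]
      simp
    have hlt : ∀ c ∈ ch.toList, (AE32.desc P c).card < n := by
      intro c hc
      rw [← hv]
      refine card_lt_card ⟨AE32.desc_subset ((hmem c).1 hc), fun hcon => ?_⟩
      exact AE32.notMem_desc hE ((hmem c).1 hc) (hcon (AE32.self_mem_desc v))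
    obtain ⟨F, hF1, hF2, hF3, hF5, -, hF4⟩ := codesL_of (E := E) (P := P) b L v j ch.toList (Finset.nodup_toList _)
      (fun c hc d hd hcd => AE32.desc_disjoint hE hin ((hmem c).1 hc) ((hmem d).1 hd) hcd)
      (fun c hc => by
        refine ⟨fun he => ?_, fun he => ?_⟩
        · exact ih _ (hlt c hc) c 0 (hD v c hDv ((hmem c).1 hc)) rfl (wk_zero (hD v c hDv ((hmem c).1 hc)))
        · have h0 : E c v := (hP _ _ ((hmem c).1 hc)).resolve_left he
          have h1 : Wk E P D (j + 1) c := wk_succ hw h0 ((hmem c).1 hc) (hD v c hDv ((hmem c).1 hc))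
          exact ⟨wk_le h7 h1, ih _ (hlt c hc) c (j + 1) (hD v c hDv ((hmem c).1 hc)) rfl h1⟩)
    have hdesc : AE32.desc P v = insert v (ch.biUnion (AE32.desc P)) := by
      ext x
      rw [mem_insert, mem_biUnion, AE32.mem_desc, ReflTransGen.cases_head_iff]
      constructor
      · rintro (h1 | ⟨c, h1, h2⟩)
        · exact Or.inl h1.symm
        · exact Or.inr ⟨c, by simp [hch, h1], AE32.mem_desc.2 h2⟩
      · rintro (h1 | ⟨c, h1, h2⟩)
        · exact Or.inl h1.symm
        · exact Or.inr ⟨c, by simpa [hch] using h1, AE32.mem_desc.1 h2⟩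
    have hnv : v ∉ ch.biUnion (AE32.desc P) := by
      rw [mem_biUnion]
      rintro ⟨c, h1, h2⟩
      exact AE32.notMem_desc hE (by simpa [hch] using h1) h2
    refine ⟨F, ?_, ?_, hF3, hF5, ?_⟩
    · rw [hdesc, card_insert_of_notMem hnv, card_biUnion, hF1]
      · congr 1
        rw [Finset.sum_map_toList]
      · intro c hc d hd hcd
        exact AE32.desc_disjoint hE hin (by simpa [hch] using hc) (by simpa [hch] using hd) hcd
    · rw [hF2, Finset.length_toList, hch]
      have h1 := hout v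
      have h2 : {w | P v w}.ncard ≤ {w | E v w ∨ E w v}.ncard :=
        Set.ncard_le_ncard (fun w hw => hP v w hw) (Set.toFinite _)
      have h3 := h2.trans h1
      rwa [Set.ncard_eq_toFinset_card', Set.toFinset_ofPred] at h3
    · intro V R x S hxS hS
      obtain ⟨f, q1, q2, q3, q4⟩ := hF4 hS
      have hcase : ∀ a ∈ AE32.desc P v, a = v ∨ ∃ c ∈ ch.toList, a ∈ AE32.desc P c := by
        intro a ha
        rw [hdesc, mem_insert, mem_biUnion] at ha
        rcases ha with h1 | ⟨c, h1, h2⟩
        · exact Or.inl h1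
        · exact Or.inr ⟨c, Finset.mem_toList.2 h1, h2⟩
      have hne : ∀ c ∈ ch.toList, ∀ a ∈ AE32.desc P c, a ≠ v := by
        rintro c hc a ha rfl
        exact AE32.notMem_desc hE ((hmem c).1 hc) ha
      refine ⟨fun a => if a = v then x else f a, by simp, ?_, ?_, ?_⟩
      · intro a ha
        rcases hcase a ha with rfl | ⟨c, hc, hac⟩
        · simp
        · simp only [hne c hc a hac, if_false]
          exact mem_insert_of_mem (q2 c hc a hac)
      · intro a ha a' ha' haa
        rcases hcase a ha with rfl | ⟨c, hc, hac⟩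
        · rcases hcase a' ha' with rfl | ⟨c', hc', hac'⟩
          · rfl
          · simp only [if_true, hne c' hc' a' hac', if_false] at haa
            exact absurd (haa ▸ q2 c' hc' a' hac') hxS
        · rcases hcase a' ha' with rfl | ⟨c', hc', hac'⟩
          · simp only [if_true, hne c hc a hac, if_false] at haa
            exact absurd (haa.symm ▸ q2 c hc a hac) hxS
          · simp only [hne c hc a hac, hne c' hc' a' hac', if_false] at haa
            exact q3 c hc a hac c' hc' a' hac' haa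
      · intro a ha a' haa
        have ha'v : a' ≠ v := by
          rintro rfl
          have h1 := AE32.rank_le hE (AE32.mem_desc.1 ha)
          have h2 := hE _ _ haa
          omega
        rcases hcase a ha with rfl | ⟨c, hc, hac⟩
        · simp only [if_true, ha'v, if_false]
          exact q1 a' ((hmem a').2 haa)
        · simp only [hne c hc a hac, ha'v, if_false]
          exact q4 c hc a hac a' haa

/-- in a tree every vertex has at most one neighbour which is closer to a fixed vertex -/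
private theorem parent_unique {G : SimpleGraph τ} (hG : G.IsTree) (ρ : τ) {a b c : τ} (ha : G.Adj a c)
    (hb : G.Adj b c) (h1 : G.dist ρ c = G.dist ρ a + 1) (h2 : G.dist ρ c = G.dist ρ b + 1) : a = b := by
  obtain ⟨p, hp⟩ := hG.connected.exists_walk_length_eq_dist ρ a
  obtain ⟨q, hq⟩ := hG.connected.exists_walk_length_eq_dist ρ b
  have hp' : (p.concat ha).IsPath := by
    apply SimpleGraph.Walk.isPath_of_length_eq_dist
    rw [SimpleGraph.Walk.length_concat, hp, h1]
  have hq' : (q.concat hb).IsPath := by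
    apply SimpleGraph.Walk.isPath_of_length_eq_dist
    rw [SimpleGraph.Walk.length_concat, hq, h2]
  have he : p.concat ha = q.concat hb := (hG.existsUnique_path ρ c).unique hp' hq'
  have h3 := congrArg (fun w => w.penultimate) he
  simpa using h3

private theorem root_reach {G : SimpleGraph τ} (hG : G.IsTree) (ρ : τ) (n : ℕ) :
    ∀ v, G.dist ρ v = n → ReflTransGen (fun a c => G.Adj a c ∧ G.dist ρ c = G.dist ρ a + 1) ρ v := by
  induction n with
  | zero =>
    intro v hv
    rw [hG.connected.dist_eq_zero_iff] at hv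
    rw [hv]
  | succ n ih =>
    intro v hv
    obtain ⟨p, hp⟩ := hG.connected.exists_walk_length_eq_dist ρ v
    have hnil : ¬ p.Nil := by
      intro hn
      have := SimpleGraph.Walk.length_eq_zero_iff.2 hn
      omega
    have hadj := p.adj_penultimate hnil
    have h1 : G.dist ρ p.penultimate = n := by
      have h2 := SimpleGraph.dist_le p.dropLast
      have h3 : p.dropLast.length + 1 = p.length := by
        have := congrArg SimpleGraph.Walk.length (p.concat_dropLast hadj)
        rw [SimpleGraph.Walk.length_concat] at this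
        exact this
      rcases hG.dist_eq_dist_add_one_of_adj ρ hadj with h4 | h4
      · omega
      · omega
    exact (ih _ h1).tail ⟨hadj, by omega⟩


/-- the trees below some children of `ρ`, all of them joined to `ρ` by arcs away from `ρ` -/
private theorem side_pm {G : SimpleGraph τ} (hG : G.IsTree) (hadj : ∀ a c, G.Adj a c → E a c ∨ E c a)
    {b l : ℕ} (hdeg : ∀ v, {w | E v w ∨ E w v}.ncard ≤ b) (ρ : τ) (ls : List τ) (hls : ls.Nodup)
    (hls1 : ∀ u ∈ ls, E ρ u ∧ G.Adj ρ u)
    (h7 : ∀ u, E ρ u → ∀ f : ℕ → τ, ¬ ∀ i ≤ l, E (f i) (f (i + 1)) ∧ G.dist ρ (f (i + 1)) < G.dist ρ (f i) ∧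
      G.dist u (f i) < G.dist ρ (f i)) :
    ∃ F, CodesL E (fun a c => G.Adj a c ∧ G.dist ρ c = G.dist ρ a + 1) b l ρ 0 ls F := by
  set P : τ → τ → Prop := fun a c => G.Adj a c ∧ G.dist ρ c = G.dist ρ a + 1 with hPdef
  have hE : ∀ a c, P a c → G.dist ρ a < G.dist ρ c := by
    rintro a c ⟨-, h⟩
    omega
  have hin : ∀ a b c, P a c → P b c → a = b := by
    rintro a b c ⟨h1, h2⟩ ⟨h3, h4⟩
    exact parent_unique hG ρ h1 h3 h2 h4
  have hP : ∀ a c, P a c → E a c ∨ E c a := fun a c h => hadj a c h.1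
  have hρ : ∀ u ∈ ls, P ρ u := by
    intro u hu
    refine ⟨(hls1 u hu).2, ?_⟩
    rw [SimpleGraph.dist_self, SimpleGraph.dist_eq_one_iff_adj.2 (hls1 u hu).2]
  refine codesL_of (E := E) (P := P) b l ρ 0 ls hls
    (fun c hc d hd hcd => AE32.desc_disjoint hE hin (hρ c hc) (hρ d hd) hcd)
    (fun u hu => ⟨fun he => ?_, fun he => absurd (hls1 u hu).1 he⟩)
  have hD : ∀ a c, G.dist u a < G.dist ρ a → P a c → G.dist u c < G.dist ρ c := by
    rintro a c h1 ⟨h2, h3⟩
    have h4 : G.dist u c ≤ G.dist u a + G.dist a c := hG.connected.dist_triangle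
    rw [SimpleGraph.dist_eq_one_iff_adj.2 h2] at h4
    omega
  have hDu : G.dist u u < G.dist ρ u := by
    rw [SimpleGraph.dist_self, SimpleGraph.dist_eq_one_iff_adj.2 (hls1 u hu).2]
    omega
  exact codes_of (D := fun v => G.dist u v < G.dist ρ v) hD hE hin hP hdeg
    (fun f hf => h7 u he f fun i hi => ⟨(hf i hi).1, by have := hE _ _ (hf i hi).2.1; exact this, (hf i hi).2.2⟩)
    _ u 0 hDu rfl (wk_zero hDu)

end glue

/-- Every oriented tree with degrees at most `b` and a vertex `r` such that runs towards `r` are short in the trees which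
hang on `r` by arcs away from `r`, and runs away from `r` are short in the trees which hang on `r` by arcs towards `r`, is
coded by two forests of the class. -/
theorem glue_pm {k b l : ℕ} {E : Fin (k + 1) → Fin (k + 1) → Prop} (h4 : ∀ a c, E a c → ¬ E c a)
    (h5 : (SimpleGraph.fromRel E).IsTree) (h6 : ∀ v, {w | E v w ∨ E w v}.ncard ≤ b) (r : Fin (k + 1))
    (h7 : ∀ u, E r u → ∀ f : ℕ → Fin (k + 1), ¬ ∀ i ≤ l, E (f i) (f (i + 1)) ∧
      (SimpleGraph.fromRel E).dist r (f (i + 1)) < (SimpleGraph.fromRel E).dist r (f i) ∧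
      (SimpleGraph.fromRel E).dist u (f i) < (SimpleGraph.fromRel E).dist r (f i))
    (h8 : ∀ u, E u r → ∀ f : ℕ → Fin (k + 1), ¬ ∀ i ≤ l, E (f (i + 1)) (f i) ∧
      (SimpleGraph.fromRel E).dist r (f (i + 1)) < (SimpleGraph.fromRel E).dist r (f i) ∧
      (SimpleGraph.fromRel E).dist u (f i) < (SimpleGraph.fromRel E).dist r (f i)) :
    ∃ c₁ c₂ : Fd, c₁.size + c₂.size = k ∧ FOK b l 0 c₁ ∧ FOK b l 0 c₂ ∧ (∀ q ∈ c₁.trees, q.1 = true) ∧
      (∀ q ∈ c₂.trees, q.1 = true) ∧
      ∀ {V : Type} {R : V → V → Prop} {x : V} {S₁ S₂ : Finset V}, Disjoint S₁ S₂ → x ∉ S₁ → x ∉ S₂ →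
        AED.Emb (SPD.rv R) c₁ x S₁ → AED.Emb R c₂ x S₂ →
        ∃ f : Fin (k + 1) → V, Function.Injective f ∧ ∀ a c, E a c → R (f a) (f c) := by
  set G : SimpleGraph (Fin (k + 1)) := SimpleGraph.fromRel E with hG
  have hadj : ∀ a c, G.Adj a c → E a c ∨ E c a := by
    intro a c h
    rw [hG, SimpleGraph.fromRel_adj] at h
    exact h.2
  have hadj' : ∀ a c, E a c → G.Adj a c := by
    intro a c h
    rw [hG, SimpleGraph.fromRel_adj]
    refine ⟨?_, Or.inl h⟩
    rintro rfl
    exact h4 _ _ h h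
  set P : Fin (k + 1) → Fin (k + 1) → Prop := fun a c => G.Adj a c ∧ G.dist r c = G.dist r a + 1 with hPdef
  have hE : ∀ a c, P a c → G.dist r a < G.dist r c := by
    rintro a c ⟨-, h⟩
    omega
  have hin : ∀ a b c, P a c → P b c → a = b := by
    rintro a b c ⟨h1, h2⟩ ⟨h3, h4⟩
    exact parent_unique h5 r h1 h3 h2 h4
  set K₂ : Finset (Fin (k + 1)) := univ.filter (fun u => E r u) with hK2
  set K₁ : Finset (Fin (k + 1)) := univ.filter (fun u => E u r) with hK1
  have hk2 : ∀ u, u ∈ K₂.toList ↔ E r u := by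
    intro u
    rw [mem_toList, hK2, mem_filter]
    simp
  have hk1 : ∀ u, u ∈ K₁.toList ↔ E u r := by
    intro u
    rw [mem_toList, hK1, mem_filter]
    simp
  obtain ⟨c₂, a1, a2, a3, a5, a6, a4⟩ := side_pm (E := E) h5 hadj h6 r K₂.toList (nodup_toList _)
    (fun u hu => ⟨(hk2 u).1 hu, hadj' _ _ ((hk2 u).1 hu)⟩) h7
  obtain ⟨c₁, b1, b2, b3, b5, b6, b4⟩ := side_pm (E := fun a c => E c a) (b := b) h5 (fun a c h => (hadj a c h).symm)
    (fun v => by
      have := h6 v
      rw [show {w | E w v ∨ E v w} = {w | E v w ∨ E w v} from by ext w; simp [or_comm]]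
      exact this) r K₁.toList (nodup_toList _)
    (fun u hu => ⟨(hk1 u).1 hu, (hadj' _ _ ((hk1 u).1 hu)).symm⟩) h8
  have hPK2 : ∀ u ∈ K₂, P r u := by
    intro u hu
    have h := hadj' _ _ ((hk2 u).1 (mem_toList.2 hu))
    exact ⟨h, by rw [SimpleGraph.dist_self, SimpleGraph.dist_eq_one_iff_adj.2 h]⟩
  have hPK1 : ∀ u ∈ K₁, P r u := by
    intro u hu
    have h := (hadj' _ _ ((hk1 u).1 (mem_toList.2 hu))).symm
    exact ⟨h, by rw [SimpleGraph.dist_self, SimpleGraph.dist_eq_one_iff_adj.2 h]⟩
  set D₂ : Finset (Fin (k + 1)) := K₂.biUnion (AE32.desc P) with hD2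
  set D₁ : Finset (Fin (k + 1)) := K₁.biUnion (AE32.desc P) with hD1
  have hK12 : Disjoint K₁ K₂ := by
    rw [Finset.disjoint_left]
    intro u h1 h2
    exact h4 _ _ ((hk1 u).1 (mem_toList.2 h1)) ((hk2 u).1 (mem_toList.2 h2))
  have hD12 : Disjoint D₁ D₂ := by
    rw [hD1, hD2, disjoint_biUnion_left]
    intro u hu
    rw [disjoint_biUnion_right]
    intro w hw
    refine AE32.desc_disjoint hE hin (hPK1 u hu) (hPK2 w hw) ?_
    rintro rfl
    exact (Finset.disjoint_left.1 hK12) hu hw
  have hcase : ∀ v, v = r ∨ v ∈ D₁ ∨ v ∈ D₂ := by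
    intro v
    have hv := root_reach h5 r _ v rfl
    rw [ReflTransGen.cases_head_iff] at hv
    rcases hv with h | ⟨c, h1, h2⟩
    · exact Or.inl h.symm
    · right
      rcases hadj _ _ h1.1 with h | h
      · right
        rw [hD2, mem_biUnion]
        exact ⟨c, mem_toList.1 ((hk2 c).2 h), AE32.mem_desc.2 h2⟩
      · left
        rw [hD1, mem_biUnion]
        exact ⟨c, mem_toList.1 ((hk1 c).2 h), AE32.mem_desc.2 h2⟩
  have hr1 : r ∉ D₁ := by
    rw [hD1, mem_biUnion]
    rintro ⟨u, hu, h⟩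
    exact AE32.notMem_desc hE (hPK1 u hu) h
  have hr2 : r ∉ D₂ := by
    rw [hD2, mem_biUnion]
    rintro ⟨u, hu, h⟩
    exact AE32.notMem_desc hE (hPK2 u hu) h
  have hs2 : c₂.size = D₂.card := by
    rw [a1, hD2, card_biUnion, Finset.sum_map_toList]
    intro c hc d hd hcd
    exact AE32.desc_disjoint hE hin (hPK2 c hc) (hPK2 d hd) hcd
  have hs1 : c₁.size = D₁.card := by
    rw [b1, hD1, card_biUnion, Finset.sum_map_toList]
    intro c hc d hd hcd
    exact AE32.desc_disjoint hE hin (hPK1 c hc) (hPK1 d hd) hcd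
  have huniv : (univ : Finset (Fin (k + 1))) = insert r (D₁ ∪ D₂) := by
    symm
    rw [eq_univ_iff_forall]
    intro v
    rw [mem_insert, mem_union]
    exact hcase v
  have hsum : c₁.size + c₂.size = k := by
    have h1 := congrArg Finset.card huniv
    rw [card_univ, Fintype.card_fin, card_insert_of_notMem (by rw [mem_union]; tauto),
      card_union_of_disjoint hD12, ← hs1, ← hs2] at h1
    omega
  have hlen2 : c₂.len ≤ b := by
    rw [a2, length_toList, hK2]
    refine le_trans ?_ (h6 r)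
    rw [← Set.ncard_coe_finset]
    refine Set.ncard_le_ncard ?_ (Set.toFinite _)
    intro w hw
    rw [mem_coe, mem_filter] at hw
    exact Or.inl hw.2
  have hlen1 : c₁.len ≤ b := by
    rw [b2, length_toList, hK1]
    refine le_trans ?_ (h6 r)
    rw [← Set.ncard_coe_finset]
    refine Set.ncard_le_ncard ?_ (Set.toFinite _)
    intro w hw
    rw [mem_coe, mem_filter] at hw
    exact Or.inr hw.2
  refine ⟨c₁, c₂, hsum, ⟨hlen1, b3, b5⟩, ⟨hlen2, a3, a5⟩, ?_, ?_, ?_⟩
  · intro q hq
    obtain ⟨c, h1, h2⟩ := b6 q hq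
    rw [h2, decide_eq_true_eq]
    exact (hk1 c).1 h1
  · intro q hq
    obtain ⟨c, h1, h2⟩ := a6 q hq
    rw [h2, decide_eq_true_eq]
    exact (hk2 c).1 h1
  · intro V R x S₁ S₂ hd hx1 hx2 he1 he2
    obtain ⟨f₂, p1, p2, p3, p4⟩ := a4 he2
    obtain ⟨f₁, q1, q2, q3, q4⟩ := b4 he1
    have m2 : ∀ a ∈ D₂, f₂ a ∈ S₂ := by
      intro a ha
      rw [hD2, mem_biUnion] at ha
      obtain ⟨c, hc, hac⟩ := ha
      exact p2 c (mem_toList.2 hc) a hac
    have m1 : ∀ a ∈ D₁, f₁ a ∈ S₁ := by
      intro a ha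
      rw [hD1, mem_biUnion] at ha
      obtain ⟨c, hc, hac⟩ := ha
      exact q2 c (mem_toList.2 hc) a hac
    have i2 : ∀ a ∈ D₂, ∀ a' ∈ D₂, f₂ a = f₂ a' → a = a' := by
      intro a ha a' ha' h
      rw [hD2, mem_biUnion] at ha ha'
      obtain ⟨c, hc, hac⟩ := ha
      obtain ⟨c', hc', hac'⟩ := ha'
      exact p3 c (mem_toList.2 hc) a hac c' (mem_toList.2 hc') a' hac' h
    have i1 : ∀ a ∈ D₁, ∀ a' ∈ D₁, f₁ a = f₁ a' → a = a' := by
      intro a ha a' ha' h
      rw [hD1, mem_biUnion] at ha ha'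
      obtain ⟨c, hc, hac⟩ := ha
      obtain ⟨c', hc', hac'⟩ := ha'
      exact q3 c (mem_toList.2 hc) a hac c' (mem_toList.2 hc') a' hac' h
    set f : Fin (k + 1) → V := fun a => if a = r then x else if a ∈ D₁ then f₁ a else f₂ a with hf
    have fr : f r = x := by simp [hf]
    have f1 : ∀ a ∈ D₁, f a = f₁ a := by
      intro a ha
      have h : a ≠ r := fun h => hr1 (h ▸ ha)
      simp [hf, h, ha]
    have f2 : ∀ a ∈ D₂, f a = f₂ a := by
      intro a ha
      have h : a ≠ r := fun h => hr2 (h ▸ ha)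
      have h' : a ∉ D₁ := fun h' => (Finset.disjoint_left.1 hD12) h' ha
      simp [hf, h, h']
    have hx1' : ∀ a ∈ D₁, f a ≠ x := fun a ha h => hx1 (h ▸ f1 a ha ▸ m1 a ha)
    have hx2' : ∀ a ∈ D₂, f a ≠ x := fun a ha h => hx2 (h ▸ f2 a ha ▸ m2 a ha)
    have h12 : ∀ a ∈ D₁, ∀ a' ∈ D₂, f a ≠ f a' := by
      intro a ha a' ha' h
      rw [f1 a ha, f2 a' ha'] at h
      exact (Finset.disjoint_left.1 hd) (m1 a ha) (h ▸ m2 a' ha')
    -- the arcs between a vertex and its parent
    have hpar : ∀ a c, P a c → (E a c → R (f a) (f c)) ∧ (E c a → R (f c) (f a)) := by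
      intro a c hac
      have hdesc : ∀ u, a ∈ AE32.desc P u → c ∈ AE32.desc P u := fun u hu =>
        AE32.mem_desc.2 ((AE32.mem_desc.1 hu).tail hac)
      rcases hcase a with rfl | ha | ha
      · -- `c` is a child of the root
        refine ⟨fun h => ?_, fun h => ?_⟩
        · have hc : c ∈ K₂.toList := (hk2 c).2 h
          have hcD : c ∈ D₂ := by
            rw [hD2, mem_biUnion]
            exact ⟨c, mem_toList.1 hc, AE32.self_mem_desc c⟩
          have := p1 c hc
          rw [fr, f2 c hcD]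
          simpa [Adj, h] using this
        · have hc : c ∈ K₁.toList := (hk1 c).2 h
          have hcD : c ∈ D₁ := by
            rw [hD1, mem_biUnion]
            exact ⟨c, mem_toList.1 hc, AE32.self_mem_desc c⟩
          have := q1 c hc
          rw [fr, f1 c hcD]
          simpa [Adj, h, SPD.rv] using this
      · have ha' := ha
        rw [hD1, mem_biUnion] at ha'
        obtain ⟨u, hu, hau⟩ := ha'
        have hcD : c ∈ D₁ := by
          rw [hD1, mem_biUnion]
          exact ⟨u, hu, hdesc u hau⟩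
        have h := q4 u (mem_toList.2 hu) a hau c hac
        rw [f1 a ha, f1 c hcD]
        refine ⟨fun h' => ?_, fun h' => ?_⟩
        · have h'' : ¬ E c a := h4 _ _ h'
          simpa [Adj, h'', SPD.rv] using h
        · simpa [Adj, h', SPD.rv] using h
      · have ha' := ha
        rw [hD2, mem_biUnion] at ha'
        obtain ⟨u, hu, hau⟩ := ha'
        have hcD : c ∈ D₂ := by
          rw [hD2, mem_biUnion]
          exact ⟨u, hu, hdesc u hau⟩
        have h := p4 u (mem_toList.2 hu) a hau c hac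
        rw [f2 a ha, f2 c hcD]
        refine ⟨fun h' => ?_, fun h' => ?_⟩
        · simpa [Adj, h'] using h
        · have h'' : ¬ E a c := h4 _ _ h'
          simpa [Adj, h''] using h
    refine ⟨f, ?_, ?_⟩
    · intro a a' haa
      rcases hcase a with rfl | ha | ha <;> rcases hcase a' with rfl | ha' | ha'
      · rfl
      · rw [fr] at haa
        exact absurd haa.symm (hx1' _ ha')
      · rw [fr] at haa
        exact absurd haa.symm (hx2' _ ha')
      · rw [fr] at haa
        exact absurd haa (hx1' _ ha)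
      · rw [f1 a ha, f1 a' ha'] at haa
        exact i1 a ha a' ha' haa
      · exact absurd haa (h12 a ha a' ha')
      · rw [fr] at haa
        exact absurd haa (hx2' _ ha)
      · exact absurd haa.symm (h12 a' ha' a ha)
      · rw [f2 a ha, f2 a' ha'] at haa
        exact i2 a ha a' ha' haa
    · intro a c hac
      rcases h5.dist_eq_dist_add_one_of_adj r (hadj' a c hac) with h | h
      · exact (hpar c a ⟨(hadj' a c hac).symm, h⟩).2 hac
      · exact (hpar a c ⟨hadj' a c hac, h⟩).1 hac

end AEB
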