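import Pool.Agent.AEB.Defs
import Pool.Agent.AE15.Levels

/-!
# Theorem B: the hosts

A linear number of vertices which are super in almost all of `X`; every good vertex is in the top level of them.
-/

namespace AEB

open Finset AE15 AED
open scoped Classical

variable {V : Type*} {R : V → V → Prop}

/-- super vertices with many good out-neighbours -/
theorem exists_superG (hT : AE32.Tour R) (X : Finset V) {η κ₀ : ℝ} (h0 : 0 < κ₀) (hκ : 20 * κ₀ ≤ η) (hη : η ≤ 1)
    (hn : 1 ≤ κ₀ * X.card) : ∃ x, SuperG R (κ₀ ^ 2 / 4) η (η / 8) X x := by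
  obtain ⟨G, hGX, hG1, hG2, hG3⟩ := structure_lemma hT X h0 (by linarith) hη hn
  obtain ⟨n, hnd⟩ : ∃ n : ℝ, n = (X.card : ℝ) := ⟨_, rfl⟩
  have hn0 : 0 ≤ n := by rw [hnd]; positivity
  rw [← hnd] at hn hG1 hG3
  have hne : G.Nonempty := by
    rw [← card_pos]
    have : (0 : ℝ) < G.card := by nlinarith
    exact_mod_cast this
  obtain ⟨x, hx, h1, h2, h3⟩ := super_vertex hT (X := X) hne (m := ⌊2 * κ₀ * n⌋₊)
    (fun u hu huG => Nat.le_floor (hG3 u hu huG).le)
  refine ⟨x, ⟨hGX hx, fun j hj => ?_⟩, ?_⟩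
  · rw [← hnd] at hj
    have h4 : 2 * (j + ⌊2 * κ₀ * n⌋₊) + 1 < G.card := by
      have h5 : ((⌊2 * κ₀ * n⌋₊ : ℕ) : ℝ) ≤ 2 * κ₀ * n := Nat.floor_le (by positivity)
      have h6 : ((2 * (j + ⌊2 * κ₀ * n⌋₊) + 1 : ℕ) : ℝ) < G.card := by
        push_cast
        nlinarith
      exact_mod_cast h6
    have h5 : (nI R X x).filter (fun u => (dom R (κ₀ ^ 2 / 4) η X x u).card ≤ j) ⊆
        (nI R G x).filter (fun u => (nO R (nI R G x) u).card + 1 ≤ j) := by
      intro u hu
      rw [mem_filter, mem_nI] at hu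
      have h6 : (nI R (nO R G x) u).card ≤ (dom R (κ₀ ^ 2 / 4) η X x u).card := by
        apply card_le_card
        intro w hw
        rw [mem_nI, mem_nO] at hw
        rw [mem_dom]
        exact ⟨hGX hw.1.1, hw.1.2, hw.2, hG2 w hw.1.1⟩
      have huG : u ∈ G := by
        by_contra h
        have := h2 u hu.1.1 h
        omega
      rw [mem_filter, mem_nI]
      have h7 := h1 u huG hu.1.2
      exact ⟨⟨huG, hu.1.2⟩, by omega⟩
    refine (card_le_card h5).trans ?_
    rcases j with _ | j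
    · simp
    · have h6 := card_low hT (nI R G x) j
      simp only [add_le_add_iff_right]
      omega
  · rw [← hnd]
    have h4 : (nO R G x).card ≤ (X.filter (fun w => R x w ∧ Good R (κ₀ ^ 2 / 4) η X w)).card := by
      apply card_le_card
      intro w hw
      rw [mem_nO] at hw
      rw [mem_filter]
      exact ⟨hGX hw.1, hw.2, hG2 w hw.1⟩
    have h5 : (G.card : ℝ) ≤ 2 * (X.filter (fun w => R x w ∧ Good R (κ₀ ^ 2 / 4) η X w)).card + 1 := by
      have : G.card ≤ 2 * (X.filter (fun w => R x w ∧ Good R (κ₀ ^ 2 / 4) η X w)).card + 1 := by omega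
      exact_mod_cast this
    nlinarith

/-- a long sequence of vertices each of which is super after the removal of the previous ones -/
theorem exists_seqG (hT : AE32.Tour R) (X : Finset V) {η κ₀ : ℝ} (h0 : 0 < κ₀) (hκ : 20 * κ₀ ≤ η) (hη : η ≤ 1)
    (J : ℕ) (hn : 1 ≤ κ₀ * ((X.card : ℝ) - J)) :
    ∃ y : ℕ → V, ∀ i ≤ J, SuperG R (κ₀ ^ 2 / 4) η (η / 8) (rest X y i) (y i) := by
  have key : ∀ y : ℕ → V, ∀ i ≤ J, ∃ x, SuperG R (κ₀ ^ 2 / 4) η (η / 8) (rest X y i) x := by
    intro y i hi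
    apply exists_superG hT _ h0 hκ hη
    refine hn.trans (mul_le_mul_of_nonneg_left ?_ h0.le)
    have h1 := rest_card (X := X) (y := y) (i := i)
    have h2 : (X.card : ℝ) ≤ ((rest X y i).card + i : ℕ) := by exact_mod_cast h1
    push_cast at h2
    have h3 : (i : ℝ) ≤ J := by exact_mod_cast hi
    linarith
  have main : ∀ L ≤ J + 1, ∃ y : ℕ → V, ∀ i < L, SuperG R (κ₀ ^ 2 / 4) η (η / 8) (rest X y i) (y i) := by
    intro L
    induction L with
    | zero =>
      intro _
      have hX : X.Nonempty := by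
        rw [← card_pos]
        by_contra hc
        push Not at hc
        rw [Nat.le_zero.1 hc] at hn
        have : (0 : ℝ) ≤ J := by positivity
        push_cast at hn
        nlinarith
      exact ⟨fun _ => hX.choose, fun i hi => absurd hi (by omega)⟩
    | succ L ih =>
      intro hL
      obtain ⟨y, hy⟩ := ih (by omega)
      obtain ⟨x, hx⟩ := key y L (by omega)
      refine ⟨Function.update y L x, fun i hi => ?_⟩
      rcases Nat.lt_succ_iff_lt_or_eq.1 hi with h | h
      · rw [rest_congr (y' := y) (fun k hk => by rw [Function.update_of_ne (by omega)]),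
          Function.update_of_ne (by omega)]
        exact hy i h
      · subst h
        rw [rest_congr (y' := y) (fun k hk => by rw [Function.update_of_ne (by omega)]), Function.update_self]
        exact hx
  obtain ⟨y, hy⟩ := main (J + 1) le_rfl
  exact ⟨y, fun i hi => hy i (by omega)⟩

theorem exists_K (hT : AE32.Tour R) {X : Finset V} {η κ₀ η₁ : ℝ} (h0 : 0 < κ₀) (hκ : 20 * κ₀ ≤ η₁) (hη₁ : η₁ ≤ 1)
    (hη : 0 < η) (hη' : η ≤ 1 / 40) (hn : 2 ≤ η * X.card) (hn' : 8 ≤ κ₀ * X.card) :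
    ∃ Ks ⊆ X, (∀ y ∈ Ks, ∃ Y ⊆ X, ((X \ Y).card : ℝ) ≤ 5 * η * X.card ∧ SuperG R (κ₀ ^ 2 / 4) η₁ (η₁ / 8) Y y) ∧
      4 * η * X.card ≤ Ks.card := by
  obtain ⟨n, hnd⟩ : ∃ n : ℝ, n = (X.card : ℝ) := ⟨_, rfl⟩
  rw [← hnd] at hn hn' ⊢
  have hn0 : 0 ≤ n := by rw [hnd]; exact Nat.cast_nonneg _
  obtain ⟨J, hJ⟩ : ∃ J : ℕ, J = ⌈4 * η * n⌉₊ := ⟨_, rfl⟩
  have hJ1 : (J : ℝ) < 4 * η * n + 1 := by rw [hJ]; exact Nat.ceil_lt_add_one (by positivity)
  have hJ2 : 4 * η * n ≤ J := by rw [hJ]; exact Nat.le_ceil _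
  have hηn : η * n ≤ 1 / 40 * n := mul_le_mul_of_nonneg_right hη' hn0
  obtain ⟨y, hy⟩ := exists_seqG hT X h0 hκ hη₁ J (by
    rw [← hnd]
    have h1 : n / 2 ≤ n - J := by linarith
    have h2 := mul_le_mul_of_nonneg_left h1 h0.le
    linarith)
  have hmem : ∀ i ≤ J, y i ∈ rest X y i := fun i hi => (hy i hi).1.1
  have hinj : Set.InjOn y (range (J + 1)) := by
    have key : ∀ i ≤ J, ∀ k < i, y k ≠ y i := by
      intro i hi k hk e
      have h1 := hmem i hi
      unfold rest at h1
      rw [mem_sdiff] at h1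
      exact h1.2 (mem_image.2 ⟨k, by simpa using hk, e⟩)
    intro i hi k hk e
    simp only [coe_range, Set.mem_Iio] at hi hk
    rcases lt_trichotomy i k with h | h | h
    · exact absurd e (key k (by omega) i h)
    · exact h
    · exact absurd e.symm (key i (by omega) k h)
  refine ⟨(range (J + 1)).image y, ?_, ?_, ?_⟩
  · intro w hw
    obtain ⟨i, hi, rfl⟩ := mem_image.1 hw
    exact rest_sub (hmem i (by rw [mem_range] at hi; omega))
  · intro w hw
    obtain ⟨i, hi, rfl⟩ := mem_image.1 hw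
    rw [mem_range] at hi
    refine ⟨rest X y i, rest_sub, ?_, hy i (by omega)⟩
    have h1 : X \ rest X y i ⊆ (range i).image y := by
      intro w hw
      unfold rest at hw
      rw [mem_sdiff, mem_sdiff] at hw
      by_contra h2
      exact hw.2 ⟨hw.1, h2⟩
    have h2 : ((range i).image y).card ≤ i := by
      simpa using card_image_le (s := range i) (f := y)
    have h3 : (X \ rest X y i).card ≤ J := by
      have := card_le_card h1
      omega
    have h4 : ((X \ rest X y i).card : ℝ) ≤ J := by exact_mod_cast h3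
    linarith
  · rw [card_image_of_injOn hinj, card_range]
    push_cast
    linarith

theorem GdU_self {κ η : ℝ} {X : Finset V} {v : V} : GdU R κ η X X v ↔ Good R κ η X v := Iff.rfl

/-- the levels are monotone in the first set -/
theorem Lv_mono_left {X K K' : Finset V} {k : ℝ} (h : K ⊆ K') (i : ℕ) : Lv R X K k i ⊆ Lv R X K' k i := by
  induction i with
  | zero => exact h
  | succ i ih =>
    intro z hz
    rw [Lv, mem_union, mem_filter] at hz ⊢
    rcases hz with hz | hz
    · exact Or.inl (h hz)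
    · refine Or.inr ⟨hz.1, hz.2.trans ?_⟩
      exact_mod_cast card_le_card (nO_mono ih)

/-- a closed robust reach -/
theorem exists_rch_closed (R : V → V → Prop) (X : Finset V) (κ : ℝ) (v : V) :
    ∃ W, Rch R X (κ * X.card) v W ∧ Closed R κ X W := by
  obtain ⟨W, hW, hmax⟩ := exists_max_image (X.powerset.filter (fun W => Rch R X (κ * X.card) v W)) (fun W => W.card)
    ⟨nO R X v, by simp only [mem_filter, mem_powerset]; exact ⟨AE15.nO_sub, Rch.base⟩⟩
  simp only [mem_filter, mem_powerset] at hW hmax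
  refine ⟨W, hW.2, ?_⟩
  intro z hz hzW
  by_contra hc
  push Not at hc
  have h1 := hmax (insert z W) ⟨insert_subset hz hW.1, hW.2.step _ _ hz hzW hc⟩
  rw [card_insert_of_notMem hzW] at h1
  omega

/-- every good vertex is in the top level -/
theorem GdU.level (hT : AE32.Tour R) {U X Ks : Finset V} {κ η : ℝ} {v : V} (hκ : 0 < κ) (hκ1 : κ ≤ 1) (hXU : X ⊆ U)
    (hKX : Ks ⊆ X) (hK : 4 * η * X.card ≤ Ks.card) (hU : κ * U.card ≤ 24 * η * X.card) (hv : v ∈ U)
    (hG : GdU R κ η U X v) : v ∈ Lv R U Ks (κ ^ 2 / 32 * U.card) (⌈8 / κ⌉₊ + 1) := by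
  obtain ⟨W, hW1, hW2⟩ := exists_rch_closed R U κ v
  have h1 := hG W hW1.sub hW1.nO_sub hW2
  have h2 : (Ks.card : ℝ) ≤ (Ks ∩ W).card + (X \ W).card := by
    have h3 : Ks.card ≤ (Ks ∩ W).card + (X \ W).card := by
      rw [← card_inter_add_card_sdiff Ks W]
      exact Nat.add_le_add_left (card_le_card (sdiff_subset_sdiff hKX (Subset.refl _))) _
    exact_mod_cast h3
  have h3 := levels hT (ρ := κ / 8) (K := Ks ∩ W) hκ hκ1 (by positivity) le_rfl hW1 hv inter_subset_right (by linarith)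
  have h4 : κ / 8 * κ / 4 * (U.card : ℝ) = κ ^ 2 / 32 * U.card := by ring
  rw [h4] at h3
  exact Lv_mono_left inter_subset_left _ h3

end AEB
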