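import Pool.Agent.AEB.Heavy

/-!
# Theorem B, module B12: explicit constants
-/

namespace AEB

open Finset AE15 AED
open scoped Classical

/-- explicit constants -/
theorem exists_np (b l m : ℕ) (hb : 1 ≤ b) : ∃ p : NP, p.OK ∧ p.b = b ∧ p.l = l ∧ ab b l ≤ p.a ∧ m ≤ p.u0 := by
  obtain ⟨a, ha⟩ : ∃ a, a = max 1 (ab b l) := ⟨_, rfl⟩
  obtain ⟨c, hc⟩ : ∃ c, c = 2 ^ a + 2 * a ^ 2 + a + 2 := ⟨_, rfl⟩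
  obtain ⟨cx, hcx⟩ : ∃ cx, cx = 2 ^ a + 4 * a + 8 := ⟨_, rfl⟩
  obtain ⟨q, hq⟩ : ∃ q, q = 4 * c + 2 * a := ⟨_, rfl⟩
  obtain ⟨g, hg⟩ : ∃ g, g = q + 2 * cx := ⟨_, rfl⟩
  obtain ⟨A0, hA0⟩ : ∃ A0, A0 = 2 * g := ⟨_, rfl⟩
  obtain ⟨B, hB⟩ : ∃ B, B = A0 + a + 1 := ⟨_, rfl⟩
  obtain ⟨r0, hr0⟩ : ∃ r0, r0 = b * B := ⟨_, rfl⟩
  obtain ⟨c0, hc0⟩ : ∃ c0, c0 = 2 ^ r0 + 2 * (2 * c + r0) ^ 2 + r0 + c + 2 := ⟨_, rfl⟩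
  obtain ⟨e, he⟩ : ∃ e, e = 4 + 2 * r0 + 5 * a + A0 := ⟨_, rfl⟩
  obtain ⟨c1, hc1⟩ : ∃ c1, c1 = c0 + e + 2 ^ r0 + 2 := ⟨_, rfl⟩
  obtain ⟨M0, hM0⟩ : ∃ M0, M0 = 2 ^ (A0 + a + 1) + 2 * cx + 2 * a + 2 := ⟨_, rfl⟩
  refine ⟨⟨b, l, a, c, cx, q, g, A0, B, r0, c0, e, c1, M0, max M0 m⟩, ⟨hb, ?_, hc.ge, hcx.ge, hq.ge, hg.ge, hA0.ge,
    hB.ge, hr0.ge, hc0.ge, he.ge, hc1.ge, hM0.ge, le_max_left _ _⟩, rfl, rfl, ?_, le_max_right _ _⟩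
  · rw [ha]
    exact le_max_left _ _
  · show ab b l ≤ a
    rw [ha]
    exact le_max_right _ _

end AEB
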