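import Pool.Agent.AEB.Defs
import Pool.Agent.AEB.Heavy
import Pool.Agent.AED.Stages

/-!
# Theorem B: the stages

The step lemma allows one to lower the factor `K` of the main statement `EE` by a factor `1 + γ`, at the price of a larger
additive constant. After finitely many stages the factor is `1`.
-/

namespace AEB

open Finset AE15 AED
open scoped Classical

/-- **Stages**: from the step (a statement about `EE`) to `K = 1` -/
theorem stagesB {b l : ℕ} {p : NP} {κ η s : ℝ} {n₀ A : ℕ} {γ : ℝ} (hγ : 0 < γ)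
    (hstep : ∀ {V : Type} {R : V → V → Prop}, AE32.Tour R → ∀ (K C K' C' : ℝ), 0 ≤ K → 1 ≤ K' → K ≤ (1 + γ) * K' →
      0 ≤ C → 0 ≤ C' → ∀ F : Fd, FOK b l 0 F →
        (∀ F' : Fd, FOK b l 0 F' → F'.size < F.size → EE R κ η s p K C F' ∧ EE R κ η s p K' C' F') →
        ∀ (X : Finset V) (N : V → Prop), K' * (F.size + 1) + C' ≤ X.card → n₀ ≤ X.card → A * C ≤ X.card →
          Cl R (Good R κ η X) s p F X N → In R F N X) :
    ∃ C : ℝ, 0 ≤ C ∧ ∀ {V : Type} {R : V → V → Prop}, AE32.Tour R → ∀ F : Fd, FOK b l 0 F →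
      EE R κ η s p 1 C F := by
  obtain ⟨C, hC⟩ := AED.stages_abs (τ := {F : Fd // FOK b l 0 F}) (fun t => t.1.size + 1)
    (fun t => Nat.le_add_left 1 _)
    (fun K C t => ∀ {V : Type} {R : V → V → Prop}, AE32.Tour R → EE R κ η s p K C t.1) γ hγ n₀ A (by
      intro K C K' C' hK hK' hKK hC hC' t ih hn hA V R hT X N hX hCl
      push_cast at hn hA
      refine hstep hT K C K' C' hK hK' hKK hC hC' t.1 t.2 ?_ X N hX ?_ ?_ hCl
      · intro F' hF' hs
        have h1 := ih ⟨F', hF'⟩ (by simpa using hs)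
        exact ⟨h1.1 hT, h1.2 hT⟩
      · have := hn.trans hX
        exact_mod_cast this
      · exact hA.trans hX)
  exact ⟨C, Nat.cast_nonneg C, fun hT F hF => hC ⟨F, hF⟩ hT⟩

end AEB
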