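import Pool.Agent.AEB.StepB
import Pool.Agent.AEB.GlueB
import Pool.Agent.AEB.StagesB
import Pool.Agent.AEB.NPx

/-!
# Theorem B
-/

namespace AEB

open Finset AE15 AED
open scoped Classical

/-- the main statement with `|T| + C` vertices -/
theorem ee_all (p : NP) (hp : p.OK) (hab : ab p.b p.l ≤ p.a) {D₀ : ℕ} (hD₀ : p.A ≤ D₀)
    {ω c η η₁ κ₀ κ₁ κ γ₀ τ s σ₂ μ : ℝ} (P : KB D₀ ω c η η₁ κ₀ κ₁ κ γ₀ τ s σ₂ μ) : ∃ C : ℝ, 0 ≤ C ∧ ∀ {V : Type} {R : V → V → Prop},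
      AE32.Tour R → ∀ F : Fd, FOK p.b p.l 0 F → EE R κ η s p 1 C F := by
  obtain ⟨n₀, A₀, h⟩ := stepB p hp hab hD₀ P
  exact stagesB (b := p.b) (l := p.l) (n₀ := n₀) (A := A₀) P.num.1 h

/-- the whole vertex set belongs to the class of every tree -/
theorem cl_true {D : ℕ} {ω c η η₁ κ₀ κ₁ κ γ₀ τ s σ₂ μ : ℝ} (P : KB D ω c η η₁ κ₀ κ₁ κ γ₀ τ s σ₂ μ) {V : Type*}
    {R : V → V → Prop} (hT : AE32.Tour R) (p : NP) (F : Fd) (X : Finset V) (hn : 1 ≤ κ₀ * X.card) (N : V → Prop)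
    (hN : ∀ v, N v) : Cl R (Good R κ η X) s p F X N := by
  obtain ⟨G, hG, hGg, hGc, -⟩ := exists_G P hT X hn
  obtain ⟨hω0, hω1, hc0, hc1, hη0, hη1, hη₁0, hη₁1, hκ₀0, hκ₁0, hκ₁1, hκ0, hκ1, hs0, hγ₀0, hτ0, hσ₂0, hμ0, hκ₁η, hκs⟩ :=
    P.num
  obtain ⟨hD, hω, hc, hη, hη₁, hκ₀, hκ₁, hκ, hγ₀, hτ, hs, hσ₂, hμ⟩ := P
  have hcη : c * η ≤ 1 * η := mul_le_mul_of_nonneg_right (by linarith) hη0.le
  have hcη₁ : c * η₁ ≤ 1 * η₁ := mul_le_mul_of_nonneg_right (by linarith) hη₁0.le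
  have h1 : ClD (Good R κ η X) s X N := by
    unfold ClD
    refine (mul_le_mul_of_nonneg_right (show s ≤ γ₀ by rw [hs, hγ₀]; linarith) (Nat.cast_nonneg _)).trans
      (hGc.trans ?_)
    refine Nat.cast_le.2 (card_le_card ?_)
    intro g hg
    rw [mem_filter]
    refine ⟨hG hg, ?_, hN g⟩
    exact AEB.Good.gdU (hGg g hg) (Subset.refl _) (mul_le_mul_of_nonneg_right (by linarith) (Nat.cast_nonneg _))
      (by linarith)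
  exact ⟨h1, fun _ => ⟨h1, ∅, ∅, by simp, by simp, fun u _ => Or.inl (hN u), fun u _ => Or.inl (hN u)⟩⟩

theorem stagesStatement (b l : ℕ) (hb : 1 ≤ b) : StagesStatement b l := by
  obtain ⟨p, hp, hpb, hpl, hab, -⟩ := exists_np b l 0 hb
  subst hpb hpl
  obtain ⟨ω, c, η, η₁, κ₀, κ₁, κ, γ₀, τ, s, σ₂, μ, P⟩ := exists_KB hp.D₀
  obtain ⟨C, hC, h⟩ := ee_all p hp hab le_rfl P
  have hκ₀0 : 0 < κ₀ := P.num.2.2.2.2.2.2.2.2.1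
  refine ⟨⌈C⌉₊ + ⌈1 / κ₀⌉₊, fun {V R} hT F hF X hn => ?_⟩
  refine h hT F hF X _ ?_ (cl_true P hT p F X ?_ _ fun _ => trivial)
  · have h1 : C ≤ ⌈C⌉₊ := Nat.le_ceil _
    have h2 : (F.size : ℝ) + 1 + ⌈C⌉₊ ≤ X.card := by exact_mod_cast (by omega : F.size + 1 + ⌈C⌉₊ ≤ X.card)
    linarith
  · have h1 : 1 / κ₀ ≤ (⌈1 / κ₀⌉₊ : ℝ) := Nat.le_ceil _
    have h2 : ((⌈1 / κ₀⌉₊ : ℕ) : ℝ) ≤ X.card := by exact_mod_cast (by omega : ⌈1 / κ₀⌉₊ ≤ X.card)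
    have h3 : 1 / κ₀ ≤ X.card := h1.trans h2
    rw [div_le_iff₀ hκ₀0] at h3
    linarith

/-- **Theorem B** -/
theorem mainB (Δ l : ℕ) :
    ∃ C : ℕ, ∀ k n : ℕ, k + C ≤ n → ∀ R : Fin n → Fin n → Prop,
    (∀ a, ¬ R a a) → (∀ a b, a ≠ b → R a b ∨ R b a) → (∀ a b, R a b → ¬ R b a) →
    ∀ E : Fin (k + 1) → Fin (k + 1) → Prop,
      (∀ a b, E a b → ¬ E b a) →
      (SimpleGraph.fromRel E).IsTree →
      (∀ v, ((SimpleGraph.fromRel E).neighborSet v).ncard ≤ Δ) →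
      (∃ r : Fin (k + 1), ∀ p : ℕ → Fin (k + 1), ¬ ∀ i ≤ l, E (p i) (p (i + 1)) ∧
        (SimpleGraph.fromRel E).dist r (p i) = (SimpleGraph.fromRel E).dist r (p (i + 1)) + 1) →
      ∃ f : Fin (k + 1) → Fin n, Function.Injective f ∧ ∀ a b, E a b → R (f a) (f b) :=
  final_of_stages (fun b l hb _ => stagesStatement b l hb) Δ l

end AEB
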