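import Pool.Agent.AEB.Heavy
import Pool.Agent.SPD.Defs

/-!
# Padding: from large pairs of forests to all pairs of forests

`twoB_all` deduces the statement for all pairs of forests from the statement `TwoB (b + 1) l` for pairs with
`m ≤ c₁.size ≤ c₂.size`: a directed path of constant length is added to both forests; the case
`c₂.size < c₁.size` follows by reversing all arcs.
-/

namespace AEB

open Finset AE15 AED
open scoped Classical

/-- both sides at a common root, for all pairs of large forests whose trees hang by arcs directed away from the root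
(in `R` for the second forest, in the reversed tournament for the first one) -/
def TwoB (b l : ℕ) : Prop :=
  ∃ m C : ℕ, ∀ {V : Type} {R : V → V → Prop}, AE32.Tour R → ∀ c₁ c₂ : Fd, FOK b l 0 c₁ → FOK b l 0 c₂ →
    (∀ q ∈ c₁.trees, q.1 = true) → (∀ q ∈ c₂.trees, q.1 = true) → m ≤ c₁.size → c₁.size ≤ c₂.size →
    ∀ X : Finset V, c₁.size + c₂.size + 1 + C ≤ X.card →
      ∃ r ∈ X, ∃ S₁ ⊆ X, ∃ S₂ ⊆ X, Disjoint S₁ S₂ ∧ r ∉ S₁ ∧ r ∉ S₂ ∧ AED.Emb (SPD.rv R) c₁ r S₁ ∧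
        AED.Emb R c₂ r S₂

/-- a directed path with `n` vertices -/
private def pth : ℕ → Fd
  | 0 => .nil
  | n + 1 => .node true (pth n) .nil

private theorem size_pth (n : ℕ) : (pth n).size = n := by
  induction n with
  | zero => rfl
  | succ n ih => simp [pth, Fd.size, ih]

private theorem len_pth (n : ℕ) : (pth n).len ≤ 1 := by
  cases n with
  | zero => simp [pth, Fd.len]
  | succ n => simp [pth, Fd.len]

private theorem deg_pth {b : ℕ} (hb : 1 ≤ b) (n : ℕ) : (pth n).Deg b := by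
  induction n with
  | zero => trivial
  | succ n ih => exact ⟨(len_pth n).trans hb, ih, trivial⟩

private theorem inR_pth (l n : ℕ) : InR l 0 (pth n) := by
  induction n with
  | zero => trivial
  | succ n ih =>
    refine ⟨?_, trivial⟩
    simp only [if_true]
    exact ih

private theorem deg_mono {b b' : ℕ} (h : b ≤ b') (F : Fd) (hF : F.Deg b) : F.Deg b' := by
  induction F with
  | nil => trivial
  | node d c s ihc ihs => exact ⟨hF.1.trans h, ihc hF.2.1, ihs hF.2.2⟩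

private theorem fok_pad {b l m : ℕ} {c : Fd} (h : FOK b l 0 c) : FOK (b + 1) l 0 (.node true (pth m) c) := by
  obtain ⟨h1, h2, h3⟩ := h
  refine ⟨?_, ⟨(len_pth m).trans (by omega), deg_pth (by omega) m, deg_mono (by omega) c h2⟩, ?_, h3⟩
  · simp only [Fd.len]
    omega
  · simp only [if_true]
    exact inR_pth l m

private theorem emb_pad {V : Type} {R : V → V → Prop} {P c : Fd} {r : V} {S : Finset V}
    (h : AED.Emb R (.node true P c) r S) : ∃ B ⊆ S, AED.Emb R c r B := by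
  obtain ⟨x, A, B, -, -, -, -, rfl, -, hB⟩ := h
  exact ⟨B, subset_union_right.trans (subset_insert _ _), hB⟩

/-- all pairs of forests -/
theorem twoB_all (b l : ℕ) (h : TwoB (b + 1) l) : ∃ C : ℕ, ∀ {V : Type} {R : V → V → Prop}, AE32.Tour R →
    ∀ c₁ c₂ : Fd, FOK b l 0 c₁ → FOK b l 0 c₂ → (∀ q ∈ c₁.trees, q.1 = true) → (∀ q ∈ c₂.trees, q.1 = true) →
    ∀ X : Finset V, c₁.size + c₂.size + 1 + C ≤ X.card →
      ∃ r ∈ X, ∃ S₁ ⊆ X, ∃ S₂ ⊆ X, Disjoint S₁ S₂ ∧ r ∉ S₁ ∧ r ∉ S₂ ∧ AED.Emb (SPD.rv R) c₁ r S₁ ∧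
        AED.Emb R c₂ r S₂ := by
  obtain ⟨m, C, hC⟩ := h
  refine ⟨C + 2 * (m + 1), ?_⟩
  -- the padded forests
  have key : ∀ {V : Type} {R : V → V → Prop}, AE32.Tour R →
      ∀ c₁ c₂ : Fd, FOK b l 0 c₁ → FOK b l 0 c₂ → (∀ q ∈ c₁.trees, q.1 = true) → (∀ q ∈ c₂.trees, q.1 = true) →
      c₁.size ≤ c₂.size → ∀ X : Finset V, c₁.size + c₂.size + 1 + (C + 2 * (m + 1)) ≤ X.card →
      ∃ r ∈ X, ∃ S₁ ⊆ X, ∃ S₂ ⊆ X, Disjoint S₁ S₂ ∧ r ∉ S₁ ∧ r ∉ S₂ ∧ AED.Emb (SPD.rv R) c₁ r S₁ ∧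
        AED.Emb R c₂ r S₂ := by
    intro V R hT c₁ c₂ h1 h2 h3 h4 h5 X hX
    have hs : ∀ c : Fd, (Fd.node true (pth m) c).size = c.size + (m + 1) := by
      intro c
      simp only [Fd.size, size_pth]
      omega
    have ht : ∀ c : Fd, (∀ q ∈ c.trees, q.1 = true) → ∀ q ∈ (Fd.node true (pth m) c).trees, q.1 = true := by
      intro c hc q hq
      rcases List.mem_cons.1 hq with rfl | hq
      · rfl
      · exact hc q hq
    obtain ⟨r, hr, S₁, hS₁, S₂, hS₂, hdis, hr1, hr2, hE1, hE2⟩ := hC hT (.node true (pth m) c₁)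
      (.node true (pth m) c₂) (fok_pad h1) (fok_pad h2) (ht _ h3) (ht _ h4) (by rw [hs]; omega)
      (by rw [hs, hs]; omega) X (by rw [hs, hs]; omega)
    obtain ⟨B₁, hB₁, hE1'⟩ := emb_pad hE1
    obtain ⟨B₂, hB₂, hE2'⟩ := emb_pad hE2
    exact ⟨r, hr, B₁, hB₁.trans hS₁, B₂, hB₂.trans hS₂, disjoint_of_subset_left hB₁ (disjoint_of_subset_right hB₂ hdis),
      fun h => hr1 (hB₁ h), fun h => hr2 (hB₂ h), hE1', hE2'⟩
  intro V R hT c₁ c₂ h1 h2 h3 h4 X hX
  rcases le_total c₁.size c₂.size with h5 | h5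
  · exact key hT c₁ c₂ h1 h2 h3 h4 h5 X hX
  · obtain ⟨r, hr, S₁, hS₁, S₂, hS₂, hdis, hr1, hr2, hE1, hE2⟩ :=
      key (SPD.rv_tour hT) c₂ c₁ h2 h1 h4 h3 h5 X (by omega)
    exact ⟨r, hr, S₂, hS₂, S₁, hS₁, hdis.symm, hr2, hr1, hE2, hE1⟩

end AEB
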