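import Pool.Agent.AEB.TopB
import Pool.Agent.AEB.PadPM
import Pool.Agent.AEB.GluePM

/-!
# Oriented trees of bounded degree with bounded backward runs seen from a vertex
-/

namespace AEB

open Finset AE15 AED
open scoped Classical

theorem mainPM (Δ l : ℕ) : ∃ C : ℕ, ∀ k n : ℕ, k + C ≤ n → ∀ R : Fin n → Fin n → Prop,
    (∀ a, ¬ R a a) → (∀ a b, a ≠ b → R a b ∨ R b a) → (∀ a b, R a b → ¬ R b a) →
    ∀ E : Fin (k + 1) → Fin (k + 1) → Prop,
      (∀ a b, E a b → ¬ E b a) →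
      (SimpleGraph.fromRel E).IsTree →
      (∀ v, ((SimpleGraph.fromRel E).neighborSet v).ncard ≤ Δ) →
      (∃ r : Fin (k + 1),
        (∀ u, E r u → ∀ p : ℕ → Fin (k + 1), ¬ ∀ i ≤ l, E (p i) (p (i + 1)) ∧
          (SimpleGraph.fromRel E).dist r (p (i + 1)) < (SimpleGraph.fromRel E).dist r (p i) ∧
          (SimpleGraph.fromRel E).dist u (p i) < (SimpleGraph.fromRel E).dist r (p i)) ∧
        (∀ u, E u r → ∀ p : ℕ → Fin (k + 1), ¬ ∀ i ≤ l, E (p (i + 1)) (p i) ∧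
          (SimpleGraph.fromRel E).dist r (p (i + 1)) < (SimpleGraph.fromRel E).dist r (p i) ∧
          (SimpleGraph.fromRel E).dist u (p i) < (SimpleGraph.fromRel E).dist r (p i))) →
      ∃ f : Fin (k + 1) → Fin n, Function.Injective f ∧ ∀ a b, E a b → R (f a) (f b) := by
  obtain ⟨C, hC⟩ := twoB_all Δ l (topB (Δ + 1) l (by omega))
  refine ⟨C + 1, ?_⟩
  intro k n hn R h1 h2 h3 E h4 h5 h6 ⟨r, h7, h8⟩
  have h6' : ∀ v, {w | E v w ∨ E w v}.ncard ≤ Δ := by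
    intro v
    refine le_trans (le_of_eq ?_) (h6 v)
    congr 1
    ext w
    simp only [Set.mem_ofPred_eq, SimpleGraph.mem_neighborSet, SimpleGraph.fromRel_adj]
    constructor
    · intro h
      refine ⟨?_, h⟩
      rintro rfl
      rcases h with h | h <;> exact h4 _ _ h h
    · exact fun h => h.2
  obtain ⟨c₁, c₂, g1, g2, g3, g4, g5, g6⟩ := glue_pm h4 h5 h6' r h7 h8
  obtain ⟨x, _, S₁, _, S₂, _, g7, g8, g9, g10, g11⟩ := hC (R := R) ⟨h1, h2, h3⟩ c₁ c₂ g2 g3 g4 g5 univ (by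
    rw [card_univ, Fintype.card_fin]; omega)
  exact g6 g7 g8 g9 g10 g11

end AEB
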