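import Pool.Agent.AEB.ClsB

/-!
# Theorem B: partial embeddings, blocks, in-runs
-/

namespace AEB

open Finset AE15 AED
open scoped Classical

/-- size of the in-closure: number of vertices below the common vertex which are reached by arcs towards the root only -/
def blk : Fd → ℕ
  | .nil => 0
  | .node d c s => (if d then 0 else blk c + 1) + blk s

/-- number of vertices of the trees which hang by an arc towards the common vertex -/
def inw : Fd → ℕ
  | .nil => 0
  | .node d c s => (if d then 0 else c.size + 1) + inw s

/-- `InR l j F`: `F` is the children forest of a vertex whose parent arc is the `j`-th arc of a run of arcs directed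
towards the root (`j = 0`: the parent arc is directed away from the root, or there is none), and all such runs have at
most `l` arcs -/
def InR (l : ℕ) : ℕ → Fd → Prop
  | _, .nil => True
  | j, .node d c s => (if d then InR l 0 c else j + 1 ≤ l ∧ InR l (j + 1) c) ∧ InR l j s

/-- `Turn F D`: the heavy path starts at the common vertex with an arc towards it; at the end of the run of such arcs
it leaves the block by an arc away from the root, to a vertex with children forest `D` -/
inductive Turn : Fd → Fd → Prop
  | one (F c D : Fd) : F.hv = some (false, c) → c.hv = some (true, D) → Turn F D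
  | more (F c D : Fd) : F.hv = some (false, c) → Turn c D → Turn F D

variable {V : Type*} {R : V → V → Prop}

/-- partial embeddings: the forest `F` hangs on `v`; the used vertices are `Z`; pending are the items `(z, c)`: a tree with
children forest `c` whose root has to be an out-neighbour of `z` -/
inductive PE (R : V → V → Prop) : Fd → V → Finset V → List (V × Fd) → Prop
  | nil (v : V) : PE R .nil v ∅ []
  | pend (c s : Fd) (v : V) (A : Finset V) (L : List (V × Fd)) : PE R s v A L → PE R (.node true c s) v A ((v, c) :: L)
  | place (d : Bool) (c s : Fd) (v x : V) (A B : Finset V) (L₁ L₂ : List (V × Fd)) : Adj R d v x → x ∉ A → x ∉ B →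
      Disjoint A B → PE R c x A L₁ → PE R s v B L₂ → PE R (.node d c s) v (insert x (A ∪ B)) (L₁ ++ L₂)

/-- partial embeddings of lists of trees hanging on `v` -/
def PEL (R : V → V → Prop) (v : V) : List (Bool × Fd) → Finset V → List (V × Fd) → Prop
  | [], Z, L => Z = ∅ ∧ L = []
  | p :: ts, Z, L => ∃ Z₁ Z₂ L₁ L₂, Disjoint Z₁ Z₂ ∧ Z = Z₁ ∪ Z₂ ∧ L = L₁ ++ L₂ ∧
      ((p.1 = true ∧ Z₁ = ∅ ∧ L₁ = [(v, p.2)]) ∨ ∃ x A, Adj R p.1 v x ∧ x ∉ A ∧ Z₁ = insert x A ∧ PE R p.2 x A L₁) ∧
      PEL R v ts Z₂ L₂

/-- total size of the pending items -/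
def isz (L : List (V × Fd)) : ℕ := (L.map (fun p => p.2.size + 1)).sum

/-- the items are embedded disjointly, onto `A` -/
def EmbI (R : V → V → Prop) : List (V × Fd) → Finset V → Prop
  | [], A => A = ∅
  | p :: L, A => ∃ A₁ A₂, Disjoint A₁ A₂ ∧ A = A₁ ∪ A₂ ∧
      (∃ x S, R p.1 x ∧ x ∉ S ∧ A₁ = insert x S ∧ Emb R p.2 x S) ∧ EmbI R L A₂

end AEB
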