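import Pool.Agent.AEB.ConstB
import Pool.Agent.AEB.HostsK
import Pool.Agent.AEB.Place

/-!
# Placing in an ambient set, with constants
-/

namespace AEB

open Finset AE15 AED
open scoped Classical

/-- **Placing with constants.** The pending items hang at good hosts or at `h`, which has many good out-neighbours in `X`;
all of them but the item `(x, D)` are replaced by at most `m₀` items at hosts in a set `Ks` of super vertices. -/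
theorem placeB (p : NP) (hp : p.OK) {D₀ : ℕ} {ω c η η₁ κ₀ κ₁ κ γ₀ τ s σ₂ μ : ℝ}
    (P : KB D₀ ω c η η₁ κ₀ κ₁ κ γ₀ τ s σ₂ μ) {κU : ℝ} (hU0 : 0 < κU) (hUκ : κU ≤ κ) (z₀ : ℕ) : ∃ n₀ w₀ m₀ : ℕ,
    ∀ {V : Type} {R : V → V → Prop}, AE32.Tour R → ∀ {U X Z F₀ : Finset V} {h x : V} {F D : Fd} {L : List (V × Fd)},
      n₀ ≤ X.card → X ⊆ U → κU * U.card ≤ κ * X.card →
      PE R F h Z L → FOK p.b p.l 0 F → Z.card + 1 ≤ z₀ → (x, D) ∈ L →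
      (∀ q ∈ L, q.1 ∈ U ∧ (GdU R κU η U X q.1 ∨
        (q.1 = h ∧ s * X.card ≤ ((X.filter (fun v => GdU R κU η U X v ∧ R h v)).card : ℝ)))) →
      (F₀.card : ℝ) ≤ κU ^ 2 / 128 * X.card →
      ∃ Ks ⊆ X, (∀ y ∈ Ks, ∃ Y ⊆ X, ((X \ Y).card : ℝ) ≤ 5 * η * X.card ∧ SuperG R κ₁ η₁ τ Y y) ∧
        ∃ Z' L' L'', PE R F h Z' L'' ∧ L''.Perm ((x, D) :: L') ∧ Z ⊆ Z' ∧ Z' \ Z ⊆ U ∧ h ∉ Z' \ Z ∧
          Disjoint (Z' \ Z) F₀ ∧ (Z' \ Z).card ≤ w₀ ∧ L'.length ≤ m₀ ∧ ∀ q ∈ L', q.1 ∈ Ks := by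
  obtain ⟨hω0, hω1, hc0, hc1, hη0, hη1, hη₁0, hη₁1, hκ₀0, hκ₁0, hκ₁1, hκ0, hκ1, hs0, hγ₀0, hτ0, hσ₂0, hμ0, hκ₁η, hκs⟩ :=
    P.num
  obtain ⟨hD, hω, hc, hη, hη₁, hκ₀, hκ₁, hκ, hγ₀, hτ, hs, hσ₂, hμ⟩ := P
  have hcη : c * η ≤ 1 * η := mul_le_mul_of_nonneg_right (by linarith) hη0.le
  obtain ⟨M, hM⟩ : ∃ M : ℕ, M = ⌈8 / κU⌉₊ + 1 + 1 := ⟨_, rfl⟩
  obtain ⟨w₀, hw₀⟩ : ∃ w₀ : ℕ, w₀ = p.b * z₀ * wB p.b (ab p.b p.l) M := ⟨_, rfl⟩
  obtain ⟨m, hm⟩ : ∃ m : ℕ, m = p.b * z₀ * vB p.b (ab p.b p.l) M := ⟨_, rfl⟩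
  obtain ⟨n₀, hn₀⟩ := exists_big [((2 : ℝ), η), ((8 : ℝ), κ₀),
      ((z₀ : ℝ) + w₀ + 2 ^ ab p.b p.l, κU ^ 2 / 128), (1, 1)] (by
    intro q hq
    simp only [List.mem_cons, List.not_mem_nil, or_false] at hq
    rcases hq with rfl | rfl | rfl | rfl
    · exact hη0
    · exact hκ₀0
    · show 0 < κU ^ 2 / 128
      positivity
    · exact one_pos)
  refine ⟨n₀, w₀, m, ?_⟩
  intro V R hT U X Z F₀ h x F D L hnX hXU hUX hPE hF hZc hxD hhost hF₀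
  have hbig := hn₀ X.card hnX
  obtain ⟨n, hnd⟩ : ∃ n : ℝ, n = (X.card : ℝ) := ⟨_, rfl⟩
  rw [← hnd] at hbig hUX hF₀
  have b4 : 2 ≤ η * n := hbig (2, η) (by simp)
  have b5 : 8 ≤ κ₀ * n := hbig (8, κ₀) (by simp)
  have b8 : (z₀ : ℝ) + w₀ + 2 ^ ab p.b p.l ≤ κU ^ 2 / 128 * n :=
    hbig ((z₀ : ℝ) + w₀ + 2 ^ ab p.b p.l, κU ^ 2 / 128) (by simp)
  have b9 : 1 ≤ 1 * n := hbig (1, 1) (by simp)
  have hn0 : 0 < n := by linarith
  have hXUc : n ≤ U.card := by rw [hnd]; exact_mod_cast card_le_card hXU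
  have hb1 : 1 ≤ p.b := hp.hb
  -- the hosts
  obtain ⟨Ks, hKX, hKh, hKc⟩ := exists_K hT (X := X) (η := η) (η₁ := η₁) hκ₀0 (by linarith) (by linarith) hη0
    (by linarith) (by rw [← hnd]; exact b4) (by rw [← hnd]; exact b5)
  rw [← hκ₁, ← hτ] at hKh
  have hlevG : ∀ v ∈ U, GdU R κU η U X v → v ∈ Lv R U Ks (κU ^ 2 / 32 * U.card) (⌈8 / κU⌉₊ + 1) := by
    intro v hv hG
    exact hG.level hT hU0 (by linarith) hXU hKX hKc (by
      rw [← hnd]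
      have : κ * n ≤ 24 * η * n := mul_le_mul_of_nonneg_right (by linarith) hn0.le
      linarith) hv
  have hk1 : κU ^ 2 / 32 * (U.card : ℝ) ≤ s * n := by
    have h1 : κU ^ 2 / 32 * (U.card : ℝ) = κU / 32 * (κU * U.card) := by ring
    have h2 : κU / 32 * (κU * U.card) ≤ κU / 32 * (κ * n) := mul_le_mul_of_nonneg_left hUX (by positivity)
    have h3 : κU / 32 * (κ * n) ≤ 1 / 32 * (κ * n) := mul_le_mul_of_nonneg_right (by linarith) (by positivity)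
    have h4 : 1 / 32 * κ * n ≤ s * n := mul_le_mul_of_nonneg_right (by linarith) hn0.le
    linarith
  have hlev : ∀ q ∈ L, q.1 ∈ Lv R U Ks (κU ^ 2 / 32 * U.card) M := by
    intro q hq
    obtain ⟨hqU, hq1 | ⟨hq2, hq3⟩⟩ := hhost q hq
    · rw [hM]
      exact Lv_mono _ (hlevG q.1 hqU hq1)
    · rw [hM]
      refine mem_union_right _ (mem_filter.2 ⟨hqU, ?_⟩)
      rw [← hnd] at hq3
      refine hk1.trans (hq3.trans ?_)
      have h1 : X.filter (fun v => GdU R κU η U X v ∧ R h v) ⊆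
          nO R (Lv R U Ks (κU ^ 2 / 32 * U.card) (⌈8 / κU⌉₊ + 1)) q.1 := by
        intro v hv
        rw [mem_filter] at hv
        rw [mem_nO, hq2]
        exact ⟨hlevG v (hXU hv.1) hv.2.1, hv.2.2⟩
      exact_mod_cast card_le_card h1
  have hkU : κU ^ 2 / 32 * n ≤ κU ^ 2 / 32 * U.card := mul_le_mul_of_nonneg_left hXUc (by positivity)
  have hκn : 0 < κU ^ 2 * n := by positivity
  -- placing
  obtain ⟨L₀, hL⟩ : ∃ L₀, L.Perm ((x, D) :: L₀) := ⟨_, List.perm_cons_erase hxD⟩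
  have hlen := hPE.length_le hF.1 hF.2.1
  have hL₀len : L₀.length ≤ p.b * z₀ := by
    have h1 := hL.length_eq
    rw [List.length_cons] at h1
    have h2 : p.b * (Z.card + 1) ≤ p.b * z₀ := Nat.mul_le_mul_left _ hZc
    omega
  have hL' : L.Perm (L₀ ++ [(x, D)]) := hL.trans (List.perm_append_comm (l₁ := [(x, D)]) (l₂ := L₀))
  have hsub : ∀ q ∈ L₀, q ∈ L := fun q hq => hL.symm.subset (List.mem_cons_of_mem _ hq)
  have hwnat : L₀.length * wB p.b (ab p.b p.l) M ≤ w₀ := by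
    rw [hw₀]
    exact Nat.mul_le_mul_right _ hL₀len
  have hw : (L₀.length : ℝ) * wB p.b (ab p.b p.l) M ≤ w₀ := by exact_mod_cast hwnat
  have hZc' : (Z.card : ℝ) + 1 ≤ z₀ := by exact_mod_cast hZc
  obtain ⟨Z', L', L'', hPE', hL'', hZZ', hWU, hhW, hWF, hWc, hL'len, hL'K⟩ := placing hT hb1 (hKX.trans hXU) M
    (F₀ := F₀) (k := κU ^ 2 / 32 * U.card) hPE hL' (fun q hq => ⟨hlev q (hsub q hq), (hPE.mem hF q (hsub q hq)).2.1⟩)
    (by linarith)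
  refine ⟨Ks, hKX, hKh, Z', L', L'', hPE', hL''.trans (List.perm_append_comm (l₁ := L') (l₂ := [(x, D)])), hZZ', hWU, hhW,
    hWF, hWc.trans hwnat, ?_, fun q hq => (hL'K q hq).1⟩
  refine hL'len.trans ?_
  rw [hm]
  exact Nat.mul_le_mul_right _ hL₀len

end AEB
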