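import Pool.Agent.AEB.ClsB

/-!
# Reserved vertices

For every vertex `u` with few dominators a dominator `h` is reserved, together with in-neighbours of `h`.
-/

namespace AEB

open Finset AE15 AED
open scoped Classical

variable {V : Type*} {R : V → V → Prop}

/-- the vertices reserved for one dominator -/
theorem reserve_one (p : NP) (hp : p.OK) {X G E : Finset V} (hG : G ⊆ X) (hEc : E.card ≤ p.e) {h : V} (hX : h ∈ X)
    (hE : h ∉ E) (h4 : p.c1 ≤ (nI R X h).card) (P : Prop) (hP : P → p.c ≤ (nI R (G \ E) h).card) :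
    ∃ H ⊆ X, Disjoint H E ∧ H.card ≤ 1 + p.c0 + p.c ∧ h ∈ H ∧ p.c0 ≤ (nI R H h).card ∧
      (P → p.c ≤ (nI R (H ∩ G) h).card) := by
  have h1 : p.c0 ≤ (nI R X h \ E).card := by
    have h2 := le_card_sdiff E (nI R X h)
    have h3 := hp.hc1
    have h4' : 0 ≤ 2 ^ p.r0 := Nat.zero_le _
    generalize 2 ^ p.r0 = y at h3 h4'
    omega
  obtain ⟨S, hS, hSc⟩ := exists_subset_card_eq h1
  have hSX : S ⊆ X := hS.trans (sdiff_subset.trans nI_sub)
  have hSE : Disjoint S E := disjoint_of_subset_left hS sdiff_disjoint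
  have hSI : ∀ w ∈ S, R w h := fun w hw => (mem_nI.1 (sdiff_subset (hS hw))).2
  have key : ∃ S' ⊆ G \ E, S'.card ≤ p.c ∧ (∀ w ∈ S', R w h) ∧ (P → S'.card = p.c) := by
    by_cases hPP : P
    · obtain ⟨S', h5, h6⟩ := exists_subset_card_eq (hP hPP)
      exact ⟨S', h5.trans nI_sub, h6.le, fun w hw => (mem_nI.1 (h5 hw)).2, fun _ => h6⟩
    · exact ⟨∅, empty_subset _, by simp, by simp, fun h => absurd h hPP⟩
  obtain ⟨S', h5, h6, h7, h8⟩ := key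
  have h9 : S' ⊆ G := h5.trans sdiff_subset
  refine ⟨insert h (S ∪ S'), insert_subset hX (union_subset hSX (h9.trans hG)), ?_, ?_, mem_insert_self _ _, ?_, ?_⟩
  · rw [disjoint_insert_left, disjoint_union_left]
    exact ⟨hE, hSE, disjoint_of_subset_left h5 sdiff_disjoint⟩
  · have h10 := card_insert_le h (S ∪ S')
    have h11 := card_union_le S S'
    omega
  · rw [← hSc]
    apply card_le_card
    intro w hw
    exact mem_nI.2 ⟨mem_insert_of_mem (mem_union_left _ hw), hSI w hw⟩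
  · intro hPP
    rw [← h8 hPP]
    apply card_le_card
    intro w hw
    exact mem_nI.2 ⟨mem_inter.2 ⟨mem_insert_of_mem (mem_union_right _ hw), h9 hw⟩, h7 w hw⟩

/-- **Reserved vertices** -/
theorem reserve (p : NP) (hp : p.OK) {X G E Nx U Q : Finset V} {x : V} {j B : ℕ} (hG : G ⊆ X) (hNG : Nx ⊆ G)
    (hEc : E.card ≤ p.e) (h4 : ∀ h ∈ Nx, p.c1 ≤ (nI R X h).card)
    (h5 : ((nI R X x).filter (fun u => (nI R Nx u).card ≤ j)).card ≤ B)
    (h6 : ∀ u ∈ X, u ∉ E → R u x → p.c1 ≤ (nI R X u).card → u ∉ U → ∃ h ∈ Nx, h ∉ E ∧ R h u)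
    (h7 : ∀ u ∈ X, u ∉ E → R u x → p.c1 ≤ (nI R X u).card → u ∉ U → u ∉ Q →
      ∃ h ∈ Nx, h ∉ E ∧ R h u ∧ p.c ≤ (nI R (G \ E) h).card) :
    ∃ H ⊆ X, Disjoint H E ∧ H.card ≤ B * (1 + p.c0 + p.c) ∧
      ∀ u ∈ X, u ∉ E → R u x → p.c1 ≤ (nI R X u).card → (nI R Nx u).card ≤ j → u ∉ U →
        ∃ h ∈ Nx, h ∈ H ∧ R h u ∧ p.c0 ≤ (nI R H h).card ∧ (u ∉ Q → p.c ≤ (nI R (H ∩ G) h).card) := by
  have key : ∀ u, ∃ H ⊆ X, Disjoint H E ∧ H.card ≤ 1 + p.c0 + p.c ∧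
      (u ∈ X → u ∉ E → R u x → p.c1 ≤ (nI R X u).card → u ∉ U →
        ∃ h ∈ Nx, h ∈ H ∧ R h u ∧ p.c0 ≤ (nI R H h).card ∧ (u ∉ Q → p.c ≤ (nI R (H ∩ G) h).card)) := by
    intro u
    by_cases hu : u ∈ X ∧ u ∉ E ∧ R u x ∧ p.c1 ≤ (nI R X u).card ∧ u ∉ U
    · obtain ⟨hu1, hu2, hu3, hu4, hu5⟩ := hu
      have hh : ∃ h ∈ Nx, h ∉ E ∧ R h u ∧ (u ∉ Q → p.c ≤ (nI R (G \ E) h).card) := by
        by_cases hQ : u ∈ Q
        · obtain ⟨h, h8, h9, h10⟩ := h6 u hu1 hu2 hu3 hu4 hu5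
          exact ⟨h, h8, h9, h10, fun h => absurd hQ h⟩
        · obtain ⟨h, h8, h9, h10, h11⟩ := h7 u hu1 hu2 hu3 hu4 hu5 hQ
          exact ⟨h, h8, h9, h10, fun _ => h11⟩
      obtain ⟨h, h8, h9, h10, h11⟩ := hh
      obtain ⟨H, hH1, hH2, hH3, hH4, hH5, hH6⟩ := reserve_one (R := R) p hp hG hEc (hG (hNG h8)) h9 (h4 h h8) _ h11
      exact ⟨H, hH1, hH2, hH3, fun _ _ _ _ _ => ⟨h, h8, hH4, h10, hH5, hH6⟩⟩
    · refine ⟨∅, empty_subset _, disjoint_empty_left _, by simp, fun hu1 hu2 hu3 hu4 hu5 => ?_⟩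
      exact absurd ⟨hu1, hu2, hu3, hu4, hu5⟩ hu
  choose f hf1 hf2 hf3 hf4 using key
  set T := (nI R X x).filter (fun u => (nI R Nx u).card ≤ j) with hT
  have hsub : ∀ u ∈ T, f u ⊆ T.biUnion f := fun u hu => subset_biUnion_of_mem f hu
  refine ⟨T.biUnion f, biUnion_subset.2 (fun u _ => hf1 u), (disjoint_biUnion_left _ _ _).2 (fun u _ => hf2 u), ?_, ?_⟩
  · calc (T.biUnion f).card ≤ T.card * (1 + p.c0 + p.c) := card_biUnion_le_card_mul _ _ _ (fun u _ => hf3 u)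
      _ ≤ B * (1 + p.c0 + p.c) := Nat.mul_le_mul_right _ h5
  · intro u hu1 hu2 hu3 hu4 hj hu5
    have huT : u ∈ T := by
      rw [hT, mem_filter]
      exact ⟨mem_nI.2 ⟨hu1, hu3⟩, hj⟩
    obtain ⟨h, h8, h9, h10, h11, h12⟩ := hf4 u hu1 hu2 hu3 hu4 hu5
    refine ⟨h, h8, hsub u huT h9, h10, h11.trans (card_le_card (nI_mono (hsub u huT))), fun hQ => ?_⟩
    exact (h12 hQ).trans (card_le_card (nI_mono (inter_subset_inter (hsub u huT) (Subset.refl _))))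

/-- a large set contains a vertex of large in-degree inside the set -/
theorem exists_deg_in (hT : AE32.Tour R) {S : Finset V} {c : ℕ} (h : 2 * c + 1 ≤ S.card) :
    ∃ v ∈ S, c ≤ (nI R S v).card := by
  have h1 := card_low_in hT c S
  by_contra hc
  push Not at hc
  have h2 : S ⊆ low R c S := fun v hv => mem_low.2 ⟨hv, hc v hv⟩
  have h3 := card_le_card h2
  omega

end AEB
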