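import Pool.Agent.AEB.ClU
import Pool.Agent.AEB.Defs
import Pool.Agent.AECut.Defs

/-!
# The classes of the two sides of a cut
-/

namespace AEB

open Finset AE15 AED SPD AECut
open scoped Classical

variable {V : Type*} {R : V → V → Prop}

theorem rea_gdU {U P X : Finset V} {k t κ η : ℝ} {v : V} (h : Rea R U P k t v) (hk : κ * U.card ≤ k) (hXP : X ⊆ P)
    (ht : t ≤ η * X.card) : GdU R κ η U X v := by
  obtain ⟨W, hW, hWt⟩ := h
  intro C _ hnO hcl
  have hWC : W ⊆ C := by
    clear hWt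
    induction hW with
    | base => exact hnO
    | step W z _ hz _ hc ih =>
      apply insert_subset _ ih
      by_contra hzC
      have h1 := hcl z hz hzC
      have h2 : ((nI R W z).card : ℝ) ≤ (nI R C z).card := by exact_mod_cast card_le_card (nI_mono ih)
      linarith
  have h3 : ((X \ C).card : ℝ) ≤ (P \ W).card := by exact_mod_cast card_le_card (sdiff_subset_sdiff hXP hWC)
  linarith

theorem good_gdU {U X : Finset V} {κ η κ₁ η₁ : ℝ} {v : V} (hXU : X ⊆ U) (hg : Good R κ₁ η₁ X v)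
    (hκ : κ * U.card ≤ κ₁ * X.card) (hη : η₁ ≤ η) : GdU R κ η U X v := by
  intro C _ hnO hcl
  have h1 : ((X \ (C ∩ X)).card : ℝ) ≤ η₁ * X.card := by
    apply hg (C ∩ X) inter_subset_right
    · intro w hw
      rw [mem_nO] at hw
      exact mem_inter.2 ⟨hnO (mem_nO.2 ⟨hXU hw.1, hw.2⟩), hw.1⟩
    · intro z hz hzC
      have h2 : z ∉ C := fun h => hzC (mem_inter.2 ⟨h, hz⟩)
      have h3 := hcl z (hXU hz) h2
      have h4 : ((nI R (C ∩ X) z).card : ℝ) ≤ (nI R C z).card := by
        exact_mod_cast card_le_card (nI_mono inter_subset_left)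
      linarith
  have h2 : X \ (C ∩ X) = X \ C := by
    ext w
    simp only [mem_sdiff, mem_inter]
    tauto
  rw [h2] at h1
  have h3 : η₁ * X.card ≤ η * X.card := mul_le_mul_of_nonneg_right hη (Nat.cast_nonneg _)
  linarith

theorem side_clD {U P E : Finset V} {y : V} {k t s : ℝ} {Gd : V → Prop}
    (hlin : s * (P \ E).card + E.card ≤ ((P.filter (fun w => R y w ∧ Rea R U P k t w)).card : ℝ))
    (hgd : ∀ v, Rea R U P k t v → Gd v) : ClD Gd s (P \ E) (R y) := by
  unfold ClD
  have h1 : (P.filter (fun w => R y w ∧ Rea R U P k t w)) \ E ⊆ (P \ E).filter (fun v => Gd v ∧ R y v) := by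
    intro z hz
    rw [mem_sdiff, mem_filter] at hz
    rw [mem_filter, mem_sdiff]
    exact ⟨⟨hz.1.1, hz.2⟩, hgd z hz.1.2.2, hz.1.2.1⟩
  have h2 := card_le_card h1
  have h3 := le_card_sdiff E (P.filter (fun w => R y w ∧ Rea R U P k t w))
  have h4 : (P.filter (fun w => R y w ∧ Rea R U P k t w)).card ≤
      ((P \ E).filter (fun v => Gd v ∧ R y v)).card + E.card := by omega
  have h5 : ((P.filter (fun w => R y w ∧ Rea R U P k t w)).card : ℝ) ≤
      ((P \ E).filter (fun v => Gd v ∧ R y v)).card + E.card := by exact_mod_cast h4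
  linarith

/-- the class of one side of a cut, after the removal of a small set `E` -/
theorem side_cl_aux {p : NP} (hp : p.OK) {U P E B : Finset V} {y : V} {k t κ η s : ℝ} {c : ℕ}
    (hlin : s * (P \ E).card + E.card ≤ ((P.filter (fun w => R y w ∧ Rea R U P k t w)).card : ℝ))
    (hdom : ∀ u ∈ P, R y u ∨ u ∈ B ∨ ∃ w ∈ Dm R U P k t c y u, w ∉ E) (hB : B.card ≤ p.u0) (hk : κ * U.card ≤ k)
    (ht : t ≤ η * (P \ E).card) (hc : p.c0 + E.card ≤ c) (D : Fd) :
    ClU R (GdU R κ η U (P \ E)) s p D (U \ E) (P \ E) (R y) := by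
  have hgd : ∀ v, Rea R U P k t v → GdU R κ η U (P \ E) v := fun v hv => rea_gdU hv hk sdiff_subset ht
  have hcc : p.c ≤ p.c0 := ((Nat.le_add_left p.c _).trans (Nat.le_add_right _ 2)).trans hp.hc0
  have hst : ∀ u ∈ P, ∀ w ∈ Dm R U P k t c y u, w ∉ E → w ∈ P \ E ∧ R y w ∧ R w u ∧
      Strong R (GdU R κ η U (P \ E)) p.c0 p.c (U \ E) w := by
    intro u _ w hw hwE
    rw [mem_Dm] at hw
    obtain ⟨h1, h2, h3, h4, h5⟩ := hw
    have h6 : (U.filter (fun z => R z w ∧ Rea R U P k t z)) \ E ⊆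
        nI R ((U \ E).filter (GdU R κ η U (P \ E))) w := by
      intro z hz
      rw [mem_sdiff, mem_filter] at hz
      rw [mem_nI, mem_filter, mem_sdiff]
      exact ⟨⟨⟨hz.1.1, hz.2⟩, hgd z hz.1.2.2⟩, hz.1.2.1⟩
    have h7 := card_le_card h6
    have h8 := le_card_sdiff E (U.filter (fun z => R z w ∧ Rea R U P k t z))
    have h9 : p.c0 ≤ (nI R ((U \ E).filter (GdU R κ η U (P \ E))) w).card := by omega
    have h10 : (nI R ((U \ E).filter (GdU R κ η U (P \ E))) w).card ≤ (nI R (U \ E) w).card :=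
      card_le_card (nI_mono (filter_subset _ _))
    exact ⟨mem_sdiff.2 ⟨h1, hwE⟩, h2, h3, ⟨hgd w h4, h9.trans h10⟩, hcc.trans h9⟩
  refine ⟨?_, fun _ => ⟨?_, B, ∅, ?_, by simp, ?_, ?_⟩⟩
  · exact side_clD hlin hgd
  · exact side_clD hlin hgd
  · unfold NP.ub
    split_ifs <;> omega
  · intro u hu
    rw [mem_sdiff] at hu
    rcases hdom u hu.1 with h | h | ⟨w, h1, h2⟩
    · exact Or.inl h
    · exact Or.inr (Or.inr (Or.inl h))
    · obtain ⟨h3, h4, h5, h6⟩ := hst u hu.1 w h1 h2
      exact Or.inr (Or.inr (Or.inr ⟨w, h3, h4, h5, h6.1⟩))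
  · intro u hu
    rw [mem_sdiff] at hu
    rcases hdom u hu.1 with h | h | ⟨w, h1, h2⟩
    · exact Or.inl h
    · exact Or.inr (Or.inr (Or.inl h))
    · obtain ⟨h3, h4, h5, h6⟩ := hst u hu.1 w h1 h2
      exact Or.inr (Or.inr (Or.inr (Or.inr ⟨w, h3, h4, h5, h6⟩)))

/-- the class of the large side: only the cut vertex is removed from the ambient set -/
theorem side_cl (hT : AE32.Tour R) {p : NP} (hp : p.OK) {U P : Finset V} {y : V} {k t κ η s s' : ℝ} {c : ℕ}
    (h : Side R U P k t s c y) (hs : s' ≤ s / 2) (hs1 : 2 ≤ s * P.card) (hk : κ * U.card ≤ k) (ht : t ≤ η * P.card)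
    (hc : p.c0 + 1 ≤ c) (D : Fd) : ClU R (GdU R κ η U P) s' p D (U \ {y}) P (R y) := by
  have hP : P \ {y} = P := sdiff_eq_self_of_disjoint (disjoint_singleton_right.2 h.notMem)
  have h1 := side_cl_aux (R := R) (E := {y}) (B := ∅) (y := y) (P := P) (U := U) (k := k) (t := t) (κ := κ) (η := η)
    (s := s') (c := c) hp (by
      rw [hP, card_singleton]
      have h2 := h.lin
      have h3 : s' * P.card ≤ s / 2 * P.card := mul_le_mul_of_nonneg_right hs (Nat.cast_nonneg _)
      push_cast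
      linarith) (by
      intro u hu
      by_cases hy : R y u
      · exact Or.inl hy
      · have hne : u ≠ y := fun e => h.notMem (e ▸ hu)
        obtain ⟨w, hw⟩ := h.dom u hu ((hT.tot u y hne).resolve_right hy)
        refine Or.inr (Or.inr ⟨w, hw, ?_⟩)
        rw [mem_singleton]
        intro e
        exact h.notMem (e ▸ (mem_Dm.1 hw).1)) (by simp) hk (by rw [hP]; exact ht) (by simpa using hc) D
  rwa [hP] at h1

/-- the class of the small side, after the removal of a bounded set `E` -/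
theorem sideC_cl (hT : AE32.Tour R) {p : NP} (hp : p.OK) {U P E : Finset V} {y : V} {k t κ η s s' τ : ℝ} {c : ℕ}
    (h : SideC R U P k t s τ c y) (hs0 : 0 ≤ s') (hs : s' ≤ s / 2) (hs1 : 2 * E.card ≤ s * P.card)
    (hτ : (E.card : ℝ) ≤ τ * P.card) (hk : κ * U.card ≤ k) (ht : t ≤ η * (P \ E).card) (hc : p.c0 + E.card ≤ c)
    (hu : 2 * E.card ≤ p.u0) (D : Fd) : ClU R (GdU R κ η U (P \ E)) s' p D (U \ E) (P \ E) (R y) := by
  refine side_cl_aux (R := R) (B := P.filter (fun u => R u y ∧ (Dm R U P k t c y u).card ≤ E.card)) (y := y) (k := k)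
    (t := t) (c := c) hp ?_ ?_ ((h.cnt E.card hτ).trans hu) hk ht hc D
  · have h2 := h.side.lin
    have h3 : s' * P.card ≤ s / 2 * P.card := mul_le_mul_of_nonneg_right hs (Nat.cast_nonneg _)
    have h4 : ((P \ E).card : ℝ) ≤ P.card := by exact_mod_cast card_le_card sdiff_subset
    have h5 : s' * (P \ E).card ≤ s' * P.card := mul_le_mul_of_nonneg_left h4 hs0
    linarith
  · intro u hu
    by_cases hy : R y u
    · exact Or.inl hy
    · have hne : u ≠ y := fun e => h.side.notMem (e ▸ hu)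
      have huy := (hT.tot u y hne).resolve_right hy
      right
      by_cases hd : (Dm R U P k t c y u).card ≤ E.card
      · exact Or.inl (mem_filter.2 ⟨hu, huy, hd⟩)
      · right
        have h1 : (Dm R U P k t c y u \ E).Nonempty := by
          rw [← card_pos]
          have := le_card_sdiff E (Dm R U P k t c y u)
          omega
        obtain ⟨w, hw⟩ := h1
        rw [mem_sdiff] at hw
        exact ⟨w, hw.1, hw.2⟩

end AEB
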