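import Pool.Agent.AEB.WrapB
import Pool.Agent.AEB.Lists
import Pool.Agent.AEB.Cfg

/-!
# The step lemma
-/

namespace AEB

open Finset AE15 AED
open scoped Classical

theorem NP.OK.D₀ {p : NP} (hp : p.OK) : 64 ≤ p.A := by
  have h1 : 1 ≤ p.b := hp.hb
  unfold NP.A
  calc 64 = 2 ^ 6 := by norm_num
    _ ≤ (2 * p.b) ^ 6 := Nat.pow_le_pow_left (by omega) 6
    _ ≤ (2 * p.b) ^ (2 * p.l + 6) := Nat.pow_le_pow_right (by omega) (by omega)

/-- the structure set and its properties -/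
theorem exists_G {D : ℕ} {ω c η η₁ κ₀ κ₁ κ γ₀ τ s σ₂ μ : ℝ} (P : KB D ω c η η₁ κ₀ κ₁ κ γ₀ τ s σ₂ μ) {V : Type*}
    {R : V → V → Prop} (hT : AE32.Tour R) (X : Finset V) (hn : 1 ≤ κ₀ * X.card) :
    ∃ G ⊆ X, (∀ g ∈ G, Good R κ₁ η₁ X g) ∧ γ₀ * X.card ≤ G.card ∧
      ∀ u ∈ X, u ∉ G → ((nO R G u).card : ℝ) ≤ γ₀ / 16 * X.card := by
  obtain ⟨hω0, hω1, hc0, hc1, hη0, hη1, hη₁0, hη₁1, hκ₀0, hκ₁0, hκ₁1, hκ0, hκ1, hs0, hγ₀0, hτ0, hσ₂0, hμ0, hκ₁η, hκs⟩ :=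
    P.num
  obtain ⟨hD, hω, hc, hη, hη₁, hκ₀, hκ₁, hκ, hγ₀, hτ, hs, hσ₂, hμ⟩ := P
  have hcη : c * η ≤ 1 * η := mul_le_mul_of_nonneg_right (by linarith) hη0.le
  obtain ⟨G, hG, h1, h2, h3⟩ := structure_lemma hT X (η := η₁) hκ₀0 (by linarith) (by linarith) hn
  refine ⟨G, hG, ?_, ?_, ?_⟩
  · intro g hg
    rw [hκ₁]
    exact h2 g hg
  · refine le_trans (mul_le_mul_of_nonneg_right ?_ (Nat.cast_nonneg _)) h1
    linarith
  · intro u hu huG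
    refine (h3 u hu huG).le.trans (mul_le_mul_of_nonneg_right ?_ (Nat.cast_nonneg _))
    linarith

/-- **Step lemma** -/
theorem stepB (p : NP) (hp : p.OK) (hab : ab p.b p.l ≤ p.a) {D₀ : ℕ} (hD₀ : p.A ≤ D₀)
    {ω c η η₁ κ₀ κ₁ κ γ₀ τ s σ₂ μ : ℝ} (P : KB D₀ ω c η η₁ κ₀ κ₁ κ γ₀ τ s σ₂ μ) : ∃ n₀ A₀ : ℕ,
    ∀ {V : Type} {R : V → V → Prop}, AE32.Tour R → ∀ (K C K' C' : ℝ), 0 ≤ K → 1 ≤ K' → K ≤ (1 + ω) * K' →
      0 ≤ C → 0 ≤ C' → ∀ F : Fd, FOK p.b p.l 0 F →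
        (∀ F' : Fd, FOK p.b p.l 0 F' → F'.size < F.size → EE R κ η s p K C F' ∧ EE R κ η s p K' C' F') →
        ∀ (X : Finset V) (N : V → Prop), K' * (F.size + 1) + C' ≤ X.card → n₀ ≤ X.card → A₀ * C ≤ X.card →
          Cl R (Good R κ η X) s p F X N → In R F N X := by
  have hnum := P.num
  obtain ⟨hω0, hω1, hc0, hc1, hη0, hη1, hη₁0, hη₁1, hκ₀0, hκ₁0, hκ₁1, hκ0, hκ1, hs0, hγ₀0, hτ0, hσ₂0, hμ0, hκ₁η, hκs⟩ :=
    hnum
  obtain ⟨n₁, hcfg⟩ := cfg p hp hab hγ₀0 hs0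
  obtain ⟨n₂, A₀, w₀, hwrap⟩ := wrapB p hp P hκ0 le_rfl
  obtain ⟨n₃, h₃⟩ := exists_big [(1, κ₀), ((2 : ℝ) ^ p.A, s)] (by
    intro q hq
    simp only [List.mem_cons, List.not_mem_nil, or_false] at hq
    rcases hq with rfl | rfl
    · exact hκ₀0
    · exact hs0)
  refine ⟨max n₁ (max n₂ n₃), A₀, ?_⟩
  intro V R hT K C K' C' hK hK' hKK hC hC' F hF ih X N hn hnX hAC hcl
  have hn1 : n₁ ≤ X.card := (le_max_left _ _).trans hnX
  have hn2 : n₂ ≤ X.card := (le_max_left _ _).trans ((le_max_right _ _).trans hnX)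
  have hn3 : n₃ ≤ X.card := (le_max_right _ _).trans ((le_max_right _ _).trans hnX)
  have hbig := h₃ X.card hn3
  have b1 : (1 : ℝ) ≤ κ₀ * X.card := hbig (1, κ₀) (by simp)
  have b2 : (2 : ℝ) ^ p.A ≤ s * X.card := hbig ((2 : ℝ) ^ p.A, s) (by simp)
  by_cases hsz : F.size < p.A
  · -- small trees
    obtain ⟨w, hw1, hw2, hw3⟩ := exists_tl hT (F.size + 1) (X.filter (fun v => Good R κ η X v ∧ N v)) (by
      have h1 := b2.trans hcl.1
      have h2 : 2 ^ p.A ≤ (X.filter (fun v => Good R κ η X v ∧ N v)).card := by exact_mod_cast h1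
      exact (Nat.pow_le_pow_right (by norm_num) (by omega)).trans h2)
    obtain ⟨x, A, hxA, hA, hE⟩ := trans_emb hT F w hw3 hw1
    have hmem : ∀ v ∈ insert x A, v ∈ X ∧ N v := by
      intro v hv
      rw [hA, List.mem_toFinset] at hv
      have := mem_filter.1 (hw2 v hv)
      exact ⟨this.1, this.2.2⟩
    exact ⟨x, (hmem x (mem_insert_self _ _)).1, A, fun v hv => (hmem v (mem_insert_of_mem hv)).1, hxA,
      (hmem x (mem_insert_self _ _)).2, hE⟩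
  push Not at hsz
  obtain ⟨G, hG, hGg, hGc, hGo⟩ := exists_G P hT X b1
  have hcη : c * η ≤ 1 * η := mul_le_mul_of_nonneg_right (by linarith) hη0.le
  have hSt : St R p (Good R κ η X) γ₀ s X G N := by
    refine ⟨hT, hG, fun g hg => ?_, hGc, hGo, hcl.1⟩
    exact AEB.Good.gdU (hGg g hg) (Subset.refl _) (mul_le_mul_of_nonneg_right (by linarith) (Nat.cast_nonneg _)) (by linarith)
  obtain ⟨y₀, x, Z, L, D, hH, hD, hDF, hsize, hcov⟩ := hcfg (Y := X) (Subset.refl _) hn1 hSt hF hsz hcl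
  obtain ⟨hy₀, hx, hNy, hyZ, hZX, hPE, hZe, hxZ, hxD, hGd⟩ := hH
  have hmem := hPE.mem hF
  have hins : insert y₀ Z ⊆ X := insert_subset hy₀ hZX
  obtain ⟨S, W, h1, h2, -, -, h5, h6⟩ := hwrap hT (U := X) (X := X) (G := G) (E := insert y₀ Z) (Z := Z) (F₀ := ∅)
    (h := y₀) (x := x) (F := F) (D := D) (L := L) (K := K) (C := C) (K' := K') (C' := C') hn2 (Subset.refl _)
    le_rfl hG hGg hcov (by
      rw [mem_insert]
      exact hxZ) (by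
      exact (card_insert_le _ _).trans hZe) (Subset.refl _) inter_subset_left hPE hyZ hF (by omega) hxD (by
      intro q hq
      refine ⟨?_, Or.inl (hGd q hq)⟩
      rcases (hmem q hq).1 with h | h
      · rw [h]; exact hy₀
      · exact hZX h) (by
      exact hsize.trans (Nat.mul_le_mul_right _ hD₀)) (by
      rw [card_empty, Nat.cast_zero]
      positivity) hK hC hK' hC' hKK hAC (fun F' h1 h2 => (ih F' h1 h2).1) (ih D hD hDF).2 (by linarith)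
  refine ⟨y₀, hy₀, S, ?_, h5, hNy, h6⟩
  exact h1.trans (union_subset (Subset.refl _) (union_subset hZX h2))

end AEB
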