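import Pool.Agent.AEB.ConstB
import Pool.Agent.AEB.FinishB
import Pool.Agent.AEB.HostsK
import Pool.Agent.AEB.FinalB
import Pool.Agent.AEB.FinalD

/-!
# From a configuration to an embedding, in an ambient set
-/

namespace AEB

open Finset AE15 AED
open scoped Classical

/-- the class of the remaining set, in both cases -/
theorem final_cl {V : Type*} {R : V → V → Prop} (hT : AE32.Tour R) {p : NP} (hp : p.OK) {X G E : Finset V} {x : V}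
    {D : Fd} {κ₁ η₁ κ η γ s σ δ ε c : ℝ} (hG : G ⊆ X) (hGg : ∀ g ∈ G, Good R κ₁ η₁ X g)
    (hCov : (¬ NN D ∧ γ * X.card ≤ ((nO R G x).card : ℝ)) ∨ Cov R p γ X G E x (p.ub D))
    (hxE : x ∈ E) (hEc : E.card ≤ p.e) (hX : X.Nonempty) (hκ : 0 < κ) (hη : 0 < η) (hκ₁ : 0 < κ₁)
    (hη₁ : 0 < η₁) (hσ : 0 < σ) (hδ : 0 ≤ δ) (hε : 0 < ε) (hc : 0 < c) (hc1 : c ≤ 1) (h1 : σ ≤ γ)
    (h2 : 2 * (δ + ε) ≤ c * σ) (h3 : σ ≤ κ₁) (h4 : κ ≤ c * κ₁ / 2) (h5 : 2 * η₁ ≤ c * η) (hs : 0 < s)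
    (h6 : s ≤ c * γ / 4) (hn : 8 * (p.c0 + p.c1 + p.u0 + p.g + 1 : ℝ) ≤ c * σ * X.card) :
    ∃ (𝓕 : Finset (Finset V)) (H : Finset V), 𝓕.card ≤ 8 * X.card ^ 2 ∧ H ⊆ X ∧ Disjoint H E ∧
      (H.card : ℝ) ≤ 3 * (1 + p.c0 + p.c) * σ * X.card ∧
      ∀ A Q P : Finset V, A ⊆ X → (X.card : ℝ) ≤ 2 * A.card → Q ⊆ A → Rep A 𝓕 ε Q →
        c * A.card ≤ Q.card → P ⊆ X → Disjoint P E → Q ⊆ P → H ⊆ P → (((X \ A) \ P).card : ℝ) ≤ δ * X.card →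
        Cl R (Good R κ η P) s p D P (R x) := by
  rcases hCov with ⟨hD, hx⟩ | hCov
  · obtain ⟨𝓕, h𝓕, hfin⟩ := final_dense hT hG hGg hx hX hκ hη hκ₁ hη₁ hσ hδ hε hc hc1 h1 h2 h3 h4 h5 hs h6
    refine ⟨𝓕, ∅, h𝓕, empty_subset _, disjoint_empty_left _, ?_, ?_⟩
    · rw [card_empty, Nat.cast_zero]
      positivity
    · intro A Q P a1 a2 a3 a4 a5 a6 _ a8 _ a10
      exact ⟨hfin A Q P a1 a2 a3 a4 a5 a6 a8 a10, fun h => absurd h hD⟩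
  · obtain ⟨Nx, U, Q₀, a1, a2, a3, a4, a5, a6, a7, a8, a9⟩ := hCov
    obtain ⟨𝓕, H, h𝓕, hHX, hHE, hHc, hfin⟩ := final_cov_aux hT hp hG hGg a1 a2 a3 a4 a5 a6 a7 a8 a9 hxE hEc hX hκ hη
      hκ₁ hη₁ hσ hδ hε hc hc1 h1 h2 h3 h4 h5 hs h6 hn
    refine ⟨𝓕, H, h𝓕, hHX, hHE, hHc, fun A Q P a1 a2 a3 a4 a5 a6 a7 a8 a9 a10 => ?_⟩
    have h := hfin A Q P a1 a2 a3 a4 a5 a6 a7 a8 a9 a10
    exact ⟨h.1, fun _ => h⟩

/-- **From a configuration to an embedding.** `X` is the set in which the class holds, `U ⊇ X` the ambient set; the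
partial embedding `PE R F h Z L` uses vertices of `U`; its pending items hang at good hosts or at the root `h`, which has
many good out-neighbours in `X`. -/
theorem wrapB (p : NP) (hp : p.OK) {D₀ : ℕ} {ω c η η₁ κ₀ κ₁ κ γ₀ τ s σ₂ μ : ℝ}
    (P : KB D₀ ω c η η₁ κ₀ κ₁ κ γ₀ τ s σ₂ μ) {κU : ℝ} (hU0 : 0 < κU) (hUκ : κU ≤ κ) : ∃ n₀ A₀ w₀ : ℕ,
    ∀ {V : Type} {R : V → V → Prop}, AE32.Tour R → ∀ {U X G E Z F₀ : Finset V} {h x : V} {F D : Fd} {L : List (V × Fd)}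
      {K C K' C' : ℝ}, n₀ ≤ X.card → X ⊆ U → κU * U.card ≤ κ * X.card →
      G ⊆ X → (∀ g ∈ G, Good R κ₁ η₁ X g) →
      ((¬ NN D ∧ γ₀ / 16 * X.card ≤ ((nO R G x).card : ℝ)) ∨ Cov R p (γ₀ / 16) X G E x (p.ub D)) →
      x ∈ E → E.card ≤ p.e → E ⊆ insert h Z → insert h Z ∩ X ⊆ E →
      PE R F h Z L → h ∉ Z → FOK p.b p.l 0 F → Z.card ≤ p.e → (x, D) ∈ L →
      (∀ q ∈ L, q.1 ∈ U ∧ (GdU R κU η U X q.1 ∨
        (q.1 = h ∧ s * X.card ≤ ((X.filter (fun v => GdU R κU η U X v ∧ R h v)).card : ℝ)))) →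
      F.size + 1 ≤ D₀ * (D.size + 1) → (F₀.card : ℝ) ≤ κU ^ 2 / 128 * X.card →
      0 ≤ K → 0 ≤ C → 1 ≤ K' → 0 ≤ C' → K ≤ (1 + ω) * K' → A₀ * C ≤ X.card →
      (∀ F' : Fd, FOK p.b p.l 0 F' → F'.size < F.size → EE R κ η s p K C F') → EE R κ η s p K' C' D →
      K' * F.size + C' + 1 ≤ X.card →
      ∃ S W : Finset V, S ⊆ X ∪ (Z ∪ W) ∧ W ⊆ U ∧ Disjoint W F₀ ∧ W.card ≤ w₀ ∧ h ∉ S ∧ Emb R F h S := by
  obtain ⟨hω0, hω1, hc0, hc1, hη0, hη1, hη₁0, hη₁1, hκ₀0, hκ₁0, hκ₁1, hκ0, hκ1, hs0, hγ₀0, hτ0, hσ₂0, hμ0, hκ₁η, hκs⟩ :=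
    P.num
  obtain ⟨hD, hω, hc, hη, hη₁, hκ₀, hκ₁, hκ, hγ₀, hτ, hs, hσ₂, hμ⟩ := P
  obtain ⟨σ, ε, PU⟩ := exists_KU p c κU
  have hc1' : c ≤ 1 := by linarith only [hc1]
  have hcη : c * η ≤ 1 * η := mul_le_mul_of_nonneg_right hc1' hη0.le
  have hη₁1' : η₁ ≤ 1 / 16 := by linarith only [hcη, hη₁1, hη1]
  have hUκ₁ : κU ≤ κ₁ / 4096 := hUκ.trans hκ1
  have hκ₁1' : κ₁ ≤ 1 := by linarith only [hκ₁η, hη₁1']
  have hU1 : κU ≤ 1 := by linarith only [hUκ₁, hκ₁1']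
  obtain ⟨hσ0, hε0, hσ1, hσ2, hκU2, hεσ⟩ := PU.num (κ₁ := κ₁) hc0 hc1' hU0 hUκ₁ hκ₁1'
  have hε := PU.hε
  have hcη₁ : c * η₁ ≤ 1 * η₁ := mul_le_mul_of_nonneg_right hc1' hη₁0.le
  have hσκ : σ ≤ κ₁ / 4096 := by linarith only [hσ2, hκU2, hκ₁0]
  have hε1 : ε ≤ 1 := by linarith only [hεσ, hσκ, hκ₁1']
  obtain ⟨M, hM⟩ : ∃ M : ℕ, M = ⌈8 / κU⌉₊ + 1 + 1 := ⟨_, rfl⟩
  obtain ⟨z₀, hz₀⟩ : ∃ z₀ : ℕ, z₀ = p.e + 1 := ⟨_, rfl⟩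
  obtain ⟨w₀, hw₀⟩ : ∃ w₀ : ℕ, w₀ = p.b * z₀ * wB p.b (ab p.b p.l) M := ⟨_, rfl⟩
  obtain ⟨m, hm⟩ : ∃ m : ℕ, m = p.b * z₀ * vB p.b (ab p.b p.l) M := ⟨_, rfl⟩
  obtain ⟨m₁, hm₁⟩ : ∃ m₁ : ℕ, m₁ = ⌈16 * ((p.c : ℝ) + p.c0 + 2) / σ₂⌉₊ := ⟨_, rfl⟩
  have hm₁' : 16 * ((p.c : ℝ) + p.c0 + 2) ≤ σ₂ * m₁ := by
    have h1 : 16 * ((p.c : ℝ) + p.c0 + 2) / σ₂ ≤ m₁ := by rw [hm₁]; exact Nat.le_ceil _
    rw [div_le_iff₀ hσ₂0] at h1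
    rw [mul_comm σ₂]
    exact h1
  obtain ⟨n₁, hn₁⟩ := host_itemsB (c := c) hε0 hε1 hc0 m m₁
  obtain ⟨A₀, hA₀⟩ : ∃ A₀ : ℕ, A₀ = ⌈m / (ω / 4)⌉₊ := ⟨_, rfl⟩
  have hA₀' : (m : ℝ) ≤ ω / 4 * A₀ := by
    have h1 : m / (ω / 4) ≤ A₀ := by rw [hA₀]; exact Nat.le_ceil _
    rw [div_le_iff₀ (by positivity), mul_comm] at h1
    exact h1
  -- the constants of the core
  have PC : ∀ n : ℝ, 100 ≤ ε * n → (m : ℝ) * m₁ ≤ ω / 16 * n → CstB p n ω c η η₁ κ₁ κ τ s σ₂ μ ε ε m m₁ :=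
    fun n b1 b2 =>
      { hω := hω0
        hω1 := by linarith only [hω1]
        hc := hc
        hη := hη
        hη₁ := hη₁0
        hη₁' := by linarith only [hη₁1, hcη]
        hκ₁ := hκ₁0
        hκ₁' := hκ₁1'
        hκ := hκ0
        hκ' := by linarith only [hκ1, hκ₁0]
        hσ₂ := hσ₂0
        hσ₂τ := by linarith only [hσ₂, hτ, hκ₁η, hη₁0]
        hσ₂κ := by linarith only [hσ₂]
        hσ₂η := by linarith only [hσ₂, hκ₁η, hη₁1, hcη, hη₁0]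
        hsτ := by linarith only [hs, hτ, hcη₁, hη₁0]
        hμ := hμ0
        hμσ := by linarith only [hμ]
        hε := hε0
        hε' := by linarith only [hεσ, hσκ, hσ₂, hκ₁0]
        hε1 := by linarith only [hεσ, hσκ, hκ₁η, hκ₁0, hη₁0]
        hδ := hε0
        hδμ := by linarith only [hεσ, hσκ, hσ₂, hμ, hκ₁0]
        hn := b1
        hm₁ := hm₁'
        hmm := b2 }
  -- numerical facts
  have e1 : σ ≤ γ₀ / 16 := by linarith only [hσκ, hγ₀, hκ₁η, hη₁0]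
  have e2 : 2 * (ε + ε) ≤ c * σ := by linarith only [hε, hε0]
  have e3 : σ ≤ κ₁ := by linarith only [hσκ, hκ₁0]
  have e4 : κ ≤ c * κ₁ / 2 := by linarith only [hκ, hκ0]
  have e5 : 2 * η₁ ≤ c * η := by linarith only [hη₁1, hη₁0]
  have e6 : s ≤ c * (γ₀ / 16) / 4 := le_of_eq (by rw [hs, hγ₀]; ring)
  have e7 : 20 * κ₀ ≤ η₁ := by linarith only [hκ₀, hη₁0]
  have e8 : η₁ ≤ 1 := by linarith only [hη₁1']
  have e9 : η ≤ 1 / 40 := by linarith only [hη1]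
  have e10 : κ ≤ 24 * η := by linarith only [hκ1, hκ₁η, hη₁1, hcη, hη₁0, hκ₁0]
  have e11 : κU / 32 ≤ 1 / 32 := by linarith only [hU1]
  have e12 : 1 / 32 * κ ≤ s := by linarith only [hκs]
  have e13 : 3 / 400 * κU ^ 2 ≤ μ / 2 := by linarith only [hμ, hσ₂, hκU2, hκ₁0]
  have hω16 : 0 < ω / 16 := div_pos hω0 (by norm_num)
  have hcσ0 : 0 < c * σ := mul_pos hc0 hσ0
  have hκU0 : 0 < κU ^ 2 / 128 := div_pos (pow_pos hU0 2) (by norm_num)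
  obtain ⟨n₀, hn₀⟩ := exists_big [(100, ε), ((m : ℝ) * m₁, ω / 16),
      (8 * (p.c0 + p.c1 + p.u0 + p.g + 1 : ℝ), c * σ), ((2 : ℝ), η), ((8 : ℝ), κ₀), (2 * n₁, 1),
      ((z₀ : ℝ) + w₀, ε), (((1 : ℝ) + z₀) + w₀ + 2 ^ ab p.b p.l, κU ^ 2 / 128), (1, 1)]
    (List.forall_mem_cons.2 ⟨hε0, List.forall_mem_cons.2 ⟨hω16, List.forall_mem_cons.2 ⟨hcσ0,
      List.forall_mem_cons.2 ⟨hη0, List.forall_mem_cons.2 ⟨hκ₀0, List.forall_mem_cons.2 ⟨one_pos,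
        List.forall_mem_cons.2 ⟨hε0, List.forall_mem_cons.2 ⟨hκU0, List.forall_mem_cons.2 ⟨one_pos,
          List.forall_mem_nil _⟩⟩⟩⟩⟩⟩⟩⟩⟩)
  refine ⟨n₀, A₀, w₀, ?_⟩
  intro V R hT U X G E Z F₀ h x F D L K C K' C' hnX hXU hUX hG hGg hcov hxE hEc hEZ hZE hPE hhZ hF hZc hxD hhost hsize
    hF₀ hK hC hK' hC' hKK hAC hEE hEf hn
  have hbig := hn₀ X.card hnX
  obtain ⟨n, hnd⟩ : ∃ n : ℝ, n = (X.card : ℝ) := ⟨_, rfl⟩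
  rw [← hnd] at hbig hUX hF₀ hAC hn
  obtain ⟨b1, hbig⟩ := List.forall_mem_cons.1 hbig
  obtain ⟨b2, hbig⟩ := List.forall_mem_cons.1 hbig
  obtain ⟨b3, hbig⟩ := List.forall_mem_cons.1 hbig
  obtain ⟨b4, hbig⟩ := List.forall_mem_cons.1 hbig
  obtain ⟨b5, hbig⟩ := List.forall_mem_cons.1 hbig
  obtain ⟨b6, hbig⟩ := List.forall_mem_cons.1 hbig
  obtain ⟨b7, hbig⟩ := List.forall_mem_cons.1 hbig
  obtain ⟨b8, hbig⟩ := List.forall_mem_cons.1 hbig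
  obtain ⟨b9, -⟩ := List.forall_mem_cons.1 hbig
  clear hbig
  replace b1 : (100 : ℝ) ≤ ε * n := b1
  replace b2 : (m : ℝ) * m₁ ≤ ω / 16 * n := b2
  replace b3 : 8 * (p.c0 + p.c1 + p.u0 + p.g + 1 : ℝ) ≤ c * σ * n := b3
  replace b4 : 2 ≤ η * n := b4
  replace b5 : 8 ≤ κ₀ * n := b5
  replace b6 : 2 * (n₁ : ℝ) ≤ n := by rw [← one_mul n]; exact b6
  replace b7 : (z₀ : ℝ) + w₀ ≤ ε * n := b7
  replace b8 : ((1 : ℝ) + z₀) + w₀ + 2 ^ ab p.b p.l ≤ κU ^ 2 / 128 * n := b8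
  replace b9 : 1 ≤ n := by rw [← one_mul n]; exact b9
  have hn0 : 0 < n := one_pos.trans_le b9
  have hX : X.Nonempty := by
    rw [← card_pos]
    rw [hnd] at hn0
    exact Nat.cast_pos.1 hn0
  have hXUc : n ≤ U.card := by rw [hnd]; exact Nat.cast_le.2 (card_le_card hXU)
  have hb1 : 1 ≤ p.b := hp.hb
  have PC' : CstB p X.card ω c η η₁ κ₁ κ τ s σ₂ μ ε ε m m₁ := by rw [← hnd]; exact PC n b1 b2
  -- the final class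
  obtain ⟨𝓕x, H, h𝓕x, hHX, hHE, hHc, hfin⟩ := final_cl hT hp (κ := κ) (η := η) (s := s) (σ := σ) (δ := ε) (ε := ε)
    (c := c) hG hGg hcov hxE hEc hX hκ0 hη0 hκ₁0 hη₁0 hσ0 hε0.le hε0 hc0 hc1' e1 e2 e3 e4 e5 hs0 e6
    (by rw [← hnd]; exact b3)
  rw [← hnd] at hHc
  have hHc' : (H.card : ℝ) ≤ 3 / 400 * κU ^ 2 * n := by
    refine hHc.trans (le_of_eq ?_)
    rw [show 3 * (1 + (p.c0 : ℝ) + p.c) * σ * n = 3 * ((1 + (p.c0 : ℝ) + p.c) * σ) * n by ring, hσ1]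
    ring
  -- the hosts
  obtain ⟨Ks, hKX, hKh, hKc⟩ := exists_K hT (X := X) (η := η) (η₁ := η₁) hκ₀0 e7 e8 hη0 e9
    (by rw [← hnd]; exact b4) (by rw [← hnd]; exact b5)
  rw [← hκ₁, ← hτ] at hKh
  have e14 : κU * U.card ≤ 24 * η * X.card := by
    rw [← hnd]
    exact hUX.trans (mul_le_mul_of_nonneg_right e10 hn0.le)
  have hlevG : ∀ v ∈ U, GdU R κU η U X v → v ∈ Lv R U Ks (κU ^ 2 / 32 * U.card) (⌈8 / κU⌉₊ + 1) :=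
    fun v hv hG => hG.level hT hU0 hU1 hXU hKX hKc e14 hv
  have hk1 : κU ^ 2 / 32 * (U.card : ℝ) ≤ s * n := by
    have h0 : 0 ≤ κU / 32 := div_nonneg hU0.le (by norm_num)
    have h1 : κU ^ 2 / 32 * (U.card : ℝ) = κU / 32 * (κU * U.card) := by ring
    have h2 : κU / 32 * (κU * U.card) ≤ κU / 32 * (κ * n) := mul_le_mul_of_nonneg_left hUX h0
    have h3 : κU / 32 * (κ * n) ≤ 1 / 32 * (κ * n) := mul_le_mul_of_nonneg_right e11 (mul_pos hκ0 hn0).le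
    have h4 : 1 / 32 * κ * n ≤ s * n := mul_le_mul_of_nonneg_right e12 hn0.le
    rw [h1]
    refine h2.trans (h3.trans ?_)
    rw [← mul_assoc]
    exact h4
  have hlev : ∀ q ∈ L, q.1 ∈ Lv R U Ks (κU ^ 2 / 32 * U.card) M := by
    intro q hq
    obtain ⟨hqU, hq1 | ⟨hq2, hq3⟩⟩ := hhost q hq
    · rw [hM]
      exact Lv_mono _ (hlevG q.1 hqU hq1)
    · rw [hM]
      refine mem_union_right _ (mem_filter.2 ⟨hqU, ?_⟩)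
      rw [← hnd] at hq3
      refine hk1.trans (hq3.trans ?_)
      have h1 : X.filter (fun v => GdU R κU η U X v ∧ R h v) ⊆
          nO R (Lv R U Ks (κU ^ 2 / 32 * U.card) (⌈8 / κU⌉₊ + 1)) q.1 := by
        intro v hv
        rw [mem_filter] at hv
        rw [mem_nO, hq2]
        exact ⟨hlevG v (hXU hv.1) hv.2.1, hv.2.2⟩
      exact Nat.cast_le.2 (card_le_card h1)
  have hkU : κU ^ 2 / 32 * n ≤ κU ^ 2 / 32 * U.card :=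
    mul_le_mul_of_nonneg_left hXUc (div_nonneg (sq_nonneg κU) (by norm_num))
  have hκn : 0 < κU ^ 2 * n := mul_pos (pow_pos hU0 2) hn0
  have f1 : (H.card : ℝ) ≤ μ / 2 * X.card := by
    rw [← hnd]
    exact hHc'.trans (mul_le_mul_of_nonneg_right e13 hn0.le)
  have f2 : Disjoint (insert h Z) H := by
    rw [disjoint_left]
    intro v hv hvH
    exact disjoint_left.1 hHE hvH (hZE (mem_inter.2 ⟨hv, hHX hvH⟩))
  have f3 : Z.card + 1 ≤ z₀ := by rw [hz₀]; exact Nat.succ_le_succ hZc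
  have f4 : (p.b : ℝ) * z₀ * wB p.b (ab p.b p.l) M = w₀ := by rw [hw₀, Nat.cast_mul, Nat.cast_mul]
  have f5 : (z₀ : ℝ) + p.b * z₀ * wB p.b (ab p.b p.l) M ≤ ε * X.card := by rw [← hnd, f4]; exact b7
  have f6 : (F₀.card : ℝ) + (H.card + 1) + z₀ + p.b * z₀ * wB p.b (ab p.b p.l) M + 2 ^ ab p.b p.l ≤
      κU ^ 2 / 32 * U.card := by
    rw [f4]
    linarith only [hF₀, hHc', b8, hkU, hκn]
  have f7 : 2 * n₁ ≤ X.card := by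
    rw [hnd] at b6
    exact_mod_cast b6
  have f8 : (m : ℝ) * C ≤ ω / 4 * X.card := by
    rw [← hnd]
    have h1 := mul_le_mul_of_nonneg_right hA₀' hC
    have h2 : ω / 4 * (A₀ * C) ≤ ω / 4 * n := mul_le_mul_of_nonneg_left hAC (div_nonneg hω0.le (by norm_num))
    rw [mul_assoc] at h1
    exact h1.trans h2
  have f9 : 2 * ω * F.size ≤ D.size + 1 := by
    have h1 : (F.size : ℝ) + 1 ≤ D₀ * (D.size + 1) := by exact_mod_cast hsize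
    have hD' : (64 : ℝ) ≤ D₀ := by exact_mod_cast hD
    have hD0 : (0 : ℝ) < D₀ := by linarith only [hD']
    rw [hω]
    have h2 : 2 * (1 / (2 * (D₀ : ℝ))) * F.size = F.size / D₀ := by
      field_simp
    rw [h2, div_le_iff₀ hD0, mul_comm]
    linarith only [h1]
  have f10 : K' * F.size + C' + 1 ≤ X.card := by rw [← hnd]; exact hn
  obtain ⟨S, W, h1, h2, h3, h4, h5, h6⟩ := finishB hT hb1 (p := p) (l := p.l) (X := X) (H := H) (Ks := Ks) (F₀ := F₀)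
    (h := h) (e := x) (k := κU ^ 2 / 32 * U.card) (M := M) (z₀ := z₀) PC' hXU h𝓕x hHX f1 (cf := D)
    (fun A Q P a1 a2 a3 a4 a5 a6 a7 a8 a9 a10 => hfin A Q P a1 a2 a3 a4 a5 a6 (a7.mono_right hEZ) a8 a9 a10) hKX hKh
    hPE hhZ hF f2 f3 hxD (fun q hq _ => hlev q hq) (hlev _ hxD) (le_of_eq hm.symm) f5 f6 f7 (fun A 𝓕 => hn₁ A 𝓕) hK hC
    hK' hC' hKK f8 hEE hEf f9 f10
  refine ⟨S, W, h1, h2, h3, ?_, h5, h6⟩
  rw [hw₀]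
  exact h4

end AEB
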